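import Mathlib
import Pool.Agent.Work.MP_56b8f5_nt.UC.Stmts
import Pool.Agent.Work.MP_a8fbd7_nt.ZF.Stmts
import Pool.Agent.Work.MP_a8fbd7_nt.OX.Defs
import Pool.Agent.Work.MP_a8fbd7_nt.OX.ID.Expand
import Pool.Agent.Work.MP_a8fbd7_nt.OX.FIN.Diag

/-!
MP_a8fbd7_nt, block OX, part ASM (assembly): definitions and statements of the items, each with its proof in the docstring.

Every item is `theorem iNAME (h1 : StA) (h2 : StB) ... : StNAME := ...` in the file `OX/ASM/I_NAME.lean`; it may use any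
statement listed in its docstring as a hypothesis (and nothing else from this block).  Constants `C` depend only on the
parameters quantified before them.

PARAMETERS.  `y = zz η T = ⌊T^η⌋` (lower level, `η` tiny), `z = zz (1/2-κ1) T` (upper level), `LL T` dyadic scales, `SS η` slots for the
primes in `(y, z]`.  A BOX is a pair `(u, v)`, `u : Fin 3 → Option ℕ` (three slots for `y`-rough numbers), `v : Fin (SS η) → Option ℕ` (slots for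
primes in `(y, z]`); `none` means that the slot is not used (factor `1`), `some l` means scale `2^l` (weight `psi (n/2^l)`).
-/

set_option autoImplicit false

open MeasureTheory Set Filter Topology

noncomputable section

namespace Pool.Agent.Work.MP_a8fbd7_nt.OX.ASM

open Pool.Agent.Work.MP_56b8f5_nt.UC (IsWt Bl Dp Om psi eta Sep)
open Pool.Agent.Work.MP_a8fbd7_nt.OX.ID (Rough roughOne pb rg)

/-! ### Definitions -/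

/-- level of roughness `⌊T^η⌋` -/
def zz (η T : ℝ) : ℕ := ⌊T ^ η⌋₊

/-- number of slots for primes: `y`-rough numbers `≤ T^(2+1/10)` have at most `SS η` prime factors (large `T`) -/
def SS (η : ℝ) : ℕ := ⌈3 / η⌉₊

/-- number of dyadic scales: `∑_{l < LL T} psi (n/2^l) = 1` for `1 ≤ n ≤ 2^(LL T - 1)`, and `2^(LL T - 1) ≥ T^(2+1/20)` -/
def LL (T : ℝ) : ℕ := ⌈3 * Real.log T⌉₊ + 1

/-- `∑_n c_n w((n/x)^{T'})` -/
def SW (w : ℝ → ℝ) (c : ℕ → ℝ) (x T' : ℝ) : ℝ := ∑' n : ℕ, c n * w (((n : ℝ) / x) ^ T')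

/-- difference of the normalised sums over the windows `1/T` and `1/T1` -/
def DD (w : ℝ → ℝ) (c : ℕ → ℝ) (x T T1 : ℝ) : ℝ := T / x * SW w c x T - T1 / x * SW w c x T1

/-- `∫ w(u) du/u` -/
def Iw (w : ℝ → ℝ) : ℝ := ∫ u in Ioi (0 : ℝ), w u / u

/-- indicator function of the primes -/
def pr (n : ℕ) : ℝ := if n.Prime then 1 else 0

/-- `y`-rough numbers `≥ 2` at the scale `2^l` -/
def rb (y l : ℕ) : ArithmeticFunction ℝ := ⟨fun n => roughOne y n * psi ((n : ℝ) / 2 ^ l), by simp⟩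

/-- primes in `(y, z]` at the scale `2^l` -/
def pbl (y z l : ℕ) : ArithmeticFunction ℝ := ⟨fun n => pb y z n * psi ((n : ℝ) / 2 ^ l), by simp⟩

/-- `θ = l * 1` -/
def th (l : ℕ → ℝ) (n : ℕ) : ℝ := ∑ d ∈ n.divisors, l d

/-- `θ` at the scale `2^j` -/
def tb (l : ℕ → ℝ) (j : ℕ) : ArithmeticFunction ℝ := ⟨fun n => psi ((n : ℝ) / 2 ^ j) * th l n, by simp [th]⟩

/-- scale of a slot -/
def sc : Option ℕ → ℝ
  | none => 1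
  | some l => 2 ^ l

/-- slot for a rough number -/
def ms (y : ℕ) : Option ℕ → ArithmeticFunction ℝ
  | none => 1
  | some l => rb y l

/-- slot for a prime -/
def ps (y z : ℕ) : Option ℕ → ArithmeticFunction ℝ
  | none => 1
  | some l => pbl y z l

/-- the slot is longer than `T^(1/2+κ)` -/
def Lg (T κ : ℝ) (o : Option ℕ) : Prop := ∃ l, o = some l ∧ T ^ (1 / 2 + κ) < (2 : ℝ) ^ l

open Classical in
/-- slot for a rough number; the indicator function of the rough numbers is replaced by `th l` if the slot is long -/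
def msA (y : ℕ) (T κ : ℝ) (l : ℕ → ℝ) : Option ℕ → ArithmeticFunction ℝ
  | none => 1
  | some j => if T ^ (1 / 2 + κ) < (2 : ℝ) ^ j then tb l j else rb y j

/-- box function -/
def BF (y z : ℕ) {S : ℕ} (u : Fin 3 → Option ℕ) (v : Fin S → Option ℕ) : ArithmeticFunction ℝ :=
  (∏ i, ms y (u i)) * ∏ r, ps y z (v r)

/-- box function with sieve weights in the long slots -/
def BFA (y z : ℕ) (T κ : ℝ) (lw : Fin 3 → ℕ → ℝ) {S : ℕ} (u : Fin 3 → Option ℕ) (v : Fin S → Option ℕ) : ArithmeticFunction ℝ :=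
  (∏ i, msA y T κ (lw i) (u i)) * ∏ r, ps y z (v r)

/-- total scale of a box -/
def PS {S : ℕ} (u : Fin 3 → Option ℕ) (v : Fin S → Option ℕ) : ℝ := (∏ i, sc (u i)) * ∏ r, sc (v r)

open Classical in
/-- the slots of scale `≤ T^(41/100)` have total scale at least `T^β` -/
def Sh (T β : ℝ) {S : ℕ} (u : Fin 3 → Option ℕ) (v : Fin S → Option ℕ) : Prop :=
  T ^ β ≤ (∏ i ∈ Finset.univ.filter (fun i => sc (u i) ≤ T ^ (41 / 100 : ℝ)), sc (u i)) *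
    ∏ r ∈ Finset.univ.filter (fun r => sc (v r) ≤ T ^ (41 / 100 : ℝ)), sc (v r)

/-- all choices of scales for `m` slots -/
def Bx (m : ℕ) (T : ℝ) : Finset (Fin m → Option ℕ) := Fintype.piFinset fun _ => Finset.insertNone (Finset.range (LL T))

/-- number of used slots -/
def ns {S : ℕ} (v : Fin S → Option ℕ) : ℕ := (Finset.univ.filter fun r => (v r).isSome).card

/-- coefficient of the box `(u, v)`: `∑_{k=1}^{3} a_k (-k)^s (S-s)!/S!`, `s = ns v`, over the `k` such that the slots `i ≥ k` of `u` are not used;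
`a_1 = 3`, `a_2 = -3/2`, `a_3 = 1/3`.  (Every `s`-tuple of scales occurs for `S!/(s!(S-s)!)` choices of the used slots.) -/
def cc {S : ℕ} (u : Fin 3 → Option ℕ) (v : Fin S → Option ℕ) : ℝ :=
  ((if ∀ i : Fin 3, 1 ≤ i.val → u i = none then (3 : ℝ) * (-1) ^ ns v else 0) +
    (if ∀ i : Fin 3, 2 ≤ i.val → u i = none then (-(3 / 2) : ℝ) * (-2) ^ ns v else 0) + (1 / 3 : ℝ) * (-3) ^ ns v) *
    ((S - ns v).factorial : ℝ) / (S.factorial : ℝ)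

/-- bound for `|cc u v|` -/
def cw {S : ℕ} (v : Fin S → Option ℕ) : ℝ := 5 * 3 ^ ns v * ((S - ns v).factorial : ℝ) / (S.factorial : ℝ)

/-- sieve weights of level `D` for `y`-rough numbers -/
structure IsSv (y : ℕ) (D C0 E : ℝ) (lp lm : ℕ → ℝ) : Prop where
  bdp : ∀ d, |lp d| ≤ 1
  bdm : ∀ d, |lm d| ≤ 1
  supp : ∀ d, lp d ≠ 0 → 1 ≤ d ∧ (d : ℝ) ≤ D
  supm : ∀ d, lm d ≠ 0 → 1 ≤ d ∧ (d : ℝ) ≤ D
  rough : ∀ n : ℕ, 1 ≤ n → Rough y n → th lm n ≤ 1 ∧ 1 ≤ th lp n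
  nrough : ∀ n : ℕ, 1 ≤ n → ¬ Rough y n → th lm n ≤ 0 ∧ 0 ≤ th lp n
  dif : ∑ d ∈ Finset.Icc 1 ⌊D⌋₊, (lp d - lm d) / (d : ℝ) ≤ E / Real.log y
  tot : ∑ d ∈ Finset.Icc 1 ⌊D⌋₊, lp d / (d : ℝ) ≤ C0 / Real.log y

/-! ### Part 1: Fourier formulas -/

/-- ITEM F1 (uses UC.StMel).  `w((n/x)^{T'}) = (1/2π) ∫ Om w y (n/x)^{-iyT'} dy` (UC.StMel at `(n/x)^{T'}`, `n ≥ 1`), substitute `t = y T'`; the sum over `n` is finite
(`c_n ≠ 0` only for `1 ≤ n ≤ Y`), so it can be exchanged with the integral (`Om w` is integrable). -/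
def StF1 : Prop := ∀ w : ℝ → ℝ, IsWt w → ∀ (c : ℕ → ℝ) (Y : ℕ) (x T' : ℝ), (∀ n, c n ≠ 0 → 1 ≤ n ∧ n ≤ Y) → 0 < x → 0 < T' →
  (Integrable fun t : ℝ => Om w (t / T') * (x : ℂ) ^ (t * Complex.I) * Dp Y (fun n => (c n : ℂ)) t) ∧
  ((SW w c x T' : ℝ) : ℂ) = (1 / (2 * Real.pi * T') : ℝ) *
    ∫ t : ℝ, Om w (t / T') * (x : ℂ) ^ (t * Complex.I) * Dp Y (fun n => (c n : ℂ)) t

/-- ITEM F2 (the kernel).  `Om w y = ∫ w(x) x^{iy-1} dx`, support of `w` in `[a,b]`, `a > 0`: `|x^{iy} - x^{iy'}| ≤ |y-y'| |log x|`; `w` is real. -/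
def StF2 : Prop := ∀ w : ℝ → ℝ, IsWt w → ∃ C : ℝ, 1 ≤ C ∧ (∀ y : ℝ, ‖Om w y‖ ≤ C) ∧ (∀ y y' : ℝ, ‖Om w y - Om w y'‖ ≤ C * |y - y'|) ∧
  ∀ y : ℝ, Om w (-y) = (starRingEnd ℂ) (Om w y)

/-- ITEM F4 (from the difference of two windows to a resonance; uses StF1, StF2, UC.StMel).  By StF1 `DD = (1/(2πx)) ∫ (Om(t/T) - Om(t/T1)) x^{it} F(t) dt`, `F = Dp Y c`, `|F| ≤ M T²`.
`|t| ≤ T0`: StF2, `|Om(t/T) - Om(t/T1)| ≤ 2C|t|/T1`: contribution `≤ C M T0²/T1` (`x ≥ T²`).  `|t| ≥ T^{1+ε}`: UC.StMel with exponent `A ≥ 2/ε + 2`, `|Om(t/T)| ≤ C (T/|t|)^A`, the same with `T1 ≤ T`: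
contribution `≤ C M T · T^{-ε(A-1)} ≤ C M/T`.  So if `C M (T0²/T1 + 1/T) ≤ δ`, these parts contribute at most `#S δ/2` to `|∑_x g0(x) DD(x)|`, and
`#S δ/2 ≤ (C/T²) ∫_{T0 ≤ |t| ≤ T^{1+ε}} |∑_x g0(x) (T²/x) x^{it}| |F(t)| dt`.  `F(-t) = conj F(t)` (real coefficients) and `|∑ g0(x)(T²/x) x^{-it}| = |∑ conj(g0(x))(T²/x) x^{it}|`, so one sign of `t` has half of it; then the dyadic
intervals `[2^i T0, 2^{i+1} T0]`, `2^i T0 ≤ T^{1+ε}`, at most `C log T` of them. -/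
def StF4 : Prop := ∀ w : ℝ → ℝ, IsWt w → ∀ ε : ℝ, 0 < ε → ε ≤ 1 → ∃ C : ℝ, 1 ≤ C ∧
  ∀ (T T0 T1 M δ : ℝ) (Y : ℕ) (c : ℕ → ℝ) (S : Finset ℝ) (g0 : ℝ → ℂ), 3 ≤ T → 1 ≤ T0 → T0 ≤ T → 1 ≤ T1 → T1 ≤ T → 0 ≤ M → 0 < δ →
  (∀ n, c n ≠ 0 → 1 ≤ n ∧ n ≤ Y) → ∑ n ∈ Finset.Icc 1 Y, |c n| ≤ M * T ^ 2 → C * M * (T0 ^ 2 / T1 + 1 / T) ≤ δ →
  (∀ x ∈ S, T ^ 2 ≤ x) → (∀ x, ‖g0 x‖ ≤ 1) → S.card * δ ≤ ‖∑ x ∈ S, g0 x * ((DD w c x T T1 : ℝ) : ℂ)‖ →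
  ∃ (T' : ℝ) (g : ℝ → ℂ), T0 ≤ T' ∧ T' ≤ T ^ (1 + ε) ∧
    ((∀ x, g x = if T ^ 2 ≤ x then g0 x * ((T ^ 2 / x : ℝ) : ℂ) else 0) ∨
      (∀ x, g x = if T ^ 2 ≤ x then (starRingEnd ℂ) (g0 x) * ((T ^ 2 / x : ℝ) : ℂ) else 0)) ∧
    S.card * (δ * T ^ 2) ≤ C * Real.log T * ∫ t in T'..(2 * T'), ‖GS S g t‖ * ‖Dp Y (fun n => (c n : ℂ)) t‖

/-! ### Part 2: products -/

/-- ITEM Pd (products of arithmetic functions; induction on the Finset `I`).  If `f i n ≠ 0` only for `a i ≤ n ≤ Y i`, then `(∏ f) n ≠ 0` only for `∏ a ≤ n ≤ ∏ Y`; `∑ |(∏ f) n| ≤ ∏ ∑ |f i n|`; and the Dirichlet polynomial of the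
product is the product of the Dirichlet polynomials (all sums up to numbers `≥ Y i` resp. `≥ ∏ Y`).  The empty product is `1` (`1` at `n = 1`). -/
def StPd : Prop := ∀ (ι : Type) (I : Finset ι) (f : ι → ArithmeticFunction ℝ) (a : ι → ℝ) (Y : ι → ℕ),
  (∀ i ∈ I, 0 ≤ a i) → (∀ i ∈ I, ∀ n : ℕ, f i n ≠ 0 → a i ≤ n ∧ n ≤ Y i) →
  (∀ n : ℕ, (∏ i ∈ I, f i) n ≠ 0 → 1 ≤ n ∧ ∏ i ∈ I, a i ≤ n ∧ n ≤ ∏ i ∈ I, Y i) ∧
  (∀ Z : ℕ, ∑ n ∈ Finset.Icc 1 Z, |(∏ i ∈ I, f i) n| ≤ ∏ i ∈ I, ∑ n ∈ Finset.Icc 1 (Y i), |f i n|) ∧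
  ∀ (Z : ℕ) (t : ℝ), ∏ i ∈ I, Y i ≤ Z →
    Dp Z (fun n => (((∏ i ∈ I, f i) n : ℝ) : ℂ)) t = ∏ i ∈ I, Dp (Y i) (fun n => ((f i n : ℝ) : ℂ)) t

/-- ITEM Rg (relevant boxes; uses StPd).  A slot function `some l` is supported in `2^l/2 ≤ n ≤ 2·2^l` (`psi` is supported in `[1/2, 2]`); at most `3 + S` slots.  `w` is supported in `[a, b]`, so `w((n/x)^{T'}) ≠ 0` with `T' ≥ 1` and
`T² ≤ x ≤ 4T²` forces `min(a,1) T² ≤ n ≤ 4 max(b,1) T²`.  If `SW ≠ 0` some `n` has both, so `PS u v / 2^{3+S} ≤ n ≤ 2^{3+S} PS u v`. -/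
def StRg : Prop := ∀ w : ℝ → ℝ, IsWt w → ∀ S : ℕ, ∃ C : ℝ, 1 ≤ C ∧ ∀ (T κ x T' : ℝ) (y z : ℕ) (lw : Fin 3 → ℕ → ℝ) (u : Fin 3 → Option ℕ)
  (v : Fin S → Option ℕ), 1 ≤ T → 1 ≤ T' → T ^ 2 ≤ x → x ≤ 4 * T ^ 2 →
  (SW w (BF y z u v) x T' ≠ 0 ∨ SW w (BFA y z T κ lw u v) x T' ≠ 0) → T ^ 2 / C ≤ PS u v ∧ PS u v ≤ C * T ^ 2

/-- ITEM Sa (savings of the blocks; uses ZF.StRoW, ZF.StPrI).  Rough block: `PB (rb y l) (2^l) t = ZF.Rw psi y (2^l) t` (the support of `psi` is in `[1/2,2]`), ZF.StRoW with `A1 + 1` and `η/2` (`T^{η/2} ≤ ⌊T^η⌋` for large `T`), `B' = A1 + 3`.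
Prime block, `N = 2^l`: let `a = max(y, N/2)`, `b = min(z, 2N)` (nothing to do if `b ≤ a`): Abel summation
`∑_{a < p ≤ b} psi(p/N) p^{-it} = psi(b/N) (Ps b t - Ps a t) - ∫_a^b (psi'(r/N)/N) (Ps r t - Ps a t) dr`, and ZF.StPrI (`A1 + 1`, `B = 6/η`, `r ≥ T^{η/2}`) bounds every difference by `C N/(η log T)^{A1+1}`.  (`psi` is smooth: `isWt_psi` in UC.) -/
def StSa : Prop := ∀ A1 η : ℝ, 0 < A1 → 0 < η → η ≤ 1 / 20 → ∃ B' C : ℝ, 1 ≤ B' ∧ 1 ≤ C ∧ ∀ (T t : ℝ) (l z : ℕ), C ≤ T →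
  T ^ η / 2 ≤ (2 : ℝ) ^ l → (2 : ℝ) ^ l ≤ T ^ (5 / 2 : ℝ) → Real.log T ^ B' ≤ t → t ≤ T ^ 3 →
  ‖PB (fun n => ((rb (zz η T) l n : ℝ) : ℂ)) (2 ^ l) t‖ ≤ 2 ^ l / Real.log T ^ A1 ∧
  ‖PB (fun n => ((pbl (zz η T) z l n : ℝ) : ℂ)) (2 ^ l) t‖ ≤ 2 ^ l / Real.log T ^ A1

/-! ### Part 3: boxes of type B -/

/-- ITEM BB (boxes without long slots; uses StCellB, StF4, StPd, StRg, StSa).  Let `S` be a separated bad set with more than `C T^r0` points; pass to a subset with `⌊C T^r0⌋ + 1 ≤ T^{1/3}` points, `g0 x = ±1` the sign of `DD` (`g x` of StF4 has modulus `≤ 1`);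
please prove the reduction to the hypothesis of StCellB as a separate theorem for arbitrary `S`, `g0` (helper86 wants to reuse it).  `κ` of StCellB(β); then `ε` of StCellB(β, η), `A' = A + 2`, `A1` of StCellB(A'), `B'` of StSa(A1), `B0 = 2B' + A + 1`.  If the box is not empty then every used slot has scale
`≥ T^η/2` (`y`-rough numbers `≥ 2` and primes `> y` are `≥ T^η`, support `≤ 2·2^l`) and the prime slots have scale `≤ 2z ≤ T^{1/2}`; otherwise the box function is `0` and there is nothing to prove.  By StRg `PS u v ≍ T²` (else `DD = 0`).  StF4 with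
`ε`, `T0 = (log T)^{B'}`, `T1 = (log T)^B`, `δ = (log T)^{-A}`, `M = C` (StPd: `∑|BF| ≤ ∏ ∑ ≤ ∏ (4·2^l)`): gives `T'`, `g` with `#S (log T)^{-A} T² ≤ C log T ∫ |GS| |Dp|`.  StPd: `Dp` is the product over the used slots of the `PB`'s (unused slots are the
constant `1`); index the used slots by `Fin m` (`Finset.equivFin`).  `T² ≥ ∏ N_i / C`, so StCellB with `A'` applies for large `T`; the hypothesis on the short blocks is `Sh T β u v` (unused slots have scale `1`, they do not change the products). -/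
def StBB : Prop := ∀ β : ℝ, 0 < β → β ≤ 1 / 20 → ∃ κ : ℝ, 0 < κ ∧ κ ≤ β / 100 ∧ ∀ w : ℝ → ℝ, IsWt w → ∀ η κ1 A : ℝ, 0 < η → η ≤ 1 / 20 →
  0 < κ1 → κ1 ≤ 1 / 20 → 0 < A → ∃ B0 : ℝ, 1 ≤ B0 ∧ ∀ B : ℝ, B0 ≤ B → ∃ C : ℝ, 1 ≤ C ∧
  ∀ (T : ℝ) (u : Fin 3 → Option ℕ) (v : Fin (SS η) → Option ℕ), C ≤ T → (∀ i, ¬ Lg T κ (u i)) → Sh T β u v →
  PackLe T (fun x => 1 / Real.log T ^ A ≤ |DD w (BF (zz η T) (zz (1 / 2 - κ1) T) u v) x T (Real.log T ^ B)|) (C * T ^ r0)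

/-- ITEM Sh (short slots; pure arithmetic).  `β = κ1/2`, `κ2 ≤ κ1/100`.  Slots of scale `> T^{41/100}`: at most 4 (`5·41/100 > 2+1/100`).  If 4: at most 3 of them are `u`-slots, each `≤ T^{1/2+κ2}`, and the prime slots are `≤ 2T^{1/2-κ1}`: their product is
`≤ 2^4 T^{3(1/2+κ2)+1/2-κ1}` (and if fewer `u`-slots, even smaller), so the others have product `≥ T^{2-κ1/100}/(16 T^{2+3κ2-κ1}) ≥ T^{κ1/2}`.  If at most 3: product `≤ 8T^{3/2+3κ2}`.  For `T` large. -/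
def StSh : Prop := ∀ κ1 κ2 : ℝ, 0 < κ1 → κ1 ≤ 1 / 20 → 0 < κ2 → κ2 ≤ κ1 / 100 → ∃ C : ℝ, 1 ≤ C ∧ ∀ (T : ℝ) (S : ℕ) (u : Fin 3 → Option ℕ)
  (v : Fin S → Option ℕ), C ≤ T → (∀ i, ¬ Lg T κ2 (u i)) → (∀ r l, v r = some l → (2 : ℝ) ^ l ≤ 2 * T ^ (1 / 2 - κ1)) →
  T ^ (2 - κ1 / 100) ≤ PS u v → PS u v ≤ T ^ (2 + 1 / 100 : ℝ) → Sh T (κ1 / 2) u v

/-! ### Part 4: boxes of type A (reflection) -/

/-- ITEM Re (reflection of one factor; uses UC.StRf, UC.StBc).  Let `u0` be the weight of UC.StRf for `psi`, support in `[a,b]`, `M = T'/N`.  UC.StRf with `D = T'`, `A = 40`: for `T' ≤ t ≤ 2T'`: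
`|Bl psi N t| ≤ C (N/√T') ∫ |Bl u0 M (t+s)| (1+|s|)^{-40} ds + C` (`N/T'^{40} ≤ T³/T⁴`).  If `M ≤ T^η/a`: UC.StBc `|Bl u0 M| ≤ C M` and `√M ≤ C T^{η/2}`: `|Bl psi N t| ≤ C √N T^{η/2}`: first alternative.  If `M > T^η/a`: write
`u0(n/M) = ∑_j u0(n/M) psi(n/2^j)` over the `O(1)` integers `j` with `a M/2 ≤ 2^j ≤ 2 b M` : blocks of length `L = 2^j`, coefficients `u0(n/M) psi(n/2^j) n^{-is}` bounded by a constant `C`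
(divide by it), `L ≥ T^η/2`, `L ≤ C T'/N ≤ T^{1/2}`.  Exchange the integrals (continuous, bounded functions, compact `t`-interval): `∫_t H(t) ∫_s k(s) |B(t+s)| ds dt ≤ (∫ k) sup_s ∫_t H(t) |B(t+s)| dt`, so for some `s` (within a factor 2)
and some `j`, or with the constant term `C ≤ C√N` (first alternative), the claim holds; `(N/√T')|B| = √N |B|/√M`, `M ≍ L`. -/
def StRe : Prop := ∀ η : ℝ, 0 < η → η ≤ 1 / 100 → ∃ C : ℝ, 1 ≤ C ∧ ∀ (T T' N : ℝ) (H : ℝ → ℝ), C ≤ T → T ^ (1 / 10 : ℝ) ≤ T' →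
  T' ≤ T ^ (1 + η) → T ^ (1 / 2 + 2 * η) ≤ N → N ≤ T ^ 3 → Continuous H → (∀ t, 0 ≤ H t) →
  (∫ t in T'..(2 * T'), H t * ‖Bl psi N t‖ ≤ C * Real.sqrt N * T ^ (η / 2) * ∫ t in T'..(2 * T'), H t) ∨
  ∃ (b : ℕ → ℂ) (L : ℝ), IsBlk b L ∧ T ^ η / 2 ≤ L ∧ L ≤ T ^ (1 / 2 : ℝ) ∧ L * N ≤ C * T' ∧
    ∫ t in T'..(2 * T'), H t * ‖Bl psi N t‖ ≤ C * Real.sqrt N * ∫ t in T'..(2 * T'), H t * (‖PB b L t‖ / Real.sqrt L)

/-- ITEM Rp (reflection of several factors; induction on `r` with StRe; `H` times the other factors is continuous). -/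
def StRp : Prop := ∀ η : ℝ, 0 < η → η ≤ 1 / 100 → ∃ C : ℝ, 1 ≤ C ∧ ∀ (r : ℕ) (T T' : ℝ) (N : Fin r → ℝ) (H : ℝ → ℝ), r ≤ 3 → C ≤ T →
  T ^ (1 / 10 : ℝ) ≤ T' → T' ≤ T ^ (1 + η) → (∀ i, T ^ (1 / 2 + 2 * η) ≤ N i ∧ N i ≤ T ^ 3) → Continuous H → (∀ t, 0 ≤ H t) →
  ∃ (I : Finset (Fin r)) (b : Fin r → ℕ → ℂ) (L : Fin r → ℝ),
    (∀ i ∈ I, IsBlk (b i) (L i) ∧ T ^ η / 2 ≤ L i ∧ L i ≤ T ^ (1 / 2 : ℝ) ∧ L i * N i ≤ C * T') ∧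
    ∫ t in T'..(2 * T'), H t * ∏ i, ‖Bl psi (N i) t‖ ≤
      C * (∏ i, Real.sqrt (N i)) * T ^ (2 * η) * ∫ t in T'..(2 * T'), H t * ∏ i ∈ I, (‖PB (b i) (L i) t‖ / Real.sqrt (L i))

/-- ITEM Tb (the long factors; no uses).  `∑_n psi(n/N) (∑_{d | n} l_d) n^{-it} = ∑_d l_d d^{-it} Bl psi (N/d) t` (finite sum over `d ≤ D`), and `∑_n |psi(n/N) th l n| ≤ 2 ∑_{d ≤ D} (4N/d + 1) ≤ C N log D`. -/
def StTb : Prop := (∀ (l : ℕ → ℝ) (j : ℕ) (D t : ℝ) (Y : ℕ), (∀ d, l d ≠ 0 → 1 ≤ d ∧ (d : ℝ) ≤ D) → 2 * 2 ^ j ≤ Y →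
    Dp Y (fun n => ((tb l j n : ℝ) : ℂ)) t =
      ∑ d ∈ Finset.Icc 1 ⌊D⌋₊, ((l d : ℝ) : ℂ) * (d : ℂ) ^ (-(t * Complex.I)) * Bl psi (2 ^ j / d) t) ∧
  ∃ C : ℝ, 1 ≤ C ∧ ∀ (l : ℕ → ℝ) (j : ℕ) (D : ℝ) (Y : ℕ), 2 ≤ D → D ≤ 2 ^ j → (∀ d, |l d| ≤ 2) → (∀ d, l d ≠ 0 → 1 ≤ d ∧ (d : ℝ) ≤ D) →
    ∑ n ∈ Finset.Icc 1 Y, |tb l j n| ≤ C * 2 ^ j * Real.log D

/-- ITEM AA (boxes with a long slot; uses StCellA, StF4, StPd, StRg, StRp, StTb, UC.StKp).  Subset with `⌊C T^r0⌋ + 1` points and separate reduction theorem as in BB.  `κ3, ε` of StCellA(κ2); `κ' = ε/1000`, `η ≤ κ'`.  As in BB: used slots have scale `≥ T^η/2`, prime slots `≤ T^{1/2}`, `PS u v ≍ T²`, so at most `3` slots are longer than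
`T^{1/2+κ3}`.  StF4 with its `ε := κ'` (so `T' ≤ T^{1+κ'}`), `T0 = (log T)^{B'}`, `B' = A + 10`, `M = C (log T)^3` (StTb), `δ = (log T)^{-A}`, `B0 = 2B' + A + 5`: `#S (log T)^{-A} T² ≤ C log T ∫_{T'}^{2T'} |GS| |F|`.
(i) `T' ≤ T^{1/10}`: one long slot of scale `N`: StTb and UC.StKp: `≤ ∑_{d ≤ T^κ'} 2C (N/(d T'²) + √T') ≤ C N (log T)/T'²`, the other factors `≤` their mass: `|F| ≤ C T² (log T)^4/T'²`, `|GS| ≤ #S`: the integral is `≤ C #S T² (log T)^4/T'`,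
contradiction for large `T` as `T' ≥ (log T)^{A+10}` (so `#S = 0`).  (ii) `T' ≥ T^{1/10}`: StTb in the `r` long slots (`1 ≤ r ≤ 3`): `|F| ≤ ∏_{others}|PB| ∑_{d_1,..,d_r ≤ T^κ'} ∏ 2|Bl psi (N_i/d_i)|`, for one tuple `d` the integral is `≥ T^{-3κ'}/C` times the whole; StRp with
`η' := κ'` (its `η`; blocks have length `≥ T^κ'/2 ≥ T^η/2`) and `N_i/d_i ≥ T^{1/2+κ3-κ'} ≥ T^{1/2+2κ'}`.  Result: `#S T^{2-10κ'} ≤ ∏√(N_i/d_i) ∫ |GS| ∏_{others} |PB| ∏_{i ∈ I} |PB b_i L_i|/√L_i`.  Let `T^ν` be the product of the lengths of the others and of the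
`L_i`, `i ∈ I`.  Multiply by `∏_I √L_i`: the integral with the `PB`'s is `≥ #S T^{2-10κ'} T^{ν/2}/√(∏ N_others ∏ N_i/d_i) ≥ #S T^{1+ν/2-11κ'}`.  Length: `T^ν ≤ ∏ N_others ∏_{i ∈ I} C T' d_i/N_i ≤ C T² ∏_{i ∈ I} T' d_i/N_i² ∏_{i ∉ I} 1/N_i`, each factor is
`≤ T^{2κ'-2κ3} ≤ 1` and one of them `≤ T^{2κ'-2κ2}` (the slot longer than `T^{1/2+κ2}`), so `ν ≤ 2 - κ2`.  StCellA. -/
def StAA : Prop := ∀ κ2 : ℝ, 0 < κ2 → κ2 ≤ 1 / 20 → ∃ κ3 κ' : ℝ, 0 < κ3 ∧ κ3 ≤ κ2 / 10 ∧ 0 < κ' ∧ κ' ≤ κ3 / 10 ∧ ∀ w : ℝ → ℝ, IsWt w →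
  ∀ η κ1 A : ℝ, 0 < η → η ≤ κ' → 0 < κ1 → κ1 ≤ 1 / 20 → 0 < A → ∃ B0 : ℝ, 1 ≤ B0 ∧ ∀ B : ℝ, B0 ≤ B → ∃ C : ℝ, 1 ≤ C ∧
  ∀ (T : ℝ) (u : Fin 3 → Option ℕ) (v : Fin (SS η) → Option ℕ) (lw : Fin 3 → ℕ → ℝ), C ≤ T → (∃ i, Lg T κ2 (u i)) →
  (∀ i d, |lw i d| ≤ 2) → (∀ i d, lw i d ≠ 0 → 1 ≤ d ∧ (d : ℝ) ≤ T ^ κ') →
  PackLe T (fun x => 1 / Real.log T ^ A ≤
    |DD w (BFA (zz η T) (zz (1 / 2 - κ1) T) T κ3 lw u v) x T (Real.log T ^ B)|) (C * T ^ r0)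

/-! ### Part 5: the vector sieve -/

/-- ITEM Sv (existence of the weights; uses the theorem `OX.ID.fundamental` in `OX/ID/Fund.lean`).  `b` with `4b+6 ≤ s < 4b+10`; `C L^{2b+1}/(2b+1)!` is smaller than `e^{-s}/(2C)` times any constant for large `s` (`2b+1 ≥ (s-8)/2`, Stirling: `n! ≥ (n/e)^n`);
`Wz ≤ C/log y`. -/
def StSv : Prop := ∃ C0 : ℝ, 1 ≤ C0 ∧ ∀ (s : ℝ) (y : ℕ), C0 ≤ s → 2 ≤ y → ∃ lp lm : ℕ → ℝ, IsSv y ((y : ℝ) ^ s) C0 (Real.exp (-s)) lp lm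

open Classical in
/-- ITEM V1 (sandwich).  For nonnegative arithmetic functions `0 ≤ f i ≤ g i`, `g i - f i ≤ e i`: `0 ≤ (∏ g - ∏ f) n ≤ ∑_i (e i ∏_{j ≠ i} g j) n` (induction; Dirichlet convolution of nonnegative functions is monotone).  In a long slot `l` (`2^l > T^{1/2} > 1`, so
`psi(n/2^l) = 0` for `n ≤ 1`): `rb y l n ≤ tb lp l n` and `tb lp l n - rb y l n ≤ tb (lp - lm) l n` (`psi ≥ 0`, IsSv); in the other slots `f = g`, `e = 0`.  All slot functions are `≥ 0`. -/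
def StV1 : Prop := ∀ (T κ D C0 E : ℝ) (y z S : ℕ) (lp lm : ℕ → ℝ) (u : Fin 3 → Option ℕ) (v : Fin S → Option ℕ) (n : ℕ), 3 ≤ T → 0 < κ →
  IsSv y D C0 E lp lm →
  |BF y z u v n - BFA y z T κ (fun _ => lp) u v n| ≤ ∑ i ∈ Finset.univ.filter (fun i => Lg T κ (u i)),
    BFA y z T κ (Function.update (fun _ => lp) i (fun d => lp d - lm d)) u v n ∧
  ∀ i : Fin 3, 0 ≤ BFA y z T κ (Function.update (fun _ => lp) i (fun d => lp d - lm d)) u v n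

/-- ITEM Ma (masses; uses `OX.SV.Drop` (`sum_inv`), Mertens' theorem in the form `∑_{y < p ≤ z} 1/p ≤ log (log z/log y) + C`; Mathlib or the team's files contain Mertens, see `OX/ID/Fund.lean` `sum_pp`).  (1) primes; (2) rough numbers in a dyadic block; (3) `th lp` in a long
dyadic block: `∑_n psi(n/N) th lp n / n ≤ (2/N) ∑_d lp_d ∑_m psi(dm/N)`, `∑_m psi(dm/N) = (N/d) ∫psi + O(1)` (bounded variation), `∑_d |lp_d| ≤ D ≤ N^{1/2}`. -/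
def StMa : Prop := ∃ C : ℝ, 1 ≤ C ∧
  (∀ y z : ℕ, 2 ≤ y → y ≤ z → ∑ p ∈ (Finset.Ioc y z).filter Nat.Prime, (1 : ℝ) / p ≤ Real.log (Real.log z / Real.log y) + C) ∧
  (∀ y l : ℕ, 2 ≤ y → ∑ n ∈ Finset.Icc 1 (2 * 2 ^ l), rb y l n / (n : ℝ) ≤ C / Real.log y) ∧
  ∀ (y l : ℕ) (D C0 E : ℝ) (lp lm : ℕ → ℝ), 2 ≤ y → IsSv y D C0 E lp lm → 1 ≤ D → D ^ 2 * Real.log y ≤ 2 ^ l → 1 ≤ C0 →
    ∑ n ∈ Finset.Icc 1 (2 * 2 ^ l), tb lp l n / (n : ℝ) ≤ C * C0 / Real.log y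

/-- ITEM In (inner sum).  `ϕ(m) = psi(m/N) w((mP/x)^{T1})` is nonnegative, supported in an interval of length `≤ C x/(P T1)` (`w` supported in `[a,b]`), bounded, of bounded variation (the total variation of `w(·^{T1})` is that of `w`):
`∑_m ϕ(m) ∑_{d | m} l_d = ∑_d l_d ∑_k ϕ(dk) = ∑_d l_d ((1/d) ∫ϕ + O(C))`.  With `l = lp - lm`: `≤ (E/log y) C x/(P T1) + 2 C D`. -/
def StIn : Prop := ∀ w : ℝ → ℝ, IsWt w → (∀ u, 0 ≤ w u) → ∃ C : ℝ, 1 ≤ C ∧ ∀ (y l P : ℕ) (D C0 E x T1 : ℝ) (lp lm : ℕ → ℝ), 2 ≤ y →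
  IsSv y D C0 E lp lm → 1 ≤ D → 0 < E → 1 ≤ P → 1 ≤ x → 1 ≤ T1 →
  ∑ m ∈ Finset.Icc 1 (2 * 2 ^ l), tb (fun d => lp d - lm d) l m * w (((m : ℝ) * P / x) ^ T1) ≤
    C * (E / Real.log y) * (x / (P * T1)) + C * D

open Classical in
/-- ITEM SE (total sieve error; uses StMa, StIn, StPd, StRg).  CAREFUL: for given values (or scales) of all other slots only `O(1)` resp. `O(1/η)` scales `2^l ≍ x/P` of the long slot `i` give a nonzero term (StRg: `PS u v ≍ T²`), so the sum over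
the scale of this slot costs a constant, not `log T`.  For fixed `i` (the long slot with `lp - lm`) expand `SW` into the sum over tuples (all other slots `n_j`, product `P`, and the inner variable `m`): StIn for the inner sum: `≤ C (E/log y)(x/(P T1)) + C D`, and only tuples with
`P ≤ C x/T^{1/2}` occur.  First part: `T1/x · C (E/log y) (x/T1) ∏_{j} (∑ f_j(n)/n)`; sum over all scales (`≤ LL T ≤ 4 log T` of them, plus `none`): each of the other two `u`-slots contributes `≤ 1 + 4 log T · C C0/log y ≤ C/η` (StMa; a slot with `2^l < T^η/2` is `0`), the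
prime slots with the weights `cw`: `5 ∑_s (3^s/s!) (∑_{y<p≤z} (∑_l psi(p/2^l)) /p)^s ≤ 5 exp(3 ∑ 1/p) ≤ C η^{-3}` (`∑_l psi(p/2^l) ≤ 1`; the number of `v` with a given `s`-tuple of scales is `S!/(s!(S-s)!)`).  Total `(C/η)^{6} E/log T`.  Second part: `C D T1/x` times the number of
tuples with `P ≤ C x/T^{1/2}`, `≤ C(η) (log T)^{C(η)} T^{3/2} · C(η)`, is `≤ 1/(log T)²` for large `T` (`D ≤ T^{1/20}`, `x ≥ T²`). -/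
def StSE : Prop := ∀ w : ℝ → ℝ, IsWt w → (∀ u, 0 ≤ w u) → ∀ C0 : ℝ, 1 ≤ C0 → ∃ C3 : ℝ, 1 ≤ C3 ∧ ∀ η κ1 κ3 κ' E B : ℝ, 0 < η → η ≤ 1 / 20 →
  0 < κ1 → κ1 ≤ 1 / 20 → 0 < κ3 → κ3 ≤ 1 / 20 → 0 < κ' → κ' ≤ 1 / 20 → 0 < E → 1 ≤ B → ∃ C : ℝ, 1 ≤ C ∧
  ∀ (T x : ℝ) (lp lm : ℕ → ℝ), C ≤ T → T ^ 2 ≤ x → x ≤ 4 * T ^ 2 → IsSv (zz η T) (T ^ κ') C0 E lp lm →
  ∑ u ∈ Bx 3 T, ∑ v ∈ Bx (SS η) T, cw v * ∑ i ∈ Finset.univ.filter (fun i => Lg T κ3 (u i)),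
    Real.log T ^ B / x * SW w (BFA (zz η T) (zz (1 / 2 - κ1) T) T κ3 (Function.update (fun _ => lp) i (fun d => lp d - lm d)) u v) x
      (Real.log T ^ B) ≤ (C3 / η) ^ 10 * E / Real.log T + C / Real.log T ^ 2

/-! ### Part 6: the identity -/

open Classical in
/-- ITEM Ex (expansion of the von Mangoldt function into boxes; uses `OX/ID/Linnik.lean`, `OX/ID/Expand.lean`).  `z`-rough numbers `n ≤ T^{2+1/20}` have `Ω n ≤ 4` (`5(1/2-κ1) > 2+1/20`), so with `ro = roughOne z`, `R = rg z = 1 + ro`: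
`Λ(n)/log n · 1_{z-rough} = ro - ro²/2 + ro³/3 - ro⁴/4` at `n` (`rough_linnik` with `K = 4`), `= 3R - (3/2)R² + (1/3)R³ - ro⁴/4` for `n > 1`.  `R^k = ∑_{s ≤ S} (-k)^s/s! pb^s (rg y)^k` at `n` if no `p²` (`y < p ≤ z`) divides `n` (helper97), and in general
the difference is `≤ C(S)`.  `rg y = 1 + ∑_{l < LL T} rb y l` and `pb y z = ∑_{l < LL T} pbl y z l` at all `m ≤ n ≤ 2^{LL T - 1}` (`∑_{l<L} psi(m/2^l) = eta(m/2^{L-1}) - eta(2m) = 1`).  Expand the powers: `(1 + ∑_l rb y l)^k = ∏ over the first k slots`,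
`(∑_l pbl y z l)^s/s!` = sum over the `v` with `s` used slots, weight `(S-s)!/S!`. -/
def StEx : Prop := ∀ η κ1 : ℝ, 0 < η → η ≤ 1 / 20 → 0 < κ1 → κ1 ≤ 1 / 20 → ∃ C : ℝ, 1 ≤ C ∧ ∀ (T : ℝ) (n : ℕ), C ≤ T → 2 ≤ n →
  (n : ℝ) ≤ T ^ (2 + 1 / 20 : ℝ) →
  |(if Rough (zz (1 / 2 - κ1) T) n then ArithmeticFunction.vonMangoldt n / Real.log n else 0) +
      (1 / 4) * (roughOne (zz (1 / 2 - κ1) T) ^ 4) n -
      ∑ u ∈ Bx 3 T, ∑ v ∈ Bx (SS η) T, cc u v * BF (zz η T) (zz (1 / 2 - κ1) T) u v n| ≤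
    if ∃ p : ℕ, p.Prime ∧ zz η T < p ∧ p ≤ zz (1 / 2 - κ1) T ∧ p ^ 2 ∣ n then C else 0

/-- ITEM Dr (the dropped term; uses `OX/SV/Drop.lean` `drop_tuples`).  A tuple counted by `roughOne z ^ 4` at `n ≤ C T²` has all entries in `(T^{1/2-κ1}/2, C T^{1/2+3κ1}]`; it is `⌊T^{1/20}⌋`-rough; `drop_tuples` at level `⌊T^{1/20}⌋` with `k = 4`, `K = 44`, `Y1 = T^{1/2-κ1}/2`,
`Y2 = C T^{1/2+3κ1}`, `h = C x/T' ≥ C T` (`3/20 + 1/2 + 3/20 < 1`): at most `C h (1 + 4κ1 log T)/(log T)²` tuples. -/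
def StDr : Prop := ∀ w : ℝ → ℝ, IsWt w → (∀ u, 0 ≤ w u) → ∃ C1 : ℝ, 1 ≤ C1 ∧ ∀ κ1 : ℝ, 0 < κ1 → κ1 ≤ 1 / 20 → ∃ C : ℝ, 1 ≤ C ∧
  ∀ T T' x : ℝ, C ≤ T → 1 ≤ T' → T' ≤ T → T ^ 2 ≤ x → x ≤ 4 * T ^ 2 →
  T' / x * SW w (fun n => (roughOne (zz (1 / 2 - κ1) T) ^ 4) n) x T' ≤ C1 * κ1 / Real.log T

open Classical in
/-- ITEM Sq (square factors and prime powers).  Number of `n` in an interval `(x1, x1+h]`, `h ≍ x/T' ≥ T`, divisible by `p²` for some prime `y < p ≤ z`: `≤ ∑_{y < p ≤ z} (h/p² + 1) ≤ h/y + z`, and `z ≤ T^{1/2}`.  Proper prime powers `q^m`, `m ≥ 2`, in the interval: for each `m ≤ C log T`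
at most `C √x/T' + 1`; small primes `p ≤ z` are not in the interval.  So with the weight `pr` and the weight `Λ(n)/log n · 1_{z-rough}` the sums differ by `≤ C log T (√x/T' + 1)`. -/
def StSq : Prop := ∀ w : ℝ → ℝ, IsWt w → (∀ u, 0 ≤ w u) → ∀ η κ1 : ℝ, 0 < η → η ≤ 1 / 20 → 0 < κ1 → κ1 ≤ 1 / 20 → ∃ C : ℝ, 1 ≤ C ∧
  ∀ T T' x : ℝ, C ≤ T → 1 ≤ T' → T' ≤ T → T ^ 2 ≤ x → x ≤ 4 * T ^ 2 →
  T' / x * SW w (fun n => if ∃ p : ℕ, p.Prime ∧ zz η T < p ∧ p ≤ zz (1 / 2 - κ1) T ∧ p ^ 2 ∣ n then 1 else 0) x T' ≤ C / Real.log T ^ 2 ∧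
  |T' / x * SW w pr x T' - T' / x * SW w (fun n => if Rough (zz (1 / 2 - κ1) T) n then
    ArithmeticFunction.vonMangoldt n / Real.log n else 0) x T'| ≤ C / Real.log T ^ 2

/-- ITEM Li (primes in windows as sums over boxes; uses StEx, StDr, StSq).  In the window `T²/C ≤ n ≤ C T²`. -/
def StLi : Prop := ∀ w : ℝ → ℝ, IsWt w → (∀ u, 0 ≤ w u) → ∃ C1 : ℝ, 1 ≤ C1 ∧ ∀ η κ1 : ℝ, 0 < η → η ≤ 1 / 20 → 0 < κ1 → κ1 ≤ 1 / 20 → ∃ C : ℝ, 1 ≤ C ∧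
  ∀ T T' x : ℝ, C ≤ T → 1 ≤ T' → T' ≤ T → T ^ 2 ≤ x → x ≤ 4 * T ^ 2 →
  |T' / x * SW w pr x T' - ∑ u ∈ Bx 3 T, ∑ v ∈ Bx (SS η) T, cc u v * (T' / x * SW w (BF (zz η T) (zz (1 / 2 - κ1) T) u v) x T')| ≤
    C1 * κ1 / Real.log T + C / Real.log T ^ 2

/-- ITEM PN (long windows; uses ZF.StPnt).  Partial summation with `π(r) = ∫_2^r dr/log r + O(r (log r)^{-A})`, `A = B + 3`: `∑_p w((p/x)^{T1}) = ∫ w((r/x)^{T1}) dr/log r + O(x (log x)^{-A} · Var w)` (the total variation of `r ↦ w((r/x)^{T1})` is that of `w`).  Substitute `r = x v^{1/T1}`: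
`dr = (x/T1) v^{1/T1} dv/v`, `v^{1/T1} → 1` and `log r = log x + O(1)` uniformly on the support of `w`. -/
def StPN : Prop := ∀ w : ℝ → ℝ, IsWt w → (∀ u, 0 ≤ w u) → ∀ B δ : ℝ, 1 ≤ B → 0 < δ → ∃ C : ℝ, 1 ≤ C ∧ ∀ T x : ℝ, C ≤ T → T ^ 2 ≤ x → x ≤ 4 * T ^ 2 →
  |Real.log x * (Real.log T ^ B / x * SW w pr x (Real.log T ^ B)) - Iw w| ≤ δ

/-! ### Part 7: the theorem -/

/-- ITEM Mn (main theorem for smooth windows; uses StBB, StAA, StSh, StRg, StV1, StSv, StSE, StLi, StPN).  Given `w ≥ 0` and `δ`: `κ1` with `C1 κ1 ≤ δ/100` (StLi), `β = κ1/2`; `κ2 = min` of StBB(β) and `κ1/100` (StBB for the smaller `κ` follows);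
`κ3, κ'` of StAA(κ2); `η ≤ κ'` with `s = κ'/η ≥ C0` and `(C3/η)^{10} e^{-s} ≤ δ/100` (StSv with `s`: level `y^s ≤ T^{κ'}`; StSE); `A = 4 (SS η + 4)`, `B` large (StBB, StAA), `T1 = (log T)^B`.  For `x` outside the exceptional sets of
all boxes: (B) boxes without slot longer than `T^{1/2+κ2}`: if `PS u v` is not in `[T²/C, C T²]`, `DD = 0` (StRg), or the box is empty because a prime slot is longer than `2z`; otherwise StSh and StBB: `|DD| < (log T)^{-A}`.  (A) the others: `BF = BFA(lp) + O(∑_i BFA_i)` (StV1), so (`w ≥ 0`)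
`|DD BF| ≤ |DD BFA| + ∑_i (T/x SW BFA_i (T) + T1/x SW BFA_i (T1)) ≤ |DD BFA| + ∑_i |DD BFA_i| + 2 ∑_i T1/x SW BFA_i (T1)`.  `|cc| ≤ cw ≤ C(η)`, number of boxes `≤ (4 log T)^{SS η + 3}`.  So by StLi for `T' = T` and `T' = T1` and StSE: `|T/x SW pr (T) - T1/x SW pr (T1)| ≤ (δ/10)/log T + C/(log T)²`,
multiply by `log x ≤ 3 log T` and use StPN.  The exceptional set has `≤ (number of boxes)·7·C T^{r0} ≤ C T^{r1}` points (every separated set of exceptional points is the union of its parts for the boxes). -/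
def StMn : Prop := ∀ w : ℝ → ℝ, IsWt w → (∀ u, 0 ≤ w u) → ∀ δ : ℝ, 0 < δ → ∃ C : ℝ, 1 ≤ C ∧ ∀ T : ℝ, C ≤ T →
  PackLe T (fun x => δ < |Real.log x * (T / x * SW w pr x T) - Iw w|) (C * T ^ r1)

/-- ITEM Wt (weights).  `w(u) = g(log u)` with a smooth `g` (product of two `Real.smoothTransition`s), `g = 1` on `[a,b]`, support in `[a-τ, b+τ]`, `0 ≤ g ≤ 1`; `Iw w = ∫ g`. -/
def StWt : Prop := ∀ a b τ : ℝ, a < b → 0 < τ → ∃ w : ℝ → ℝ, IsWt w ∧ (∀ u, 0 ≤ w u ∧ w u ≤ 1) ∧ (∀ u, Real.exp a ≤ u → u ≤ Real.exp b → w u = 1) ∧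
  (∀ u, w u ≠ 0 → Real.exp (a - τ) ≤ u ∧ u ≤ Real.exp (b + τ)) ∧ b - a ≤ Iw w ∧ Iw w ≤ b - a + 2 * τ

/-- ITEM Co (the core statement; uses StMn, StWt).  Given `δ`, let `τ` be small, `ρ = 1 + τ`.  For `T = ρ^j` large and integers `n ∈ [T, ρT)`, `x = n²`: `T² ≤ x ≤ 4T²`, the points `n²` are `1/T`-separated (`|log n² - log m²| ≥ 2/max(n,m) ≥ 1/T`).
`p ∈ [n², n²+n]` iff `T log(p/x) ∈ [0, T log(1+1/n)]`, and `1 - 2τ ≤ T log(1+1/n) ≤ 1`: with `w₊` of StWt(0, 1, τ): `B(n) ≤ ∑_p w₊((p/x)^T)`, with `w₋` of StWt(τ, 1-3τ, τ): `∑_p w₋((p/x)^T) ≤ B(n)`; `Iw w₊ ≤ 1+2τ`, `Iw w₋ ≥ 1-4τ`.  So outside the exceptional set of StMn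
(with `τ`): `(x/T)(1-5τ)/log x ≤ B(n) ≤ (x/T)(1+3τ)/log x`, `n ≤ x/T = n²/T ≤ (1+τ) n`, `log x = 2 log n`: `|2B(n) log n/n - 1| ≤ 10τ ≤ δ`.  `A(n)`: `p ∈ [n²-n, n²]` iff `T log(p/x) ∈ [T log(1-1/n), 0]`, `-1-2/T ≤ T log(1-1/n) ≤ -(1-2τ)`: intervals `[-1-τ, 0]` and `[-1+3τ, -τ]`.
Sum over the blocks `[ρ^j, ρ^{j+1})`, `ρ^j ≤ N`: `∑_j C ρ^{j r1} ≤ C N^{r1}`. -/
def StCo : Prop := Pool.Agent.Work.MP_a8fbd7_nt.OX.FIN.Core r1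

end Pool.Agent.Work.MP_a8fbd7_nt.OX.ASM
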