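import Mathlib
import Pool.Agent.Work.MP_a8fbd7_nt.OX.ASM.Stmts

set_option autoImplicit false

open MeasureTheory Set Filter Topology

noncomputable section

namespace Pool.Agent.Work.MP_a8fbd7_nt.OX.ASM

open Pool.Agent.Work.MP_56b8f5_nt.UC (IsWt Bl Dp Om psi eta Sep)
open Pool.Agent.Work.MP_a8fbd7_nt.OX.ID (Rough roughOne pb rg)

namespace F4_aux

lemma norm_cpow_pos {x : ℝ} (hx : 0 < x) (t : ℝ) : ‖(x : ℂ) ^ (t * Complex.I)‖ = 1 := by
  rw [Complex.norm_cpow_eq_rpow_re_of_pos hx]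
  simp

lemma norm_ncpow (n : ℕ) (hn : 1 ≤ n) (t : ℝ) : ‖(n : ℂ) ^ (-(t * Complex.I))‖ = 1 := by
  rw [Complex.norm_natCast_cpow_of_pos (by omega)]
  simp

lemma conj_cpow_pos {x : ℝ} (hx : 0 < x) (t : ℝ) :
    (starRingEnd ℂ) ((x : ℂ) ^ (((-t : ℝ) : ℂ) * Complex.I)) = (x : ℂ) ^ ((t : ℂ) * Complex.I) := by
  have hx0 : (x : ℂ) ≠ 0 := by exact_mod_cast hx.ne'
  rw [Complex.cpow_def_of_ne_zero hx0, Complex.cpow_def_of_ne_zero hx0, ← Complex.exp_conj,
    ← Complex.ofReal_log hx.le]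
  congr 1
  simp

lemma conj_ncpow (n : ℕ) (hn : 1 ≤ n) (t : ℝ) :
    (starRingEnd ℂ) ((n : ℂ) ^ (-(((-t : ℝ) : ℂ) * Complex.I))) = (n : ℂ) ^ (-((t : ℂ) * Complex.I)) := by
  have hn0 : (n : ℂ) ≠ 0 := by exact_mod_cast (by omega : n ≠ 0)
  have h1 : Complex.log (n : ℂ) = ((Real.log n : ℝ) : ℂ) := by
    rw [Complex.ofReal_log (by positivity)]
    simp
  rw [Complex.cpow_def_of_ne_zero hn0, Complex.cpow_def_of_ne_zero hn0, ← Complex.exp_conj, h1,
    map_mul, Complex.conj_ofReal]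
  congr 2
  simp

lemma norm_Dp_le (Y : ℕ) (c : ℕ → ℝ) (t : ℝ) :
    ‖Dp Y (fun n => (c n : ℂ)) t‖ ≤ ∑ n ∈ Finset.Icc 1 Y, |c n| := by
  unfold Dp
  refine (norm_sum_le _ _).trans (Finset.sum_le_sum ?_)
  intro n hn
  rw [norm_mul, norm_ncpow n (Finset.mem_Icc.mp hn).1, mul_one]
  simp

lemma norm_Dp_neg (Y : ℕ) (c : ℕ → ℝ) (t : ℝ) :
    ‖Dp Y (fun n => (c n : ℂ)) (-t)‖ = ‖Dp Y (fun n => (c n : ℂ)) t‖ := by
  have : (starRingEnd ℂ) (Dp Y (fun n => (c n : ℂ)) (-t)) = Dp Y (fun n => (c n : ℂ)) t := by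
    unfold Dp
    rw [map_sum]
    refine Finset.sum_congr rfl ?_
    intro n hn
    rw [map_mul, conj_ncpow n (Finset.mem_Icc.mp hn).1, Complex.conj_ofReal]
  rw [← this, Complex.norm_conj]

lemma cont_Dp (Y : ℕ) (c : ℕ → ℂ) : Continuous fun t : ℝ => Dp Y c t := by
  unfold Dp
  refine continuous_finsetSum _ ?_
  intro n hn
  have hn0 : (n : ℂ) ≠ 0 := by
    have := (Finset.mem_Icc.mp hn).1
    exact_mod_cast (by omega : n ≠ 0)
  refine continuous_const.mul ?_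
  have : Continuous fun t : ℝ => -((t : ℂ) * Complex.I) := by fun_prop
  exact this.const_cpow (Or.inl hn0)

lemma cont_GS (S : Finset ℝ) (g : ℝ → ℂ) (hS : ∀ x ∈ S, 0 < x) : Continuous fun t : ℝ => GS S g t := by
  unfold GS
  refine continuous_finsetSum _ ?_
  intro x hx
  have hx0 : (x : ℂ) ≠ 0 := by exact_mod_cast (hS x hx).ne'
  refine continuous_const.mul ?_
  have : Continuous fun t : ℝ => ((t : ℂ) * Complex.I) := by fun_prop
  exact this.const_cpow (Or.inl hx0)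

lemma norm_GS_le (S : Finset ℝ) (g : ℝ → ℂ) (hS : ∀ x ∈ S, 0 < x) (hg : ∀ x ∈ S, ‖g x‖ ≤ 1) (t : ℝ) :
    ‖GS S g t‖ ≤ S.card := by
  unfold GS
  refine (norm_sum_le _ _).trans ?_
  have : ∀ x ∈ S, ‖g x * (x : ℂ) ^ (t * Complex.I)‖ ≤ 1 := by
    intro x hx
    rw [norm_mul, norm_cpow_pos (hS x hx), mul_one]
    exact hg x hx
  calc _ ≤ ∑ x ∈ S, (1 : ℝ) := Finset.sum_le_sum this
    _ = S.card := by simp

lemma norm_GS_neg (S : Finset ℝ) (g g' : ℝ → ℂ) (hS : ∀ x ∈ S, 0 < x)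
    (hg : ∀ x ∈ S, g' x = (starRingEnd ℂ) (g x)) (t : ℝ) : ‖GS S g (-t)‖ = ‖GS S g' t‖ := by
  have : (starRingEnd ℂ) (GS S g (-t)) = GS S g' t := by
    unfold GS
    rw [map_sum]
    refine Finset.sum_congr rfl ?_
    intro x hx
    rw [map_mul, conj_cpow_pos (hS x hx), hg x hx]
  rw [← this, Complex.norm_conj]

/-- dyadic pigeonhole -/
lemma dyadic (P : ℝ → ℝ) (hP : Continuous P) (hP0 : ∀ t, 0 ≤ P t) (T T0 R : ℝ) (hT : 3 ≤ T) (hT0 : 1 ≤ T0)
    (hR : T0 ≤ R) (hR2 : R ≤ T ^ 2) :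
    ∃ T' : ℝ, T0 ≤ T' ∧ T' ≤ R ∧ ∫ t in T0..R, P t ≤ 4 * Real.log T * ∫ t in T'..(2 * T'), P t := by
  have hT0' : 0 < T0 := by linarith
  set m := ⌊R / T0⌋₊ with hm
  have hRT : 1 ≤ R / T0 := by rw [le_div_iff₀ hT0']; linarith
  have hm1 : 1 ≤ m := by
    rw [hm]; exact Nat.le_floor (by simpa using hRT)
  set l := Nat.log 2 m with hl
  have h1 : 2 ^ l ≤ m := Nat.pow_log_le_self 2 (by omega)
  have h2 : m < 2 ^ (l + 1) := Nat.lt_pow_succ_log_self (by norm_num) m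
  have h1' : (2 : ℝ) ^ l * T0 ≤ R := by
    have h3 : ((2 : ℝ) ^ l) ≤ m := by exact_mod_cast h1
    have h4 : (m : ℝ) ≤ R / T0 := Nat.floor_le (by linarith)
    rw [← le_div_iff₀ hT0']
    linarith
  have h2' : R ≤ (2 : ℝ) ^ (l + 1) * T0 := by
    have h3 : ((m : ℝ) + 1) ≤ (2 : ℝ) ^ (l + 1) := by exact_mod_cast h2
    have h4 : R / T0 < m + 1 := Nat.lt_floor_add_one _
    rw [← div_le_iff₀ hT0']
    linarith
  have hint : ∀ a b : ℝ, IntervalIntegrable P volume a b := fun a b => hP.intervalIntegrable a b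
  have hsum : ∑ i ∈ Finset.range (l + 1), ∫ t in ((2 : ℝ) ^ i * T0)..((2 : ℝ) ^ (i + 1) * T0), P t =
      ∫ t in ((2 : ℝ) ^ 0 * T0)..((2 : ℝ) ^ (l + 1) * T0), P t :=
    intervalIntegral.sum_integral_adjacent_intervals (fun k _ => hint _ _)
  have hle : ∫ t in T0..R, P t ≤ ∫ t in ((2 : ℝ) ^ 0 * T0)..((2 : ℝ) ^ (l + 1) * T0), P t := by
    rw [pow_zero, one_mul]
    have : ∫ t in T0..((2 : ℝ) ^ (l + 1) * T0), P t = (∫ t in T0..R, P t) + ∫ t in R..((2 : ℝ) ^ (l + 1) * T0), P t :=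
      (intervalIntegral.integral_add_adjacent_intervals (hint _ _) (hint _ _)).symm
    rw [this]
    have : 0 ≤ ∫ t in R..((2 : ℝ) ^ (l + 1) * T0), P t :=
      intervalIntegral.integral_nonneg h2' (fun t _ => hP0 t)
    linarith
  have hex : ∃ i ∈ Finset.range (l + 1), (∫ t in T0..R, P t) / (l + 1 : ℝ) ≤
      ∫ t in ((2 : ℝ) ^ i * T0)..((2 : ℝ) ^ (i + 1) * T0), P t := by
    refine Finset.exists_le_of_sum_le ⟨0, by simp⟩ ?_
    rw [hsum]
    refine le_trans ?_ hle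
    rw [Finset.sum_const, Finset.card_range, nsmul_eq_mul]
    push_cast
    rw [mul_div_cancel₀]
    positivity
  obtain ⟨i, hi, hi2⟩ := hex
  have hil : i ≤ l := by have := Finset.mem_range.mp hi; omega
  refine ⟨(2 : ℝ) ^ i * T0, ?_, ?_, ?_⟩
  · have : (1 : ℝ) ≤ 2 ^ i := one_le_pow₀ (by norm_num)
    nlinarith
  · have : (2 : ℝ) ^ i ≤ 2 ^ l := pow_le_pow_right₀ (by norm_num) hil
    nlinarith
  · have e1 : (2 : ℝ) * (2 ^ i * T0) = 2 ^ (i + 1) * T0 := by ring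
    rw [e1]
    rw [div_le_iff₀ (by positivity)] at hi2
    have hJ : 0 ≤ ∫ t in ((2 : ℝ) ^ i * T0)..((2 : ℝ) ^ (i + 1) * T0), P t := by
      refine intervalIntegral.integral_nonneg ?_ (fun t _ => hP0 t)
      rw [pow_succ]
      have : 0 < (2 : ℝ) ^ i := by positivity
      nlinarith [mul_pos this hT0']
    -- l + 1 ≤ 4 log T
    have hlog3 : 1.0986 < Real.log 3 := by
      have := Real.log_three_gt_d9
      linarith
    have hlogT : 1.0986 < Real.log T := lt_of_lt_of_le hlog3 (Real.log_le_log (by norm_num) hT)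
    have hpow : (2 : ℝ) ^ l ≤ T ^ 2 := by
      have h5 : (2 : ℝ) ^ l ≤ 2 ^ l * T0 := by
        have : 0 < (2 : ℝ) ^ l := by positivity
        nlinarith
      linarith
    have hlog : (l : ℝ) * Real.log 2 ≤ 2 * Real.log T := by
      have := Real.log_le_log (by positivity) hpow
      rw [Real.log_pow, Real.log_pow] at this
      exact_mod_cast this
    have hl2 : 0.6931 < Real.log 2 := by
      have := Real.log_two_gt_d9
      linarith
    have hlb : (l : ℝ) ≤ 2.886 * Real.log T := by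
      have : (l : ℝ) * 0.6931 ≤ 2 * Real.log T := by
        have h0 : (0 : ℝ) ≤ l := by positivity
        nlinarith
      linarith
    have : (l : ℝ) + 1 ≤ 4 * Real.log T := by linarith
    calc _ ≤ _ := hi2
      _ = ((l : ℝ) + 1) * _ := by ring
      _ ≤ _ := mul_le_mul_of_nonneg_right this hJ

/-- half line estimate -/
lemma half (K P : ℝ → ℝ) (hP : Continuous P) (hP0 : ∀ t, 0 ≤ P t) (P0 C2 CA T T0 T1 ε : ℝ) (A : ℕ)
    (hPb : ∀ t, P t ≤ P0) (hT : 3 ≤ T) (hT0 : 1 ≤ T0) (hT0T : T0 ≤ T) (hT1 : 1 ≤ T1) (hε : 0 < ε)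
    (hA : 2 ≤ ε * ((A : ℝ) - 1)) (hA2 : 2 ≤ A) (hC2 : 0 ≤ C2) (hCA : 0 ≤ CA)
    (hK1 : ∀ t, 0 ≤ t → K t ≤ C2 * (t / T1)) (hK2 : ∀ t, K t ≤ 2 * C2)
    (hK3 : ∀ t, 0 < t → K t ≤ 2 * CA * (T / t) ^ A) (hK0 : ∀ t, 0 ≤ K t)
    (hint : Integrable fun t => K t * P t) :
    ∫ t in Ioi (0 : ℝ), K t * P t ≤ P0 * (C2 * (T0 ^ 2 / T1) + 2 * CA / T) + 2 * C2 * ∫ t in T0..(T ^ (1 + ε)), P t := by
  have hTpos : 0 < T := by linarith
  have hT0' : 0 < T0 := by linarith
  have hT1' : 0 < T1 := by linarith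
  have hP00 : 0 ≤ P0 := (hP0 0).trans (hPb 0)
  set R := T ^ (1 + ε) with hR
  have hTR : T ≤ R := by
    rw [hR]
    calc T = T ^ (1 : ℝ) := (Real.rpow_one T).symm
      _ ≤ T ^ (1 + ε) := Real.rpow_le_rpow_of_exponent_le (by linarith) (by linarith)
  have hRpos : 0 < R := by linarith
  have hI : ∀ s : Set ℝ, IntegrableOn (fun t => K t * P t) s := fun s => hint.integrableOn
  have hII : ∀ a b : ℝ, IntervalIntegrable (fun t => K t * P t) volume a b := fun a b => hint.intervalIntegrable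
  rw [← intervalIntegral.integral_interval_add_Ioi (hI (Ioi 0)) (hI (Ioi T0)),
    ← intervalIntegral.integral_interval_add_Ioi (hI (Ioi T0)) (hI (Ioi R))]
  have e1 : ∫ t in (0 : ℝ)..T0, K t * P t ≤ P0 * (C2 * (T0 ^ 2 / T1)) := by
    have : ∫ t in (0 : ℝ)..T0, K t * P t ≤ ∫ t in (0 : ℝ)..T0, C2 * (T0 / T1) * P0 := by
      refine intervalIntegral.integral_mono_on hT0'.le (hII _ _) intervalIntegrable_const ?_
      intro t ht
      have h3 : K t ≤ C2 * (T0 / T1) := (hK1 t ht.1).trans (by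
        have : t / T1 ≤ T0 / T1 := div_le_div_of_nonneg_right ht.2 hT1'.le
        exact mul_le_mul_of_nonneg_left this hC2)
      exact mul_le_mul h3 (hPb t) (hP0 t) (by positivity)
    refine this.trans (le_of_eq ?_)
    rw [intervalIntegral.integral_const, smul_eq_mul]
    ring
  have e2 : ∫ t in T0..R, K t * P t ≤ 2 * C2 * ∫ t in T0..R, P t := by
    rw [← intervalIntegral.integral_const_mul]
    refine intervalIntegral.integral_mono_on (by linarith) (hII _ _) ((hP.intervalIntegrable _ _).const_mul _) ?_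
    intro t _
    exact mul_le_mul_of_nonneg_right (hK2 t) (hP0 t)
  have e3 : ∫ t in Ioi R, K t * P t ≤ P0 * (2 * CA / T) := by
    have hA1 : (-(A : ℝ)) < -1 := by
      have : (2 : ℝ) ≤ A := by exact_mod_cast hA2
      linarith
    have hb : ∫ t in Ioi R, K t * P t ≤ ∫ t in Ioi R, (2 * CA * T ^ A * P0) * t ^ (-(A : ℝ)) := by
      refine setIntegral_mono_on (hI _) ((integrableOn_Ioi_rpow_of_lt hA1 hRpos).const_mul _) measurableSet_Ioi ?_
      intro t ht
      have ht0 : 0 < t := lt_trans hRpos ht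
      have h5 : (T / t) ^ A = T ^ A * t ^ (-(A : ℝ)) := by
        rw [div_pow, Real.rpow_neg ht0.le, Real.rpow_natCast]
        rfl
      calc K t * P t ≤ (2 * CA * (T / t) ^ A) * P0 :=
            mul_le_mul (hK3 t ht0) (hPb t) (hP0 t) (by positivity)
        _ = _ := by rw [h5]; ring
    refine hb.trans ?_
    rw [integral_const_mul, integral_Ioi_rpow_of_lt hA1 hRpos]
    have hA3 : (2 : ℝ) ≤ A := by exact_mod_cast hA2
    have h6 : -R ^ (-(A : ℝ) + 1) / (-(A : ℝ) + 1) ≤ R ^ (-(A : ℝ) + 1) := by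
      have h7 : -R ^ (-(A : ℝ) + 1) / (-(A : ℝ) + 1) = R ^ (-(A : ℝ) + 1) / ((A : ℝ) - 1) := by
        rw [show (-(A : ℝ) + 1) = -((A : ℝ) - 1) by ring, neg_div_neg_eq]
      rw [h7]
      refine div_le_self (by positivity) (by linarith)
    have h8 : T ^ A * R ^ (-(A : ℝ) + 1) ≤ 1 / T := by
      rw [hR, ← Real.rpow_natCast T A, ← Real.rpow_mul hTpos.le, ← Real.rpow_add hTpos, one_div,
        ← Real.rpow_neg_one]
      refine Real.rpow_le_rpow_of_exponent_le (by linarith) ?_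
      nlinarith
    calc 2 * CA * T ^ A * P0 * (-R ^ (-(A : ℝ) + 1) / (-(A : ℝ) + 1))
        ≤ 2 * CA * T ^ A * P0 * R ^ (-(A : ℝ) + 1) := mul_le_mul_of_nonneg_left h6 (by positivity)
      _ = P0 * (2 * CA) * (T ^ A * R ^ (-(A : ℝ) + 1)) := by ring
      _ ≤ P0 * (2 * CA) * (1 / T) := mul_le_mul_of_nonneg_left h8 (by positivity)
      _ = _ := by ring
  linarith [e1, e2, e3]

end F4_aux

open F4_aux in
theorem iF4 (hF1 : StF1) (hF2 : StF2) (hMel : Pool.Agent.Work.MP_56b8f5_nt.UC.StMel) : StF4 := by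
  intro w hw ε hε hε1
  obtain ⟨C2, hC21, hOb, hOl, hOc⟩ := hF2 w hw
  obtain ⟨hcont, hdec, -⟩ := hMel w hw
  set A : ℕ := ⌈2 / ε⌉₊ + 1 with hA
  obtain ⟨CA, hCA1, hCA⟩ := hdec A
  have hA2 : 2 / ε ≤ (A : ℝ) - 1 := by
    rw [hA]; push_cast
    have := Nat.le_ceil (2 / ε)
    linarith
  have hA3 : 2 ≤ ε * ((A : ℝ) - 1) := by
    rw [div_le_iff₀ hε] at hA2
    linarith
  have hA4 : 2 ≤ A := by
    have h1 : (2 : ℝ) ≤ 2 / ε := by
      rw [le_div_iff₀ hε]; linarith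
    have h2 : (2 : ℝ) ≤ (A : ℝ) := by linarith
    exact_mod_cast h2
  refine ⟨16 * (C2 + CA), by linarith, ?_⟩
  intro T T0 T1 M δ Y c S g0 hT hT0 hT0T hT1 hT1T hM hδ hc hcM hCδ hSx hg0 hres
  have hTpos : 0 < T := by linarith
  have hT0p : 0 < T0 := by linarith
  have hT1p : 0 < T1 := by linarith
  have hTR : T ≤ T ^ (1 + ε) := by
    calc T = T ^ (1 : ℝ) := (Real.rpow_one T).symm
      _ ≤ T ^ (1 + ε) := Real.rpow_le_rpow_of_exponent_le (by linarith) (by linarith)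
  have hR2 : T ^ (1 + ε) ≤ T ^ 2 := by
    calc T ^ (1 + ε) ≤ T ^ (2 : ℝ) := Real.rpow_le_rpow_of_exponent_le (by linarith) (by linarith)
      _ = T ^ 2 := by norm_cast
  have hSpos : ∀ x ∈ S, 0 < x := fun x hx => lt_of_lt_of_le (by positivity) (hSx x hx)
  set F : ℝ → ℂ := fun t => Dp Y (fun n => (c n : ℂ)) t with hF
  set K : ℝ → ℂ := fun t => Om w (t / T) - Om w (t / T1) with hK
  set g : ℝ → ℂ := fun x => if T ^ 2 ≤ x then g0 x * ((T ^ 2 / x : ℝ) : ℂ) else 0 with hg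
  set g' : ℝ → ℂ := fun x => if T ^ 2 ≤ x then (starRingEnd ℂ) (g0 x) * ((T ^ 2 / x : ℝ) : ℂ) else 0 with hg'
  have hgS : ∀ x ∈ S, g x = g0 x * ((T ^ 2 / x : ℝ) : ℂ) := fun x hx => by
    simp only [hg]; rw [if_pos (hSx x hx)]
  have hg'S : ∀ x ∈ S, g' x = (starRingEnd ℂ) (g x) := fun x hx => by
    rw [hgS x hx]; simp only [hg']; rw [if_pos (hSx x hx), map_mul, Complex.conj_ofReal]
  have hgb : ∀ x ∈ S, ‖g x‖ ≤ 1 := fun x hx => by
    rw [hgS x hx, norm_mul, Complex.norm_real, Real.norm_of_nonneg (by have := hSpos x hx; positivity)]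
    have h1 : T ^ 2 / x ≤ 1 := by
      rw [div_le_one (hSpos x hx)]; exact hSx x hx
    have h2 : 0 ≤ T ^ 2 / x := by have := hSpos x hx; positivity
    calc ‖g0 x‖ * (T ^ 2 / x) ≤ 1 * 1 := mul_le_mul (hg0 x) h1 h2 (by norm_num)
      _ = 1 := by norm_num
  have hg'b : ∀ x ∈ S, ‖g' x‖ ≤ 1 := fun x hx => by
    rw [hg'S x hx, Complex.norm_conj]; exact hgb x hx
  -- the identity
  have hid : ∀ x ∈ S, Integrable (fun t : ℝ => K t * F t * (g x * (x : ℂ) ^ (t * Complex.I))) ∧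
      g0 x * ((DD w c x T T1 : ℝ) : ℂ) = ((1 / (2 * Real.pi * T ^ 2) : ℝ) : ℂ) *
        ∫ t : ℝ, K t * F t * (g x * (x : ℂ) ^ (t * Complex.I)) := by
    intro x hx
    have hx0 := hSpos x hx
    obtain ⟨i1, f1⟩ := hF1 w hw c Y x T hc hx0 hTpos
    obtain ⟨i2, f2⟩ := hF1 w hw c Y x T1 hc hx0 hT1p
    have e1 : (fun t : ℝ => K t * F t * (g x * (x : ℂ) ^ (t * Complex.I))) = fun t : ℝ =>
        g x * (Om w (t / T) * (x : ℂ) ^ (t * Complex.I) * Dp Y (fun n => (c n : ℂ)) t) -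
        g x * (Om w (t / T1) * (x : ℂ) ^ (t * Complex.I) * Dp Y (fun n => (c n : ℂ)) t) := by
      funext t
      simp only [hK, hF]
      ring
    refine ⟨?_, ?_⟩
    · rw [e1]
      exact (i1.const_mul _).sub (i2.const_mul _)
    · rw [e1, integral_sub (i1.const_mul _) (i2.const_mul _), integral_const_mul, integral_const_mul]
      unfold DD
      push_cast
      rw [f1, f2, hgS x hx]
      generalize (∫ t : ℝ, Om w (t / T) * (x : ℂ) ^ (t * Complex.I) * Dp Y (fun n => (c n : ℂ)) t) = J1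
      generalize (∫ t : ℝ, Om w (t / T1) * (x : ℂ) ^ (t * Complex.I) * Dp Y (fun n => (c n : ℂ)) t) = J2
      push_cast
      have hx0' : (x : ℂ) ≠ 0 := by exact_mod_cast hx0.ne'
      have hT' : (T : ℂ) ≠ 0 := by exact_mod_cast hTpos.ne'
      have hT1' : (T1 : ℂ) ≠ 0 := by exact_mod_cast hT1p.ne'
      have hpi : (Real.pi : ℂ) ≠ 0 := by exact_mod_cast Real.pi_ne_zero
      field_simp
  have hsum : ∑ x ∈ S, g0 x * ((DD w c x T T1 : ℝ) : ℂ) = ((1 / (2 * Real.pi * T ^ 2) : ℝ) : ℂ) *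
      ∫ t : ℝ, K t * F t * GS S g t := by
    rw [Finset.sum_congr rfl (fun x hx => (hid x hx).2), ← Finset.mul_sum,
      ← integral_finsetSum S (fun x hx => (hid x hx).1)]
    congr 2
    funext t
    unfold GS
    rw [Finset.mul_sum]
  have hintK : Integrable (fun t : ℝ => K t * F t * GS S g t) := by
    have : (fun t : ℝ => K t * F t * GS S g t) =
        fun t : ℝ => ∑ x ∈ S, K t * F t * (g x * (x : ℂ) ^ (t * Complex.I)) := by
      funext t
      unfold GS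
      rw [Finset.mul_sum]
    rw [this]
    exact integrable_finsetSum S (fun x hx => (hid x hx).1)
  -- bound functions
  set Kn : ℝ → ℝ := fun t => ‖K t‖ with hKn
  set P : ℝ → ℝ := fun t => ‖GS S g t‖ * ‖F t‖ with hP
  set P' : ℝ → ℝ := fun t => ‖GS S g' t‖ * ‖F t‖ with hP'
  have hPc : Continuous P := (cont_GS S g hSpos).norm.mul (cont_Dp Y _).norm
  have hP'c : Continuous P' := (cont_GS S g' hSpos).norm.mul (cont_Dp Y _).norm
  have hP0 : ∀ t, 0 ≤ P t := fun t => by positivity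
  have hP'0 : ∀ t, 0 ≤ P' t := fun t => by positivity
  have hFb : ∀ t, ‖F t‖ ≤ M * T ^ 2 := fun t => (norm_Dp_le Y c t).trans hcM
  have hPb : ∀ t, P t ≤ S.card * (M * T ^ 2) := fun t =>
    mul_le_mul (norm_GS_le S g hSpos hgb t) (hFb t) (norm_nonneg _) (by positivity)
  have hP'b : ∀ t, P' t ≤ S.card * (M * T ^ 2) := fun t =>
    mul_le_mul (norm_GS_le S g' hSpos hg'b t) (hFb t) (norm_nonneg _) (by positivity)
  have hintn : Integrable (fun t => Kn t * P t) := by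
    have := hintK.norm
    refine this.congr (Eventually.of_forall ?_)
    intro t
    simp only [hKn, hP, norm_mul]
    ring
  have hintn' : Integrable (fun t => Kn (-t) * P' t) := by
    have := hintn.comp_neg
    refine this.congr (Eventually.of_forall ?_)
    intro t
    simp only [hP, hP']
    rw [norm_GS_neg S g g' hSpos hg'S t]
    simp only [hF]
    rw [norm_Dp_neg Y c t]
  have hKd : ∀ t, Kn t ≤ C2 * (|t| / T1) := by
    intro t
    simp only [hKn, hK]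
    refine (hOl _ _).trans ?_
    refine mul_le_mul_of_nonneg_left ?_ (by linarith)
    have h1 : t / T - t / T1 = -(t * (1 / T1 - 1 / T)) := by ring
    rw [h1, abs_neg, abs_mul]
    have h2 : 1 / T ≤ 1 / T1 := one_div_le_one_div_of_le hT1p hT1T
    have h3 : 0 < 1 / T := by positivity
    rw [abs_of_nonneg (by linarith : 0 ≤ 1 / T1 - 1 / T)]
    calc |t| * (1 / T1 - 1 / T) ≤ |t| * (1 / T1) := mul_le_mul_of_nonneg_left (by linarith) (abs_nonneg t)
      _ = |t| / T1 := by ring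
  have hK2 : ∀ t, Kn t ≤ 2 * C2 := by
    intro t
    simp only [hKn, hK]
    refine (norm_sub_le _ _).trans ?_
    have := hOb (t / T)
    have := hOb (t / T1)
    linarith
  have hdec1 : ∀ (a t : ℝ), 0 < a → a ≤ T → t ≠ 0 → ‖Om w (t / a)‖ ≤ CA * (T / |t|) ^ A := by
    intro a t ha haT ht
    refine (hCA _).trans ?_
    have ht' : 0 < |t| := abs_pos.mpr ht
    rw [abs_div, abs_of_pos ha, div_eq_mul_inv]
    refine mul_le_mul_of_nonneg_left ?_ (by linarith)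
    rw [← inv_pow]
    refine pow_le_pow_left₀ (by positivity) ?_ A
    rw [inv_le_comm₀ (by positivity) (by positivity), inv_div]
    have : |t| / T ≤ |t| / a := div_le_div_of_nonneg_left ht'.le ha haT
    linarith
  have hK3 : ∀ t, t ≠ 0 → Kn t ≤ 2 * CA * (T / |t|) ^ A := by
    intro t ht
    simp only [hKn, hK]
    refine (norm_sub_le _ _).trans ?_
    have h1 := hdec1 T t hTpos le_rfl ht
    have h2 := hdec1 T1 t hT1p hT1T ht
    linarith
  have hplus := half Kn P hPc hP0 (S.card * (M * T ^ 2)) C2 CA T T0 T1 ε A hPb hT hT0 hT0T hT1 hε hA3 hA4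
    (by linarith) (by linarith) (fun t ht => by have := hKd t; rwa [abs_of_nonneg ht] at this) hK2
    (fun t ht => by have := hK3 t ht.ne'; rwa [abs_of_pos ht] at this) (fun t => norm_nonneg _) hintn
  have hminus := half (fun t => Kn (-t)) P' hP'c hP'0 (S.card * (M * T ^ 2)) C2 CA T T0 T1 ε A hP'b hT hT0 hT0T
    hT1 hε hA3 hA4 (by linarith) (by linarith)
    (fun t ht => by have := hKd (-t); rwa [abs_neg, abs_of_nonneg ht] at this) (fun t => hK2 (-t))
    (fun t ht => by have := hK3 (-t) (neg_ne_zero.mpr ht.ne'); rwa [abs_neg, abs_of_pos ht] at this)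
    (fun t => norm_nonneg _) hintn'
  have htot : ∫ t : ℝ, Kn t * P t = (∫ t in Ioi (0 : ℝ), Kn t * P t) + ∫ t in Ioi (0 : ℝ), Kn (-t) * P' t := by
    rw [← intervalIntegral.integral_Iic_add_Ioi (hintn.integrableOn (s := Iic 0)) (hintn.integrableOn (s := Ioi 0)),
      add_comm]
    congr 1
    have : ∫ t in Ioi (0 : ℝ), Kn (-t) * P' t = ∫ t in Ioi (0 : ℝ), (fun s => Kn s * P s) (-t) := by
      refine setIntegral_congr_fun measurableSet_Ioi ?_
      intro t _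
      simp only [hP, hP']
      rw [norm_GS_neg S g g' hSpos hg'S t]
      simp only [hF]
      rw [norm_Dp_neg Y c t]
    have h9 := integral_comp_neg_Ioi (0 : ℝ) (fun s => Kn s * P s)
    rw [neg_zero] at h9
    rw [this]
    exact h9.symm
  have hmain : S.card * δ ≤ 1 / (2 * Real.pi * T ^ 2) * ∫ t : ℝ, Kn t * P t := by
    refine hres.trans ?_
    rw [hsum, norm_mul, Complex.norm_real, Real.norm_of_nonneg (by positivity)]
    refine mul_le_mul_of_nonneg_left ?_ (by positivity)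
    refine (norm_integral_le_integral_norm _).trans (le_of_eq ?_)
    refine integral_congr_ae (Eventually.of_forall ?_)
    intro t
    simp only [hKn, hP, norm_mul]
    ring
  set I1 := ∫ t in T0..(T ^ (1 + ε)), P t with hI1
  set I2 := ∫ t in T0..(T ^ (1 + ε)), P' t with hI2
  have hpi3 : 3 < Real.pi := Real.pi_gt_three
  -- combine
  have hcomb : S.card * (δ * T ^ 2) ≤ C2 * (I1 + I2) := by
    have hn : (0 : ℝ) ≤ S.card := by positivity
    set X := T0 ^ 2 / T1 with hX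
    have hX0 : 0 ≤ X := by positivity
    have hTi : 0 < 1 / T := by positivity
    have h1 : S.card * δ * (2 * Real.pi * T ^ 2) ≤ ∫ t : ℝ, Kn t * P t := by
      have h2 : 0 < 2 * Real.pi * T ^ 2 := by positivity
      calc S.card * δ * (2 * Real.pi * T ^ 2) ≤
            1 / (2 * Real.pi * T ^ 2) * (∫ t : ℝ, Kn t * P t) * (2 * Real.pi * T ^ 2) :=
          mul_le_mul_of_nonneg_right hmain h2.le
        _ = _ := by field_simp
    have h3 : ∫ t : ℝ, Kn t * P t ≤ 2 * (S.card * (M * T ^ 2) * (C2 * X + 2 * CA / T)) + 2 * C2 * (I1 + I2) := by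
      rw [htot]; linarith
    have h4 : M * (C2 * X + 2 * CA / T) ≤ δ / 2 := by
      have h5 : 16 * (C2 + CA) * M * (X + 1 / T) ≤ δ := hCδ
      have h6 : C2 * X + 2 * CA / T ≤ 2 * (C2 + CA) * (X + 1 / T) := by
        have e : 2 * CA / T = 2 * CA * (1 / T) := by ring
        rw [e]
        nlinarith [mul_nonneg (by linarith : (0:ℝ) ≤ C2 + 2 * CA) hX0, mul_nonneg (by linarith : (0:ℝ) ≤ 2 * C2) hTi.le]
      have h7 : M * (C2 * X + 2 * CA / T) ≤ M * (2 * (C2 + CA) * (X + 1 / T)) := mul_le_mul_of_nonneg_left h6 hM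
      have h8 : 0 ≤ M * ((C2 + CA) * (X + 1 / T)) := by positivity
      nlinarith
    have h9 : S.card * (M * T ^ 2) * (C2 * X + 2 * CA / T) ≤ S.card * T ^ 2 * (δ / 2) := by
      calc S.card * (M * T ^ 2) * (C2 * X + 2 * CA / T) = S.card * T ^ 2 * (M * (C2 * X + 2 * CA / T)) := by ring
        _ ≤ _ := mul_le_mul_of_nonneg_left h4 (by positivity)
    have h10 : S.card * δ * (2 * 3 * T ^ 2) ≤ S.card * δ * (2 * Real.pi * T ^ 2) := by
      have : (0 : ℝ) ≤ S.card * δ * T ^ 2 := by positivity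
      nlinarith
    have h11 : (0 : ℝ) ≤ S.card * (δ * T ^ 2) := by positivity
    nlinarith
  have hlogT : 0 < Real.log T := Real.log_pos (by linarith)
  have hfin : ∀ (G : ℝ → ℂ), (∀ x ∈ S, ‖G x‖ ≤ 1) → S.card * (δ * T ^ 2) ≤ 2 * C2 * ∫ t in T0..(T ^ (1 + ε)), ‖GS S G t‖ * ‖F t‖ →
      ∃ T' : ℝ, T0 ≤ T' ∧ T' ≤ T ^ (1 + ε) ∧ S.card * (δ * T ^ 2) ≤
        16 * (C2 + CA) * Real.log T * ∫ t in T'..(2 * T'), ‖GS S G t‖ * ‖Dp Y (fun n => (c n : ℂ)) t‖ := by
    intro G hG hGI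
    obtain ⟨T', h1, h2, h3⟩ := dyadic (fun t => ‖GS S G t‖ * ‖F t‖)
      ((cont_GS S G hSpos).norm.mul (cont_Dp Y _).norm) (fun t => by positivity) T T0 (T ^ (1 + ε)) hT hT0
      (by linarith) hR2
    refine ⟨T', h1, h2, hGI.trans ?_⟩
    have h4 : 0 ≤ ∫ t in T'..(2 * T'), ‖GS S G t‖ * ‖F t‖ :=
      intervalIntegral.integral_nonneg (by linarith) (fun t _ => by positivity)
    calc 2 * C2 * ∫ t in T0..(T ^ (1 + ε)), ‖GS S G t‖ * ‖F t‖
        ≤ 2 * C2 * (4 * Real.log T * ∫ t in T'..(2 * T'), ‖GS S G t‖ * ‖F t‖) :=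
          mul_le_mul_of_nonneg_left h3 (by linarith)
      _ = 8 * C2 * (Real.log T * ∫ t in T'..(2 * T'), ‖GS S G t‖ * ‖F t‖) := by ring
      _ ≤ 16 * (C2 + CA) * (Real.log T * ∫ t in T'..(2 * T'), ‖GS S G t‖ * ‖F t‖) :=
          mul_le_mul_of_nonneg_right (by linarith) (by positivity)
      _ = _ := by ring
  rcases le_total I2 I1 with h | h
  · obtain ⟨T', h1, h2, h3⟩ := hfin g hgb (by
      have : 0 ≤ C2 := by linarith
      nlinarith)
    exact ⟨T', g, h1, h2, Or.inl (fun x => rfl), h3⟩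
  · obtain ⟨T', h1, h2, h3⟩ := hfin g' hg'b (by
      have : 0 ≤ C2 := by linarith
      nlinarith)
    exact ⟨T', g', h1, h2, Or.inr (fun x => rfl), h3⟩

end Pool.Agent.Work.MP_a8fbd7_nt.OX.ASM
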