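/-
MP_a8fbd7_nt, block OX, part ASM, item Rg: relevant boxes.  Author: helper9.
-/
import Pool.Agent.Work.MP_a8fbd7_nt.OX.ASM.Stmts

set_option autoImplicit false

open MeasureTheory Set Filter Topology

namespace Pool.Agent.Work.MP_a8fbd7_nt.OX.ASM

open Pool.Agent.Work.MP_56b8f5_nt.UC (IsWt Bl Dp Om psi eta Sep)
open Pool.Agent.Work.MP_a8fbd7_nt.OX.ID (Rough roughOne pb rg)

namespace Rg_aux

theorem psi_supp {x : ℝ} (h : psi x ≠ 0) : 1 / 2 ≤ x ∧ x ≤ 2 := by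
  have h1 : ∀ y : ℝ, y ≤ 1 → eta y = 1 := fun y hy => Real.smoothTransition.one_of_one_le (by linarith)
  have h0 : ∀ y : ℝ, 2 ≤ y → eta y = 0 := fun y hy => Real.smoothTransition.zero_of_nonpos (by linarith)
  constructor
  · by_contra h2
    apply h
    unfold psi
    rw [h1 x (by linarith), h1 (2 * x) (by linarith), sub_self]
  · by_contra h2
    apply h
    unfold psi
    rw [h0 x (by linarith), h0 (2 * x) (by linarith), sub_self]

/-- upper end of the support of a slot -/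
def Yn : Option ℕ → ℕ
  | none => 2
  | some l => 2 * 2 ^ l

theorem Yn_cast (o : Option ℕ) : ((Yn o : ℕ) : ℝ) = 2 * sc o := by
  cases o <;> simp [Yn, sc]

theorem sc_pos (o : Option ℕ) : 0 < sc o := by
  cases o <;> simp [sc]

theorem one_supp (n : ℕ) (h : (1 : ArithmeticFunction ℝ) n ≠ 0) : sc none / 2 ≤ n ∧ n ≤ Yn none := by
  have h1 : n = 1 := by
    by_contra h2
    exact h (ArithmeticFunction.one_apply_ne h2)
  subst h1
  constructor
  · simp only [sc]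
    norm_num
  · simp [Yn]

theorem psi_supp2 (l n : ℕ) (h : psi ((n : ℝ) / 2 ^ l) ≠ 0) : sc (some l) / 2 ≤ n ∧ n ≤ Yn (some l) := by
  have h2 : (0 : ℝ) < 2 ^ l := by positivity
  obtain ⟨h3, h4⟩ := psi_supp h
  constructor
  · simp only [sc]
    rw [le_div_iff₀ h2] at h3
    linarith
  · rw [div_le_iff₀ h2] at h4
    simp only [Yn]
    exact_mod_cast h4

theorem ms_supp (y : ℕ) (o : Option ℕ) (n : ℕ) (h : ms y o n ≠ 0) : sc o / 2 ≤ n ∧ n ≤ Yn o := by
  cases o with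
  | none => exact one_supp n h
  | some l => exact psi_supp2 l n (right_ne_zero_of_mul h)

theorem ps_supp (y z : ℕ) (o : Option ℕ) (n : ℕ) (h : ps y z o n ≠ 0) : sc o / 2 ≤ n ∧ n ≤ Yn o := by
  cases o with
  | none => exact one_supp n h
  | some l => exact psi_supp2 l n (right_ne_zero_of_mul h)

theorem msA_supp (y : ℕ) (T κ : ℝ) (lw : ℕ → ℝ) (o : Option ℕ) (n : ℕ) (h : msA y T κ lw o n ≠ 0) :
    sc o / 2 ≤ n ∧ n ≤ Yn o := by
  cases o with
  | none => exact one_supp n h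
  | some l =>
    simp only [msA] at h
    split_ifs at h with hc
    · exact psi_supp2 l n (left_ne_zero_of_mul h)
    · exact psi_supp2 l n (right_ne_zero_of_mul h)

/-- support of a product of slot functions -/
theorem prod_supp (hPd : StPd) {S : ℕ} (u : Fin 3 → Option ℕ) (v : Fin S → Option ℕ)
    (f : Fin 3 → ArithmeticFunction ℝ) (g : Fin S → ArithmeticFunction ℝ)
    (hf : ∀ i n, f i n ≠ 0 → sc (u i) / 2 ≤ n ∧ n ≤ Yn (u i))
    (hg : ∀ i n, g i n ≠ 0 → sc (v i) / 2 ≤ n ∧ n ≤ Yn (v i)) (n : ℕ)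
    (hn : ((∏ i, f i) * ∏ r, g r) n ≠ 0) :
    1 ≤ n ∧ PS u v / 2 ^ (3 + S) ≤ n ∧ (n : ℝ) ≤ 2 ^ (3 + S) * PS u v := by
  have h := hPd (Fin 3 ⊕ Fin S) Finset.univ (Sum.elim f g)
    (Sum.elim (fun i => sc (u i) / 2) (fun i => sc (v i) / 2))
    (Sum.elim (fun i => Yn (u i)) (fun i => Yn (v i)))
    (by
      rintro (i | i) -
      · have := sc_pos (u i)
        simp only [Sum.elim_inl]
        positivity
      · have := sc_pos (v i)
        simp only [Sum.elim_inr]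
        positivity)
    (by
      rintro (i | i) - m hm
      · exact hf i m hm
      · exact hg i m hm)
  rw [Fintype.prod_sum_type, Fintype.prod_sum_type, Fintype.prod_sum_type] at h
  simp only [Sum.elim_inl, Sum.elim_inr] at h
  obtain ⟨h1, h2, h3⟩ := h.1 n hn
  refine ⟨h1, ?_, ?_⟩
  · refine le_trans (le_of_eq ?_) h2
    rw [Finset.prod_div_distrib, Finset.prod_div_distrib]
    simp only [Finset.prod_const, Finset.card_univ, Fintype.card_fin]
    unfold PS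
    rw [pow_add]
    field_simp
  · have h4 : (n : ℝ) ≤ (((∏ i, Yn (u i)) * ∏ i, Yn (v i) : ℕ) : ℝ) := by exact_mod_cast h3
    refine h4.trans (le_of_eq ?_)
    push_cast
    simp only [Yn_cast, Finset.prod_mul_distrib, Finset.prod_const, Finset.card_univ, Fintype.card_fin]
    unfold PS
    rw [pow_add]
    ring

/-- a nonzero window sum has a nonzero term -/
theorem sw_ne (w : ℝ → ℝ) (c : ℕ → ℝ) (x T' : ℝ) (h : SW w c x T' ≠ 0) :
    ∃ n : ℕ, c n ≠ 0 ∧ w (((n : ℝ) / x) ^ T') ≠ 0 := by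
  by_contra h1
  push Not at h1
  apply h
  unfold SW
  have h2 : (fun n : ℕ => c n * w (((n : ℝ) / x) ^ T')) = fun _ => 0 := by
    funext n
    by_cases h3 : c n = 0
    · rw [h3, zero_mul]
    · rw [h1 n h3, mul_zero]
  rw [h2, tsum_zero]

/-- the window -/
theorem window (a b u T' : ℝ) (hu : 0 < u) (hT' : 1 ≤ T')
    (h1 : a ≤ u ^ T') (h2 : u ^ T' ≤ b) : min a 1 ≤ u ∧ u ≤ max b 1 := by
  constructor
  · by_contra h
    push Not at h
    have h3 : u < a := h.trans_le (min_le_left _ _)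
    have h4 : u < 1 := h.trans_le (min_le_right _ _)
    have h5 : u ^ T' ≤ u ^ (1 : ℝ) := Real.rpow_le_rpow_of_exponent_ge hu h4.le hT'
    rw [Real.rpow_one] at h5
    linarith
  · by_contra h
    push Not at h
    have h3 : b < u := (le_max_left _ _).trans_lt h
    have h4 : 1 < u := (le_max_right _ _).trans_lt h
    have h5 : u ^ (1 : ℝ) ≤ u ^ T' := Real.rpow_le_rpow_of_exponent_le h4.le hT'
    rw [Real.rpow_one] at h5
    linarith

end Rg_aux

theorem iRg (hPd : StPd) : StRg := by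
  intro w hw S
  obtain ⟨-, a, b, ha, hab, hsupp⟩ := hw
  have hm : 0 < min a 1 := lt_min ha one_pos
  have hm1 : min a 1 ≤ 1 := min_le_right _ _
  have hM1 : 1 ≤ max b 1 := le_max_right _ _
  have hP : (1 : ℝ) ≤ 2 ^ (3 + S) := one_le_pow₀ (by norm_num)
  have hP0 : (0 : ℝ) < 2 ^ (3 + S) := by positivity
  have hmi : 1 ≤ 1 / min a 1 := by
    rw [le_div_iff₀ hm]
    linarith
  refine ⟨2 ^ (3 + S) * (4 * max b 1) * (1 / min a 1), ?_, ?_⟩
  · have h1 : (1 : ℝ) ≤ 4 * max b 1 := by linarith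
    exact one_le_mul_of_one_le_of_one_le (one_le_mul_of_one_le_of_one_le hP h1) hmi
  intro T κ x T' y z lw u v hT hT' hx1 hx2 hSW
  have hT0 : 0 < T ^ 2 := by positivity
  have hx0 : 0 < x := hT0.trans_le hx1
  have hPS : 0 < PS u v := by
    unfold PS
    exact mul_pos (Finset.prod_pos fun i _ => Rg_aux.sc_pos _) (Finset.prod_pos fun i _ => Rg_aux.sc_pos _)
  obtain ⟨n, hn1, hlo, hup, hwn⟩ : ∃ n : ℕ, 1 ≤ n ∧ PS u v / 2 ^ (3 + S) ≤ n ∧
      (n : ℝ) ≤ 2 ^ (3 + S) * PS u v ∧ w (((n : ℝ) / x) ^ T') ≠ 0 := by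
    rcases hSW with h | h
    · obtain ⟨n, h1, h2⟩ := Rg_aux.sw_ne w _ x T' h
      obtain ⟨h3, h4, h5⟩ := Rg_aux.prod_supp hPd u v (fun i => ms y (u i)) (fun r => ps y z (v r))
        (fun i n => Rg_aux.ms_supp y (u i) n) (fun i n => Rg_aux.ps_supp y z (v i) n) n h1
      exact ⟨n, h3, h4, h5, h2⟩
    · obtain ⟨n, h1, h2⟩ := Rg_aux.sw_ne w _ x T' h
      obtain ⟨h3, h4, h5⟩ := Rg_aux.prod_supp hPd u v (fun i => msA y T κ (lw i) (u i))
        (fun r => ps y z (v r)) (fun i n => Rg_aux.msA_supp y T κ (lw i) (u i) n)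
        (fun i n => Rg_aux.ps_supp y z (v i) n) n h1
      exact ⟨n, h3, h4, h5, h2⟩
  have hn0 : (0 : ℝ) < n := by
    have : (1 : ℝ) ≤ n := by exact_mod_cast hn1
    linarith
  have hu0 : 0 < (n : ℝ) / x := div_pos hn0 hx0
  obtain ⟨h1, h2⟩ := hsupp _ hwn
  obtain ⟨h3, h4⟩ := Rg_aux.window a b _ T' hu0 hT' h1 h2
  rw [le_div_iff₀ hx0] at h3
  rw [div_le_iff₀ hx0] at h4
  have h5 : min a 1 * T ^ 2 ≤ n := le_trans (mul_le_mul_of_nonneg_left hx1 hm.le) h3
  have h6 : (n : ℝ) ≤ max b 1 * (4 * T ^ 2) :=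
    h4.trans (mul_le_mul_of_nonneg_left hx2 (by linarith))
  constructor
  · rw [div_le_iff₀ (by positivity)]
    have h7 : min a 1 * T ^ 2 ≤ 2 ^ (3 + S) * PS u v := h5.trans hup
    have h8 : T ^ 2 ≤ 2 ^ (3 + S) * PS u v * (1 / min a 1) := by
      rw [mul_one_div, le_div_iff₀ hm]
      linarith
    have h9 : 2 ^ (3 + S) * PS u v * (1 / min a 1) * 1 ≤
        2 ^ (3 + S) * PS u v * (1 / min a 1) * (4 * max b 1) :=
      mul_le_mul_of_nonneg_left (by linarith) (by positivity)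
    calc T ^ 2 ≤ 2 ^ (3 + S) * PS u v * (1 / min a 1) * 1 := by linarith
      _ ≤ 2 ^ (3 + S) * PS u v * (1 / min a 1) * (4 * max b 1) := h9
      _ = PS u v * (2 ^ (3 + S) * (4 * max b 1) * (1 / min a 1)) := by ring
  · have h7 : PS u v ≤ 2 ^ (3 + S) * (max b 1 * (4 * T ^ 2)) := by
      rw [div_le_iff₀ hP0] at hlo
      have h8 : (n : ℝ) * 2 ^ (3 + S) ≤ max b 1 * (4 * T ^ 2) * 2 ^ (3 + S) :=
        mul_le_mul_of_nonneg_right h6 hP0.le
      linarith
    have h9 : 2 ^ (3 + S) * (max b 1 * (4 * T ^ 2)) * 1 ≤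
        2 ^ (3 + S) * (max b 1 * (4 * T ^ 2)) * (1 / min a 1) :=
      mul_le_mul_of_nonneg_left hmi (by positivity)
    calc PS u v ≤ 2 ^ (3 + S) * (max b 1 * (4 * T ^ 2)) * 1 := by linarith
      _ ≤ 2 ^ (3 + S) * (max b 1 * (4 * T ^ 2)) * (1 / min a 1) := h9
      _ = 2 ^ (3 + S) * (4 * max b 1) * (1 / min a 1) * T ^ 2 := by ring

end Pool.Agent.Work.MP_a8fbd7_nt.OX.ASM
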