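import Mathlib
import Pool.Agent.Work.MP_a8fbd7_nt.OX.ASM.Stmts
import Pool.Agent.Work.MP_56b8f5_nt.UC.I_Ow
import Pool.Agent.Work.MP_56b8f5_nt.UC.I_Bc

set_option autoImplicit false

open MeasureTheory Set Filter Topology

noncomputable section

namespace Pool.Agent.Work.MP_a8fbd7_nt.OX.ASM

open Pool.Agent.Work.MP_56b8f5_nt.UC (IsWt Bl Dp Om psi eta Sep)

namespace Rp_aux

theorem isWt_psi : IsWt psi :=
  ⟨Pool.Agent.Work.MP_56b8f5_nt.UC.psi_smooth, 1 / 2, 2, by norm_num, by norm_num,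
    fun _ hx => Pool.Agent.Work.MP_56b8f5_nt.UC.psi_supp hx⟩

theorem continuous_PB (b : ℕ → ℂ) (L : ℝ) : Continuous fun t : ℝ => PB b L t := by
  unfold PB Dp
  refine continuous_finsetSum _ fun n hn => continuous_const.mul ?_
  have hn0 : (n : ℂ) ≠ 0 := by
    have := (Finset.mem_Icc.1 hn).1
    exact_mod_cast (by omega : n ≠ 0)
  exact Continuous.const_cpow (by fun_prop) (Or.inl hn0)

theorem main (η C : ℝ) (hC : 1 ≤ C) (hη : 0 < η)
    (hRe : ∀ (T T' N : ℝ) (H : ℝ → ℝ), C ≤ T → T ^ (1 / 10 : ℝ) ≤ T' →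
      T' ≤ T ^ (1 + η) → T ^ (1 / 2 + 2 * η) ≤ N → N ≤ T ^ 3 → Continuous H → (∀ t, 0 ≤ H t) →
      (∫ t in T'..(2 * T'), H t * ‖Bl psi N t‖ ≤
        C * Real.sqrt N * T ^ (η / 2) * ∫ t in T'..(2 * T'), H t) ∨
      ∃ (b : ℕ → ℂ) (L : ℝ), IsBlk b L ∧ T ^ η / 2 ≤ L ∧ L ≤ T ^ (1 / 2 : ℝ) ∧ L * N ≤ C * T' ∧
        ∫ t in T'..(2 * T'), H t * ‖Bl psi N t‖ ≤
          C * Real.sqrt N * ∫ t in T'..(2 * T'), H t * (‖PB b L t‖ / Real.sqrt L))
    (hBl : ∀ N : ℝ, 0 < N → Continuous (Bl psi N))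
    (T T' : ℝ) (hT : C ≤ T) (hT1 : T ^ (1 / 10 : ℝ) ≤ T') (hT2 : T' ≤ T ^ (1 + η)) :
    ∀ (r : ℕ) (N : Fin r → ℝ) (H : ℝ → ℝ), (∀ i, T ^ (1 / 2 + 2 * η) ≤ N i ∧ N i ≤ T ^ 3) →
      Continuous H → (∀ t, 0 ≤ H t) →
      ∃ (I : Finset (Fin r)) (b : Fin r → ℕ → ℂ) (L : Fin r → ℝ),
        (∀ i ∈ I, IsBlk (b i) (L i) ∧ T ^ η / 2 ≤ L i ∧ L i ≤ T ^ (1 / 2 : ℝ) ∧
          L i * N i ≤ C * T') ∧
        ∫ t in T'..(2 * T'), H t * ∏ i, ‖Bl psi (N i) t‖ ≤
          (C * T ^ (η / 2)) ^ r * (∏ i, Real.sqrt (N i)) *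
            ∫ t in T'..(2 * T'), H t * ∏ i ∈ I, (‖PB (b i) (L i) t‖ / Real.sqrt (L i)) := by
  have hT0 : 1 ≤ T := hC.trans hT
  have hTp : 0 < T := by linarith
  have hT'0 : 0 < T' := lt_of_lt_of_le (Real.rpow_pos_of_pos hTp _) hT1
  have hle : T' ≤ 2 * T' := by linarith
  have hTη : 1 ≤ T ^ (η / 2) := Real.one_le_rpow hT0 (by linarith)
  intro r
  induction r with
  | zero =>
    intro N H _ _ _
    exact ⟨∅, fun _ _ => 0, fun _ => 0, fun i hi => absurd hi (Finset.notMem_empty i), by simp⟩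
  | succ r ih =>
    intro N H hN hH hH0
    have hNpos : ∀ i, 0 < N i := fun i => lt_of_lt_of_le (Real.rpow_pos_of_pos hTp _) (hN i).1
    set G : ℝ → ℝ := fun t => ∏ i : Fin r, ‖Bl psi (N i.succ) t‖ with hG
    have hGc : Continuous G := continuous_finsetProd _ fun i _ => (hBl _ (hNpos _)).norm
    have hG0 : ∀ t, 0 ≤ G t := fun t => Finset.prod_nonneg fun i _ => norm_nonneg _
    have hsplit : ∀ t, H t * ∏ i, ‖Bl psi (N i) t‖ = H t * G t * ‖Bl psi (N 0) t‖ := by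
      intro t
      rw [Fin.prod_univ_succ]
      simp only [hG]
      ring
    have hs0 : 0 ≤ Real.sqrt (N 0) := Real.sqrt_nonneg _
    have hs1 : 0 ≤ ∏ i : Fin r, Real.sqrt (N i.succ) :=
      Finset.prod_nonneg fun i _ => Real.sqrt_nonneg _
    have hCT : 0 ≤ C * T ^ (η / 2) := by positivity
    rcases hRe T T' (N 0) (fun t => H t * G t) hT hT1 hT2 (hN 0).1 (hN 0).2 (hH.mul hGc)
      (fun t => mul_nonneg (hH0 t) (hG0 t)) with h | ⟨b0, L0, hb0, hL0, hL1, hL2, h⟩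
    · obtain ⟨I, b, L, hI, hI2⟩ := ih (fun i => N i.succ) H (fun i => hN i.succ) hH hH0
      refine ⟨I.map (Fin.succEmb r), Fin.cons (fun _ => 0) b, Fin.cons 0 L, fun i hi => ?_, ?_⟩
      · obtain ⟨j, hj, rfl⟩ := Finset.mem_map.1 hi
        simpa using hI j hj
      · have e1 : (∫ t in T'..(2 * T'), H t * ∏ i, ‖Bl psi (N i) t‖) =
            ∫ t in T'..(2 * T'), H t * G t * ‖Bl psi (N 0) t‖ :=
          intervalIntegral.integral_congr fun t _ => hsplit t
        have e2 : (∫ t in T'..(2 * T'), H t * ∏ i ∈ I.map (Fin.succEmb r),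
              (‖PB ((Fin.cons (fun _ => 0) b : Fin (r + 1) → ℕ → ℂ) i)
                ((Fin.cons 0 L : Fin (r + 1) → ℝ) i) t‖ /
                Real.sqrt ((Fin.cons 0 L : Fin (r + 1) → ℝ) i))) =
            ∫ t in T'..(2 * T'), H t * ∏ i ∈ I, (‖PB (b i) (L i) t‖ / Real.sqrt (L i)) := by
          refine intervalIntegral.integral_congr fun t _ => ?_
          simp only [Finset.prod_map, Fin.coe_succEmb, Fin.cons_succ]
        rw [e1, e2, Fin.prod_univ_succ, pow_succ]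
        calc (∫ t in T'..(2 * T'), H t * G t * ‖Bl psi (N 0) t‖)
            ≤ C * Real.sqrt (N 0) * T ^ (η / 2) * ∫ t in T'..(2 * T'), H t * G t := h
          _ ≤ C * Real.sqrt (N 0) * T ^ (η / 2) * ((C * T ^ (η / 2)) ^ r *
                (∏ i : Fin r, Real.sqrt (N i.succ)) *
                ∫ t in T'..(2 * T'), H t * ∏ i ∈ I, (‖PB (b i) (L i) t‖ / Real.sqrt (L i))) :=
              mul_le_mul_of_nonneg_left hI2 (by positivity)
          _ = _ := by ring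
    · have hL0p : 0 < L0 := lt_of_lt_of_le (by positivity) hL0
      set H2 : ℝ → ℝ := fun t => H t * (‖PB b0 L0 t‖ / Real.sqrt L0) with hH2
      have hH2c : Continuous H2 := hH.mul ((continuous_PB b0 L0).norm.div_const _)
      have hH20 : ∀ t, 0 ≤ H2 t := fun t => mul_nonneg (hH0 t) (by positivity)
      obtain ⟨I, b, L, hI, hI2⟩ := ih (fun i => N i.succ) H2 (fun i => hN i.succ) hH2c hH20
      have h0 : (0 : Fin (r + 1)) ∉ I.map (Fin.succEmb r) := by
        intro h0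
        obtain ⟨j, -, hj⟩ := Finset.mem_map.1 h0
        exact Fin.succ_ne_zero j hj
      refine ⟨insert 0 (I.map (Fin.succEmb r)), Fin.cons b0 b, Fin.cons L0 L, fun i hi => ?_, ?_⟩
      · rcases Finset.mem_insert.1 hi with rfl | hi
        · exact ⟨hb0, hL0, hL1, hL2⟩
        · obtain ⟨j, hj, rfl⟩ := Finset.mem_map.1 hi
          simpa using hI j hj
      · have e1 : (∫ t in T'..(2 * T'), H t * ∏ i, ‖Bl psi (N i) t‖) =
            ∫ t in T'..(2 * T'), H t * G t * ‖Bl psi (N 0) t‖ :=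
          intervalIntegral.integral_congr fun t _ => hsplit t
        have e3 : (∫ t in T'..(2 * T'), H t * G t * (‖PB b0 L0 t‖ / Real.sqrt L0)) =
            ∫ t in T'..(2 * T'), H2 t * ∏ i : Fin r, ‖Bl psi (N i.succ) t‖ := by
          refine intervalIntegral.integral_congr fun t _ => ?_
          simp only [hH2, hG]
          ring
        have e2 : (∫ t in T'..(2 * T'), H t * ∏ i ∈ insert 0 (I.map (Fin.succEmb r)),
              (‖PB ((Fin.cons b0 b : Fin (r + 1) → ℕ → ℂ) i)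
                ((Fin.cons L0 L : Fin (r + 1) → ℝ) i) t‖ /
                Real.sqrt ((Fin.cons L0 L : Fin (r + 1) → ℝ) i))) =
            ∫ t in T'..(2 * T'), H2 t * ∏ i ∈ I, (‖PB (b i) (L i) t‖ / Real.sqrt (L i)) := by
          refine intervalIntegral.integral_congr fun t _ => ?_
          simp only [Finset.prod_insert h0, Finset.prod_map, Fin.coe_succEmb, Fin.cons_succ,
            Fin.cons_zero, hH2]
          ring
        have hnn : 0 ≤ ∫ t in T'..(2 * T'), H2 t * ∏ i ∈ I, (‖PB (b i) (L i) t‖ / Real.sqrt (L i)) :=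
          intervalIntegral.integral_nonneg hle fun t _ => mul_nonneg (hH20 t)
            (Finset.prod_nonneg fun i _ => by positivity)
        rw [e1, e2, Fin.prod_univ_succ, pow_succ]
        calc (∫ t in T'..(2 * T'), H t * G t * ‖Bl psi (N 0) t‖)
            ≤ C * Real.sqrt (N 0) * ∫ t in T'..(2 * T'), H t * G t * (‖PB b0 L0 t‖ / Real.sqrt L0) := h
          _ = C * Real.sqrt (N 0) * ∫ t in T'..(2 * T'), H2 t * ∏ i : Fin r, ‖Bl psi (N i.succ) t‖ := by
              rw [e3]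
          _ ≤ C * Real.sqrt (N 0) * ((C * T ^ (η / 2)) ^ r *
                (∏ i : Fin r, Real.sqrt (N i.succ)) *
                ∫ t in T'..(2 * T'), H2 t * ∏ i ∈ I, (‖PB (b i) (L i) t‖ / Real.sqrt (L i))) :=
              mul_le_mul_of_nonneg_left hI2 (by positivity)
          _ ≤ T ^ (η / 2) * (C * Real.sqrt (N 0) * ((C * T ^ (η / 2)) ^ r *
                (∏ i : Fin r, Real.sqrt (N i.succ)) *
                ∫ t in T'..(2 * T'), H2 t * ∏ i ∈ I, (‖PB (b i) (L i) t‖ / Real.sqrt (L i)))) :=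
              le_mul_of_one_le_left (by positivity) hTη
          _ = _ := by ring

end Rp_aux

theorem iRp (hRe : StRe) : StRp := by
  intro η hη hη1
  obtain ⟨C, hC, h⟩ := hRe η hη hη1
  refine ⟨C ^ 3, one_le_pow₀ hC, ?_⟩
  intro r T T' N H hr hCT hT1 hT2 hN hH hH0
  have hCC : C ≤ C ^ 3 := le_self_pow₀ hC (by norm_num)
  have hT : C ≤ T := hCC.trans hCT
  have hT0 : 1 ≤ T := hC.trans hT
  have hTp : 0 < T := by linarith
  have hT'0 : 0 < T' := lt_of_lt_of_le (Real.rpow_pos_of_pos hTp _) hT1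
  have hBl : ∀ N : ℝ, 0 < N → Continuous (Bl psi N) :=
    (Pool.Agent.Work.MP_56b8f5_nt.UC.iBc psi Rp_aux.isWt_psi).2.1
  obtain ⟨I, b, L, hI, hI2⟩ := Rp_aux.main η C hC hη h hBl T T' hT hT1 hT2 r N H hN hH hH0
  refine ⟨I, b, L, fun i hi => ?_, ?_⟩
  · obtain ⟨h1, h2, h3, h4⟩ := hI i hi
    exact ⟨h1, h2, h3, h4.trans (mul_le_mul_of_nonneg_right hCC hT'0.le)⟩
  · refine hI2.trans ?_
    have hnn : 0 ≤ ∫ t in T'..(2 * T'), H t * ∏ i ∈ I, (‖PB (b i) (L i) t‖ / Real.sqrt (L i)) :=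
      intervalIntegral.integral_nonneg (by linarith) fun t _ => mul_nonneg (hH0 t)
        (Finset.prod_nonneg fun i _ => by positivity)
    have hs : 0 ≤ ∏ i, Real.sqrt (N i) := Finset.prod_nonneg fun i _ => Real.sqrt_nonneg _
    have hpow : (C * T ^ (η / 2)) ^ r ≤ C ^ 3 * T ^ (2 * η) := by
      have h1 : 1 ≤ C * T ^ (η / 2) := by
        have := Real.one_le_rpow hT0 (by linarith : 0 ≤ η / 2)
        nlinarith
      calc (C * T ^ (η / 2)) ^ r ≤ (C * T ^ (η / 2)) ^ 3 := pow_le_pow_right₀ h1 hr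
        _ = C ^ 3 * T ^ (η / 2 * 3) := by
            rw [mul_pow, ← Real.rpow_natCast (T ^ (η / 2)), ← Real.rpow_mul hTp.le]
            norm_num
        _ ≤ C ^ 3 * T ^ (2 * η) :=
            mul_le_mul_of_nonneg_left (Real.rpow_le_rpow_of_exponent_le hT0 (by linarith))
              (by positivity)
    calc (C * T ^ (η / 2)) ^ r * (∏ i, Real.sqrt (N i)) *
          ∫ t in T'..(2 * T'), H t * ∏ i ∈ I, (‖PB (b i) (L i) t‖ / Real.sqrt (L i))
        ≤ C ^ 3 * T ^ (2 * η) * (∏ i, Real.sqrt (N i)) *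
          ∫ t in T'..(2 * T'), H t * ∏ i ∈ I, (‖PB (b i) (L i) t‖ / Real.sqrt (L i)) :=
          mul_le_mul_of_nonneg_right (mul_le_mul_of_nonneg_right hpow hs) hnn
      _ = _ := by ring

end Pool.Agent.Work.MP_a8fbd7_nt.OX.ASM
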