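import Mathlib
import Pool.Agent.Work.MP_a8fbd7_nt.OX.ASM.Stmts
import Pool.Agent.Work.MP_a8fbd7_nt.OX.ASM.I_Rg
import Pool.Agent.Work.MP_a8fbd7_nt.OX.ASM.I_F4
import Pool.Agent.Work.MP_a8fbd7_nt.OX.ASM.I_Rp
import Pool.Agent.Work.MP_56b8f5_nt.UC.I_Ow
import Pool.Agent.Work.MP_56b8f5_nt.UC.I_Bc

/-!
MP_a8fbd7_nt, block OX, part ASM, item AA (boxes with a long slot).  Author: helper1.
-/

set_option autoImplicit false

open MeasureTheory Set Filter Topology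

noncomputable section

namespace Pool.Agent.Work.MP_a8fbd7_nt.OX.ASM

open Pool.Agent.Work.MP_56b8f5_nt.UC (IsWt Bl Dp Om psi eta Sep)
open Pool.Agent.Work.MP_a8fbd7_nt.OX.ID (Rough roughOne pb rg)

namespace AAx

/-! ### Slots -/

theorem abs_psi_le (x : ℝ) : |psi x| ≤ 1 := by
  unfold psi
  have h1 := Pool.Agent.Work.MP_56b8f5_nt.UC.eta_nonneg x
  have h2 := Pool.Agent.Work.MP_56b8f5_nt.UC.eta_le_one x
  have h3 := Pool.Agent.Work.MP_56b8f5_nt.UC.eta_nonneg (2 * x)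
  have h4 := Pool.Agent.Work.MP_56b8f5_nt.UC.eta_le_one (2 * x)
  rw [abs_le]
  constructor <;> linarith

theorem rb_le (y l n : ℕ) : |rb y l n| ≤ 1 := by
  show |roughOne y n * psi ((n : ℝ) / 2 ^ l)| ≤ 1
  rw [abs_mul]
  have h1 : |roughOne y n| ≤ 1 := by
    rw [Pool.Agent.Work.MP_a8fbd7_nt.OX.ID.roughOne_apply]
    split_ifs <;> simp
  exact mul_le_one₀ h1 (abs_nonneg _) (abs_psi_le _)

theorem pbl_le (y z l n : ℕ) : |pbl y z l n| ≤ 1 := by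
  show |pb y z n * psi ((n : ℝ) / 2 ^ l)| ≤ 1
  rw [abs_mul]
  have h1 : |pb y z n| ≤ 1 := by
    show |(if n.Prime ∧ y < n ∧ n ≤ z then (1 : ℝ) else 0)| ≤ 1
    split_ifs <;> simp
  exact mul_le_one₀ h1 (abs_nonneg _) (abs_psi_le _)

theorem one_le (n : ℕ) : |(1 : ArithmeticFunction ℝ) n| ≤ 1 := by
  rw [ArithmeticFunction.one_apply]
  split_ifs <;> simp

/-- a slot function bounded by `1` is a block -/
theorem isBlk_of (f : ArithmeticFunction ℝ) (l : ℕ) (h1 : ∀ n, |f n| ≤ 1)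
    (h2 : ∀ n, f n ≠ 0 → sc (some l) / 2 ≤ n ∧ n ≤ Rg_aux.Yn (some l)) :
    IsBlk (fun n => ((f n : ℝ) : ℂ)) (2 ^ l) := by
  refine ⟨fun n => ?_, fun n hn => ?_⟩
  · rw [Complex.norm_real, Real.norm_eq_abs]
    exact h1 n
  · have h3 : f n ≠ 0 := by
      intro h
      apply hn
      simp [h]
    obtain ⟨h4, h5⟩ := h2 n h3
    refine ⟨h4, ?_⟩
    have h6 : (n : ℝ) ≤ ((Rg_aux.Yn (some l) : ℕ) : ℝ) := by exact_mod_cast h5
    rw [Rg_aux.Yn_cast] at h6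
    exact h6

/-- mass of a slot function bounded by `1` -/
theorem mass_short (f : ArithmeticFunction ℝ) (o : Option ℕ) (h1 : ∀ n, |f n| ≤ 1) :
    ∑ n ∈ Finset.Icc 1 (Rg_aux.Yn o), |f n| ≤ 2 * sc o := by
  calc ∑ n ∈ Finset.Icc 1 (Rg_aux.Yn o), |f n| ≤ ∑ n ∈ Finset.Icc 1 (Rg_aux.Yn o), (1 : ℝ) :=
        Finset.sum_le_sum fun n _ => h1 n
    _ = ((Rg_aux.Yn o : ℕ) : ℝ) := by simp
    _ = 2 * sc o := Rg_aux.Yn_cast o

theorem one_le_sc (o : Option ℕ) : 1 ≤ sc o := by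
  cases o with
  | none => simp [sc]
  | some l =>
    simp only [sc]
    exact one_le_pow₀ (by norm_num)

/-- `Dp` of the constant `1` -/
theorem Dp_one (t : ℝ) : Dp (Rg_aux.Yn none) (fun n => (((1 : ArithmeticFunction ℝ) n : ℝ) : ℂ)) t = 1 := by
  unfold Dp
  have h : Finset.Icc 1 (Rg_aux.Yn none) = {1, 2} := by
    simp only [Rg_aux.Yn]
    decide
  rw [h, Finset.sum_pair (by norm_num)]
  simp

/-- `Dp` at the end of the support is the block -/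
theorem Dp_eq_PB (a : ℕ → ℂ) (l : ℕ) (t : ℝ) : Dp (Rg_aux.Yn (some l)) a t = PB a (2 ^ l) t := by
  unfold PB
  congr 1
  have h : (2 : ℝ) * 2 ^ l = ((2 * 2 ^ l : ℕ) : ℝ) := by push_cast; ring
  rw [h, Nat.floor_natCast]
  rfl

/-- rough numbers exceed the level -/
theorem rough_lt {y n : ℕ} (h : roughOne y n ≠ 0) : y < n := by
  rw [Pool.Agent.Work.MP_a8fbd7_nt.OX.ID.roughOne_apply] at h
  have h1 : 2 ≤ n ∧ Rough y n := by
    by_contra h2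
    exact h (if_neg h2)
  obtain ⟨p, hp, hpn⟩ := Nat.exists_prime_and_dvd (show n ≠ 1 by omega)
  exact lt_of_lt_of_le (h1.2 p hp hpn) (Nat.le_of_dvd (by omega) hpn)

theorem rb_lt {y l : ℕ} (h : rb y l ≠ 0) : (y : ℝ) < 2 * 2 ^ l := by
  obtain ⟨n, hn⟩ := DFunLike.ne_iff.1 h
  have h1 : roughOne y n ≠ 0 := left_ne_zero_of_mul hn
  have h2 := (Rg_aux.psi_supp2 l n (right_ne_zero_of_mul hn)).2
  have h3 : (n : ℝ) ≤ ((Rg_aux.Yn (some l) : ℕ) : ℝ) := by exact_mod_cast h2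
  rw [Rg_aux.Yn_cast] at h3
  have h4 : (y : ℝ) < n := by exact_mod_cast rough_lt h1
  simp only [sc] at h3
  linarith

theorem floor_lt_aux {x : ℝ} {n : ℕ} (h : ⌊x⌋₊ < n) : x < n := by
  exact (Nat.floor_lt' (by omega)).1 h

theorem rb_ge {η T : ℝ} {l : ℕ} (h : rb (zz η T) l ≠ 0) : T ^ η / 2 ≤ (2 : ℝ) ^ l := by
  obtain ⟨n, hn⟩ := DFunLike.ne_iff.1 h
  have h1 : roughOne (zz η T) n ≠ 0 := left_ne_zero_of_mul hn
  have h2 := (Rg_aux.psi_supp2 l n (right_ne_zero_of_mul hn)).2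
  have h3 : (n : ℝ) ≤ ((Rg_aux.Yn (some l) : ℕ) : ℝ) := by exact_mod_cast h2
  rw [Rg_aux.Yn_cast] at h3
  have h4 : T ^ η < n := floor_lt_aux (rough_lt h1)
  simp only [sc] at h3
  linarith

theorem pbl_ge {η T : ℝ} {z l : ℕ} (h : pbl (zz η T) z l ≠ 0) : T ^ η / 2 ≤ (2 : ℝ) ^ l ∧ (2 : ℝ) ^ l ≤ 2 * z := by
  obtain ⟨n, hn⟩ := DFunLike.ne_iff.1 h
  have h1 : pb (zz η T) z n ≠ 0 := left_ne_zero_of_mul hn
  have h1' : n.Prime ∧ zz η T < n ∧ n ≤ z := by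
    by_contra h2
    exact h1 (if_neg h2)
  obtain ⟨h2', h2⟩ := (Rg_aux.psi_supp2 l n (right_ne_zero_of_mul hn))
  have h3 : (n : ℝ) ≤ ((Rg_aux.Yn (some l) : ℕ) : ℝ) := by exact_mod_cast h2
  rw [Rg_aux.Yn_cast] at h3
  have h4 : T ^ η < n := floor_lt_aux h1'.2.1
  have h5 : (n : ℝ) ≤ z := by exact_mod_cast h1'.2.2
  simp only [sc] at h3 h2'
  constructor <;> linarith

/-! ### Choice of one term, reflection over a Finset, families over a Finset -/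

/-- choice of one term in each sum -/
theorem pick {ι : Type} [DecidableEq ι] (D : Finset ℕ) (hD : D.Nonempty) (B : ι → ℕ → ℝ → ℝ)
    (a b : ℝ) (L : Finset ι)
    (hB : ∀ i ∈ L, ∀ k ∈ D, Continuous (B i k)) (hB0 : ∀ i k t, 0 ≤ B i k t) :
    ∀ H : ℝ → ℝ, Continuous H → (∀ t, 0 ≤ H t) → ∃ d : ι → ℕ, (∀ i, d i ∈ D) ∧
      ∫ t in a..b, H t * ∏ i ∈ L, ∑ k ∈ D, B i k t ≤
        (D.card : ℝ) ^ L.card * ∫ t in a..b, H t * ∏ i ∈ L, B i (d i) t := by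
  induction L using Finset.induction_on with
  | empty =>
    intro H hH hH0
    obtain ⟨k, hk⟩ := hD
    exact ⟨fun _ => k, fun _ => hk, by simp⟩
  | insert i L hi ih =>
    intro H hH hH0
    have hBL : ∀ j ∈ L, ∀ k ∈ D, Continuous (B j k) := fun j hj => hB j (Finset.mem_insert_of_mem hj)
    have hBi : ∀ k ∈ D, Continuous (B i k) := hB i (Finset.mem_insert_self _ _)
    have hQc : Continuous fun t => ∏ j ∈ L, ∑ k ∈ D, B j k t :=
      continuous_finsetProd _ fun j hj => continuous_finsetSum _ fun k hk => hBL j hj k hk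
    have h1 : ∫ t in a..b, H t * ∏ j ∈ insert i L, ∑ k ∈ D, B j k t =
        ∑ k ∈ D, ∫ t in a..b, (H t * B i k t) * ∏ j ∈ L, ∑ k ∈ D, B j k t := by
      rw [← intervalIntegral.integral_finsetSum]
      · congr 1
        funext t
        rw [Finset.prod_insert hi, ← mul_assoc, Finset.mul_sum, Finset.sum_mul]
      · intro k hk
        exact ((hH.mul (hBi k hk)).mul hQc).intervalIntegrable _ _
    obtain ⟨k, hk, hmax⟩ := D.exists_max_image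
      (fun k => ∫ t in a..b, (H t * B i k t) * ∏ j ∈ L, ∑ k ∈ D, B j k t) hD
    obtain ⟨d, hd, hle⟩ := ih hBL (fun t => H t * B i k t) (hH.mul (hBi k hk))
      (fun t => mul_nonneg (hH0 t) (hB0 i k t))
    refine ⟨Function.update d i k, ?_, ?_⟩
    · intro j
      by_cases hj : j = i
      · subst hj
        rw [Function.update_self]
        exact hk
      · rw [Function.update_of_ne hj]
        exact hd j
    · rw [h1]
      have h2 : ∑ k ∈ D, ∫ t in a..b, (H t * B i k t) * ∏ j ∈ L, ∑ k ∈ D, B j k t ≤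
          D.card * ∫ t in a..b, (H t * B i k t) * ∏ j ∈ L, ∑ k ∈ D, B j k t := by
        rw [← nsmul_eq_mul]
        exact Finset.sum_le_card_nsmul _ _ _ hmax
      refine h2.trans ?_
      rw [Finset.card_insert_of_notMem hi, pow_succ, mul_comm ((D.card : ℝ) ^ L.card), mul_assoc]
      refine mul_le_mul_of_nonneg_left (hle.trans (le_of_eq ?_)) (by positivity)
      congr 2
      funext t
      rw [Finset.prod_insert hi, Function.update_self, mul_assoc]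
      congr 2
      refine Finset.prod_congr rfl fun j hj => ?_
      rw [Function.update_of_ne]
      rintro rfl
      exact hi hj

theorem prod_fin {ι : Type} (K : Finset ι) (F : ι → ℝ) :
    ∏ i : Fin K.card, F (K.equivFin.symm i) = ∏ j ∈ K, F j := by
  rw [← Finset.prod_coe_sort K F]
  exact Equiv.prod_comp K.equivFin.symm (fun j : K => F j)

/-- `StRp` for a Finset of factors -/
theorem rp_fin (hRp : StRp) (η : ℝ) (hη : 0 < η) (hη1 : η ≤ 1 / 100) : ∃ C : ℝ, 1 ≤ C ∧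
    ∀ (ι : Type) (Ls : Finset ι) (T T' : ℝ) (N : ι → ℝ) (H : ℝ → ℝ), Ls.card ≤ 3 → C ≤ T →
    T ^ (1 / 10 : ℝ) ≤ T' → T' ≤ T ^ (1 + η) → (∀ i ∈ Ls, T ^ (1 / 2 + 2 * η) ≤ N i ∧ N i ≤ T ^ 3) →
    Continuous H → (∀ t, 0 ≤ H t) →
    ∃ (I : Finset ι) (b : ι → ℕ → ℂ) (L : ι → ℝ), I ⊆ Ls ∧
      (∀ i ∈ I, IsBlk (b i) (L i) ∧ T ^ η / 2 ≤ L i ∧ L i ≤ T ^ (1 / 2 : ℝ) ∧ L i * N i ≤ C * T') ∧
      ∫ t in T'..(2 * T'), H t * ∏ i ∈ Ls, ‖Bl psi (N i) t‖ ≤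
        C * (∏ i ∈ Ls, Real.sqrt (N i)) * T ^ (2 * η) *
          ∫ t in T'..(2 * T'), H t * ∏ i ∈ I, (‖PB (b i) (L i) t‖ / Real.sqrt (L i)) := by
  classical
  obtain ⟨C, hC, h⟩ := hRp η hη hη1
  refine ⟨C, hC, ?_⟩
  intro ι Ls T T' N H hcard hT hT1 hT2 hN hH hH0
  obtain ⟨I, b, L, h1, h2⟩ := h Ls.card T T' (fun i => N (Ls.equivFin.symm i)) H hcard hT hT1 hT2
    (fun i => hN _ (Ls.equivFin.symm i).2) hH hH0
  have hinj : Function.Injective (fun i : Fin Ls.card => ((Ls.equivFin.symm i : Ls) : ι)) :=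
    Subtype.val_injective.comp Ls.equivFin.symm.injective
  set b' : ι → ℕ → ℂ := fun j => if hj : j ∈ Ls then b (Ls.equivFin ⟨j, hj⟩) else 0 with hb'
  set L' : ι → ℝ := fun j => if hj : j ∈ Ls then L (Ls.equivFin ⟨j, hj⟩) else 1 with hL'
  have hb1 : ∀ i : Fin Ls.card, b' (Ls.equivFin.symm i) = b i := by
    intro i
    simp [hb']
  have hL1 : ∀ i : Fin Ls.card, L' (Ls.equivFin.symm i) = L i := by
    intro i
    simp [hL']
  refine ⟨I.map ⟨_, hinj⟩, b', L', ?_, ?_, ?_⟩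
  · intro j hj
    rw [Finset.mem_map] at hj
    obtain ⟨i, hi, rfl⟩ := hj
    exact (Ls.equivFin.symm i).2
  · intro j hj
    rw [Finset.mem_map] at hj
    obtain ⟨i, hi, rfl⟩ := hj
    simp only [Function.Embedding.coeFn_mk]
    rw [hb1, hL1]
    exact h1 i hi
  · have e1 : ∀ t, ∏ i ∈ Ls, ‖Bl psi (N i) t‖ = ∏ i : Fin Ls.card, ‖Bl psi (N (Ls.equivFin.symm i)) t‖ :=
      fun t => (prod_fin Ls fun i => ‖Bl psi (N i) t‖).symm
    have e2 : ∏ i ∈ Ls, Real.sqrt (N i) = ∏ i : Fin Ls.card, Real.sqrt (N (Ls.equivFin.symm i)) :=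
      (prod_fin Ls fun i => Real.sqrt (N i)).symm
    have e3 : ∀ t, ∏ i ∈ I.map ⟨_, hinj⟩, (‖PB (b' i) (L' i) t‖ / Real.sqrt (L' i)) =
        ∏ i ∈ I, (‖PB (b i) (L i) t‖ / Real.sqrt (L i)) := by
      intro t
      rw [Finset.prod_map]
      refine Finset.prod_congr rfl fun i _ => ?_
      simp only [Function.Embedding.coeFn_mk]
      rw [hb1, hL1]
    simp only [e1, e2, e3]
    exact h2

/-- families over a Finset as families over `Fin m` -/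
theorem to_fin {ι : Type} (K : Finset ι) (a : ι → ℕ → ℂ) (N : ι → ℝ) :
    ∃ (m : ℕ) (a' : Fin m → ℕ → ℂ) (N' : Fin m → ℝ),
      (∀ i, ∃ j ∈ K, a' i = a j ∧ N' i = N j) ∧ (∏ i, N' i = ∏ j ∈ K, N j) ∧
      ∀ t, ∏ i, ‖PB (a' i) (N' i) t‖ = ∏ j ∈ K, ‖PB (a j) (N j) t‖ :=
  ⟨K.card, fun i => a (K.equivFin.symm i), fun i => N (K.equivFin.symm i),
    fun i => ⟨K.equivFin.symm i, (K.equivFin.symm i).2, rfl, rfl⟩, prod_fin K N,
    fun t => prod_fin K fun j => ‖PB (a j) (N j) t‖⟩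

/-! ### Large `T` -/

theorem ev_log (c a b : ℝ) (hb : 0 < b) : ∀ᶠ T : ℝ in atTop, c * Real.log T ^ a ≤ T ^ b := by
  have hc : (0 : ℝ) < 1 / (|c| + 1) := by positivity
  have h := (isLittleO_log_rpow_rpow_atTop a hb).bound hc
  filter_upwards [h, eventually_ge_atTop (1 : ℝ)] with T h1 h2
  have h3 : 0 ≤ Real.log T := Real.log_nonneg h2
  have h4 : 0 ≤ Real.log T ^ a := Real.rpow_nonneg h3 _
  have h5 : 0 ≤ T ^ b := Real.rpow_nonneg (by linarith) _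
  rw [Real.norm_of_nonneg h4, Real.norm_of_nonneg h5] at h1
  have h6 : c ≤ |c| + 1 := by linarith [le_abs_self c]
  calc c * Real.log T ^ a ≤ (|c| + 1) * Real.log T ^ a := mul_le_mul_of_nonneg_right h6 h4
    _ ≤ (|c| + 1) * (1 / (|c| + 1) * T ^ b) := mul_le_mul_of_nonneg_left h1 (by positivity)
    _ = T ^ b := by
      have : |c| + 1 ≠ 0 := by positivity
      field_simp

theorem ev_low (c a : ℝ) (ha : 0 < a) : ∀ᶠ T : ℝ in atTop, c ≤ Real.log T ^ a :=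
  ((tendsto_rpow_atTop ha).comp Real.tendsto_log_atTop).eventually_ge_atTop c

theorem ev_pow (c a : ℝ) (ha : 0 < a) : ∀ᶠ T : ℝ in atTop, c ≤ T ^ a :=
  (tendsto_rpow_atTop ha).eventually_ge_atTop c

/-! ### Long slots -/

theorem norm_long_le (hTb : StTb) (l : ℕ → ℝ) (j : ℕ) (D t : ℝ) (hl : ∀ d, |l d| ≤ 2)
    (hs : ∀ d, l d ≠ 0 → 1 ≤ d ∧ (d : ℝ) ≤ D) :
    ‖Dp (Rg_aux.Yn (some j)) (fun n => ((tb l j n : ℝ) : ℂ)) t‖ ≤
      ∑ d ∈ Finset.Icc 1 ⌊D⌋₊, 2 * ‖Bl psi (2 ^ j / d) t‖ := by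
  have h := hTb.1 l j D t (Rg_aux.Yn (some j)) hs (le_refl _)
  rw [h]
  refine (norm_sum_le _ _).trans (Finset.sum_le_sum fun d hd => ?_)
  rw [norm_mul, norm_mul, F4_aux.norm_ncpow d (Finset.mem_Icc.1 hd).1, mul_one, Complex.norm_real,
    Real.norm_eq_abs]
  exact mul_le_mul_of_nonneg_right (hl d) (norm_nonneg _)

theorem harm (D : ℝ) (hD : 1 ≤ D) : ∑ d ∈ Finset.Icc 1 ⌊D⌋₊, (1 : ℝ) / d ≤ 1 + Real.log D := by
  have h := harmonic_floor_le_one_add_log D hD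
  rw [harmonic_eq_sum_Icc] at h
  push_cast at h
  simpa only [one_div] using h

theorem long_small (hTb : StTb) (C : ℝ) (hC : 1 ≤ C)
    (hKp : ∀ N t : ℝ, 0 < N → ‖Bl psi N t‖ ≤ C * (N / (1 + t ^ 2) + Real.sqrt (1 + |t|)))
    (T T' t κ' : ℝ) (l : ℕ → ℝ) (j : ℕ) (hT : 1 ≤ T) (hlog : 1 ≤ Real.log T) (hκ : 0 < κ') (hκ1 : κ' ≤ 1 / 20)
    (hT1 : 1 ≤ T') (hT2 : T' ≤ T ^ (1 / 10 : ℝ)) (ht : T' ≤ t) (ht2 : t ≤ 2 * T')
    (hj : T ^ (1 / 2 : ℝ) ≤ 2 ^ j) (hl : ∀ d, |l d| ≤ 2) (hs : ∀ d, l d ≠ 0 → 1 ≤ d ∧ (d : ℝ) ≤ T ^ κ') :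
    ‖Dp (Rg_aux.Yn (some j)) (fun n => ((tb l j n : ℝ) : ℂ)) t‖ ≤ 8 * C * 2 ^ j * Real.log T / T' ^ 2 := by
  have hT0 : 0 < T := by linarith
  have hD1 : 1 ≤ T ^ κ' := Real.one_le_rpow hT hκ.le
  have hT'2 : 0 < T' ^ 2 := by positivity
  have h2j : (0 : ℝ) < 2 ^ j := by positivity
  refine (norm_long_le hTb l j (T ^ κ') t hl hs).trans ?_
  have h1 : ∀ d ∈ Finset.Icc 1 ⌊T ^ κ'⌋₊, 2 * ‖Bl psi (2 ^ j / d) t‖ ≤
      2 * C * 2 ^ j / (1 + t ^ 2) * (1 / d) + 2 * C * Real.sqrt (1 + |t|) := by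
    intro d hd
    have hd0 : (0 : ℝ) < d := by exact_mod_cast (Finset.mem_Icc.1 hd).1
    have h := hKp (2 ^ j / d) t (by positivity)
    have e : 2 * C * 2 ^ j / (1 + t ^ 2) * (1 / d) + 2 * C * Real.sqrt (1 + |t|) =
        2 * (C * (2 ^ j / d / (1 + t ^ 2) + Real.sqrt (1 + |t|))) := by
      field_simp
    rw [e]
    linarith
  refine (Finset.sum_le_sum h1).trans ?_
  rw [Finset.sum_add_distrib, ← Finset.mul_sum, Finset.sum_const, nsmul_eq_mul, Nat.card_Icc, Nat.add_sub_cancel]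
  have h3 := harm (T ^ κ') hD1
  rw [Real.log_rpow hT0] at h3
  have h3' : ∑ d ∈ Finset.Icc 1 ⌊T ^ κ'⌋₊, (1 : ℝ) / d ≤ 2 * Real.log T := by nlinarith
  have h4 : ((⌊T ^ κ'⌋₊ : ℕ) : ℝ) ≤ T ^ κ' := Nat.floor_le (by positivity)
  have h5 : T' ^ 2 ≤ 1 + t ^ 2 := by nlinarith
  have hA : 2 * C * 2 ^ j / (1 + t ^ 2) * ∑ d ∈ Finset.Icc 1 ⌊T ^ κ'⌋₊, (1 : ℝ) / d ≤
      4 * C * 2 ^ j * Real.log T / T' ^ 2 := by
    calc 2 * C * 2 ^ j / (1 + t ^ 2) * ∑ d ∈ Finset.Icc 1 ⌊T ^ κ'⌋₊, (1 : ℝ) / d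
        ≤ 2 * C * 2 ^ j / T' ^ 2 * (2 * Real.log T) := by
          apply mul_le_mul _ h3' (Finset.sum_nonneg fun d _ => by positivity) (by positivity)
          exact div_le_div_of_nonneg_left (by positivity) hT'2 h5
      _ = 4 * C * 2 ^ j * Real.log T / T' ^ 2 := by ring
  have hsq : Real.sqrt (1 + |t|) ≤ 2 * T ^ (1 / 20 : ℝ) := by
    rw [Real.sqrt_le_left (by positivity)]
    have e : (2 * T ^ (1 / 20 : ℝ)) ^ 2 = 4 * T ^ (1 / 10 : ℝ) := by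
      rw [mul_pow, ← Real.rpow_natCast (T ^ (1 / 20 : ℝ)) 2, ← Real.rpow_mul hT0.le]
      norm_num
    rw [e, abs_of_nonneg (by linarith)]
    linarith
  have hB : (⌊T ^ κ'⌋₊ : ℝ) * (2 * C * Real.sqrt (1 + |t|)) ≤ 4 * C * 2 ^ j / T' ^ 2 := by
    rw [le_div_iff₀ hT'2]
    have h6 : T' ^ 2 ≤ T ^ (1 / 5 : ℝ) := by
      have e : T ^ (1 / 5 : ℝ) = (T ^ (1 / 10 : ℝ)) ^ 2 := by
        rw [← Real.rpow_natCast (T ^ (1 / 10 : ℝ)) 2, ← Real.rpow_mul hT0.le]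
        norm_num
      rw [e]
      exact pow_le_pow_left₀ (by linarith) hT2 2
    calc (⌊T ^ κ'⌋₊ : ℝ) * (2 * C * Real.sqrt (1 + |t|)) * T' ^ 2
        ≤ T ^ κ' * (2 * C * (2 * T ^ (1 / 20 : ℝ))) * T ^ (1 / 5 : ℝ) := by
          apply mul_le_mul _ h6 hT'2.le (by positivity)
          apply mul_le_mul h4 _ (by positivity) (by positivity)
          exact mul_le_mul_of_nonneg_left hsq (by positivity)
      _ = 4 * C * (T ^ κ' * T ^ (1 / 20 : ℝ) * T ^ (1 / 5 : ℝ)) := by ring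
      _ = 4 * C * T ^ (κ' + 1 / 20 + 1 / 5) := by rw [← Real.rpow_add hT0, ← Real.rpow_add hT0]
      _ ≤ 4 * C * T ^ (1 / 2 : ℝ) := by
          apply mul_le_mul_of_nonneg_left _ (by positivity)
          exact Real.rpow_le_rpow_of_exponent_le hT (by linarith)
      _ ≤ 4 * C * 2 ^ j := mul_le_mul_of_nonneg_left hj (by positivity)
  have hB' : 4 * C * 2 ^ j / T' ^ 2 ≤ 4 * C * 2 ^ j * Real.log T / T' ^ 2 := by
    apply div_le_div_of_nonneg_right _ hT'2.le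
    have : 0 ≤ 4 * C * 2 ^ j := by positivity
    nlinarith
  calc _ ≤ 4 * C * 2 ^ j * Real.log T / T' ^ 2 + 4 * C * 2 ^ j * Real.log T / T' ^ 2 :=
        add_le_add hA (hB.trans hB')
    _ = 8 * C * 2 ^ j * Real.log T / T' ^ 2 := by ring

/-! ### The data of a box -/

/-- data of the slots of a box: long slots `Ls`, short slots `Ss`, the others are not used -/
structure Dat {ι : Type} (η κ3 κ' T : ℝ) (o : ι → Option ℕ) (f : ι → ArithmeticFunction ℝ)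
    (lt : ι → ℕ → ℝ) (Ls Ss : Finset ι) : Prop where
  disj : Disjoint Ls Ss
  card : Ls.card ≤ 3
  supp : ∀ i n, f i n ≠ 0 → sc (o i) / 2 ≤ n ∧ n ≤ Rg_aux.Yn (o i)
  long : ∀ i ∈ Ls, ∃ l, o i = some l ∧ f i = tb (lt i) l ∧ T ^ (1 / 2 + κ3) < (2 : ℝ) ^ l
  short : ∀ i ∈ Ss, ∃ l, o i = some l ∧ (∀ n, |f i n| ≤ 1) ∧ T ^ η / 2 ≤ (2 : ℝ) ^ l ∧
    (2 : ℝ) ^ l ≤ T ^ (1 / 2 + κ3)
  rest : ∀ i, i ∉ Ls → i ∉ Ss → o i = none ∧ f i = 1
  wt : ∀ i ∈ Ls, ∀ d, |lt i d| ≤ 2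
  ws : ∀ i ∈ Ls, ∀ d, lt i d ≠ 0 → 1 ≤ d ∧ (d : ℝ) ≤ T ^ κ'

section core

variable {ι : Type} [Fintype ι] [DecidableEq ι] {η κ3 κ' T : ℝ} {o : ι → Option ℕ}
  {f : ι → ArithmeticFunction ℝ} {lt : ι → ℕ → ℝ} {Ls Ss : Finset ι}

omit [Fintype ι] in
theorem mass (hD : Dat η κ3 κ' T o f lt Ls Ss) (CT : ℝ) (hCT : 1 ≤ CT)
    (hTb2 : ∀ (l : ℕ → ℝ) (j : ℕ) (D : ℝ) (Y : ℕ), 2 ≤ D → D ≤ 2 ^ j → (∀ d, |l d| ≤ 2) →
      (∀ d, l d ≠ 0 → 1 ≤ d ∧ (d : ℝ) ≤ D) → ∑ n ∈ Finset.Icc 1 Y, |tb l j n| ≤ CT * 2 ^ j * Real.log D)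
    (hT : 1 ≤ T) (hlog : 1 ≤ Real.log T) (hκ : 0 < κ') (hκ1 : κ' ≤ 1 / 20) (hκ3 : 0 < κ3) (h2 : 2 ≤ T ^ κ') (i : ι) :
    ∑ n ∈ Finset.Icc 1 (Rg_aux.Yn (o i)), |f i n| ≤
      ((if i ∈ Ls then CT * Real.log T else 1) * 2) * sc (o i) := by
  have hT0 : 0 < T := by linarith
  by_cases hi : i ∈ Ls
  · rw [if_pos hi]
    obtain ⟨l, hl, hf, hlt⟩ := hD.long i hi
    rw [hl, hf]
    have h3 : T ^ κ' ≤ 2 ^ l := by
      refine le_trans ?_ hlt.le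
      exact Real.rpow_le_rpow_of_exponent_le hT (by linarith)
    refine (hTb2 (lt i) l (T ^ κ') _ h2 h3 (hD.wt i hi) (hD.ws i hi)).trans ?_
    rw [Real.log_rpow hT0]
    simp only [sc]
    have h4 : κ' * Real.log T ≤ 2 * Real.log T := by nlinarith
    calc CT * 2 ^ l * (κ' * Real.log T) ≤ CT * 2 ^ l * (2 * Real.log T) :=
          mul_le_mul_of_nonneg_left h4 (by positivity)
      _ = CT * Real.log T * 2 * 2 ^ l := by ring
  · rw [if_neg hi, one_mul]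
    apply mass_short
    by_cases hi2 : i ∈ Ss
    · exact (hD.short i hi2).choose_spec.2.1
    · rw [(hD.rest i hi hi2).2]
      exact one_le

theorem prod_mass (Ls : Finset ι) (hcard : Ls.card ≤ 3) (CT lg : ℝ) (hCT : 1 ≤ CT) (hlog : 1 ≤ lg) :
    ∏ i : ι, ((if i ∈ Ls then CT * lg else 1) * 2) ≤ (CT * lg) ^ 3 * 2 ^ Fintype.card ι := by
  rw [Finset.prod_mul_distrib, Finset.prod_const, Finset.card_univ, Finset.prod_ite_mem, Finset.univ_inter,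
    Finset.prod_const]
  apply mul_le_mul_of_nonneg_right _ (by positivity)
  exact pow_le_pow_right₀ (one_le_mul_of_one_le_of_one_le hCT hlog) hcard

theorem core_i (hTb : StTb) (hD : Dat η κ3 κ' T o f lt Ls Ss) (CT CK CF CR : ℝ) (hCT : 1 ≤ CT) (hCK : 1 ≤ CK)
    (hCF : 1 ≤ CF) (hCR : 1 ≤ CR)
    (hTb2 : ∀ (l : ℕ → ℝ) (j : ℕ) (D : ℝ) (Y : ℕ), 2 ≤ D → D ≤ 2 ^ j → (∀ d, |l d| ≤ 2) →
      (∀ d, l d ≠ 0 → 1 ≤ d ∧ (d : ℝ) ≤ D) → ∑ n ∈ Finset.Icc 1 Y, |tb l j n| ≤ CT * 2 ^ j * Real.log D)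
    (hKp : ∀ N t : ℝ, 0 < N → ‖Bl psi N t‖ ≤ CK * (N / (1 + t ^ 2) + Real.sqrt (1 + |t|)))
    (hT : 1 ≤ T) (hlog : 1 ≤ Real.log T) (hκ : 0 < κ') (hκ1 : κ' ≤ 1 / 20) (hκ3 : 0 < κ3) (h2 : 2 ≤ T ^ κ')
    (S : Finset ℝ) (hS : S.Nonempty) (hSpos : ∀ x ∈ S, 0 < x) (g : ℝ → ℂ) (hg : ∀ x, ‖g x‖ ≤ 1) (T' δ : ℝ)
    (hT1 : 1 ≤ T') (hT2 : T' ≤ T ^ (1 / 10 : ℝ)) (i0 : ι) (hi0 : i0 ∈ Ls) (hP : ∏ i, sc (o i) ≤ CR * T ^ 2)
    (hmain : S.card * (δ * T ^ 2) ≤ CF * Real.log T * ∫ t in T'..(2 * T'), ‖GS S g t‖ *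
      ∏ i, ‖Dp (Rg_aux.Yn (o i)) (fun n => ((f i n : ℝ) : ℂ)) t‖) :
    T' * δ ≤ (8 * CF * CK * CT ^ 3 * 2 ^ Fintype.card ι * CR) * Real.log T ^ 5 := by
  have hT0 : 0 < T := by linarith
  have hT'0 : 0 < T' := by linarith
  have hlog0 : 0 < Real.log T := by linarith
  set K : ℝ := 8 * CK * Real.log T / T' ^ 2 * ((CT * Real.log T) ^ 3 * 2 ^ Fintype.card ι) * (CR * T ^ 2) with hK
  have hK0 : 0 ≤ K := by positivity
  have hpt : ∀ t ∈ Icc T' (2 * T'), ‖GS S g t‖ *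
      ∏ i, ‖Dp (Rg_aux.Yn (o i)) (fun n => ((f i n : ℝ) : ℂ)) t‖ ≤ S.card * K := by
    intro t ht
    apply mul_le_mul (F4_aux.norm_GS_le S g hSpos (fun x _ => hg x) t) _
      (Finset.prod_nonneg fun i _ => norm_nonneg _) (by positivity)
    have h1 : ∀ i : ι, ‖Dp (Rg_aux.Yn (o i)) (fun n => ((f i n : ℝ) : ℂ)) t‖ ≤
        ((if i ∈ Ls then CT * Real.log T else 1) * 2) * sc (o i) := fun i =>
      (F4_aux.norm_Dp_le _ _ t).trans (mass hD CT hCT hTb2 hT hlog hκ hκ1 hκ3 h2 i)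
    obtain ⟨l, hl, hf, hlt⟩ := hD.long i0 hi0
    have h3 : ‖Dp (Rg_aux.Yn (o i0)) (fun n => ((f i0 n : ℝ) : ℂ)) t‖ ≤
        8 * CK * Real.log T / T' ^ 2 * (((if i0 ∈ Ls then CT * Real.log T else 1) * 2) * sc (o i0)) := by
      rw [hl, hf, if_pos hi0]
      refine (long_small hTb CK hCK hKp T T' t κ' (lt i0) l hT hlog hκ hκ1 hT1 hT2 ht.1 ht.2 ?_
        (hD.wt i0 hi0) (hD.ws i0 hi0)).trans ?_
      · exact le_trans (Real.rpow_le_rpow_of_exponent_le hT (by linarith)) hlt.le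
      · simp only [sc]
        have h4 : 1 ≤ CT * Real.log T * 2 := by
          have := one_le_mul_of_one_le_of_one_le hCT hlog
          linarith
        calc 8 * CK * 2 ^ l * Real.log T / T' ^ 2 = 8 * CK * Real.log T / T' ^ 2 * (1 * 2 ^ l) := by ring
          _ ≤ 8 * CK * Real.log T / T' ^ 2 * (CT * Real.log T * 2 * 2 ^ l) := by
            apply mul_le_mul_of_nonneg_left _ (by positivity)
            exact mul_le_mul_of_nonneg_right h4 (by positivity)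
    rw [← Finset.mul_prod_erase Finset.univ _ (Finset.mem_univ i0)]
    have h5 : ∏ i ∈ Finset.univ.erase i0, ‖Dp (Rg_aux.Yn (o i)) (fun n => ((f i n : ℝ) : ℂ)) t‖ ≤
        ∏ i ∈ Finset.univ.erase i0, (((if i ∈ Ls then CT * Real.log T else 1) * 2) * sc (o i)) :=
      Finset.prod_le_prod (fun i _ => norm_nonneg _) fun i _ => h1 i
    have hW0 : ∀ i : ι, 0 ≤ ((if i ∈ Ls then CT * Real.log T else 1) * 2) * sc (o i) := fun i =>
      le_trans (norm_nonneg _) (h1 i)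
    refine (mul_le_mul h3 h5 (Finset.prod_nonneg fun i _ => norm_nonneg _)
      (mul_nonneg (by positivity) (hW0 i0))).trans ?_
    rw [mul_assoc, Finset.mul_prod_erase Finset.univ
      (fun i => ((if i ∈ Ls then CT * Real.log T else 1) * 2) * sc (o i)) (Finset.mem_univ i0),
      Finset.prod_mul_distrib (g := fun i => sc (o i)), hK, mul_assoc (8 * CK * Real.log T / T' ^ 2)]
    apply mul_le_mul_of_nonneg_left _ (by positivity)
    apply mul_le_mul (prod_mass Ls hD.card CT (Real.log T) hCT hlog) hP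
      (Finset.prod_nonneg fun i _ => (Rg_aux.sc_pos _).le) (by positivity)
  have hint : ∫ t in T'..(2 * T'), ‖GS S g t‖ *
      ∏ i, ‖Dp (Rg_aux.Yn (o i)) (fun n => ((f i n : ℝ) : ℂ)) t‖ ≤ T' * (S.card * K) := by
    have h1 : ∫ t in T'..(2 * T'), ‖GS S g t‖ *
        ∏ i, ‖Dp (Rg_aux.Yn (o i)) (fun n => ((f i n : ℝ) : ℂ)) t‖ ≤ ∫ t in T'..(2 * T'), (S.card * K : ℝ) := by
      apply intervalIntegral.integral_mono_on (by linarith)
      · exact ((F4_aux.cont_GS S g hSpos).norm.mul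
          (continuous_finsetProd _ fun i _ => (F4_aux.cont_Dp _ _).norm)).intervalIntegrable _ _
      · exact continuous_const.intervalIntegrable _ _
      · exact hpt
    rw [intervalIntegral.integral_const] at h1
    refine h1.trans (le_of_eq ?_)
    rw [smul_eq_mul]
    ring
  have h6 : S.card * (δ * T ^ 2) ≤ CF * Real.log T * (T' * (S.card * K)) :=
    hmain.trans (mul_le_mul_of_nonneg_left hint (by positivity))
  have hc : (0 : ℝ) < S.card := by exact_mod_cast hS.card_pos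
  have h7 : δ * T ^ 2 ≤ CF * Real.log T * (T' * K) := by
    have h8 : S.card * (δ * T ^ 2) ≤ S.card * (CF * Real.log T * (T' * K)) := by
      refine h6.trans (le_of_eq ?_)
      ring
    exact le_of_mul_le_mul_left h8 hc
  have h9 : CF * Real.log T * (T' * K) =
      ((8 * CF * CK * CT ^ 3 * 2 ^ Fintype.card ι * CR) * Real.log T ^ 5) / T' * T ^ 2 := by
    rw [hK]
    field_simp
  rw [h9] at h7
  have h10 : δ ≤ ((8 * CF * CK * CT ^ 3 * 2 ^ Fintype.card ι * CR) * Real.log T ^ 5) / T' :=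
    le_of_mul_le_mul_right h7 (by positivity)
  rw [le_div_iff₀ hT'0] at h10
  linarith

omit [Fintype ι] [DecidableEq ι] in
theorem one_le_prod_sc (K : Finset ι) (o : ι → Option ℕ) : 1 ≤ ∏ i ∈ K, sc (o i) := by
  have h : ∏ i ∈ K, (1 : ℝ) ≤ ∏ i ∈ K, sc (o i) :=
    Finset.prod_le_prod (fun i _ => zero_le_one) fun i _ => one_le_sc (o i)
  simpa using h

theorem sc_le_prod (o : ι → Option ℕ) (i : ι) : sc (o i) ≤ ∏ i, sc (o i) := by
  rw [← Finset.mul_prod_erase Finset.univ (fun i => sc (o i)) (Finset.mem_univ i)]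
  have h := one_le_prod_sc (Finset.univ.erase i) o
  have h1 := (Rg_aux.sc_pos (o i)).le
  nlinarith

theorem prod_split (hD : Dat η κ3 κ' T o f lt Ls Ss) (h : ι → ℝ) (h1 : ∀ i, i ∉ Ls → i ∉ Ss → h i = 1) :
    ∏ i, h i = (∏ i ∈ Ss, h i) * ∏ i ∈ Ls, h i := by
  rw [mul_comm, ← Finset.prod_union hD.disj]
  symm
  apply Finset.prod_subset (Finset.subset_univ _)
  intro i _ hi
  rw [Finset.mem_union, not_or] at hi
  exact h1 i hi.1 hi.2

omit [Fintype ι] [DecidableEq ι] in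
theorem sum_long (hTb : StTb) (hD : Dat η κ3 κ' T o f lt Ls Ss) (t : ℝ) (i : ι) (hi : i ∈ Ls) :
    ‖Dp (Rg_aux.Yn (o i)) (fun n => ((f i n : ℝ) : ℂ)) t‖ ≤
      ∑ d ∈ Finset.Icc 1 ⌊T ^ κ'⌋₊, 2 * ‖Bl psi (sc (o i) / d) t‖ := by
  obtain ⟨l, hl, hf, hlt⟩ := hD.long i hi
  rw [hl, hf]
  exact norm_long_le hTb (lt i) l (T ^ κ') t (hD.wt i hi) (hD.ws i hi)

/-- the length of the reflected product -/
theorem length (hD : Dat η κ3 κ' T o f lt Ls Ss) (κ2 Cr CR T' : ℝ) (hCr : 1 ≤ Cr)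
    (hT : 1 ≤ T) (hκ : 0 < κ') (hκ21 : κ2 ≤ 1 / 20) (hκ32 : κ3 ≤ κ2 / 10) (hκ'3 : κ' ≤ κ3 / 10)
    (hC1 : Cr ≤ T ^ κ') (hC2 : CR * Cr ≤ T ^ κ') (hT'0 : 0 < T')
    (hT'2 : T' ≤ T ^ (1 + κ')) (hP : ∏ i, sc (o i) ≤ CR * T ^ 2) (i0 : ι) (hi0 : i0 ∈ Ls)
    (hlong : T ^ (1 / 2 + κ2) < sc (o i0))
    (I : Finset ι) (hI : I ⊆ Ls) (L : ι → ℝ) (hL0 : ∀ i ∈ I, 0 < L i) (d : ι → ℕ)
    (hd : ∀ i, d i ∈ Finset.Icc 1 ⌊T ^ κ'⌋₊) (hL : ∀ i ∈ I, L i * (sc (o i) / d i) ≤ Cr * T') :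
    (∏ i ∈ Ss, sc (o i)) * ∏ i ∈ I, L i ≤ T ^ (2 - κ2) := by
  have hT0 : 0 < T := by linarith
  have hPs : ∏ i, sc (o i) = (∏ i ∈ Ss, sc (o i)) * ∏ i ∈ Ls, sc (o i) :=
    prod_split hD (fun i => sc (o i)) fun i h1 h2 => by
      rw [(hD.rest i h1 h2).1]
      simp [sc]
  have hd' : ∀ i, (0 : ℝ) < d i ∧ (d i : ℝ) ≤ T ^ κ' := by
    intro i
    obtain ⟨h1, h2⟩ := Finset.mem_Icc.1 (hd i)
    refine ⟨by exact_mod_cast h1, ?_⟩
    calc (d i : ℝ) ≤ ((⌊T ^ κ'⌋₊ : ℕ) : ℝ) := by exact_mod_cast h2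
      _ ≤ T ^ κ' := Nat.floor_le (by positivity)
  -- the factors
  set q : ι → ℝ := fun i => (if i ∈ I then L i else 1) / sc (o i) with hq
  have hq0 : ∀ i ∈ Ls, 0 ≤ q i := by
    intro i _
    simp only [hq]
    apply div_nonneg _ (Rg_aux.sc_pos _).le
    split_ifs with h
    · exact (hL0 i h).le
    · exact zero_le_one
  have hqb : ∀ i ∈ I, ∀ κ : ℝ, T ^ (1 / 2 + κ) < sc (o i) → q i ≤ Cr * T ^ (2 * κ' - 2 * κ) := by
    intro i hi κ hlt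
    have hs := Rg_aux.sc_pos (o i)
    simp only [hq, if_pos hi]
    have h1 := hL i hi
    obtain ⟨hd0, hd1⟩ := hd' i
    have h2 : L i * sc (o i) ≤ Cr * T' * T ^ κ' := by
      rw [← mul_div_assoc, div_le_iff₀ hd0] at h1
      refine h1.trans ?_
      exact mul_le_mul_of_nonneg_left hd1 (by positivity)
    have h3 : L i * sc (o i) ≤ Cr * T ^ (1 + 2 * κ') := by
      refine h2.trans ?_
      have e : T ^ (1 + 2 * κ') = T ^ (1 + κ') * T ^ κ' := by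
        rw [← Real.rpow_add hT0]
        congr 1
        ring
      rw [e, mul_assoc]
      apply mul_le_mul_of_nonneg_left _ (by positivity)
      exact mul_le_mul_of_nonneg_right hT'2 (by positivity)
    rw [div_le_iff₀ hs]
    have h4 : T ^ (1 + 2 * κ') = T ^ (2 * κ' - 2 * κ) * T ^ (1 / 2 + κ) * T ^ (1 / 2 + κ) := by
      rw [← Real.rpow_add hT0, ← Real.rpow_add hT0]
      congr 1
      ring
    have h5 : L i * sc (o i) * 1 ≤ Cr * T ^ (2 * κ' - 2 * κ) * T ^ (1 / 2 + κ) * T ^ (1 / 2 + κ) := by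
      rw [mul_one]
      refine h3.trans (le_of_eq ?_)
      rw [h4]
      ring
    have hp : 0 < T ^ (1 / 2 + κ) := Real.rpow_pos_of_pos hT0 _
    have h6 : Cr * T ^ (2 * κ' - 2 * κ) * T ^ (1 / 2 + κ) * T ^ (1 / 2 + κ) ≤
        Cr * T ^ (2 * κ' - 2 * κ) * sc (o i) * sc (o i) := by
      apply mul_le_mul _ hlt.le hp.le (by positivity)
      exact mul_le_mul_of_nonneg_left hlt.le (by positivity)
    have h7 : L i * sc (o i) ≤ Cr * T ^ (2 * κ' - 2 * κ) * sc (o i) * sc (o i) := by linarith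
    exact le_of_mul_le_mul_right h7 hs
  have hq1 : ∀ i ∈ Ls, q i ≤ 1 := by
    intro i hi
    by_cases hiI : i ∈ I
    · obtain ⟨l, hl, -, hlt⟩ := hD.long i hi
      have h1 : T ^ (1 / 2 + κ3) < sc (o i) := by
        rw [hl]
        exact hlt
      refine (hqb i hiI κ3 h1).trans ?_
      calc Cr * T ^ (2 * κ' - 2 * κ3) ≤ T ^ κ' * T ^ (2 * κ' - 2 * κ3) :=
            mul_le_mul_of_nonneg_right hC1 (by positivity)
        _ = T ^ (κ' + (2 * κ' - 2 * κ3)) := (Real.rpow_add hT0 _ _).symm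
        _ ≤ 1 := Real.rpow_le_one_of_one_le_of_nonpos hT (by linarith)
    · simp only [hq, if_neg hiI]
      rw [div_le_one (Rg_aux.sc_pos _)]
      exact one_le_sc _
  have hqi0 : q i0 ≤ Cr * T ^ (2 * κ' - 2 * κ2) := by
    by_cases hiI : i0 ∈ I
    · exact hqb i0 hiI κ2 hlong
    · simp only [hq, if_neg hiI]
      have hp : 0 < T ^ (1 / 2 + κ2) := Real.rpow_pos_of_pos hT0 _
      calc 1 / sc (o i0) ≤ 1 / T ^ (1 / 2 + κ2) := one_div_le_one_div_of_le hp hlong.le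
        _ = T ^ (-(1 / 2 + κ2)) := by rw [Real.rpow_neg hT0.le, one_div]
        _ ≤ T ^ (2 * κ' - 2 * κ2) := Real.rpow_le_rpow_of_exponent_le hT (by linarith)
        _ ≤ Cr * T ^ (2 * κ' - 2 * κ2) := by
          have : 0 < T ^ (2 * κ' - 2 * κ2) := Real.rpow_pos_of_pos hT0 _
          nlinarith
  have hprod : ∏ i ∈ Ls, q i ≤ Cr * T ^ (2 * κ' - 2 * κ2) := by
    rw [← Finset.mul_prod_erase Ls q hi0]
    have h1 : ∏ i ∈ Ls.erase i0, q i ≤ 1 :=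
      Finset.prod_le_one (fun i hi => hq0 i (Finset.mem_of_mem_erase hi))
        fun i hi => hq1 i (Finset.mem_of_mem_erase hi)
    calc q i0 * ∏ i ∈ Ls.erase i0, q i ≤ q i0 * 1 := mul_le_mul_of_nonneg_left h1 (hq0 i0 hi0)
      _ ≤ Cr * T ^ (2 * κ' - 2 * κ2) := by rw [mul_one]; exact hqi0
  have hIprod : ∏ i ∈ I, L i = (∏ i ∈ Ls, sc (o i)) * ∏ i ∈ Ls, q i := by
    rw [← Finset.prod_mul_distrib]
    have h1 : ∀ i ∈ Ls, sc (o i) * q i = if i ∈ I then L i else 1 := by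
      intro i _
      simp only [hq]
      have := (Rg_aux.sc_pos (o i)).ne'
      field_simp
    rw [Finset.prod_congr rfl h1, Finset.prod_ite_mem, Finset.inter_eq_right.2 hI]
  rw [hIprod, ← mul_assoc, ← hPs]
  have hP0 : 0 ≤ ∏ i, sc (o i) := Finset.prod_nonneg fun i _ => (Rg_aux.sc_pos _).le
  calc (∏ i, sc (o i)) * ∏ i ∈ Ls, q i ≤ (CR * T ^ 2) * (Cr * T ^ (2 * κ' - 2 * κ2)) :=
        mul_le_mul hP hprod (Finset.prod_nonneg hq0) (hP0.trans hP)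
    _ = (CR * Cr) * (T ^ (2 : ℝ) * T ^ (2 * κ' - 2 * κ2)) := by
        rw [Real.rpow_two]
        ring
    _ ≤ T ^ κ' * (T ^ (2 : ℝ) * T ^ (2 * κ' - 2 * κ2)) :=
        mul_le_mul_of_nonneg_right hC2 (by positivity)
    _ = T ^ (κ' + (2 + (2 * κ' - 2 * κ2))) := by
        rw [← Real.rpow_add hT0, ← Real.rpow_add hT0]
    _ ≤ T ^ (2 - κ2) := Real.rpow_le_rpow_of_exponent_le hT (by linarith)

omit [Fintype ι] in
theorem prod_sqrt (K : Finset ι) (x : ι → ℝ) (hx : ∀ i, 0 ≤ x i) :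
    ∏ i ∈ K, Real.sqrt (x i) = Real.sqrt (∏ i ∈ K, x i) := by
  induction K using Finset.induction_on with
  | empty => simp
  | insert i K hi ih =>
    rw [Finset.prod_insert hi, Finset.prod_insert hi, ih, Real.sqrt_mul (hx i)]

/-- reflection of the long slots -/
theorem core_ii (hTb : StTb) (hD : Dat η κ3 κ' T o f lt Ls Ss) (κ2 ε δ Cr CF CR : ℝ) (hCr : 1 ≤ Cr) (hCF : 1 ≤ CF)
    (hCR : 1 ≤ CR)
    (hrp : ∀ (ι : Type) (Ls : Finset ι) (T T' : ℝ) (N : ι → ℝ) (H : ℝ → ℝ), Ls.card ≤ 3 → Cr ≤ T →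
      T ^ (1 / 10 : ℝ) ≤ T' → T' ≤ T ^ (1 + κ') → (∀ i ∈ Ls, T ^ (1 / 2 + 2 * κ') ≤ N i ∧ N i ≤ T ^ 3) →
      Continuous H → (∀ t, 0 ≤ H t) →
      ∃ (I : Finset ι) (b : ι → ℕ → ℂ) (L : ι → ℝ), I ⊆ Ls ∧
        (∀ i ∈ I, IsBlk (b i) (L i) ∧ T ^ κ' / 2 ≤ L i ∧ L i ≤ T ^ (1 / 2 : ℝ) ∧ L i * N i ≤ Cr * T') ∧
        ∫ t in T'..(2 * T'), H t * ∏ i ∈ Ls, ‖Bl psi (N i) t‖ ≤
          Cr * (∏ i ∈ Ls, Real.sqrt (N i)) * T ^ (2 * κ') *
            ∫ t in T'..(2 * T'), H t * ∏ i ∈ I, (‖PB (b i) (L i) t‖ / Real.sqrt (L i)))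
    (hT : 1 < T) (hTr : Cr ≤ T) (hTR : CR ≤ T) (hδ : 0 < δ) (hηκ : η ≤ κ')
    (hκ : 0 < κ') (hκ21 : κ2 ≤ 1 / 20) (hκ32 : κ3 ≤ κ2 / 10) (hκ'3 : κ' ≤ κ3 / 10)
    (hε : 10 * κ' ≤ ε) (hC1 : Cr ≤ T ^ κ') (hC2 : CR * Cr ≤ T ^ κ')
    (hbig : 8 * CF * Cr * Real.sqrt CR * Real.log T / δ ≤ T ^ κ')
    (S : Finset ℝ) (hSpos : ∀ x ∈ S, 0 < x) (g : ℝ → ℂ) (T' : ℝ) (hT'1 : T ^ (1 / 10 : ℝ) ≤ T')
    (hT'2 : T' ≤ T ^ (1 + κ')) (i0 : ι) (hi0 : i0 ∈ Ls) (hlong : T ^ (1 / 2 + κ2) < sc (o i0))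
    (hP : ∏ i, sc (o i) ≤ CR * T ^ 2)
    (hmain : S.card * (δ * T ^ 2) ≤ CF * Real.log T * ∫ t in T'..(2 * T'), ‖GS S g t‖ *
      ∏ i, ‖Dp (Rg_aux.Yn (o i)) (fun n => ((f i n : ℝ) : ℂ)) t‖) :
    ∃ (ν : ℝ) (m : ℕ) (a : Fin m → ℕ → ℂ) (N : Fin m → ℝ), (∀ i, IsBlk (a i) (N i)) ∧
      (∀ i, T ^ η / 2 ≤ N i ∧ N i ≤ T ^ (1 / 2 + κ3)) ∧ ∏ i, N i = T ^ ν ∧ ν ≤ 2 - κ2 ∧
      S.card * T ^ (1 + ν / 2 - ε) ≤ ∫ t in T'..(2 * T'), ‖GS S g t‖ * ∏ i, ‖PB (a i) (N i) t‖ := by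
  have hT0 : 0 < T := by linarith
  have hT1 : 1 ≤ T := hT.le
  have hT'0 : 0 < T' := lt_of_lt_of_le (Real.rpow_pos_of_pos hT0 _) hT'1
  have hlog0 : 0 < Real.log T := Real.log_pos hT
  have hle : T' ≤ 2 * T' := by linarith
  set cf : ι → ℕ → ℂ := fun i n => ((f i n : ℝ) : ℂ) with hcf
  set H : ℝ → ℝ := fun t => ‖GS S g t‖ * ∏ i ∈ Ss, ‖PB (cf i) (sc (o i)) t‖ with hH
  have hHc : Continuous H := (F4_aux.cont_GS S g hSpos).norm.mul
    (continuous_finsetProd _ fun i _ => (F4_aux.cont_Dp _ _).norm)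
  have hH0 : ∀ t, 0 ≤ H t := fun t => mul_nonneg (norm_nonneg _) (Finset.prod_nonneg fun i _ => norm_nonneg _)
  have hBlc : ∀ N : ℝ, 0 < N → Continuous (Bl psi N) :=
    (Pool.Agent.Work.MP_56b8f5_nt.UC.iBc psi Rp_aux.isWt_psi).2.1
  set Ds : Finset ℕ := Finset.Icc 1 ⌊T ^ κ'⌋₊ with hDs
  have hDne : Ds.Nonempty := by
    rw [hDs, Finset.nonempty_Icc]
    exact Nat.le_floor (by simpa using Real.one_le_rpow hT1 hκ.le)
  have hDcard : (Ds.card : ℝ) ≤ T ^ κ' := by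
    rw [hDs, Nat.card_Icc, Nat.add_sub_cancel]
    exact Nat.floor_le (by positivity)
  set B : ι → ℕ → ℝ → ℝ := fun i k t => 2 * ‖Bl psi (sc (o i) / k) t‖ with hB
  have hBc : ∀ i ∈ Ls, ∀ k ∈ Ds, Continuous (B i k) := by
    intro i _ k hk
    have hk0 : (0 : ℝ) < k := by exact_mod_cast (Finset.mem_Icc.1 hk).1
    exact continuous_const.mul (hBlc _ (div_pos (Rg_aux.sc_pos _) hk0)).norm
  have hB0 : ∀ i k t, 0 ≤ B i k t := fun i k t => by positivity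
  obtain ⟨d, hd, hpick⟩ := pick Ds hDne B T' (2 * T') Ls hBc hB0 H hHc hH0
  have hd' : ∀ i, (0 : ℝ) < d i ∧ (d i : ℝ) ≤ T ^ κ' := by
    intro i
    obtain ⟨h1, h2⟩ := Finset.mem_Icc.1 (hd i)
    refine ⟨by exact_mod_cast h1, ?_⟩
    calc (d i : ℝ) ≤ ((⌊T ^ κ'⌋₊ : ℕ) : ℝ) := by exact_mod_cast h2
      _ ≤ T ^ κ' := Nat.floor_le (by positivity)
  -- step 1
  have hs1 : ∫ t in T'..(2 * T'), ‖GS S g t‖ *
      ∏ i, ‖Dp (Rg_aux.Yn (o i)) (fun n => ((f i n : ℝ) : ℂ)) t‖ ≤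
      ∫ t in T'..(2 * T'), H t * ∏ i ∈ Ls, ∑ k ∈ Ds, B i k t := by
    apply intervalIntegral.integral_mono_on hle
    · exact ((F4_aux.cont_GS S g hSpos).norm.mul
        (continuous_finsetProd _ fun i _ => (F4_aux.cont_Dp _ _).norm)).intervalIntegrable _ _
    · exact (hHc.mul (continuous_finsetProd _ fun i hi => continuous_finsetSum _ fun k hk =>
        hBc i hi k hk)).intervalIntegrable _ _
    · intro t _
      rw [prod_split hD (fun i => ‖Dp (Rg_aux.Yn (o i)) (fun n => ((f i n : ℝ) : ℂ)) t‖)]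
      · rw [← mul_assoc]
        have e : ∏ i ∈ Ss, ‖Dp (Rg_aux.Yn (o i)) (fun n => ((f i n : ℝ) : ℂ)) t‖ =
            ∏ i ∈ Ss, ‖PB (cf i) (sc (o i)) t‖ := by
          refine Finset.prod_congr rfl fun i hi => ?_
          obtain ⟨l, hl, -⟩ := hD.short i hi
          rw [hl, Dp_eq_PB]
          rfl
        rw [e]
        apply mul_le_mul_of_nonneg_left _ (hH0 t)
        exact Finset.prod_le_prod (fun i _ => norm_nonneg _) fun i hi => sum_long hTb hD t i hi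
      · intro i h1 h2
        obtain ⟨h3, h4⟩ := hD.rest i h1 h2
        rw [h3, h4, Dp_one, norm_one]
  -- step 2
  have hs2 : ∫ t in T'..(2 * T'), H t * ∏ i ∈ Ls, B i (d i) t =
      2 ^ Ls.card * ∫ t in T'..(2 * T'), H t * ∏ i ∈ Ls, ‖Bl psi (sc (o i) / d i) t‖ := by
    rw [← intervalIntegral.integral_const_mul]
    congr 1
    funext t
    simp only [hB]
    rw [Finset.prod_mul_distrib, Finset.prod_const]
    ring
  obtain ⟨I, b, L, hIL, hI, hint⟩ := hrp ι Ls T T' (fun i => sc (o i) / d i) H hD.card hTr hT'1 hT'2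
    (by
      intro i hi
      obtain ⟨l, hl, -, hlt⟩ := hD.long i hi
      obtain ⟨hd0, hd1⟩ := hd' i
      have h1 : T ^ (1 / 2 + κ3) < sc (o i) := by
        rw [hl]
        exact hlt
      constructor
      · rw [le_div_iff₀ hd0]
        calc T ^ (1 / 2 + 2 * κ') * d i ≤ T ^ (1 / 2 + 2 * κ') * T ^ κ' :=
              mul_le_mul_of_nonneg_left hd1 (by positivity)
          _ = T ^ (1 / 2 + 2 * κ' + κ') := (Real.rpow_add hT0 _ _).symm
          _ ≤ T ^ (1 / 2 + κ3) := Real.rpow_le_rpow_of_exponent_le hT1 (by linarith)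
          _ ≤ sc (o i) := h1.le
      · have h2 : (1 : ℝ) ≤ d i := by exact_mod_cast (Finset.mem_Icc.1 (hd i)).1
        calc sc (o i) / d i ≤ sc (o i) := div_le_self (Rg_aux.sc_pos _).le h2
          _ ≤ ∏ i, sc (o i) := sc_le_prod o i
          _ ≤ CR * T ^ 2 := hP
          _ ≤ T * T ^ 2 := mul_le_mul_of_nonneg_right hTR (by positivity)
          _ = T ^ 3 := by ring) hHc hH0
  have hL0 : ∀ i ∈ I, 0 < L i := fun i hi =>
    lt_of_lt_of_le (by positivity) (hI i hi).2.1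
  have hIS : Disjoint Ss I := (hD.disj.mono_left hIL).symm
  set J : ℝ := ∫ t in T'..(2 * T'), H t * ∏ i ∈ I, ‖PB (b i) (L i) t‖ with hJ
  have hJ0 : 0 ≤ J := by
    rw [hJ]
    apply intervalIntegral.integral_nonneg hle
    intro t _
    exact mul_nonneg (hH0 t) (Finset.prod_nonneg fun i _ => norm_nonneg _)
  set PI : ℝ := ∏ i ∈ I, L i with hPI
  set Ps : ℝ := ∏ i ∈ Ss, sc (o i) with hPs
  set Pl : ℝ := ∏ i ∈ Ls, sc (o i) with hPl
  have hPI0 : 0 < PI := Finset.prod_pos hL0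
  have hPs0 : 0 < Ps := Finset.prod_pos fun i _ => Rg_aux.sc_pos _
  have hPl0 : 0 < Pl := Finset.prod_pos fun i _ => Rg_aux.sc_pos _
  have hPsplit : ∏ i, sc (o i) = Ps * Pl :=
    prod_split hD (fun i => sc (o i)) fun i h1 h2 => by
      rw [(hD.rest i h1 h2).1]
      simp [sc]
  have hV0 : 0 < Ps * PI := mul_pos hPs0 hPI0
  have hVle : Ps * PI ≤ T ^ (2 - κ2) :=
    length hD κ2 Cr CR T' hCr hT1 hκ hκ21 hκ32 hκ'3 hC1 hC2 hT'0 hT'2 hP i0 hi0 hlong I hIL L hL0 d hd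
      fun i hi => (hI i hi).2.2.2
  -- step 3
  have hsI : ∏ i ∈ I, Real.sqrt (L i) = Real.sqrt PI := by
    have e : ∏ i ∈ I, Real.sqrt (L i) = ∏ i ∈ I, Real.sqrt (max (L i) 0) :=
      Finset.prod_congr rfl fun i hi => by rw [max_eq_left (hL0 i hi).le]
    rw [e, prod_sqrt I _ fun i => le_max_right _ _, hPI]
    congr 1
    exact Finset.prod_congr rfl fun i hi => max_eq_left (hL0 i hi).le
  have hs3 : ∫ t in T'..(2 * T'), H t * ∏ i ∈ I, (‖PB (b i) (L i) t‖ / Real.sqrt (L i)) = J / Real.sqrt PI := by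
    rw [hJ, ← intervalIntegral.integral_div]
    congr 1
    funext t
    rw [Finset.prod_div_distrib, hsI, mul_div_assoc]
  have hs4 : ∏ i ∈ Ls, Real.sqrt (sc (o i) / d i) ≤ Real.sqrt Pl := by
    rw [hPl, ← prod_sqrt Ls (fun i => sc (o i)) fun i => (Rg_aux.sc_pos _).le]
    refine Finset.prod_le_prod (fun i _ => Real.sqrt_nonneg _) fun i _ => ?_
    apply Real.sqrt_le_sqrt
    have h2 : (1 : ℝ) ≤ d i := by exact_mod_cast (Finset.mem_Icc.1 (hd i)).1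
    exact div_le_self (Rg_aux.sc_pos _).le h2
  have hJI0 : 0 ≤ J / Real.sqrt PI := div_nonneg hJ0 (Real.sqrt_nonneg _)
  have hX0 : 0 ≤ ∫ t in T'..(2 * T'), H t * ∏ i ∈ Ls, ‖Bl psi (sc (o i) / d i) t‖ := by
    apply intervalIntegral.integral_nonneg hle
    intro t _
    exact mul_nonneg (hH0 t) (Finset.prod_nonneg fun i _ => norm_nonneg _)
  have hs5 : (Ds.card : ℝ) ^ Ls.card * 2 ^ Ls.card ≤ 8 * T ^ (3 * κ') := by
    rw [← mul_pow]
    have h1 : (Ds.card : ℝ) * 2 ≤ 2 * T ^ κ' := by linarith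
    have h2 : 1 ≤ 2 * T ^ κ' := by
      have := Real.one_le_rpow hT1 hκ.le
      linarith
    calc ((Ds.card : ℝ) * 2) ^ Ls.card ≤ (2 * T ^ κ') ^ Ls.card := pow_le_pow_left₀ (by positivity) h1 _
      _ ≤ (2 * T ^ κ') ^ 3 := pow_le_pow_right₀ h2 hD.card
      _ = 8 * T ^ (3 * κ') := by
        rw [mul_pow, ← Real.rpow_natCast (T ^ κ') 3, ← Real.rpow_mul hT0.le]
        norm_num
        congr 1
        ring
  have hs6 : S.card * (δ * T ^ 2) ≤ CF * Real.log T * (8 * T ^ (3 * κ') *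
      (Cr * Real.sqrt Pl * T ^ (2 * κ') * (J / Real.sqrt PI))) := by
    refine hmain.trans (mul_le_mul_of_nonneg_left ?_ (by positivity))
    refine hs1.trans (hpick.trans ?_)
    rw [hs2, ← mul_assoc]
    apply mul_le_mul hs5 _ hX0 (by positivity)
    refine hint.trans ?_
    rw [hs3]
    apply mul_le_mul_of_nonneg_right _ hJI0
    apply mul_le_mul_of_nonneg_right _ (by positivity)
    exact mul_le_mul_of_nonneg_left hs4 (by positivity)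
  -- step 4
  have hsqI : 0 < Real.sqrt PI := Real.sqrt_pos.2 hPI0
  have hs7 : S.card * (δ * T ^ 2) * (Real.sqrt Ps * Real.sqrt PI) ≤
      8 * CF * Cr * Real.log T * T ^ (5 * κ') * (Real.sqrt CR * T) * J := by
    have h1 : S.card * (δ * T ^ 2) * (Real.sqrt Ps * Real.sqrt PI) ≤
        CF * Real.log T * (8 * T ^ (3 * κ') *
          (Cr * Real.sqrt Pl * T ^ (2 * κ') * (J / Real.sqrt PI))) * (Real.sqrt Ps * Real.sqrt PI) :=
      mul_le_mul_of_nonneg_right hs6 (by positivity)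
    have e5 : T ^ (5 * κ') = T ^ (3 * κ') * T ^ (2 * κ') := by
      rw [← Real.rpow_add hT0]
      congr 1
      ring
    have e6 : CF * Real.log T * (8 * T ^ (3 * κ') *
          (Cr * Real.sqrt Pl * T ^ (2 * κ') * (J / Real.sqrt PI))) * (Real.sqrt Ps * Real.sqrt PI) =
        8 * CF * Cr * Real.log T * T ^ (5 * κ') * (Real.sqrt Ps * Real.sqrt Pl) * J := by
      rw [e5]
      field_simp
    rw [e6] at h1
    refine h1.trans ?_
    apply mul_le_mul_of_nonneg_right _ hJ0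
    apply mul_le_mul_of_nonneg_left _ (by positivity)
    rw [← Real.sqrt_mul hPs0.le, ← hPsplit]
    calc Real.sqrt (∏ i, sc (o i)) ≤ Real.sqrt (CR * T ^ 2) := Real.sqrt_le_sqrt hP
      _ = Real.sqrt CR * T := by
        rw [Real.sqrt_mul (by linarith), Real.sqrt_sq hT0.le]
  -- the exponent of the length
  set ν : ℝ := Real.logb T (Ps * PI) with hν
  have hTν : T ^ ν = Ps * PI := Real.rpow_logb hT0 hT.ne' hV0
  have hsqV : Real.sqrt Ps * Real.sqrt PI = T ^ (ν / 2) := by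
    rw [← Real.sqrt_mul hPs0.le, ← hTν, Real.sqrt_eq_rpow, ← Real.rpow_mul hT0.le]
    congr 1
    ring
  rw [hsqV] at hs7
  have hs8 : S.card * T ^ (1 + ν / 2) ≤ T ^ (6 * κ') * J := by
    have h1 : S.card * (δ * T ^ 2) * T ^ (ν / 2) = (S.card * T ^ (1 + ν / 2)) * (δ * T) := by
      rw [Real.rpow_add hT0, Real.rpow_one]
      ring
    have h2 : 8 * CF * Cr * Real.log T * T ^ (5 * κ') * (Real.sqrt CR * T) * J =
        (8 * CF * Cr * Real.sqrt CR * Real.log T / δ * T ^ (5 * κ') * J) * (δ * T) := by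
      field_simp
    rw [h1, h2] at hs7
    have h3 := le_of_mul_le_mul_right hs7 (mul_pos hδ hT0)
    refine h3.trans ?_
    have e6 : T ^ (6 * κ') = T ^ κ' * T ^ (5 * κ') := by
      rw [← Real.rpow_add hT0]
      congr 1
      ring
    rw [e6]
    apply mul_le_mul_of_nonneg_right _ hJ0
    exact mul_le_mul_of_nonneg_right hbig (by positivity)
  have hs9 : S.card * T ^ (1 + ν / 2 - ε) ≤ J := by
    have e1 : T ^ (1 + ν / 2 - ε) = T ^ (1 + ν / 2) * T ^ (-ε) := by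
      rw [← Real.rpow_add hT0]
      congr 1
    rw [e1, ← mul_assoc]
    calc S.card * T ^ (1 + ν / 2) * T ^ (-ε) ≤ T ^ (6 * κ') * J * T ^ (-ε) :=
          mul_le_mul_of_nonneg_right hs8 (by positivity)
      _ = T ^ (6 * κ' + -ε) * J := by
        rw [Real.rpow_add hT0]
        ring
      _ ≤ 1 * J := mul_le_mul_of_nonneg_right
          (Real.rpow_le_one_of_one_le_of_nonpos hT1 (by linarith)) hJ0
      _ = J := one_mul J
  -- the final family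
  set aa : ι → ℕ → ℂ := fun j => if j ∈ I then b j else cf j with haa
  set NN : ι → ℝ := fun j => if j ∈ I then L j else sc (o j) with hNN
  obtain ⟨m, a, N, hfam, hprodN, hprodB⟩ := to_fin (Ss ∪ I) aa NN
  have hSI : ∀ j ∈ Ss, j ∉ I := fun j h1 h2 => (Finset.disjoint_left.1 hIS h1) h2
  refine ⟨ν, m, a, N, ?_, ?_, ?_, ?_, ?_⟩
  · intro i
    obtain ⟨j, hj, ha, hN⟩ := hfam i
    rw [ha, hN]
    simp only [haa, hNN]
    by_cases hjI : j ∈ I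
    · rw [if_pos hjI, if_pos hjI]
      exact (hI j hjI).1
    · rw [if_neg hjI, if_neg hjI]
      have hjS : j ∈ Ss := by
        rcases Finset.mem_union.1 hj with h | h
        · exact h
        · exact absurd h hjI
      obtain ⟨l, hl, hf1, -⟩ := hD.short j hjS
      have := isBlk_of (f j) l hf1 (by
        have := hD.supp j
        rw [hl] at this
        exact this)
      rw [hl]
      exact this
  · intro i
    obtain ⟨j, hj, ha, hN⟩ := hfam i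
    rw [hN]
    simp only [hNN]
    by_cases hjI : j ∈ I
    · rw [if_pos hjI]
      obtain ⟨-, h1, h2, -⟩ := hI j hjI
      constructor
      · refine le_trans ?_ h1
        apply div_le_div_of_nonneg_right _ (by norm_num)
        exact Real.rpow_le_rpow_of_exponent_le hT1 hηκ
      · refine h2.trans ?_
        exact Real.rpow_le_rpow_of_exponent_le hT1 (by linarith)
    · rw [if_neg hjI]
      have hjS : j ∈ Ss := by
        rcases Finset.mem_union.1 hj with h | h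
        · exact h
        · exact absurd h hjI
      obtain ⟨l, hl, -, h1, h2⟩ := hD.short j hjS
      rw [hl]
      exact ⟨h1, h2⟩
  · rw [hprodN, hTν, Finset.prod_union hIS]
    congr 1
    · refine Finset.prod_congr rfl fun j hj => ?_
      simp only [hNN, if_neg (hSI j hj)]
    · refine Finset.prod_congr rfl fun j hj => ?_
      simp only [hNN, if_pos hj]
  · rw [hν, Real.logb_le_iff_le_rpow hT hV0]
    exact hVle
  · refine hs9.trans (le_of_eq ?_)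
    rw [hJ]
    congr 1
    funext t
    rw [hprodB t, Finset.prod_union hIS, hH]
    simp only
    rw [mul_assoc]
    congr 2
    · refine Finset.prod_congr rfl fun j hj => ?_
      simp only [haa, hNN, if_neg (hSI j hj)]
    · refine Finset.prod_congr rfl fun j hj => ?_
      simp only [haa, hNN, if_pos hj]

end core

/-! ### The reduction -/

theorem norm_g_le (T : ℝ) (hT : 0 < T) (g0 g : ℝ → ℂ) (h0 : ∀ x, ‖g0 x‖ ≤ 1)
    (hg : (∀ x, g x = if T ^ 2 ≤ x then g0 x * ((T ^ 2 / x : ℝ) : ℂ) else 0) ∨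
      (∀ x, g x = if T ^ 2 ≤ x then (starRingEnd ℂ) (g0 x) * ((T ^ 2 / x : ℝ) : ℂ) else 0)) (x : ℝ) :
    ‖g x‖ ≤ 1 := by
  have h1 : ∀ z : ℂ, ‖z‖ ≤ 1 → ‖(if T ^ 2 ≤ x then z * ((T ^ 2 / x : ℝ) : ℂ) else 0)‖ ≤ 1 := by
    intro z hz
    split_ifs with h
    · have hx : 0 < x := lt_of_lt_of_le (by positivity) h
      rw [norm_mul, Complex.norm_real, Real.norm_of_nonneg (by positivity)]
      exact mul_le_one₀ hz (by positivity) ((div_le_one hx).2 h)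
    · simp
  rcases hg with hg | hg
  · rw [hg x]
    exact h1 _ (h0 x)
  · rw [hg x]
    exact h1 _ (by rw [Complex.norm_conj]; exact h0 x)

theorem prod_ne {S : ℕ} (F : Fin 3 → ArithmeticFunction ℝ) (G : Fin S → ArithmeticFunction ℝ) (n : ℕ)
    (h : ((∏ i, F i) * ∏ r, G r) n ≠ 0) : (∀ i, F i ≠ 0) ∧ ∀ r, G r ≠ 0 := by
  constructor
  · intro i hi
    apply h
    rw [Finset.prod_eq_zero (Finset.mem_univ i) hi, zero_mul]
    rfl
  · intro i hi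
    apply h
    rw [Finset.prod_eq_zero (Finset.mem_univ i) hi, mul_zero]
    rfl

open Classical in
/-- the data of a nonempty box -/
theorem dat (η κ1 κ3 κ' T : ℝ) (lw : Fin 3 → ℕ → ℝ) {S : ℕ} (u : Fin 3 → Option ℕ) (v : Fin S → Option ℕ)
    (hT : 1 ≤ T) (hκ1 : 2 ≤ T ^ κ1) (hκ3 : 0 < κ3) (hw1 : ∀ i d, |lw i d| ≤ 2)
    (hw2 : ∀ i d, lw i d ≠ 0 → 1 ≤ d ∧ (d : ℝ) ≤ T ^ κ')
    (h1 : ∀ i, msA (zz η T) T κ3 (lw i) (u i) ≠ 0) (h2 : ∀ r, ps (zz η T) (zz (1 / 2 - κ1) T) (v r) ≠ 0) :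
    Dat η κ3 κ' T (Sum.elim u v) (Sum.elim (fun i => msA (zz η T) T κ3 (lw i) (u i))
      (fun r => ps (zz η T) (zz (1 / 2 - κ1) T) (v r))) (Sum.elim lw (fun _ _ => 0))
      (Finset.univ.filter fun i => Lg T κ3 (Sum.elim u v i))
      (Finset.univ.filter fun i => Sum.elim u v i ≠ none ∧ ¬ Lg T κ3 (Sum.elim u v i)) := by
  have hT0 : 0 < T := by linarith
  have hv : ∀ r l, v r = some l → T ^ η / 2 ≤ (2 : ℝ) ^ l ∧ (2 : ℝ) ^ l ≤ T ^ (1 / 2 + κ3) := by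
    intro r l hl
    have h3 := h2 r
    rw [hl] at h3
    obtain ⟨h4, h5⟩ := pbl_ge h3
    refine ⟨h4, h5.trans ?_⟩
    have h6 : ((zz (1 / 2 - κ1) T : ℕ) : ℝ) ≤ T ^ (1 / 2 - κ1) := Nat.floor_le (by positivity)
    calc 2 * ((zz (1 / 2 - κ1) T : ℕ) : ℝ) ≤ T ^ κ1 * T ^ (1 / 2 - κ1) :=
          mul_le_mul hκ1 h6 (by positivity) (by positivity)
      _ = T ^ (κ1 + (1 / 2 - κ1)) := (Real.rpow_add hT0 _ _).symm
      _ ≤ T ^ (1 / 2 + κ3) := Real.rpow_le_rpow_of_exponent_le hT (by linarith)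
  have hvL : ∀ r, ¬ Lg T κ3 (v r) := by
    rintro r ⟨l, hl, hlt⟩
    exact absurd (hv r l hl).2 (not_le.2 hlt)
  refine ⟨?_, ?_, ?_, ?_, ?_, ?_, ?_, ?_⟩
  · rw [Finset.disjoint_left]
    intro i h3 h4
    rw [Finset.mem_filter] at h3 h4
    exact h4.2.2 h3.2
  · have hsub : (Finset.univ.filter fun i => Lg T κ3 (Sum.elim u v i)) ⊆
        Finset.univ.map ⟨Sum.inl, Sum.inl_injective⟩ := by
      intro i hi
      rw [Finset.mem_filter] at hi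
      rw [Finset.mem_map]
      rcases i with i | r
      · exact ⟨i, Finset.mem_univ _, rfl⟩
      · exact absurd hi.2 (hvL r)
    refine (Finset.card_le_card hsub).trans ?_
    rw [Finset.card_map, Finset.card_univ, Fintype.card_fin]
  · rintro (i | r) n hn
    · exact Rg_aux.msA_supp _ _ _ _ _ n hn
    · exact Rg_aux.ps_supp _ _ _ n hn
  · rintro (i | r) hi
    · obtain ⟨l, hl, hlt⟩ := (Finset.mem_filter.1 hi).2
      simp only [Sum.elim_inl] at hl ⊢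
      refine ⟨l, hl, ?_, hlt⟩
      rw [hl]
      simp only [msA, if_pos hlt]
    · exact absurd (Finset.mem_filter.1 hi).2 (hvL r)
  · rintro (i | r) hi
    · obtain ⟨h3, h4⟩ := (Finset.mem_filter.1 hi).2
      simp only [Sum.elim_inl] at h3 h4 ⊢
      obtain ⟨l, hl⟩ := Option.ne_none_iff_exists'.1 h3
      have hle : ¬ (T ^ (1 / 2 + κ3) < (2 : ℝ) ^ l) := fun h => h4 ⟨l, hl, h⟩
      have h5 := h1 i
      have e : msA (zz η T) T κ3 (lw i) (u i) = rb (zz η T) l := by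
        rw [hl]
        simp only [msA, if_neg hle]
      rw [e] at h5
      refine ⟨l, hl, ?_, rb_ge h5, not_lt.1 hle⟩
      rw [e]
      exact rb_le _ _
    · obtain ⟨h3, -⟩ := (Finset.mem_filter.1 hi).2
      simp only [Sum.elim_inr] at h3 ⊢
      obtain ⟨l, hl⟩ := Option.ne_none_iff_exists'.1 h3
      refine ⟨l, hl, ?_, (hv r l hl).1, (hv r l hl).2⟩
      rw [hl]
      exact pbl_le _ _ _
  · rintro (i | r) h3 h4
    · have h5 : u i = none := by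
        by_contra h6
        by_cases h7 : Lg T κ3 (u i)
        · exact h3 (Finset.mem_filter.2 ⟨Finset.mem_univ _, h7⟩)
        · exact h4 (Finset.mem_filter.2 ⟨Finset.mem_univ _, h6, h7⟩)
      simp only [Sum.elim_inl]
      rw [h5]
      exact ⟨rfl, rfl⟩
    · have h5 : v r = none := by
        by_contra h6
        exact h4 (Finset.mem_filter.2 ⟨Finset.mem_univ _, h6, hvL r⟩)
      simp only [Sum.elim_inr]
      rw [h5]
      exact ⟨rfl, rfl⟩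
  · rintro (i | r) hi d
    · exact hw1 i d
    · exact absurd (Finset.mem_filter.1 hi).2 (hvL r)
  · rintro (i | r) hi d
    · exact hw2 i d
    · exact absurd (Finset.mem_filter.1 hi).2 (hvL r)

/-- the error condition of `StF4` -/
theorem cond (X A B L T : ℝ) (hL : 1 ≤ L) (hT : 0 < T) (hB : 3 * A + 25 ≤ B) (hX0 : 0 ≤ X)
    (hX : 2 * X ≤ L ^ (2 : ℝ)) (hX2 : 2 * X * L ^ (3 + A) ≤ T ^ (1 : ℝ)) :
    X * L ^ 3 * ((L ^ (A + 10)) ^ 2 / L ^ B + 1 / T) ≤ 1 / L ^ A := by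
  have hL0 : 0 < L := by linarith
  rw [Real.rpow_one] at hX2
  have e1 : (L ^ (A + 10)) ^ 2 / L ^ B = L ^ (2 * A + 20 - B) := by
    rw [← Real.rpow_natCast (L ^ (A + 10)) 2, ← Real.rpow_mul hL0.le, ← Real.rpow_sub hL0]
    congr 1
    push_cast
    ring
  have h1 : L ^ (2 * A + 20 - B) ≤ L ^ (-A - 5) := Real.rpow_le_rpow_of_exponent_le hL (by linarith)
  have e3 : L ^ 3 = L ^ (3 : ℝ) := by
    rw [← Real.rpow_natCast L 3]
    norm_num
  rw [e1, e3]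
  have e2 : 1 / L ^ A = L ^ (-A) := by rw [Real.rpow_neg hL0.le, one_div]
  have hA : X * L ^ (3 : ℝ) * L ^ (2 * A + 20 - B) ≤ 1 / 2 * L ^ (-A) := by
    calc X * L ^ (3 : ℝ) * L ^ (2 * A + 20 - B) ≤ X * L ^ (3 : ℝ) * L ^ (-A - 5) :=
          mul_le_mul_of_nonneg_left h1 (by positivity)
      _ = X * (L ^ (3 : ℝ) * L ^ (-A - 5)) := by ring
      _ = X * L ^ (-A - 2) := by
        rw [← Real.rpow_add hL0]
        congr 2
        ring
      _ ≤ (1 / 2 * L ^ (2 : ℝ)) * L ^ (-A - 2) := mul_le_mul_of_nonneg_right (by linarith) (by positivity)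
      _ = 1 / 2 * (L ^ (2 : ℝ) * L ^ (-A - 2)) := by ring
      _ = 1 / 2 * L ^ (-A) := by
        rw [← Real.rpow_add hL0]
        congr 2
        ring
  have hB' : X * L ^ (3 : ℝ) * (1 / T) ≤ 1 / 2 * L ^ (-A) := by
    rw [mul_one_div, div_le_iff₀ hT]
    have h3 : X * L ^ (3 + A) ≤ 1 / 2 * T := by linarith
    calc X * L ^ (3 : ℝ) = X * L ^ (3 + A) * L ^ (-A) := by
          rw [mul_assoc, ← Real.rpow_add hL0]
          congr 2
          ring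
      _ ≤ 1 / 2 * T * L ^ (-A) := mul_le_mul_of_nonneg_right h3 (by positivity)
      _ = 1 / 2 * L ^ (-A) * T := by ring
  rw [e2]
  calc X * L ^ (3 : ℝ) * (L ^ (2 * A + 20 - B) + 1 / T) =
        X * L ^ (3 : ℝ) * L ^ (2 * A + 20 - B) + X * L ^ (3 : ℝ) * (1 / T) := by ring
    _ ≤ 1 / 2 * L ^ (-A) + 1 / 2 * L ^ (-A) := add_le_add hA hB'
    _ = L ^ (-A) := by ring

theorem PS_eq {S : ℕ} (u : Fin 3 → Option ℕ) (v : Fin S → Option ℕ) :
    ∏ i, sc (Sum.elim u v i) = PS u v := by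
  rw [Fintype.prod_sum_type]
  rfl

/-- **Reduction** of a box with a long slot to the hypothesis of the cell theorem A, for arbitrary finite sets `S` of points of
`[T², 4T²]` and arbitrary coefficients `g0` of modulus `≤ 1` -/
theorem red (hF4 : StF4) (hPd : StPd) (hRg : StRg) (hRp : StRp) (hTb : StTb)
    (hKp : Pool.Agent.Work.MP_56b8f5_nt.UC.StKp) (κ2 κ3 κ' ε : ℝ) (hκ21 : κ2 ≤ 1 / 20) (hκ3 : 0 < κ3)
    (hκ32 : κ3 ≤ κ2 / 10) (hκ : 0 < κ') (hκ'3 : κ' ≤ κ3 / 10) (hε : 10 * κ' ≤ ε) (w : ℝ → ℝ) (hw : IsWt w)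
    (η κ1 A : ℝ) (hηκ : η ≤ κ') (hκ1 : 0 < κ1) (hA : 0 < A) :
    ∀ B : ℝ, 3 * A + 25 ≤ B → ∃ C : ℝ, 1 ≤ C ∧
    ∀ (T : ℝ) (u : Fin 3 → Option ℕ) (v : Fin (SS η) → Option ℕ) (lw : Fin 3 → ℕ → ℝ) (S : Finset ℝ) (g0 : ℝ → ℂ),
    C ≤ T → (∃ i, Lg T κ2 (u i)) → (∀ i d, |lw i d| ≤ 2) → (∀ i d, lw i d ≠ 0 → 1 ≤ d ∧ (d : ℝ) ≤ T ^ κ') →
    (∀ x ∈ S, T ^ 2 ≤ x ∧ x ≤ 4 * T ^ 2) → S.Nonempty → (∀ x, ‖g0 x‖ ≤ 1) →
    S.card * (1 / Real.log T ^ A) ≤ ‖∑ x ∈ S, g0 x *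
      ((DD w (BFA (zz η T) (zz (1 / 2 - κ1) T) T κ3 lw u v) x T (Real.log T ^ B) : ℝ) : ℂ)‖ →
    ∃ (T' ν : ℝ) (g : ℝ → ℂ) (m : ℕ) (a : Fin m → ℕ → ℂ) (N : Fin m → ℝ),
      T ^ (1 / 10 : ℝ) ≤ T' ∧ T' ≤ T ^ (1 + κ') ∧
      ((∀ x, g x = if T ^ 2 ≤ x then g0 x * ((T ^ 2 / x : ℝ) : ℂ) else 0) ∨
        (∀ x, g x = if T ^ 2 ≤ x then (starRingEnd ℂ) (g0 x) * ((T ^ 2 / x : ℝ) : ℂ) else 0)) ∧
      (∀ x, ‖g x‖ ≤ 1) ∧ (∀ i, IsBlk (a i) (N i)) ∧ (∀ i, T ^ η / 2 ≤ N i ∧ N i ≤ T ^ (1 / 2 + κ3)) ∧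
      ∏ i, N i = T ^ ν ∧ ν ≤ 2 - κ2 ∧
      S.card * T ^ (1 + ν / 2 - ε) ≤ ∫ t in T'..(2 * T'), ‖GS S g t‖ * ∏ i, ‖PB (a i) (N i) t‖ := by
  classical
  obtain ⟨CR, hCR, hR⟩ := hRg w hw (SS η)
  obtain ⟨CF, hCF, hF⟩ := hF4 w hw κ' hκ (by linarith)
  obtain ⟨CT, hCT, hTb2⟩ := hTb.2
  obtain ⟨CK, hCK, hK⟩ := hKp psi Rp_aux.isWt_psi
  obtain ⟨Cr, hCr, hrp⟩ := rp_fin hRp κ' hκ (by linarith)
  intro B hB
  set n : ℕ := Fintype.card (Fin 3 ⊕ Fin (SS η)) with hn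
  set MM : ℝ := CT ^ 3 * 2 ^ n * CR with hMM
  have hMM0 : 0 < MM := by positivity
  set K0 : ℝ := 8 * CF * CK * CT ^ 3 * 2 ^ n * CR with hK0
  have hev : ∀ᶠ T : ℝ in atTop, (3 ≤ T ∧ 1 ≤ Real.log T ^ (1 : ℝ) ∧ 2 ≤ T ^ κ' ∧ 2 ≤ T ^ κ1) ∧
      (1 * Real.log T ^ (A + 10) ≤ T ^ (1 : ℝ) ∧ 1 * Real.log T ^ B ≤ T ^ (1 : ℝ) ∧
        2 * (CF * MM) ≤ Real.log T ^ (2 : ℝ) ∧ 2 * (CF * MM) * Real.log T ^ (3 + A) ≤ T ^ (1 : ℝ)) ∧
      (K0 + 1 ≤ Real.log T ^ (5 : ℝ) ∧ Cr ≤ T ∧ CR ≤ T ∧ Cr ≤ T ^ κ' ∧ CR * Cr ≤ T ^ κ') ∧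
      (8 * CF * Cr * Real.sqrt CR) * Real.log T ^ (A + 1) ≤ T ^ κ' := by
    refine ((eventually_ge_atTop 3).and ((ev_low 1 1 one_pos).and ((ev_pow 2 κ' hκ).and (ev_pow 2 κ1 hκ1)))).and
      (((ev_log _ _ 1 one_pos).and ((ev_log _ _ 1 one_pos).and ((ev_low _ 2 (by norm_num)).and
        (ev_log _ _ 1 one_pos)))).and
      (((ev_low _ 5 (by norm_num)).and ((eventually_ge_atTop _).and ((eventually_ge_atTop _).and
        ((ev_pow _ κ' hκ).and (ev_pow _ κ' hκ))))).and (ev_log _ _ κ' hκ)))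
  obtain ⟨C, hC⟩ := eventually_atTop.1 hev
  refine ⟨max C 1, le_max_right _ _, ?_⟩
  intro T u v lw S g0 hCT' hlg hw1 hw2 hSx hSne hg0 hmain
  obtain ⟨⟨hT3, hlog1, hTκ, hTκ1⟩, ⟨hl1, hl2, hl3, hl4⟩, ⟨hl5, hTr, hTR, hC1, hC2⟩, hl6⟩ :=
    hC T ((le_max_left _ _).trans hCT')
  have hT1 : 1 < T := by linarith
  have hT0 : 0 < T := by linarith
  set L : ℝ := Real.log T with hL
  rw [Real.rpow_one] at hlog1 hl1 hl2
  rw [one_mul] at hl1 hl2
  have hL0 : 0 < L := by linarith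
  set y := zz η T with hy
  set z := zz (1 / 2 - κ1) T with hz
  set δ : ℝ := 1 / L ^ A with hδ
  have hδ0 : 0 < δ := by positivity
  have hcard : (0 : ℝ) < S.card := by exact_mod_cast hSne.card_pos
  set F : ArithmeticFunction ℝ := BFA y z T κ3 lw u v with hFdef
  -- a point with nonzero difference
  obtain ⟨x, hxS, hDD⟩ : ∃ x ∈ S, DD w F x T (L ^ B) ≠ 0 := by
    by_contra h
    push Not at h
    have h1 : ∑ x ∈ S, g0 x * ((DD w F x T (L ^ B) : ℝ) : ℂ) = 0 := by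
      apply Finset.sum_eq_zero
      intro x hx
      rw [h x hx]
      simp
    rw [h1, norm_zero] at hmain
    have := mul_pos hcard hδ0
    linarith
  have hTB1 : 1 ≤ L ^ B := Real.one_le_rpow hlog1 (by linarith)
  obtain ⟨T2, hT21, hSW⟩ : ∃ T2, 1 ≤ T2 ∧ SW w F x T2 ≠ 0 := by
    by_contra h
    push Not at h
    apply hDD
    unfold DD
    rw [h T hT1.le, h (L ^ B) hTB1]
    ring
  obtain ⟨-, hP2⟩ := hR T κ3 x T2 y z lw u v hT1.le hT21 (hSx x hxS).1 (hSx x hxS).2 (Or.inr hSW)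
  obtain ⟨k, hk, -⟩ := Rg_aux.sw_ne w _ x T2 hSW
  obtain ⟨hne1, hne2⟩ := prod_ne (fun i => msA y T κ3 (lw i) (u i)) (fun r => ps y z (v r)) k hk
  -- the data
  have hD := dat η κ1 κ3 κ' T lw u v hT1.le hTκ1 hκ3 hw1 hw2 hne1 hne2
  set o : Fin 3 ⊕ Fin (SS η) → Option ℕ := Sum.elim u v with ho
  set f : Fin 3 ⊕ Fin (SS η) → ArithmeticFunction ℝ := Sum.elim (fun i => msA (zz η T) T κ3 (lw i) (u i))
      (fun r => ps (zz η T) (zz (1 / 2 - κ1) T) (v r)) with hf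
  have hFf : F = ∏ i, f i := by
    rw [hFdef, Fintype.prod_sum_type]
    rfl
  have hPo : ∏ i, sc (o i) ≤ CR * T ^ 2 := by
    rw [ho, PS_eq]
    exact hP2
  obtain ⟨i0, l0, hl0, hlt0⟩ := hlg
  have hi0 : (Sum.inl i0 : Fin 3 ⊕ Fin (SS η)) ∈ (Finset.univ.filter fun i => Lg T κ3 (o i)) := by
    rw [Finset.mem_filter]
    refine ⟨Finset.mem_univ _, l0, hl0, lt_of_le_of_lt ?_ hlt0⟩
    exact Real.rpow_le_rpow_of_exponent_le hT1.le (by linarith)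
  have hlong : T ^ (1 / 2 + κ2) < sc (o (Sum.inl i0)) := by
    have e : o (Sum.inl i0) = some l0 := hl0
    rw [e]
    exact hlt0
  -- StPd
  obtain ⟨hp1, hp2, hp3⟩ := hPd (Fin 3 ⊕ Fin (SS η)) Finset.univ f (fun i => sc (o i) / 2)
    (fun i => Rg_aux.Yn (o i)) (fun i _ => (div_pos (Rg_aux.sc_pos _) (by norm_num)).le)
    (fun i _ n hn => hD.supp i n hn)
  rw [← hFf] at hp1 hp2 hp3
  set Y : ℕ := ∏ i, Rg_aux.Yn (o i) with hY
  have hmass : ∑ n ∈ Finset.Icc 1 Y, |F n| ≤ MM * L ^ 3 * T ^ 2 := by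
    refine (hp2 Y).trans ?_
    have h1 : ∏ i, ∑ n ∈ Finset.Icc 1 (Rg_aux.Yn (o i)), |f i n| ≤
        ∏ i, (((if i ∈ (Finset.univ.filter fun i => Lg T κ3 (o i)) then CT * Real.log T else 1) * 2) * sc (o i)) :=
      Finset.prod_le_prod (fun i _ => Finset.sum_nonneg fun n _ => abs_nonneg _)
        fun i _ => mass hD CT hCT hTb2 hT1.le hlog1 hκ (by linarith) hκ3 hTκ i
    refine h1.trans ?_
    rw [Finset.prod_mul_distrib]
    refine (mul_le_mul (prod_mass _ hD.card CT (Real.log T) hCT hlog1) hPo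
      (Finset.prod_nonneg fun i _ => (Rg_aux.sc_pos _).le) (by positivity)).trans (le_of_eq ?_)
    rw [hMM, ← hn]
    ring
  have hcond : CF * (MM * L ^ 3) * ((L ^ (A + 10)) ^ 2 / L ^ B + 1 / T) ≤ δ := by
    have := cond (CF * MM) A B L T hlog1 hT0 hB (by positivity) hl3 hl4
    rw [← mul_assoc]
    exact this
  obtain ⟨T', g, hT'1, hT'2, hg, hint⟩ := hF T (L ^ (A + 10)) (L ^ B) (MM * L ^ 3) δ Y F S g0 hT3
    (Real.one_le_rpow hlog1 (by linarith)) hl1 hTB1 hl2 (by positivity) hδ0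
    (fun n hn => ⟨(hp1 n hn).1, (hp1 n hn).2.2⟩) hmass hcond (fun x hx => (hSx x hx).1) hg0 hmain
  have hgn : ∀ x, ‖g x‖ ≤ 1 := norm_g_le T hT0 g0 g hg0 hg
  have hSpos : ∀ x ∈ S, 0 < x := fun x hx => lt_of_lt_of_le (by positivity) (hSx x hx).1
  have hint' : S.card * (δ * T ^ 2) ≤ CF * Real.log T * ∫ t in T'..(2 * T'), ‖GS S g t‖ *
      ∏ i, ‖Dp (Rg_aux.Yn (o i)) (fun n => ((f i n : ℝ) : ℂ)) t‖ := by
    refine hint.trans (le_of_eq ?_)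
    congr 2
    funext t
    rw [hp3 Y t (le_refl _), norm_prod]
  rcases le_total T' (T ^ (1 / 10 : ℝ)) with hle | hge
  · exfalso
    have hT'11 : 1 ≤ T' := (Real.one_le_rpow hlog1 (by linarith)).trans hT'1
    have h := core_i hTb hD CT CK CF CR hCT hCK hCF hCR hTb2 hK hT1.le hlog1 hκ (by linarith) hκ3 hTκ S hSne
      hSpos g hgn T' δ hT'11 hle (Sum.inl i0) hi0 hPo hint'
    rw [← hn, ← hK0, ← hL] at h
    have h1 : L ^ (A + 10) * δ ≤ T' * δ := mul_le_mul_of_nonneg_right hT'1 hδ0.le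
    have h2 : L ^ (A + 10) * δ = L ^ 10 := by
      rw [hδ, Real.rpow_add hL0]
      have : L ^ A ≠ 0 := by positivity
      field_simp
      rw [← Real.rpow_natCast L 10]
      norm_num
    have h3 : L ^ 10 ≤ K0 * L ^ 5 := by linarith
    have h4 : L ^ (5 : ℝ) = L ^ 5 := by
      rw [← Real.rpow_natCast L 5]
      norm_num
    rw [h4] at hl5
    have h5 : 0 < L ^ 5 := by positivity
    have h6 : L ^ 10 = L ^ 5 * L ^ 5 := by ring
    rw [h6] at h3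
    have h7 := le_of_mul_le_mul_right h3 h5
    linarith
  · have hbig : 8 * CF * Cr * Real.sqrt CR * Real.log T / δ ≤ T ^ κ' := by
      refine le_trans (le_of_eq ?_) hl6
      rw [hδ, Real.rpow_add hL0, Real.rpow_one]
      have : L ^ A ≠ 0 := by positivity
      rw [← hL]
      field_simp
    obtain ⟨ν, m, a, N, h1, h2, h3, h4, h5⟩ := core_ii hTb hD κ2 ε δ Cr CF CR hCr hCF hCR hrp hT1 hTr hTR hδ0
      hηκ hκ hκ21 hκ32 hκ'3 hε hC1 hC2 hbig S hSpos g T' hge hT'2 (Sum.inl i0) hi0 hlong hPo hint'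
    exact ⟨T', ν, g, m, a, N, hge, hT'2, hg, hgn, h1, h2, h3, h4, h5⟩

end AAx

theorem iAA (hC : StCellA) (hF4 : StF4) (hPd : StPd) (hRg : StRg) (hRp : StRp) (hTb : StTb)
    (hKp : Pool.Agent.Work.MP_56b8f5_nt.UC.StKp) : StAA := by
  classical
  intro κ2 hκ2 hκ21
  obtain ⟨κ3, ε, hκ3, hκ32, hε, hε3, hcell⟩ := hC κ2 hκ2 hκ21
  refine ⟨κ3, ε / 1000, hκ3, hκ32, by positivity, by linarith, ?_⟩
  intro w hw η κ1 A hη hηκ hκ1 hκ11 hA
  obtain ⟨C2, hC2, hcell2⟩ := hcell η hη (by linarith)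
  have hred := AAx.red hF4 hPd hRg hRp hTb hKp κ2 κ3 (ε / 1000) ε hκ21 hκ3 hκ32 (by positivity)
    (by linarith) (by linarith) w hw η κ1 A hηκ hκ1 hA
  refine ⟨3 * A + 25, by linarith, ?_⟩
  intro B hB
  obtain ⟨C1, hC1, hred1⟩ := hred B hB
  have hev : ∀ᶠ T : ℝ in atTop, C2 + 1 ≤ T ^ (1 / 3 - r0 : ℝ) :=
    AAx.ev_pow _ _ (by unfold r0; norm_num)
  obtain ⟨C3, hC3⟩ := eventually_atTop.1 hev
  refine ⟨max (max C1 C2) (max C3 3), le_trans (by norm_num) (le_max_of_le_right (le_max_right _ _)), ?_⟩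
  intro T u v lw hT hlg hw1 hw2 S hSep hS
  have hT1 : C1 ≤ T := (le_max_left _ _).trans ((le_max_left _ _).trans hT)
  have hT2 : C2 ≤ T := (le_max_right _ _).trans ((le_max_left _ _).trans hT)
  have hT3 : C3 ≤ T := (le_max_left _ _).trans ((le_max_right _ _).trans hT)
  have hT4 : 3 ≤ T := (le_max_right _ _).trans ((le_max_right _ _).trans hT)
  have hT0 : 0 < T := by linarith
  have hTr0 : 1 ≤ T ^ r0 := Real.one_le_rpow (by linarith) (by unfold r0; norm_num)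
  by_contra hcon
  push Not at hcon
  have hcard : C2 * T ^ r0 < S.card := by
    refine lt_of_le_of_lt ?_ hcon
    exact mul_le_mul_of_nonneg_right (le_max_of_le_left (le_max_right _ _)) (by linarith)
  have hk : ⌊C2 * T ^ r0⌋₊ + 1 ≤ S.card := by
    have h := (Nat.floor_lt (show 0 ≤ C2 * T ^ r0 by positivity)).2 hcard
    omega
  obtain ⟨S', hS'S, hS'c⟩ := Finset.exists_subset_card_eq hk
  have hS'1 : C2 * T ^ r0 < S'.card := by
    rw [hS'c]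
    exact_mod_cast Nat.lt_floor_add_one (C2 * T ^ r0)
  have hS'2 : (S'.card : ℝ) ≤ T ^ (1 / 3 : ℝ) := by
    rw [hS'c]
    push_cast
    have h1 : ((⌊C2 * T ^ r0⌋₊ : ℕ) : ℝ) ≤ C2 * T ^ r0 := Nat.floor_le (by positivity)
    have h2 := hC3 T hT3
    have e : T ^ (1 / 3 : ℝ) = T ^ (1 / 3 - r0 : ℝ) * T ^ r0 := by
      rw [← Real.rpow_add hT0]
      congr 1
      ring
    rw [e]
    have h3 : (C2 + 1) * T ^ r0 ≤ T ^ (1 / 3 - r0 : ℝ) * T ^ r0 := mul_le_mul_of_nonneg_right h2 (by linarith)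
    linarith
  have hS'ne : S'.Nonempty := by
    rw [← Finset.card_pos, hS'c]
    omega
  have hSep' : LSep S' T := ⟨fun x hx => hSep.1 x (hS'S hx), fun x hx y hy => hSep.2 x (hS'S hx) y (hS'S hy)⟩
  set DF : ℝ → ℝ := fun x => DD w (BFA (zz η T) (zz (1 / 2 - κ1) T) T κ3 lw u v) x T (Real.log T ^ B) with hDF
  set g0 : ℝ → ℂ := fun x => if 0 ≤ DF x then 1 else -1 with hg0
  have hg0n : ∀ x, ‖g0 x‖ ≤ 1 := by
    intro x
    simp only [hg0]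
    split_ifs <;> simp
  have hgD : ∀ x, g0 x * ((DF x : ℝ) : ℂ) = ((|DF x| : ℝ) : ℂ) := by
    intro x
    simp only [hg0]
    split_ifs with h
    · rw [abs_of_nonneg h, one_mul]
    · rw [abs_of_neg (not_le.1 h)]
      push_cast
      ring
  have hmain : S'.card * (1 / Real.log T ^ A) ≤ ‖∑ x ∈ S', g0 x * ((DF x : ℝ) : ℂ)‖ := by
    have e : ∑ x ∈ S', g0 x * ((DF x : ℝ) : ℂ) = ((∑ x ∈ S', |DF x| : ℝ) : ℂ) := by
      push_cast
      exact Finset.sum_congr rfl fun x _ => hgD x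
    rw [e, Complex.norm_real, Real.norm_of_nonneg (Finset.sum_nonneg fun x _ => abs_nonneg _),
      ← nsmul_eq_mul]
    exact Finset.card_nsmul_le_sum _ _ _ fun x hx => (hS x (hS'S hx)).2.2
  obtain ⟨T', ν, g, m, a, N, h1, h2, -, h3, h4, h5, h6, h7, h8⟩ := hred1 T u v lw S' g0 hT1 hlg hw1 hw2
    (fun x hx => ⟨(hS x (hS'S hx)).1, (hS x (hS'S hx)).2.1⟩) hS'ne hg0n hmain
  have hT'1 : 1 ≤ T' := (Real.one_le_rpow (by linarith) (by norm_num)).trans h1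
  have hT'2 : T' ≤ T ^ (1 + ε) := h2.trans (Real.rpow_le_rpow_of_exponent_le (by linarith) (by linarith))
  have := hcell2 T T' ν m a N S' g hT2 hT'1 hT'2 h4 h5 h6 h7 hSep' hS'2 h3 h8
  linarith

end Pool.Agent.Work.MP_a8fbd7_nt.OX.ASM
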