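import Mathlib
import Pool.Agent.Work.MP_a8fbd7_nt.OX.ASM.Stmts

/-!
MP_a8fbd7_nt, OX/ASM: windows.

* `window` : the window `{n : w ((n/x)^T') ≠ 0}` is contained in `(x1, x1 + C x/T']`, `x/C ≤ x1 ≤ C x`;
* `SW_eq` : `SW w c x T'` is a finite sum over such a window;
* `SW_le` : if `0 ≤ c`, `SW w c x T' ≤ C ∑_{n in the window} c n`;
* `pow_apply` : powers of arithmetic functions as sums over tuples.
-/

set_option autoImplicit false

open Set Filter Topology

noncomputable section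

namespace Pool.Agent.Work.MP_a8fbd7_nt.OX.ASM

open Pool.Agent.Work.MP_56b8f5_nt.UC (IsWt)

namespace Win

/-- powers of arithmetic functions -/
theorem pow_apply (f : ArithmeticFunction ℝ) : ∀ (k n : ℕ),
    (f ^ k) n = ∑ g ∈ Nat.finMulAntidiag k n, ∏ i, f (g i)
  | 0, n => by
    rw [pow_zero, ArithmeticFunction.one_apply]
    split_ifs with h
    · subst h
      rw [Nat.finMulAntidiag_one]
      simp
    · rw [Nat.finMulAntidiag_zero_left h]
      simp
  | k + 1, n => by
    rw [pow_succ', ArithmeticFunction.mul_apply]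
    simp_rw [pow_apply f k, Finset.mul_sum]
    rw [Finset.sum_sigma']
    refine Finset.sum_bij' (fun (x : (_ : ℕ × ℕ) × (Fin k → ℕ)) _ => (Fin.cons x.1.1 x.2 : Fin (k + 1) → ℕ))
      (fun (g : Fin (k + 1) → ℕ) _ => (⟨(g 0, ∏ i, g (Fin.succ i)), Fin.tail g⟩ : (_ : ℕ × ℕ) × (Fin k → ℕ)))
      ?_ ?_ ?_ ?_ ?_
    · rintro ⟨⟨a, b⟩, g⟩ h
      simp only [Finset.mem_sigma, Nat.mem_divisorsAntidiagonal, Nat.mem_finMulAntidiag] at h ⊢
      rw [Fin.prod_univ_succ]
      simp only [Fin.cons_zero, Fin.cons_succ]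
      refine ⟨?_, h.1.2⟩
      rw [h.2.1, h.1.1]
    · intro g h
      simp only [Finset.mem_sigma, Nat.mem_divisorsAntidiagonal, Nat.mem_finMulAntidiag] at h ⊢
      rw [Fin.prod_univ_succ] at h
      refine ⟨⟨h.1, h.2⟩, rfl, ?_⟩
      intro h0
      rw [h0, mul_zero] at h
      exact h.2 h.1.symm
    · rintro ⟨⟨a, b⟩, g⟩ h
      simp only [Finset.mem_sigma, Nat.mem_divisorsAntidiagonal, Nat.mem_finMulAntidiag] at h ⊢
      simp only [Fin.cons_zero, Fin.cons_succ, Fin.tail_cons]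
      rw [h.2.1]
    · intro g h
      simp only [Fin.cons_self_tail]
    · rintro ⟨⟨a, b⟩, g⟩ h
      rw [Fin.prod_univ_succ]
      simp only [Fin.cons_zero, Fin.cons_succ]

/-- `w` is bounded, and its dilated support is contained in a short interval -/
theorem window (w : ℝ → ℝ) (hw : IsWt w) : ∃ C : ℝ, 1 ≤ C ∧ (∀ u, |w u| ≤ C) ∧
    ∀ x T' : ℝ, 0 < x → 1 ≤ T' → ∃ x1 : ℝ, x / C ≤ x1 ∧ x1 ≤ x ∧
      ∀ n : ℕ, w (((n : ℝ) / x) ^ T') ≠ 0 → x1 < n ∧ (n : ℝ) ≤ x1 + C * (x / T') := by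
  obtain ⟨a, b, ha, hab, hs⟩ := hw.supp
  have hcs : HasCompactSupport w := by
    refine HasCompactSupport.of_support_subset_isCompact (isCompact_Icc (a := a) (b := b)) ?_
    intro u hu
    exact hs u hu
  obtain ⟨W, hW⟩ := hw.smooth.continuous.bounded_above_of_compact_support hcs
  set a' : ℝ := min a 1 / 2 with ha'
  set b' : ℝ := max b 1 with hb'
  have ha0 : 0 < a' := by positivity
  have ha1 : a' ≤ 1 / 2 := by
    rw [ha']
    have := min_le_right a 1
    linarith
  have haa : a' < a := by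
    have h1 := min_le_left a 1
    have h2 : 0 < min a 1 := by positivity
    rw [ha']
    linarith
  have hb1 : 1 ≤ b' := le_max_right b 1
  have hbb : b ≤ b' := le_max_left b 1
  set L : ℝ := b' - 1 + Real.log (1 / a') with hL
  have hL0 : 0 ≤ Real.log (1 / a') := Real.log_nonneg (by rw [le_div_iff₀ ha0]; linarith)
  refine ⟨max (max 1 |W|) (max (1 / a') L), le_max_of_le_left (le_max_left _ _), ?_, ?_⟩
  · intro u
    have h1 := hW u
    rw [Real.norm_eq_abs] at h1
    exact h1.trans ((le_abs_self W).trans (le_max_of_le_left (le_max_right _ _)))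
  · intro x T' hx hT
    have hT0 : 0 < T' := by linarith
    refine ⟨x * a' ^ (1 / T'), ?_, ?_, ?_⟩
    · have h1 : a' ≤ a' ^ (1 / T') := by
        calc a' = a' ^ (1 : ℝ) := (Real.rpow_one _).symm
          _ ≤ a' ^ (1 / T') := by
            apply Real.rpow_le_rpow_of_exponent_ge ha0 (by linarith)
            rw [div_le_one hT0]
            exact hT
      calc x / max (max 1 |W|) (max (1 / a') L) ≤ x / (1 / a') := by
            apply div_le_div_of_nonneg_left hx.le (by positivity)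
            exact le_max_of_le_right (le_max_left _ _)
        _ = x * a' := by field_simp
        _ ≤ x * a' ^ (1 / T') := by gcongr
    · have h1 : a' ^ (1 / T') ≤ 1 := Real.rpow_le_one ha0.le (by linarith) (by positivity)
      calc x * a' ^ (1 / T') ≤ x * 1 := by gcongr
        _ = x := mul_one x
    · intro n hn
      have h0 := hs _ hn
      have hnx : 0 ≤ (n : ℝ) / x := by positivity
      have h1 : a' ^ (1 / T') < (n : ℝ) / x := by
        have h2 : a' < ((n : ℝ) / x) ^ T' := lt_of_lt_of_le haa h0.1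
        have h3 := Real.rpow_lt_rpow ha0.le h2 (z := 1 / T') (by positivity)
        rwa [← Real.rpow_mul hnx, mul_one_div_cancel hT0.ne', Real.rpow_one] at h3
      have h2 : (n : ℝ) / x ≤ b' ^ (1 / T') := by
        have h2 : ((n : ℝ) / x) ^ T' ≤ b' := h0.2.trans hbb
        have h3 := Real.rpow_le_rpow (by positivity) h2 (z := 1 / T') (by positivity)
        rwa [← Real.rpow_mul hnx, mul_one_div_cancel hT0.ne', Real.rpow_one] at h3
      constructor
      · rw [lt_div_iff₀ hx] at h1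
        linarith
      · have h3 : b' ^ (1 / T') ≤ 1 + (1 / T') * (b' - 1) := by
          have h4 := rpow_one_add_le_one_add_mul_self (s := b' - 1) (by linarith) (p := 1 / T')
            (by positivity) (by rw [div_le_one hT0]; exact hT)
          have e : 1 + (b' - 1) = b' := by ring
          rwa [e] at h4
        have h4 : 1 - (1 / T') * Real.log (1 / a') ≤ a' ^ (1 / T') := by
          have h5 : a' ^ (1 / T') = Real.exp (-((1 / T') * Real.log (1 / a'))) := by
            rw [Real.rpow_def_of_pos ha0, one_div a', Real.log_inv]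
            congr 1
            ring
          rw [h5]
          have h6 := Real.add_one_le_exp (-((1 / T') * Real.log (1 / a')))
          linarith
        have h5 : (n : ℝ) ≤ x * b' ^ (1 / T') := by
          rw [div_le_iff₀ hx] at h2
          linarith
        have h6 : x * b' ^ (1 / T') ≤ x * a' ^ (1 / T') + x * ((1 / T') * L) := by
          rw [← mul_add]
          apply mul_le_mul_of_nonneg_left _ hx.le
          rw [hL, mul_add]
          linarith
        have h7 : x * ((1 / T') * L) ≤ max (max 1 |W|) (max (1 / a') L) * (x / T') := by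
          have h8 : x * ((1 / T') * L) = L * (x / T') := by ring
          rw [h8]
          apply mul_le_mul_of_nonneg_right _ (by positivity)
          exact le_max_of_le_right (le_max_right _ _)
        linarith

/-- the naturals in `(x1, x1 + h]` -/
def Wn (x1 h : ℝ) : Finset ℕ := (Finset.Icc 1 ⌊x1 + h⌋₊).filter fun n => x1 < (n : ℝ)

theorem mem_Wn {x1 h : ℝ} (h1 : 0 ≤ x1) {n : ℕ} : n ∈ Wn x1 h ↔ x1 < (n : ℝ) ∧ (n : ℝ) ≤ x1 + h := by
  rw [Wn, Finset.mem_filter, Finset.mem_Icc]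
  constructor
  · rintro ⟨⟨h2, h3⟩, h4⟩
    refine ⟨h4, ?_⟩
    rcases le_or_gt 0 (x1 + h) with h5 | h5
    · exact (Nat.le_floor_iff h5).1 h3
    · rw [Nat.floor_of_nonpos h5.le] at h3
      omega
  · rintro ⟨h2, h3⟩
    refine ⟨⟨?_, Nat.le_floor h3⟩, h2⟩
    have : (0 : ℝ) < n := lt_of_le_of_lt h1 h2
    exact_mod_cast this

/-- `SW` as a finite sum -/
theorem SW_eq (w : ℝ → ℝ) (c : ℕ → ℝ) (x T' x1 h : ℝ) (h1 : 0 ≤ x1)
    (hn : ∀ n : ℕ, w (((n : ℝ) / x) ^ T') ≠ 0 → x1 < n ∧ (n : ℝ) ≤ x1 + h) :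
    SW w c x T' = ∑ n ∈ Wn x1 h, c n * w (((n : ℝ) / x) ^ T') := by
  rw [SW]
  apply tsum_eq_sum
  intro n hn'
  rw [mem_Wn h1] at hn'
  have : w (((n : ℝ) / x) ^ T') = 0 := by
    by_contra h0
    exact hn' (hn n h0)
  rw [this, mul_zero]

theorem SW_abs_le (w : ℝ → ℝ) (c : ℕ → ℝ) (x T' x1 h C : ℝ) (h1 : 0 ≤ x1) (hC : ∀ u, |w u| ≤ C)
    (hn : ∀ n : ℕ, w (((n : ℝ) / x) ^ T') ≠ 0 → x1 < n ∧ (n : ℝ) ≤ x1 + h) :
    |SW w c x T'| ≤ C * ∑ n ∈ Wn x1 h, |c n| := by
  rw [SW_eq w c x T' x1 h h1 hn, Finset.mul_sum]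
  refine (Finset.abs_sum_le_sum_abs _ _).trans (Finset.sum_le_sum fun n _ => ?_)
  rw [abs_mul, mul_comm]
  gcongr
  exact hC _

/-- difference of two `SW` -/
theorem SW_sub (w : ℝ → ℝ) (c d : ℕ → ℝ) (x T' x1 h : ℝ) (h1 : 0 ≤ x1)
    (hn : ∀ n : ℕ, w (((n : ℝ) / x) ^ T') ≠ 0 → x1 < n ∧ (n : ℝ) ≤ x1 + h) :
    SW w c x T' - SW w d x T' = SW w (fun n => c n - d n) x T' := by
  rw [SW_eq w c x T' x1 h h1 hn, SW_eq w d x T' x1 h h1 hn, SW_eq w _ x T' x1 h h1 hn, ← Finset.sum_sub_distrib]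
  refine Finset.sum_congr rfl fun n _ => ?_
  ring

end Win

end Pool.Agent.Work.MP_a8fbd7_nt.OX.ASM
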