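import Pool.Agent.Work.MP_a8fbd7_nt.OX.ASM.Stmts
import Pool.Agent.Work.MP_a8fbd7_nt.OX.ID.Expand2

/-!
MP_a8fbd7_nt, block OX, item Ex: expansion of the von Mangoldt function on rough numbers into boxes.
-/

set_option autoImplicit false

noncomputable section

namespace Pool.Agent.Work.MP_a8fbd7_nt.OX.ASM

open Finset
open Pool.Agent.Work.MP_56b8f5_nt.UC (psi eta)
open Pool.Agent.Work.MP_a8fbd7_nt.OX.ID (Rough roughOne pb rg rg_eq lin3 rg_pow_expand_error HasSq exErr exErr_pos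
  af_sum af_smul af_sub pb_apply roughOne_apply)

/-! ### The partition of unity -/

theorem eta_zero {x : ℝ} (h : 2 ≤ x) : eta x = 0 :=
  Real.smoothTransition.zero_of_nonpos (by linarith)

theorem eta_one {x : ℝ} (h : x ≤ 1) : eta x = 1 :=
  Real.smoothTransition.one_of_one_le (by linarith)

theorem sum_psi_eq (x : ℝ) (L : ℕ) :
    ∑ l ∈ range L, psi (x / 2 ^ l) = eta (2 * x / 2 ^ L) - eta (2 * x) := by
  have h1 : ∀ l : ℕ, psi (x / 2 ^ l) = eta (2 * x / 2 ^ (l + 1)) - eta (2 * x / 2 ^ l) := by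
    intro l
    unfold psi
    congr 2
    · rw [pow_succ, mul_comm (2 ^ l : ℝ) 2, mul_div_mul_left _ _ (by norm_num)]
    · ring
  rw [sum_congr rfl fun l _ => h1 l, Finset.sum_range_sub (fun l => eta (2 * x / 2 ^ l))]
  simp

theorem sum_psi_one {m L : ℕ} (hm : 1 ≤ m) (hL : m ≤ 2 ^ L) :
    ∑ l ∈ range (L + 1), psi ((m : ℝ) / 2 ^ l) = 1 := by
  have h1 : (1 : ℝ) ≤ m := by exact_mod_cast hm
  have h2 : (m : ℝ) ≤ 2 ^ L := by exact_mod_cast hL
  rw [sum_psi_eq, eta_one, eta_zero, sub_zero]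
  · linarith
  · rw [div_le_one (by positivity), pow_succ]
    linarith

/-! ### Equality up to a bound -/

/-- the arithmetic functions agree up to `M` -/
def EqUp (M : ℕ) (f g : ArithmeticFunction ℝ) : Prop := ∀ n ≤ M, f n = g n

theorem EqUp.mul {M : ℕ} {f g f' g' : ArithmeticFunction ℝ} (h : EqUp M f g) (h' : EqUp M f' g') :
    EqUp M (f * f') (g * g') := by
  intro n hn
  rw [ArithmeticFunction.mul_apply, ArithmeticFunction.mul_apply]
  refine sum_congr rfl fun p hp => ?_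
  have hd := Nat.mem_divisorsAntidiagonal.1 hp
  have h1 : p.1 ≤ n := Nat.le_of_dvd (Nat.pos_of_ne_zero hd.2) (Dvd.intro _ hd.1)
  have h2 : p.2 ≤ n := Nat.le_of_dvd (Nat.pos_of_ne_zero hd.2) (Dvd.intro_left _ hd.1)
  rw [h _ (h1.trans hn), h' _ (h2.trans hn)]

theorem EqUp.pow {M : ℕ} {f g : ArithmeticFunction ℝ} (h : EqUp M f g) : ∀ k : ℕ, EqUp M (f ^ k) (g ^ k)
  | 0 => fun _ _ => by rw [pow_zero, pow_zero]
  | k + 1 => by
    rw [pow_succ, pow_succ]
    exact (EqUp.pow h k).mul h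

/-! ### The truncated functions -/

/-- `∑_l pbl y z l` -/
def pbt (y z L : ℕ) : ArithmeticFunction ℝ := ∑ l ∈ range L, pbl y z l

/-- `1 + ∑_l rb y l` -/
def rgt (y L : ℕ) : ArithmeticFunction ℝ := 1 + ∑ l ∈ range L, rb y l

theorem pbl_apply (y z l n : ℕ) : pbl y z l n = pb y z n * psi ((n : ℝ) / 2 ^ l) := rfl

theorem rb_apply (y l n : ℕ) : rb y l n = roughOne y n * psi ((n : ℝ) / 2 ^ l) := rfl

theorem pbt_eq (y z L : ℕ) : EqUp (2 ^ L) (pbt y z (L + 1)) (pb y z) := by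
  intro n hn
  unfold pbt
  rw [af_sum, sum_congr rfl fun l _ => pbl_apply y z l n, ← mul_sum]
  rcases Nat.eq_zero_or_pos n with rfl | h0
  · rw [ArithmeticFunction.map_zero, zero_mul]
  · rw [sum_psi_one h0 hn, mul_one]

theorem rgt_eq (y L : ℕ) : EqUp (2 ^ L) (rgt y (L + 1)) (rg y) := by
  intro n hn
  unfold rgt
  rw [rg_eq, ArithmeticFunction.add_apply, ArithmeticFunction.add_apply, af_sum,
    sum_congr rfl fun l _ => rb_apply y l n, ← mul_sum]
  rcases Nat.eq_zero_or_pos n with rfl | h0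
  · rw [ArithmeticFunction.map_zero (f := roughOne y), zero_mul]
  · rw [sum_psi_one h0 hn, mul_one]

/-! ### The rough slots -/

theorem sum_none (L : ℕ) (f : Option ℕ → ArithmeticFunction ℝ) :
    ∑ o ∈ Finset.insertNone (range L), f o = f none + ∑ l ∈ range L, f (some l) := by
  rw [Finset.sum_insertNone]

open Classical in
theorem sum_u (y : ℕ) (T : ℝ) {k : ℕ} (hk : k ≤ 3) :
    ∑ u ∈ Bx 3 T, (if ∀ i : Fin 3, k ≤ i.val → u i = none then (1 : ℝ) else 0) • ∏ i, ms y (u i) =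
      rgt y (LL T) ^ k := by
  have h1 : ∀ u : Fin 3 → Option ℕ, (if ∀ i : Fin 3, k ≤ i.val → u i = none then (1 : ℝ) else 0) • ∏ i, ms y (u i) =
      ∏ i : Fin 3, (if k ≤ i.val → u i = none then ms y (u i) else 0) := by
    intro u
    by_cases h : ∀ i : Fin 3, k ≤ i.val → u i = none
    · rw [if_pos h, one_smul]
      exact prod_congr rfl fun i _ => by rw [if_pos (h i)]
    · rw [if_neg h, zero_smul]
      push Not at h
      obtain ⟨i, hi, hi'⟩ := h
      symm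
      apply prod_eq_zero (mem_univ i)
      rw [if_neg]
      intro h'
      exact hi' (h' hi)
  rw [sum_congr rfl fun u _ => h1 u]
  unfold Bx
  rw [← Finset.prod_univ_sum (fun _ : Fin 3 => Finset.insertNone (range (LL T)))
    (fun i o => if k ≤ i.val → o = none then ms y o else 0)]
  have h2 : ∀ i : Fin 3, ∑ o ∈ Finset.insertNone (range (LL T)),
      (if k ≤ i.val → o = none then ms y o else 0) = if i.val < k then rgt y (LL T) else 1 := by
    intro i
    rw [sum_none]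
    by_cases hi : i.val < k
    · rw [if_pos hi, if_pos (fun h => absurd h (by omega))]
      unfold rgt
      congr 1
      exact sum_congr rfl fun l _ => by rw [if_pos (fun h => absurd h (by omega))]; rfl
    · rw [if_neg hi, if_pos (fun _ => rfl), sum_eq_zero, add_zero]
      · rfl
      · intro l _
        rw [if_neg]
        intro h
        exact absurd (h (by omega)) (by simp)
  rw [prod_congr rfl fun i _ => h2 i]
  rw [Finset.prod_ite, prod_const, prod_const_one, mul_one]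
  congr 1
  rw [Fin.card_filter_val_lt]
  omega

/-! ### The prime slots -/

open Polynomial in
theorem coeff_gen {R : Type} [CommRing R] (S s L : ℕ) (q : Option ℕ → R) (hq : q none = 1) :
    ∑ v ∈ (Fintype.piFinset fun _ : Fin S => Finset.insertNone (range L)).filter (fun v => ns v = s), ∏ r, q (v r) =
      (S.choose s : R) * (∑ l ∈ range L, q (some l)) ^ s := by
  classical
  set P := ∑ l ∈ range L, q (some l) with hP
  set g : Option ℕ → R[X] := fun o => if o.isSome then C (q o) * X else 1 with hg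
  have h1 : ∏ _r : Fin S, ∑ o ∈ Finset.insertNone (range L), g o =
      ∑ v ∈ (Fintype.piFinset fun _ : Fin S => Finset.insertNone (range L)), ∏ r, g (v r) :=
    Finset.prod_univ_sum (fun _ : Fin S => Finset.insertNone (range L)) (fun _ o => g o)
  have h2 : ∑ o ∈ Finset.insertNone (range L), g o = C P * X + 1 := by
    rw [Finset.sum_insertNone, add_comm]
    congr 1
    rw [hP, map_sum, sum_mul]
    exact sum_congr rfl fun l _ => rfl
  have h3 : ∀ v : Fin S → Option ℕ, ∏ r, g (v r) = C (∏ r, q (v r)) * X ^ ns v := by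
    intro v
    have e1 : ∀ r, g (v r) = C (q (v r)) * (if (v r).isSome then X else 1) := by
      intro r
      rw [hg]
      rcases h : v r with _ | l
      · simp [hq]
      · simp
    rw [prod_congr rfl fun r _ => e1 r, prod_mul_distrib, map_prod]
    congr 1
    rw [Finset.prod_ite, prod_const, prod_const_one, mul_one]
    rfl
  rw [prod_const, card_univ, Fintype.card_fin, h2, sum_congr rfl fun v _ => h3 v, add_pow] at h1
  have h4 := congrArg (fun q => q.coeff s) h1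
  simp only [one_pow, mul_one, mul_pow, ← C_pow, finset_sum_coeff] at h4
  have h5 : ∀ m : ℕ, (C (P ^ m) * X ^ m * ((S.choose m : ℕ) : R[X])).coeff s =
      if s = m then (S.choose m : R) * P ^ m else 0 := by
    intro m
    rw [← C_eq_natCast, mul_right_comm, ← C_mul, coeff_C_mul_X_pow]
    split_ifs
    · rw [mul_comm]
    · rfl
  rw [sum_congr rfl fun m _ => h5 m] at h4
  rw [sum_congr rfl fun v _ => coeff_C_mul_X_pow _ _ s] at h4
  rw [sum_filter]
  have h6 : ∑ v ∈ (Fintype.piFinset fun _ : Fin S => Finset.insertNone (range L)), (if ns v = s then ∏ r, q (v r) else 0) =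
      ∑ v ∈ (Fintype.piFinset fun _ : Fin S => Finset.insertNone (range L)), (if s = ns v then ∏ r, q (v r) else 0) :=
    sum_congr rfl fun v _ => by simp only [eq_comm]
  rw [h6, ← h4, sum_ite_eq]
  split_ifs with hs
  · rfl
  · rw [Nat.choose_eq_zero_of_lt (by rw [mem_range] at hs; omega), Nat.cast_zero, zero_mul]

theorem sum_v_coeff (y z S : ℕ) (T : ℝ) (s : ℕ) :
    ∑ v ∈ (Bx S T).filter (fun v => ns v = s), ∏ r, ps y z (v r) =
      (S.choose s : ℝ) • pbt y z (LL T) ^ s := by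
  have h := coeff_gen S s (LL T) (fun o => ps y z o) rfl
  have h1 : (S.choose s : ℝ) • pbt y z (LL T) ^ s = ((S.choose s : ℕ) : ArithmeticFunction ℝ) *
      (∑ l ∈ range (LL T), ps y z (some l)) ^ s := by
    rw [← nsmul_eq_mul, Nat.cast_smul_eq_nsmul]
    rfl
  rw [h1]
  exact h

theorem ns_le {S : ℕ} (v : Fin S → Option ℕ) : ns v ≤ S := by
  unfold ns
  exact (card_filter_le _ _).trans (by simp)

theorem sum_v (y z S : ℕ) (T : ℝ) (k : ℝ) :
    ∑ v ∈ Bx S T, (k ^ ns v * ((S - ns v).factorial : ℝ) / (S.factorial : ℝ)) • ∏ r, ps y z (v r) =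
      ∑ s ∈ range (S + 1), (k ^ s / (s.factorial : ℝ)) • pbt y z (LL T) ^ s := by
  classical
  have h1 : ∑ v ∈ Bx S T, (k ^ ns v * ((S - ns v).factorial : ℝ) / (S.factorial : ℝ)) • ∏ r, ps y z (v r) =
      ∑ s ∈ range (S + 1), ∑ v ∈ (Bx S T).filter (fun v => ns v = s),
        (k ^ ns v * ((S - ns v).factorial : ℝ) / (S.factorial : ℝ)) • ∏ r, ps y z (v r) := by
    rw [sum_fiberwise_of_maps_to]
    intro v _
    rw [mem_range]
    have := ns_le v
    omega
  rw [h1]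
  refine sum_congr rfl fun s hs => ?_
  have h2 : ∑ v ∈ (Bx S T).filter (fun v => ns v = s),
      (k ^ ns v * ((S - ns v).factorial : ℝ) / (S.factorial : ℝ)) • ∏ r, ps y z (v r) =
      (k ^ s * ((S - s).factorial : ℝ) / (S.factorial : ℝ)) •
        ∑ v ∈ (Bx S T).filter (fun v => ns v = s), ∏ r, ps y z (v r) := by
    rw [smul_sum]
    exact sum_congr rfl fun v hv => by rw [(mem_filter.1 hv).2]
  rw [h2, sum_v_coeff, smul_smul]
  congr 1
  have hs' : s ≤ S := by rw [mem_range] at hs; omega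
  have h3 : (S.choose s : ℝ) = (S.factorial : ℝ) / ((s.factorial : ℝ) * ((S - s).factorial : ℝ)) :=
    Nat.cast_choose ℝ hs'
  rw [h3]
  have e1 : (S.factorial : ℝ) ≠ 0 := by exact_mod_cast (Nat.factorial_pos _).ne'
  have e2 : (s.factorial : ℝ) ≠ 0 := by exact_mod_cast (Nat.factorial_pos _).ne'
  have e3 : ((S - s).factorial : ℝ) ≠ 0 := by exact_mod_cast (Nat.factorial_pos _).ne'
  field_simp

/-! ### The boxes -/

/-- the part of the sum for the `k`-th power -/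
def bk (y z S L k n : ℕ) : ℝ :=
  ∑ s ∈ range (S + 1), (-(k : ℝ)) ^ s / (s.factorial : ℝ) * (pbt y z L ^ s * rgt y L ^ k) n

open Classical in
theorem sum_box (y z S : ℕ) (T : ℝ) (n : ℕ) :
    ∑ u ∈ Bx 3 T, ∑ v ∈ Bx S T, cc u v * BF y z u v n =
      3 * bk y z S (LL T) 1 n - 3 / 2 * bk y z S (LL T) 2 n + 1 / 3 * bk y z S (LL T) 3 n := by
  set A : ℕ → (Fin 3 → Option ℕ) → ℝ := fun k u => if ∀ i : Fin 3, k ≤ i.val → u i = none then (1 : ℝ) else 0 with hA
  set w : ℝ → (Fin S → Option ℕ) → ℝ := fun k v => k ^ ns v * ((S - ns v).factorial : ℝ) / (S.factorial : ℝ) with hw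
  have hcc : ∀ (u : Fin 3 → Option ℕ) (v : Fin S → Option ℕ), cc u v =
      3 * (A 1 u * w (-1) v) - 3 / 2 * (A 2 u * w (-2) v) + 1 / 3 * (A 3 u * w (-3) v) := by
    intro u v
    have h3 : A 3 u = 1 := by
      rw [hA]
      simp only
      rw [if_pos]
      intro i hi
      omega
    rw [h3, hA, hw]
    unfold cc
    simp only
    split_ifs <;> ring
  have key : ∀ k : ℕ, k ≤ 3 → ∑ u ∈ Bx 3 T, ∑ v ∈ Bx S T, (A k u * w (-(k : ℝ)) v) * BF y z u v n =
      bk y z S (LL T) k n := by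
    intro k hk
    have h1 : ∑ u ∈ Bx 3 T, ∑ v ∈ Bx S T, (A k u * w (-(k : ℝ)) v) * BF y z u v n =
        ((∑ u ∈ Bx 3 T, A k u • ∏ i, ms y (u i)) * ∑ v ∈ Bx S T, w (-(k : ℝ)) v • ∏ r, ps y z (v r)) n := by
      rw [sum_mul_sum, af_sum]
      refine sum_congr rfl fun u _ => ?_
      rw [af_sum]
      refine sum_congr rfl fun v _ => ?_
      rw [smul_mul_smul_comm, af_smul]
      rfl
    rw [h1]
    have h2 := sum_u y T hk
    have h3 := sum_v y z S T (-(k : ℝ))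
    have h2' : ∑ u ∈ Bx 3 T, A k u • ∏ i, ms y (u i) = rgt y (LL T) ^ k := by
      rw [← h2]
    have h3' : ∑ v ∈ Bx S T, w (-(k : ℝ)) v • ∏ r, ps y z (v r) =
        ∑ s ∈ range (S + 1), ((-(k : ℝ)) ^ s / (s.factorial : ℝ)) • pbt y z (LL T) ^ s := by
      rw [← h3]
    rw [h2', h3', mul_sum, af_sum]
    unfold bk
    refine sum_congr rfl fun s _ => ?_
    rw [mul_smul_comm, af_smul, mul_comm (rgt y (LL T) ^ k)]
  have k1 := key 1 (by norm_num)
  have k2 := key 2 (by norm_num)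
  have k3 := key 3 (by norm_num)
  rw [← k1, ← k2, ← k3, mul_sum, mul_sum, mul_sum, ← sum_sub_distrib, ← sum_add_distrib]
  refine sum_congr rfl fun u _ => ?_
  rw [mul_sum, mul_sum, mul_sum, ← sum_sub_distrib, ← sum_add_distrib]
  refine sum_congr rfl fun v _ => ?_
  rw [hcc]
  push_cast
  ring

theorem bk_eq {y z S L k n : ℕ} (hn : n ≤ 2 ^ L) :
    bk y z S (L + 1) k n = ∑ s ∈ range (S + 1), (-(k : ℝ)) ^ s / (s.factorial : ℝ) * (pb y z ^ s * rg y ^ k) n := by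
  unfold bk
  refine sum_congr rfl fun s _ => ?_
  rw [(((pbt_eq y z L).pow s).mul ((rgt_eq y L).pow k)) n hn]

/-! ### Sizes -/

theorem zz_ge {η T : ℝ} (hη : 0 ≤ η) (hT : 1 ≤ T) : T ^ η / 2 ≤ zz η T := by
  unfold zz
  have h1 : (1 : ℝ) ≤ T ^ η := Real.one_le_rpow hT hη
  have h2 : T ^ η < ⌊T ^ η⌋₊ + 1 := Nat.lt_floor_add_one _
  have h3 : 1 ≤ ⌊T ^ η⌋₊ := Nat.one_le_floor_iff _ |>.2 h1
  have h4 : (1 : ℝ) ≤ ⌊T ^ η⌋₊ := by exact_mod_cast h3
  linarith

theorem zz_pos {η T : ℝ} (hη : 0 ≤ η) (hT : 1 ≤ T) : 1 ≤ zz η T :=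
  (Nat.one_le_floor_iff _).2 (Real.one_le_rpow hT hη)

theorem zz_mono {η η' T : ℝ} (h : η ≤ η') (hT : 1 ≤ T) : zz η T ≤ zz η' T :=
  Nat.floor_le_floor (Real.rpow_le_rpow_of_exponent_le hT h)

theorem le_zz_pow {η T : ℝ} {m n : ℕ} (hη : 0 ≤ η) (hT : 1 ≤ T) (hn : (n : ℝ) ≤ T ^ (2 + 1 / 20 : ℝ))
    (h : T ^ (2 + 1 / 20 : ℝ) * 2 ^ m ≤ T ^ (η * m)) : n ≤ zz η T ^ m := by
  have h1 : (T ^ η / 2) ^ m ≤ (zz η T : ℝ) ^ m := pow_le_pow_left₀ (by positivity) (zz_ge hη hT) m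
  have h2 : T ^ (2 + 1 / 20 : ℝ) ≤ (T ^ η / 2) ^ m := by
    rw [div_pow, ← Real.rpow_natCast (T ^ η), ← Real.rpow_mul (by linarith), le_div_iff₀ (by positivity)]
    exact h
  have h3 : (n : ℝ) ≤ ((zz η T ^ m : ℕ) : ℝ) := by
    push_cast
    linarith
  exact_mod_cast h3

theorem le_two_pow {T : ℝ} {n : ℕ} (hT : 1 ≤ T) (hn : (n : ℝ) ≤ T ^ (2 + 1 / 20 : ℝ)) :
    n ≤ 2 ^ ⌈3 * Real.log T⌉₊ := by
  have hl : 0 ≤ Real.log T := Real.log_nonneg hT
  have h1 : T ^ (2 + 1 / 20 : ℝ) ≤ (2 : ℝ) ^ (3 * Real.log T) := by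
    rw [Real.rpow_def_of_pos (by linarith), Real.rpow_def_of_pos (by norm_num)]
    apply Real.exp_le_exp.2
    have := Real.log_two_gt_d9
    nlinarith
  have h2 : (2 : ℝ) ^ (3 * Real.log T) ≤ (2 : ℝ) ^ ((⌈3 * Real.log T⌉₊ : ℕ) : ℝ) :=
    Real.rpow_le_rpow_of_exponent_le (by norm_num) (Nat.le_ceil _)
  rw [Real.rpow_natCast] at h2
  have h3 : (n : ℝ) ≤ ((2 ^ ⌈3 * Real.log T⌉₊ : ℕ) : ℝ) := by
    push_cast
    linarith
  exact_mod_cast h3

/-- the constant -/
def exC (S : ℕ) : ℝ := 3 * exErr S 1 + 3 / 2 * exErr S 2 + 1 / 3 * exErr S 3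

theorem iEx : StEx := by
  classical
  intro η κ1 hη hη2 hκ hκ2
  set S := SS η with hS
  refine ⟨max (max (2 ^ 25) (2 ^ (2 * (S + 1)))) (exC S), ?_, ?_⟩
  · exact le_trans (by norm_num) ((le_max_left _ _).trans (le_max_left _ _))
  intro T n hT hn2 hn
  have hT1 : (2 : ℝ) ^ 25 ≤ T := ((le_max_left _ _).trans (le_max_left _ _)).trans hT
  have hT2 : (2 : ℝ) ^ (2 * (S + 1)) ≤ T := ((le_max_right _ _).trans (le_max_left _ _)).trans hT
  have hT0 : 1 ≤ T := le_trans (by norm_num) hT1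
  have hTp : 0 < T := by linarith
  set y := zz η T with hy
  set z := zz (1 / 2 - κ1) T with hz
  have hy1 : 1 ≤ y := zz_pos hη.le hT0
  have hz1 : 1 ≤ z := zz_pos (by linarith) hT0
  have hyz : y ≤ z := zz_mono (by linarith) hT0
  -- `n ≤ z ^ 5`
  have hnz : n ≤ z ^ 5 := by
    apply le_zz_pow (by linarith) hT0 hn
    have h1 : (2 : ℝ) ^ 5 ≤ T ^ (1 / 5 : ℝ) := by
      have : ((2 : ℝ) ^ 25) ^ (1 / 5 : ℝ) = 2 ^ 5 := by
        rw [← Real.rpow_natCast 2 25, ← Real.rpow_mul (by norm_num)]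
        norm_num
      rw [← this]
      exact Real.rpow_le_rpow (by positivity) hT1 (by norm_num)
    calc T ^ (2 + 1 / 20 : ℝ) * 2 ^ 5 ≤ T ^ (2 + 1 / 20 : ℝ) * T ^ (1 / 5 : ℝ) :=
          mul_le_mul_of_nonneg_left h1 (by positivity)
      _ = T ^ (2 + 1 / 20 + 1 / 5 : ℝ) := (Real.rpow_add hTp _ _).symm
      _ ≤ T ^ ((1 / 2 - κ1) * (5 : ℕ)) := by
          apply Real.rpow_le_rpow_of_exponent_le hT0
          push_cast
          linarith
  -- `n ≤ y ^ (S + 1)`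
  have hny : n ≤ y ^ (S + 1) := by
    apply le_zz_pow hη.le hT0 hn
    have h1 : (2 : ℝ) ^ (S + 1) ≤ T ^ (1 / 2 : ℝ) := by
      rw [← Real.sqrt_eq_rpow]
      apply Real.le_sqrt_of_sq_le
      rw [← pow_mul, mul_comm]
      exact hT2
    have h2 : 3 ≤ η * S := by
      have : 3 / η ≤ (S : ℝ) := by
        rw [hS]
        exact Nat.le_ceil _
      rw [div_le_iff₀ hη] at this
      linarith
    calc T ^ (2 + 1 / 20 : ℝ) * 2 ^ (S + 1) ≤ T ^ (2 + 1 / 20 : ℝ) * T ^ (1 / 2 : ℝ) :=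
          mul_le_mul_of_nonneg_left h1 (by positivity)
      _ = T ^ (2 + 1 / 20 + 1 / 2 : ℝ) := (Real.rpow_add hTp _ _).symm
      _ ≤ T ^ (η * ((S + 1 : ℕ) : ℝ)) := by
          apply Real.rpow_le_rpow_of_exponent_le hT0
          push_cast
          linarith
  -- `n ≤ 2 ^ (LL T - 1)`
  have hnL : n ≤ 2 ^ ⌈3 * Real.log T⌉₊ := le_two_pow hT0 hn
  have hl3 := lin3 hz1 hn2 hnz
  rw [sum_box]
  have hLL : LL T = ⌈3 * Real.log T⌉₊ + 1 := rfl
  rw [hLL, bk_eq hnL, bk_eq hnL, bk_eq hnL]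
  have e1 := rg_pow_expand_error (k := 1) hy1 hyz hny
  have e2 := rg_pow_expand_error (k := 2) hy1 hyz hny
  have e3 := rg_pow_expand_error (k := 3) hy1 hyz hny
  rw [pow_one (rg z)] at e1
  set X1 := ∑ s ∈ range (S + 1), (-((1 : ℕ) : ℝ)) ^ s / (s.factorial : ℝ) * (pb y z ^ s * rg y ^ 1) n with hX1
  set X2 := ∑ s ∈ range (S + 1), (-((2 : ℕ) : ℝ)) ^ s / (s.factorial : ℝ) * (pb y z ^ s * rg y ^ 2) n with hX2
  set X3 := ∑ s ∈ range (S + 1), (-((3 : ℕ) : ℝ)) ^ s / (s.factorial : ℝ) * (pb y z ^ s * rg y ^ 3) n with hX3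
  have hd : (if Rough z n then ArithmeticFunction.vonMangoldt n / Real.log n else 0) +
      (1 / 4) * (roughOne z ^ 4) n - (3 * X1 - 3 / 2 * X2 + 1 / 3 * X3) =
      3 * (rg z n - X1) - 3 / 2 * ((rg z ^ 2) n - X2) + 1 / 3 * ((rg z ^ 3) n - X3) := by
    rw [← hl3]
    ring
  rw [hd]
  by_cases hsq : Rough y n ∧ HasSq y z n
  · have hsq2 : ∃ p : ℕ, p.Prime ∧ y < p ∧ p ≤ z ∧ p ^ 2 ∣ n := hsq.2
    rw [if_pos hsq2]
    rw [if_pos hsq] at e1 e2 e3
    have : exC S ≤ max (max (2 ^ 25) (2 ^ (2 * (S + 1)))) (exC S) := le_max_right _ _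
    refine le_trans ?_ this
    unfold exC
    rw [abs_le] at e1 e2 e3 ⊢
    constructor <;> linarith [e1.1, e1.2, e2.1, e2.2, e3.1, e3.2]
  · rw [if_neg hsq] at e1 e2 e3
    have f1 : rg z n - X1 = 0 := abs_eq_zero.1 (le_antisymm e1 (abs_nonneg _))
    have f2 : (rg z ^ 2) n - X2 = 0 := abs_eq_zero.1 (le_antisymm e2 (abs_nonneg _))
    have f3 : (rg z ^ 3) n - X3 = 0 := abs_eq_zero.1 (le_antisymm e3 (abs_nonneg _))
    rw [f1, f2, f3]
    simp only [mul_zero, sub_zero, add_zero, abs_zero]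
    split_ifs
    · exact le_trans (by norm_num) ((le_max_left _ _).trans (le_max_left _ _))
    · exact le_rfl

end Pool.Agent.Work.MP_a8fbd7_nt.OX.ASM
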