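import Pool.Agent.Work.MP_a8fbd7_nt.OX.ASM.Stmts

/-!
MP_a8fbd7_nt, block OX, part ASM, item F1: window sums as Fourier integrals.
-/

set_option autoImplicit false

open MeasureTheory Set Filter Topology

noncomputable section

namespace Pool.Agent.Work.MP_a8fbd7_nt.OX.ASM

open Pool.Agent.Work.MP_56b8f5_nt.UC (IsWt Bl Dp Om psi eta Sep)

namespace F1_aux

/-- powers of positive reals -/
theorem cpow_eq {x : ℝ} (hx : 0 < x) (z : ℂ) : (x : ℂ) ^ z = Complex.exp (Real.log x * z) := by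
  rw [Complex.cpow_def_of_ne_zero (by exact_mod_cast hx.ne'), Complex.ofReal_log hx.le]

theorem cpow_I {x : ℝ} (hx : 0 < x) (t : ℝ) :
    (x : ℂ) ^ ((t : ℂ) * Complex.I) = Complex.exp ((t * Real.log x : ℝ) * Complex.I) := by
  rw [cpow_eq hx]
  congr 1
  push_cast
  ring

theorem cpow_nI {x : ℝ} (hx : 0 < x) (t : ℝ) :
    (x : ℂ) ^ (-((t : ℂ) * Complex.I)) = Complex.exp ((-(t * Real.log x) : ℝ) * Complex.I) := by
  rw [cpow_eq hx]
  congr 1
  push_cast
  ring

theorem natpow_nI {n : ℕ} (hn : 1 ≤ n) (t : ℝ) :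
    (n : ℂ) ^ (-((t : ℂ) * Complex.I)) = Complex.exp ((-(t * Real.log n) : ℝ) * Complex.I) := by
  have h := cpow_nI (x := (n : ℝ)) (by exact_mod_cast hn) t
  rw [Complex.ofReal_natCast] at h
  exact h

theorem norm_natpow {n : ℕ} (hn : 1 ≤ n) (t : ℝ) : ‖(n : ℂ) ^ (-((t : ℂ) * Complex.I))‖ = 1 := by
  rw [natpow_nI hn]
  exact Complex.norm_exp_ofReal_mul_I _

/-- `Om w` is integrable -/
theorem Om_integrable (hM : Pool.Agent.Work.MP_56b8f5_nt.UC.StMel) {w : ℝ → ℝ} (hw : IsWt w) : Integrable (Om w) := by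
  obtain ⟨hc, hd, -⟩ := hM w hw
  obtain ⟨C, hC, hb⟩ := hd 2
  have h1 : Integrable fun y : ℝ => C * (1 + y ^ 2)⁻¹ := integrable_inv_one_add_sq.const_mul C
  refine h1.mono' hc.aestronglyMeasurable (Eventually.of_forall fun y => ?_)
  refine (hb y).trans ?_
  rw [div_eq_mul_inv]
  refine mul_le_mul_of_nonneg_left ?_ (by linarith)
  refine inv_anti₀ (by positivity) ?_
  have h2 : (1 + |y|) ^ 2 = 1 + 2 * |y| + y ^ 2 := by rw [add_sq, sq_abs]; ring
  rw [h2]
  linarith [abs_nonneg y]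

/-- one term -/
theorem term (hM : Pool.Agent.Work.MP_56b8f5_nt.UC.StMel) {w : ℝ → ℝ} (hw : IsWt w) {x T' : ℝ} (hx : 0 < x) (hT : 0 < T')
    {n : ℕ} (hn : 1 ≤ n) :
    (Integrable fun t : ℝ => Om w (t / T') * (x : ℂ) ^ ((t : ℂ) * Complex.I) * (n : ℂ) ^ (-((t : ℂ) * Complex.I))) ∧
    ((w (((n : ℝ) / x) ^ T') : ℝ) : ℂ) = (1 / (2 * Real.pi * T') : ℝ) *
      ∫ t : ℝ, Om w (t / T') * (x : ℂ) ^ ((t : ℂ) * Complex.I) * (n : ℂ) ^ (-((t : ℂ) * Complex.I)) := by
  have hn0 : (0 : ℝ) < n := by exact_mod_cast hn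
  have hr : 0 < (n : ℝ) / x := div_pos hn0 hx
  set g : ℝ → ℂ := fun y => Om w y * Complex.exp ((-(y * (T' * Real.log ((n : ℝ) / x))) : ℝ) * Complex.I) with hg
  have hgi : Integrable g := by
    have h0 := Om_integrable hM hw
    refine h0.mul_bdd (c := 1) ?_ ?_
    · exact (by fun_prop : Continuous fun y : ℝ =>
        Complex.exp ((-(y * (T' * Real.log ((n : ℝ) / x))) : ℝ) * Complex.I)).aestronglyMeasurable
    · exact Eventually.of_forall fun y => (Complex.norm_exp_ofReal_mul_I _).le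
  have hfun : (fun t : ℝ => Om w (t / T') * (x : ℂ) ^ ((t : ℂ) * Complex.I) * (n : ℂ) ^ (-((t : ℂ) * Complex.I))) =
      fun t => g (t / T') := by
    funext t
    rw [hg]
    simp only
    rw [cpow_I hx, natpow_nI hn, mul_assoc, ← Complex.exp_add]
    congr 2
    rw [← add_mul]
    congr 1
    rw [← Complex.ofReal_add]
    congr 1
    rw [Real.log_div hn0.ne' hx.ne']
    field_simp
    ring
  refine ⟨?_, ?_⟩
  · rw [hfun]
    exact hgi.comp_div hT.ne'
  · rw [hfun, MeasureTheory.Measure.integral_comp_div g T']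
    obtain ⟨-, -, hinv⟩ := hM w hw
    rw [hinv _ (Real.rpow_pos_of_pos hr T')]
    have h1 : (∫ y : ℝ, Om w y * (((((n : ℝ) / x) ^ T' : ℝ)) : ℂ) ^ (-((y : ℂ) * Complex.I))) = ∫ y, g y := by
      congr 1
      funext y
      rw [hg]
      simp only
      rw [cpow_nI (Real.rpow_pos_of_pos hr T'), Real.log_rpow hr]
    rw [h1, abs_of_pos hT]
    rw [Complex.real_smul]
    push_cast
    have hTc : (T' : ℂ) ≠ 0 := by exact_mod_cast hT.ne'
    field_simp

end F1_aux

open F1_aux in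
theorem iF1 (hM : Pool.Agent.Work.MP_56b8f5_nt.UC.StMel) : StF1 := by
  intro w hw c Y x T' hc hx hT
  have hfun : (fun t : ℝ => Om w (t / T') * (x : ℂ) ^ ((t : ℂ) * Complex.I) * Dp Y (fun n => (c n : ℂ)) t) =
      fun t => ∑ n ∈ Finset.Icc 1 Y, (c n : ℂ) *
        (Om w (t / T') * (x : ℂ) ^ ((t : ℂ) * Complex.I) * (n : ℂ) ^ (-((t : ℂ) * Complex.I))) := by
    funext t
    unfold Dp
    rw [Finset.mul_sum]
    refine Finset.sum_congr rfl fun n _ => ?_
    ring
  have hint : ∀ n ∈ Finset.Icc 1 Y, Integrable fun t : ℝ => (c n : ℂ) *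
      (Om w (t / T') * (x : ℂ) ^ ((t : ℂ) * Complex.I) * (n : ℂ) ^ (-((t : ℂ) * Complex.I))) := by
    intro n hn
    exact ((term hM hw hx hT (Finset.mem_Icc.1 hn).1).1).const_mul _
  refine ⟨?_, ?_⟩
  · rw [hfun]
    exact integrable_finset_sum _ hint
  · rw [hfun, integral_finset_sum _ hint]
    have h1 : SW w c x T' = ∑ n ∈ Finset.Icc 1 Y, c n * w (((n : ℝ) / x) ^ T') := by
      unfold SW
      refine tsum_eq_sum fun n hn => ?_
      have : c n = 0 := by
        by_contra hne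
        exact hn (Finset.mem_Icc.2 (hc n hne))
      rw [this, zero_mul]
    rw [h1, Complex.ofReal_sum, Finset.mul_sum]
    refine Finset.sum_congr rfl fun n hn => ?_
    rw [integral_const_mul, Complex.ofReal_mul, (term hM hw hx hT (Finset.mem_Icc.1 hn).1).2]
    ring

end Pool.Agent.Work.MP_a8fbd7_nt.OX.ASM
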