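import Pool.Agent.Work.MP_a8fbd7_nt.OX.ASM.Stmts

/-!
MP_a8fbd7_nt, block OX, part ASM, item F2: the Mellin kernel `Om w` is bounded, Lipschitz and hermitian.
-/

set_option autoImplicit false

open MeasureTheory Set Filter Topology

noncomputable section

namespace Pool.Agent.Work.MP_a8fbd7_nt.OX.ASM

open Pool.Agent.Work.MP_56b8f5_nt.UC (IsWt Bl Dp Om psi eta Sep)

namespace F2_aux

/-- powers of positive reals -/
theorem cpow_eq {x : ℝ} (hx : 0 < x) (z : ℂ) : (x : ℂ) ^ z = Complex.exp (Real.log x * z) := by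
  rw [Complex.cpow_def_of_ne_zero (by exact_mod_cast hx.ne'), Complex.ofReal_log hx.le]

theorem cpow_sub_one {x : ℝ} (hx : 0 < x) (y : ℝ) :
    (x : ℂ) ^ (y * Complex.I - 1) = ((x⁻¹ : ℝ) : ℂ) * Complex.exp ((y * Real.log x : ℝ) * Complex.I) := by
  rw [Complex.cpow_sub _ _ (by exact_mod_cast hx.ne'), Complex.cpow_one, cpow_eq hx]
  push_cast
  rw [div_eq_inv_mul]
  congr 2
  ring

/-- reduction to the compact support -/
theorem Om_eq {w : ℝ → ℝ} {a b : ℝ} (ha : 0 < a) (hs : ∀ x, w x ≠ 0 → a ≤ x ∧ x ≤ b) (y : ℝ) :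
    Om w y = ∫ x in Icc a b, ((w x / x : ℝ) : ℂ) * Complex.exp ((y * Real.log x : ℝ) * Complex.I) := by
  unfold Om
  have h1 : ∫ x in Ioi (0 : ℝ), ((w x : ℝ) : ℂ) * (x : ℂ) ^ (y * Complex.I - 1) =
      ∫ x in Icc a b, ((w x : ℝ) : ℂ) * (x : ℂ) ^ (y * Complex.I - 1) := by
    refine (setIntegral_eq_of_subset_of_forall_diff_eq_zero measurableSet_Ioi ?_ ?_)
    · intro x hx
      exact lt_of_lt_of_le ha hx.1
    · rintro x ⟨-, hx⟩
      have : w x = 0 := by
        by_contra hne
        exact hx (hs x hne)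
      rw [this]; simp
  rw [h1]
  refine setIntegral_congr_fun measurableSet_Icc fun x hx => ?_
  have hx0 : 0 < x := lt_of_lt_of_le ha hx.1
  show ((w x : ℝ) : ℂ) * (x : ℂ) ^ (y * Complex.I - 1) = _
  rw [cpow_sub_one hx0, ← mul_assoc]
  congr 1
  push_cast
  rw [div_eq_mul_inv]

theorem cont_log {a b : ℝ} (ha : 0 < a) : ContinuousOn Real.log (Icc a b) :=
  Real.continuousOn_log.mono fun x hx => (lt_of_lt_of_le ha hx.1).ne'

theorem cont_wx {w : ℝ → ℝ} (hw : Continuous w) {a b : ℝ} (ha : 0 < a) : ContinuousOn (fun x => w x / x) (Icc a b) :=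
  hw.continuousOn.div continuousOn_id fun x hx => (lt_of_lt_of_le ha hx.1).ne'

theorem integ {w : ℝ → ℝ} (hw : Continuous w) {a b : ℝ} (ha : 0 < a) (y : ℝ) :
    IntegrableOn (fun x : ℝ => ((w x / x : ℝ) : ℂ) * Complex.exp ((y * Real.log x : ℝ) * Complex.I)) (Icc a b) := by
  refine ContinuousOn.integrableOn_Icc ?_
  refine (Complex.continuous_ofReal.comp_continuousOn (cont_wx hw ha)).mul ?_
  refine Complex.continuous_exp.comp_continuousOn ?_
  refine ContinuousOn.mul ?_ continuousOn_const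
  exact Complex.continuous_ofReal.comp_continuousOn (continuousOn_const.mul (cont_log ha))

theorem norm_exp_I (r : ℝ) : ‖Complex.exp ((r : ℝ) * Complex.I)‖ = 1 := Complex.norm_exp_ofReal_mul_I r

theorem norm_exp_sub (r s : ℝ) :
    ‖Complex.exp ((r : ℝ) * Complex.I) - Complex.exp ((s : ℝ) * Complex.I)‖ ≤ |r - s| := by
  have h : Complex.exp ((r : ℝ) * Complex.I) - Complex.exp ((s : ℝ) * Complex.I) =
      Complex.exp ((s : ℝ) * Complex.I) * (Complex.exp (((r - s : ℝ) : ℂ) * Complex.I) - 1) := by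
    rw [mul_sub, ← Complex.exp_add, mul_one]
    congr 2
    push_cast
    ring
  rw [h, norm_mul, norm_exp_I, one_mul]
  have h2 : ((r - s : ℝ) : ℂ) * Complex.I = Complex.I * ((r - s : ℝ) : ℂ) := mul_comm _ _
  rw [h2]
  exact Real.norm_exp_I_mul_ofReal_sub_one_le

end F2_aux

open F2_aux in
theorem iF2 : StF2 := by
  intro w hw
  obtain ⟨a, b, ha, hab, hs⟩ := hw.supp
  have hwc : Continuous w := hw.smooth.continuous
  have hi1 : IntegrableOn (fun x : ℝ => |w x / x|) (Icc a b) :=
    ((cont_wx hwc ha).abs).integrableOn_Icc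
  have hi2 : IntegrableOn (fun x : ℝ => |w x / x| * |Real.log x|) (Icc a b) :=
    (((cont_wx hwc ha).abs).mul (cont_log ha).abs).integrableOn_Icc
  set C1 := ∫ x in Icc a b, |w x / x| with hC1
  set C2 := ∫ x in Icc a b, |w x / x| * |Real.log x| with hC2
  have hC1' : 0 ≤ C1 := integral_nonneg fun x => abs_nonneg _
  have hC2' : 0 ≤ C2 := integral_nonneg fun x => mul_nonneg (abs_nonneg _) (abs_nonneg _)
  refine ⟨1 + C1 + C2, by linarith, ?_, ?_, ?_⟩
  · intro y
    rw [Om_eq ha hs]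
    refine (norm_integral_le_integral_norm _).trans ?_
    have : ∫ x in Icc a b, ‖((w x / x : ℝ) : ℂ) * Complex.exp ((y * Real.log x : ℝ) * Complex.I)‖ = C1 := by
      rw [hC1]
      refine setIntegral_congr_fun measurableSet_Icc fun x _ => ?_
      simp only [norm_mul, norm_exp_I, mul_one, Complex.norm_real, Real.norm_eq_abs]
    rw [this]
    linarith
  · intro y y'
    rw [Om_eq ha hs, Om_eq ha hs, ← integral_sub (integ hwc ha y) (integ hwc ha y')]
    refine (norm_integral_le_integral_norm _).trans ?_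
    have h1 : ∫ x in Icc a b, ‖((w x / x : ℝ) : ℂ) * Complex.exp ((y * Real.log x : ℝ) * Complex.I) -
        ((w x / x : ℝ) : ℂ) * Complex.exp ((y' * Real.log x : ℝ) * Complex.I)‖ ≤
        ∫ x in Icc a b, (|w x / x| * |Real.log x|) * |y - y'| := by
      refine setIntegral_mono_on ((integ hwc ha y).sub (integ hwc ha y')).norm (hi2.mul_const _) measurableSet_Icc ?_
      intro x _
      rw [← mul_sub, norm_mul, Complex.norm_real, Real.norm_eq_abs]
      have h2 := norm_exp_sub (y * Real.log x) (y' * Real.log x)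
      rw [← sub_mul, abs_mul] at h2
      calc |w x / x| * ‖Complex.exp ((y * Real.log x : ℝ) * Complex.I) - Complex.exp ((y' * Real.log x : ℝ) * Complex.I)‖
          ≤ |w x / x| * (|y - y'| * |Real.log x|) := mul_le_mul_of_nonneg_left h2 (abs_nonneg _)
        _ = _ := by ring
    refine h1.trans ?_
    rw [integral_mul_const, ← hC2]
    have : C2 * |y - y'| ≤ (1 + C1 + C2) * |y - y'| :=
      mul_le_mul_of_nonneg_right (by linarith) (abs_nonneg _)
    exact this
  · intro y
    rw [Om_eq ha hs, Om_eq ha hs, ← integral_conj]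
    refine setIntegral_congr_fun measurableSet_Icc fun x _ => ?_
    simp only [map_mul, Complex.conj_ofReal, ← Complex.exp_conj, Complex.conj_I]
    congr 2
    push_cast
    ring

end Pool.Agent.Work.MP_a8fbd7_nt.OX.ASM
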