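import Mathlib
import Pool.Agent.Work.MP_a8fbd7_nt.OX.ASM.Stmts
import Pool.Agent.Work.MP_56b8f5_nt.UC.I_Ow

/-!
MP_a8fbd7_nt, block OX, part ASM, item Tb: the long factors.
-/

set_option autoImplicit false

open MeasureTheory Set Filter Topology

noncomputable section

namespace Pool.Agent.Work.MP_a8fbd7_nt.OX.ASM

open Pool.Agent.Work.MP_56b8f5_nt.UC (IsWt Bl Dp Om psi eta Sep psi_supp eta_nonneg eta_le_one)

namespace Tb_aux

/-- the function `psi(k/2^j) k^{-it}` -/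
def g (j : ℕ) (t : ℝ) (k : ℕ) : ℂ := ((psi ((k : ℝ) / 2 ^ j) : ℝ) : ℂ) * (k : ℂ) ^ (-(t * Complex.I))

lemma psi_zero : psi 0 = 0 := by
  unfold psi; simp

lemma abs_psi_le (x : ℝ) : |psi x| ≤ 1 := by
  unfold psi
  rw [abs_le]
  have h1 := eta_nonneg x
  have h2 := eta_le_one x
  have h3 := eta_nonneg (2 * x)
  have h4 := eta_le_one (2 * x)
  constructor <;> linarith

lemma psi_big {j k Y : ℕ} (hY : 2 * 2 ^ j ≤ Y) (hk : Y < k) : psi ((k : ℝ) / 2 ^ j) = 0 := by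
  by_contra h
  have h1 := (psi_supp h).2
  rw [div_le_iff₀ (by positivity)] at h1
  have h2 : (k : ℝ) ≤ ((2 * 2 ^ j : ℕ) : ℝ) := by push_cast; exact h1
  have h3 : k ≤ 2 * 2 ^ j := by exact_mod_cast h2
  omega

lemma g_zero (j : ℕ) (t : ℝ) : g j t 0 = 0 := by
  unfold g
  rw [Nat.cast_zero, zero_div, psi_zero]; simp

lemma g_big {j k Y : ℕ} (t : ℝ) (hY : 2 * 2 ^ j ≤ Y) (hk : Y < k) : g j t k = 0 := by
  unfold g
  rw [psi_big hY hk]; simp

lemma sum_mul_eq {j d Y : ℕ} (t : ℝ) (hd : 1 ≤ d) (hY : 2 * 2 ^ j ≤ Y) :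
    ∑ m ∈ Finset.Icc 1 Y, g j t (d * m) = ∑ n ∈ (Finset.Icc 1 Y).filter (fun n => d ∣ n), g j t n := by
  have hinj : Set.InjOn (fun m => d * m) ((Finset.Icc 1 Y : Finset ℕ) : Set ℕ) :=
    fun a _ b _ h => Nat.eq_of_mul_eq_mul_left (by omega) h
  rw [← Finset.sum_image (f := g j t) (g := fun m => d * m) hinj]
  symm
  apply Finset.sum_subset
  · intro n hn
    rw [Finset.mem_filter, Finset.mem_Icc] at hn
    obtain ⟨⟨h1, h2⟩, m, rfl⟩ := hn
    rw [Finset.mem_image]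
    refine ⟨m, ?_, rfl⟩
    rw [Finset.mem_Icc]
    constructor
    · rcases Nat.eq_zero_or_pos m with h | h
      · rw [h] at h1; simp at h1
      · exact h
    · exact le_trans (Nat.le_mul_of_pos_left m (by omega)) h2
  · intro n hn hn'
    rw [Finset.mem_image] at hn
    obtain ⟨m, hm, rfl⟩ := hn
    rw [Finset.mem_Icc] at hm
    apply g_big t hY
    by_contra h
    apply hn'
    rw [Finset.mem_filter, Finset.mem_Icc]
    exact ⟨⟨Nat.mul_pos (by omega) (by omega), by omega⟩, dvd_mul_right _ _⟩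

lemma block {j d Y : ℕ} (t : ℝ) (hd : 1 ≤ d) (hY : 2 * 2 ^ j ≤ Y) :
    (d : ℂ) ^ (-(t * Complex.I)) * Bl psi (2 ^ j / d) t =
      ∑ n ∈ (Finset.Icc 1 Y).filter (fun n => d ∣ n), g j t n := by
  rw [← sum_mul_eq t hd hY]
  unfold Bl
  rw [← tsum_mul_left]
  have h1 : ∀ m : ℕ, (d : ℂ) ^ (-(t * Complex.I)) *
      (((psi ((m : ℝ) / (2 ^ j / d)) : ℝ) : ℂ) * (m : ℂ) ^ (-(t * Complex.I))) = g j t (d * m) := by
    intro m
    unfold g
    have hd0 : (d : ℝ) ≠ 0 := by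
      have : 0 < d := by omega
      positivity
    have e1 : (m : ℝ) / (2 ^ j / d) = ((d * m : ℕ) : ℝ) / 2 ^ j := by
      push_cast; field_simp
    rw [e1]
    push_cast
    rw [Complex.natCast_mul_natCast_cpow]
    ring
  rw [tsum_congr h1]
  apply tsum_eq_sum
  intro m hm
  rw [Finset.mem_Icc] at hm
  rcases Nat.eq_zero_or_pos m with h | h
  · rw [h, mul_zero, g_zero]
  · apply g_big t hY
    have : Y < m := by
      by_contra h'
      exact hm ⟨h, by omega⟩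
    exact lt_of_lt_of_le this (Nat.le_mul_of_pos_left m (by omega))

lemma th_eq {l : ℕ → ℝ} {D : ℝ} (hl : ∀ d, l d ≠ 0 → 1 ≤ d ∧ (d : ℝ) ≤ D) {n : ℕ} (hn : 1 ≤ n) :
    th l n = ∑ d ∈ (Finset.Icc 1 ⌊D⌋₊).filter (fun d => d ∣ n), l d := by
  unfold th
  symm
  apply Finset.sum_subset
  · intro d hd
    rw [Finset.mem_filter] at hd
    rw [Nat.mem_divisors]
    exact ⟨hd.2, by omega⟩
  · intro d hd hd'
    by_contra h
    obtain ⟨h1, h2⟩ := hl d h
    apply hd'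
    rw [Finset.mem_filter, Finset.mem_Icc]
    exact ⟨⟨h1, Nat.le_floor h2⟩, (Nat.mem_divisors.mp hd).1⟩

lemma tb_apply (l : ℕ → ℝ) (j n : ℕ) : tb l j n = psi ((n : ℝ) / 2 ^ j) * th l n := rfl

lemma card_mult (d M : ℕ) : (((Finset.Icc 1 M).filter (fun n => d ∣ n)).card : ℝ) ≤ M / d := by
  have h := Nat.card_multiples' M d
  have e : ((Finset.Icc 1 M).filter (fun n => d ∣ n)) ⊆
      (Finset.range M.succ).filter (fun k => k ≠ 0 ∧ d ∣ k) := by
    intro n hn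
    rw [Finset.mem_filter, Finset.mem_Icc] at hn
    rw [Finset.mem_filter, Finset.mem_range]
    exact ⟨by omega, by omega, hn.2⟩
  have h2 := Finset.card_le_card e
  have h3 : ((Finset.Icc 1 M).filter (fun n => d ∣ n)).card ≤ M / d := by
    rw [← h]; exact h2
  calc (((Finset.Icc 1 M).filter (fun n => d ∣ n)).card : ℝ) ≤ ((M / d : ℕ) : ℝ) := by exact_mod_cast h3
    _ ≤ M / d := Nat.cast_div_le

lemma bound {l : ℕ → ℝ} {j Y : ℕ} {D : ℝ} (hD : 2 ≤ D) (hl2 : ∀ d, |l d| ≤ 2)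
    (hl : ∀ d, l d ≠ 0 → 1 ≤ d ∧ (d : ℝ) ≤ D) :
    ∑ n ∈ Finset.Icc 1 Y, |tb l j n| ≤ 12 * 2 ^ j * Real.log D := by
  set M : ℕ := 2 * 2 ^ j with hM
  have hMr : (M : ℝ) = 2 * 2 ^ j := by rw [hM]; push_cast; rfl
  have h1 : ∀ n ∈ Finset.Icc 1 Y, |tb l j n| ≤
      ∑ d ∈ Finset.Icc 1 ⌊D⌋₊, if (1 ≤ n ∧ n ≤ M ∧ d ∣ n) then (2 : ℝ) else 0 := by
    intro n hn
    rw [Finset.mem_Icc] at hn
    by_cases hnM : n ≤ M
    · rw [tb_apply, abs_mul]
      calc |psi ((n : ℝ) / 2 ^ j)| * |th l n| ≤ 1 * |th l n| := by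
            apply mul_le_mul_of_nonneg_right (abs_psi_le _) (abs_nonneg _)
        _ = |∑ d ∈ (Finset.Icc 1 ⌊D⌋₊).filter (fun d => d ∣ n), l d| := by
            rw [one_mul, th_eq hl hn.1]
        _ ≤ ∑ d ∈ (Finset.Icc 1 ⌊D⌋₊).filter (fun d => d ∣ n), |l d| := Finset.abs_sum_le_sum_abs _ _
        _ ≤ ∑ d ∈ (Finset.Icc 1 ⌊D⌋₊).filter (fun d => d ∣ n), (2 : ℝ) :=
            Finset.sum_le_sum fun d _ => hl2 d
        _ = ∑ d ∈ Finset.Icc 1 ⌊D⌋₊, if (1 ≤ n ∧ n ≤ M ∧ d ∣ n) then (2 : ℝ) else 0 := by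
            rw [Finset.sum_filter]
            refine Finset.sum_congr rfl fun d _ => ?_
            by_cases hd : d ∣ n
            · rw [if_pos hd, if_pos ⟨hn.1, hnM, hd⟩]
            · rw [if_neg hd, if_neg (fun h => hd h.2.2)]
    · rw [tb_apply, psi_big (Y := M) (le_refl _) (by omega)]
      simp only [zero_mul, abs_zero]
      refine Finset.sum_nonneg fun d _ => ?_
      split_ifs <;> norm_num
  have hlog2 : (0.69 : ℝ) < Real.log 2 := by
    have := Real.log_two_gt_d9; linarith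
  have hlogD : Real.log 2 ≤ Real.log D := Real.log_le_log (by norm_num) hD
  have hfl : 1 ≤ ⌊D⌋₊ := Nat.le_floor (by push_cast; linarith)
  calc ∑ n ∈ Finset.Icc 1 Y, |tb l j n|
      ≤ ∑ n ∈ Finset.Icc 1 Y, ∑ d ∈ Finset.Icc 1 ⌊D⌋₊, (if (1 ≤ n ∧ n ≤ M ∧ d ∣ n) then (2 : ℝ) else 0) :=
        Finset.sum_le_sum h1
    _ = ∑ d ∈ Finset.Icc 1 ⌊D⌋₊, ∑ n ∈ Finset.Icc 1 Y, (if (1 ≤ n ∧ n ≤ M ∧ d ∣ n) then (2 : ℝ) else 0) :=
        Finset.sum_comm
    _ ≤ ∑ d ∈ Finset.Icc 1 ⌊D⌋₊, 4 * 2 ^ j * ((d : ℝ))⁻¹ := by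
        refine Finset.sum_le_sum fun d hd => ?_
        rw [Finset.mem_Icc] at hd
        rw [← Finset.sum_filter, Finset.sum_const, nsmul_eq_mul]
        have e1 : ((Finset.Icc 1 Y).filter (fun n => 1 ≤ n ∧ n ≤ M ∧ d ∣ n)) ⊆
            (Finset.Icc 1 M).filter (fun n => d ∣ n) := by
          intro n hn
          rw [Finset.mem_filter] at hn
          rw [Finset.mem_filter, Finset.mem_Icc]
          exact ⟨⟨hn.2.1, hn.2.2.1⟩, hn.2.2.2⟩
        have e2 : (((Finset.Icc 1 Y).filter (fun n => 1 ≤ n ∧ n ≤ M ∧ d ∣ n)).card : ℝ) ≤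
            (((Finset.Icc 1 M).filter (fun n => d ∣ n)).card : ℝ) := by
          exact_mod_cast Finset.card_le_card e1
        have e3 := card_mult d M
        calc (((Finset.Icc 1 Y).filter (fun n => 1 ≤ n ∧ n ≤ M ∧ d ∣ n)).card : ℝ) * 2
            ≤ ((M : ℝ) / d) * 2 := by linarith
          _ = 4 * 2 ^ j * ((d : ℝ))⁻¹ := by rw [hMr]; ring
    _ = 4 * 2 ^ j * ∑ d ∈ Finset.Icc 1 ⌊D⌋₊, ((d : ℝ))⁻¹ := by rw [Finset.mul_sum]
    _ = 4 * 2 ^ j * ((harmonic ⌊D⌋₊ : ℚ) : ℝ) := by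
        rw [harmonic_eq_sum_Icc]; push_cast; rfl
    _ ≤ 4 * 2 ^ j * (1 + Real.log D) := by
        apply mul_le_mul_of_nonneg_left _ (by positivity)
        calc ((harmonic ⌊D⌋₊ : ℚ) : ℝ) ≤ 1 + Real.log ⌊D⌋₊ := harmonic_le_one_add_log _
          _ ≤ 1 + Real.log D := by
              have : Real.log (⌊D⌋₊ : ℝ) ≤ Real.log D :=
                Real.log_le_log (by exact_mod_cast hfl) (Nat.floor_le (by linarith))
              linarith
    _ ≤ 4 * 2 ^ j * (3 * Real.log D) := by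
        apply mul_le_mul_of_nonneg_left _ (by positivity)
        linarith
    _ = 12 * 2 ^ j * Real.log D := by ring

end Tb_aux

open Tb_aux in
theorem iTb : StTb := by
  refine ⟨?_, 12, by norm_num, ?_⟩
  · intro l j D t Y hl hY
    have h1 : Dp Y (fun n => ((tb l j n : ℝ) : ℂ)) t =
        ∑ n ∈ Finset.Icc 1 Y, ∑ d ∈ Finset.Icc 1 ⌊D⌋₊, (if d ∣ n then ((l d : ℝ) : ℂ) * g j t n else 0) := by
      unfold Dp
      refine Finset.sum_congr rfl fun n hn => ?_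
      rw [Finset.mem_Icc] at hn
      have e1 : tb l j n = psi ((n : ℝ) / 2 ^ j) *
          ∑ d ∈ (Finset.Icc 1 ⌊D⌋₊).filter (fun d => d ∣ n), l d := by
        rw [tb_apply, th_eq hl hn.1]
      simp only [e1]
      rw [← Finset.sum_filter, ← Finset.sum_mul]
      push_cast
      unfold g
      ring
    rw [h1, Finset.sum_comm]
    refine Finset.sum_congr rfl fun d hd => ?_
    rw [Finset.mem_Icc] at hd
    rw [mul_assoc, block t hd.1 hY, Finset.mul_sum, Finset.sum_filter]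
  · intro l j D Y hD _ hl2 hl
    exact bound hD hl2 hl

end Pool.Agent.Work.MP_a8fbd7_nt.OX.ASM
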