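import Mathlib
import Pool.Agent.Work.MP_a8fbd7_nt.OX.ASM.Stmts
import Pool.Agent.Work.MP_a8fbd7_nt.OX.ASM.I_Tb

/-!
MP_a8fbd7_nt, block OX, part ASM: sums of functions of bounded variation over multiples (for the items Ma and In).
Author: helper20.
-/

set_option autoImplicit false

open MeasureTheory Set Filter Topology

noncomputable section

namespace Pool.Agent.Work.MP_a8fbd7_nt.OX.ASM

open Pool.Agent.Work.MP_56b8f5_nt.UC (IsWt Bl Dp Om psi eta Sep psi_supp eta_nonneg eta_le_one)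
open Pool.Agent.Work.MP_a8fbd7_nt.OX.ID (Rough roughOne pb rg)

namespace Ma_aux

/-- monotone function: the sum differs from the integral by at most `V` -/
lemma mono_sum {f : ℝ → ℝ} {V : ℝ} (M : ℕ) (hf : MonotoneOn f (Ici 0)) (h0 : ∀ x, 0 ≤ x → 0 ≤ f x ∧ f x ≤ V) :
    0 ≤ ∑ m ∈ Finset.Icc 1 M, f m - ∫ x in (0 : ℝ)..M, f x ∧
      ∑ m ∈ Finset.Icc 1 M, f m - ∫ x in (0 : ℝ)..M, f x ≤ V := by
  have hf' : MonotoneOn f (Icc (0 : ℝ) (0 + (M : ℕ))) := hf.mono (fun x hx => hx.1)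
  have h1 := hf'.sum_le_integral
  have h2 := hf'.integral_le_sum
  have e1 : ∑ m ∈ Finset.Icc 1 M, f m = ∑ i ∈ Finset.range M, f ((0 : ℝ) + ((i + 1 : ℕ) : ℝ)) := by
    rw [Finset.range_eq_Ico, Finset.sum_Ico_add' (fun i : ℕ => f ((0 : ℝ) + ((i : ℕ) : ℝ))) 0 M 1]
    apply Finset.sum_congr
    · ext i
      simp only [Finset.mem_Icc, Finset.mem_Ico]
      omega
    · intro i _
      rw [zero_add]
  have e2 : ∑ i ∈ Finset.range M, f ((0 : ℝ) + ((i + 1 : ℕ) : ℝ)) =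
      ∑ i ∈ Finset.range M, f ((0 : ℝ) + (i : ℝ)) + (f M - f 0) := by
    have := Finset.sum_range_sub (fun i : ℕ => f ((0 : ℝ) + (i : ℝ))) M
    rw [Finset.sum_sub_distrib] at this
    simp only [Nat.cast_zero, add_zero, zero_add] at this ⊢
    linarith
  rw [zero_add] at h1 h2
  rw [e1]
  obtain ⟨a1, a2⟩ := h0 0 le_rfl
  obtain ⟨b1, b2⟩ := h0 M (Nat.cast_nonneg M)
  constructor
  · linarith
  · rw [e2]
    linarith

/-- differences of two monotone functions with values in `[0, V]` on `[0, ∞)` -/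
def BV (V : ℝ) (F : ℝ → ℝ) : Prop := ∃ f g : ℝ → ℝ, MonotoneOn f (Ici 0) ∧ MonotoneOn g (Ici 0) ∧
  (∀ x, 0 ≤ x → 0 ≤ f x ∧ f x ≤ V) ∧ (∀ x, 0 ≤ x → 0 ≤ g x ∧ g x ≤ V) ∧ ∀ x, 0 ≤ x → F x = f x - g x

lemma BV.nonneg {V : ℝ} {F : ℝ → ℝ} (h : BV V F) : 0 ≤ V := by
  obtain ⟨f, g, _, _, h1, _, _⟩ := h
  exact (h1 0 le_rfl).1.trans (h1 0 le_rfl).2

lemma BV.mul {V W : ℝ} {F G : ℝ → ℝ} (hF : BV V F) (hG : BV W G) : BV (2 * (V * W)) (fun x => F x * G x) := by
  obtain ⟨f, g, mf, mg, hf, hg, e⟩ := hF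
  obtain ⟨p, q, mp, mq, hp, hq, e'⟩ := hG
  have mm : ∀ a b : ℝ → ℝ, MonotoneOn a (Ici 0) → MonotoneOn b (Ici 0) → (∀ x, 0 ≤ x → 0 ≤ a x) →
      (∀ x, 0 ≤ x → 0 ≤ b x) → MonotoneOn (fun x => a x * b x) (Ici 0) := by
    intro a b ma mb ha hb x hx y hy hxy
    exact mul_le_mul (ma hx hy hxy) (mb hx hy hxy) (hb x hx) (ha y hy)
  have bb : ∀ a b : ℝ → ℝ, (∀ x, 0 ≤ x → 0 ≤ a x ∧ a x ≤ V) → (∀ x, 0 ≤ x → 0 ≤ b x ∧ b x ≤ W) →
      ∀ x, 0 ≤ x → 0 ≤ a x * b x ∧ a x * b x ≤ V * W := by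
    intro a b ha hb x hx
    obtain ⟨a1, a2⟩ := ha x hx
    obtain ⟨b1, b2⟩ := hb x hx
    exact ⟨mul_nonneg a1 b1, mul_le_mul a2 b2 b1 (a1.trans a2)⟩
  refine ⟨fun x => f x * p x + g x * q x, fun x => f x * q x + g x * p x, ?_, ?_, ?_, ?_, ?_⟩
  · exact (mm f p mf mp (fun x hx => (hf x hx).1) (fun x hx => (hp x hx).1)).add
      (mm g q mg mq (fun x hx => (hg x hx).1) (fun x hx => (hq x hx).1))
  · exact (mm f q mf mq (fun x hx => (hf x hx).1) (fun x hx => (hq x hx).1)).add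
      (mm g p mg mp (fun x hx => (hg x hx).1) (fun x hx => (hp x hx).1))
  · intro x hx
    obtain ⟨a1, a2⟩ := bb f p hf hp x hx
    obtain ⟨b1, b2⟩ := bb g q hg hq x hx
    constructor <;> dsimp only <;> linarith
  · intro x hx
    obtain ⟨a1, a2⟩ := bb f q hf hq x hx
    obtain ⟨b1, b2⟩ := bb g p hg hp x hx
    constructor <;> dsimp only <;> linarith
  · intro x hx
    dsimp only
    rw [e x hx, e' x hx]
    ring

lemma BV.comp {V : ℝ} {F : ℝ → ℝ} (hF : BV V F) {h : ℝ → ℝ} (hm : MonotoneOn h (Ici 0))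
    (h0 : ∀ x, 0 ≤ x → 0 ≤ h x) : BV V (fun x => F (h x)) := by
  obtain ⟨f, g, mf, mg, hf, hg, e⟩ := hF
  refine ⟨fun x => f (h x), fun x => g (h x), ?_, ?_, fun x hx => hf _ (h0 x hx), fun x hx => hg _ (h0 x hx),
    fun x hx => e _ (h0 x hx)⟩
  · intro x hx y hy hxy
    exact mf (h0 x hx) (h0 y hy) (hm hx hy hxy)
  · intro x hx y hy hxy
    exact mg (h0 x hx) (h0 y hy) (hm hx hy hxy)

lemma BV.integrable {V : ℝ} {F : ℝ → ℝ} (hF : BV V F) {a b : ℝ} (ha : 0 ≤ a) (hb : 0 ≤ b) :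
    IntervalIntegrable F volume a b := by
  obtain ⟨f, g, mf, mg, hf, hg, e⟩ := hF
  have hsub : uIcc a b ⊆ Ici 0 := by
    intro x hx
    rcases mem_uIcc.1 hx with h | h
    · exact ha.trans h.1
    · exact hb.trans h.1
  have i1 : IntervalIntegrable f volume a b := (mf.mono hsub).intervalIntegrable
  have i2 : IntervalIntegrable g volume a b := (mg.mono hsub).intervalIntegrable
  refine (i1.sub i2).congr ?_
  intro x hx
  exact (e x (hsub (uIoc_subset_uIcc hx))).symm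

lemma BV.sum {V : ℝ} {F : ℝ → ℝ} (hF : BV V F) (M : ℕ) :
    |∑ m ∈ Finset.Icc 1 M, F m - ∫ x in (0 : ℝ)..M, F x| ≤ V := by
  obtain ⟨f, g, mf, mg, hf, hg, e⟩ := hF
  have hM : (0 : ℝ) ≤ M := Nat.cast_nonneg M
  have hsub : uIcc (0 : ℝ) M ⊆ Ici 0 := by
    intro x hx
    rw [uIcc_of_le hM] at hx
    exact hx.1
  have i1 : IntervalIntegrable f volume 0 M := (mf.mono hsub).intervalIntegrable
  have i2 : IntervalIntegrable g volume 0 M := (mg.mono hsub).intervalIntegrable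
  have e1 : ∫ x in (0 : ℝ)..M, F x = (∫ x in (0 : ℝ)..M, f x) - ∫ x in (0 : ℝ)..M, g x := by
    rw [← intervalIntegral.integral_sub i1 i2]
    apply intervalIntegral.integral_congr
    intro x hx
    exact e x (hsub hx)
  have e2 : ∑ m ∈ Finset.Icc 1 M, F m = ∑ m ∈ Finset.Icc 1 M, f m - ∑ m ∈ Finset.Icc 1 M, g m := by
    rw [← Finset.sum_sub_distrib]
    exact Finset.sum_congr rfl (fun m _ => e m (Nat.cast_nonneg m))
  obtain ⟨a1, a2⟩ := mono_sum M mf hf
  obtain ⟨b1, b2⟩ := mono_sum M mg hg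
  rw [e1, e2, abs_le]
  constructor <;> linarith

/-- sum over the multiples of `d` -/
lemma BV.sum_mul {V : ℝ} {F : ℝ → ℝ} (hF : BV V F) (M d : ℕ) (hd : 1 ≤ d) (h0 : ∀ r : ℝ, (M : ℝ) ≤ r → F r = 0) :
    |∑ m ∈ Finset.Icc 1 M, F ((d * m : ℕ) : ℝ) - (∫ x in (0 : ℝ)..M, F x) / d| ≤ V := by
  have hd1 : (1 : ℝ) ≤ d := by exact_mod_cast hd
  have hd0 : (0 : ℝ) < d := by linarith
  have hM : (0 : ℝ) ≤ M := Nat.cast_nonneg M
  have hc : BV V (fun x => F (d * x)) := hF.comp (h := fun x => d * x)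
    (fun x _ y _ hxy => mul_le_mul_of_nonneg_left hxy hd0.le) (fun x hx => mul_nonneg hd0.le hx)
  have h1 := hc.sum M
  have e1 : ∫ x in (0 : ℝ)..M, F (d * x) = (∫ x in (0 : ℝ)..M, F x) / d := by
    rw [intervalIntegral.integral_comp_mul_left F hd0.ne', mul_zero, smul_eq_mul, div_eq_inv_mul]
    congr 1
    rw [← intervalIntegral.integral_add_adjacent_intervals (hF.integrable le_rfl hM)
      (hF.integrable hM (mul_nonneg hd0.le hM))]
    have : ∫ x in (M : ℝ)..(d * M), F x = ∫ x in (M : ℝ)..(d * M), (0 : ℝ) := by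
      apply intervalIntegral.integral_congr
      intro x hx
      rw [uIcc_of_le (by nlinarith)] at hx
      exact h0 x hx.1
    rw [this]
    simp
  rw [e1] at h1
  push_cast
  exact h1

lemma sum_mult {F : ℝ → ℝ} {M d : ℕ} (hd : 1 ≤ d) (h0 : ∀ r : ℝ, (M : ℝ) ≤ r → F r = 0) :
    ∑ m ∈ Finset.Icc 1 M, F ((d * m : ℕ) : ℝ) = ∑ n ∈ (Finset.Icc 1 M).filter (fun n => d ∣ n), F (n : ℝ) := by
  have hinj : Set.InjOn (fun m => d * m) ((Finset.Icc 1 M : Finset ℕ) : Set ℕ) :=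
    fun a _ b _ h => Nat.eq_of_mul_eq_mul_left (by omega) h
  rw [← Finset.sum_image (f := fun n : ℕ => F (n : ℝ)) (g := fun m => d * m) hinj]
  symm
  apply Finset.sum_subset
  · intro n hn
    rw [Finset.mem_filter, Finset.mem_Icc] at hn
    obtain ⟨⟨h1, h2⟩, m, rfl⟩ := hn
    rw [Finset.mem_image]
    refine ⟨m, ?_, rfl⟩
    rw [Finset.mem_Icc]
    constructor
    · rcases Nat.eq_zero_or_pos m with h | h
      · rw [h] at h1; simp at h1
      · exact h
    · exact le_trans (Nat.le_mul_of_pos_left m (by omega)) h2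
  · intro n hn hn'
    rw [Finset.mem_image] at hn
    obtain ⟨m, hm, rfl⟩ := hn
    rw [Finset.mem_Icc] at hm
    apply h0
    by_contra h
    rw [not_le] at h
    apply hn'
    rw [Finset.mem_filter, Finset.mem_Icc]
    have h' : d * m < M := by exact_mod_cast h
    exact ⟨⟨Nat.mul_pos (by omega) (by omega), h'.le⟩, dvd_mul_right _ _⟩

/-- **sums against `th l`** -/
theorem theta_sum {V : ℝ} {F : ℝ → ℝ} (hF : BV V F) (M : ℕ) (h0 : ∀ r : ℝ, (M : ℝ) ≤ r → F r = 0)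
    (l : ℕ → ℝ) (D : ℝ) (hD : 0 ≤ D) (hl : ∀ d, l d ≠ 0 → 1 ≤ d ∧ (d : ℝ) ≤ D) (hb : ∀ d, |l d| ≤ 2) :
    |∑ n ∈ Finset.Icc 1 M, F n * th l n - (∫ x in (0 : ℝ)..M, F x) * ∑ d ∈ Finset.Icc 1 ⌊D⌋₊, l d / (d : ℝ)| ≤
      2 * V * D := by
  have hV := hF.nonneg
  have e1 : ∑ n ∈ Finset.Icc 1 M, F n * th l n =
      ∑ d ∈ Finset.Icc 1 ⌊D⌋₊, l d * ∑ m ∈ Finset.Icc 1 M, F ((d * m : ℕ) : ℝ) := by
    have a1 : ∀ n ∈ Finset.Icc 1 M, F n * th l n =
        ∑ d ∈ Finset.Icc 1 ⌊D⌋₊, if d ∣ n then l d * F n else 0 := by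
      intro n hn
      rw [Finset.mem_Icc] at hn
      rw [Tb_aux.th_eq hl hn.1, Finset.mul_sum, Finset.sum_filter]
      apply Finset.sum_congr rfl
      intro d _
      split_ifs
      · ring
      · rfl
    rw [Finset.sum_congr rfl a1, Finset.sum_comm]
    apply Finset.sum_congr rfl
    intro d hd
    rw [Finset.mem_Icc] at hd
    rw [sum_mult hd.1 h0, Finset.mul_sum, Finset.sum_filter]
  have e2 : (∫ x in (0 : ℝ)..M, F x) * ∑ d ∈ Finset.Icc 1 ⌊D⌋₊, l d / (d : ℝ) =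
      ∑ d ∈ Finset.Icc 1 ⌊D⌋₊, l d * ((∫ x in (0 : ℝ)..M, F x) / d) := by
    rw [Finset.mul_sum]
    apply Finset.sum_congr rfl
    intro d _
    ring
  rw [e1, e2, ← Finset.sum_sub_distrib]
  calc |∑ d ∈ Finset.Icc 1 ⌊D⌋₊, (l d * ∑ m ∈ Finset.Icc 1 M, F ((d * m : ℕ) : ℝ) -
        l d * ((∫ x in (0 : ℝ)..M, F x) / d))|
      ≤ ∑ d ∈ Finset.Icc 1 ⌊D⌋₊, |l d * ∑ m ∈ Finset.Icc 1 M, F ((d * m : ℕ) : ℝ) -
        l d * ((∫ x in (0 : ℝ)..M, F x) / d)| := Finset.abs_sum_le_sum_abs _ _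
    _ ≤ ∑ _d ∈ Finset.Icc 1 ⌊D⌋₊, 2 * V := by
        apply Finset.sum_le_sum
        intro d hd
        rw [Finset.mem_Icc] at hd
        rw [← mul_sub, abs_mul]
        exact mul_le_mul (hb d) (hF.sum_mul M d hd.1 h0) (abs_nonneg _) (by norm_num)
    _ = ⌊D⌋₊ * (2 * V) := by
        rw [Finset.sum_const, Nat.card_Icc, nsmul_eq_mul]
        simp
    _ ≤ 2 * V * D := by
        have := Nat.floor_le hD
        nlinarith

/-- `psi` -/
lemma bv_psi : BV 1 psi := by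
  refine ⟨fun x => 1 - eta (2 * x), fun x => 1 - eta x, ?_, ?_, ?_, ?_, ?_⟩
  · intro x _ y _ hxy
    have : eta (2 * y) ≤ eta (2 * x) := Real.smoothTransition.monotone (by linarith)
    dsimp only
    linarith
  · intro x _ y _ hxy
    have : eta y ≤ eta x := Real.smoothTransition.monotone (by linarith)
    dsimp only
    linarith
  · intro x _
    have h1 := eta_nonneg (2 * x)
    have h2 := eta_le_one (2 * x)
    constructor <;> dsimp only <;> linarith
  · intro x _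
    have h1 := eta_nonneg x
    have h2 := eta_le_one x
    constructor <;> dsimp only <;> linarith
  · intro x _
    unfold psi
    ring

lemma psi_big {x : ℝ} (h : 2 ≤ x) : psi x = 0 := by
  unfold psi
  have h1 : eta x = 0 := Real.smoothTransition.zero_of_nonpos (by linarith)
  have h2 : eta (2 * x) = 0 := Real.smoothTransition.zero_of_nonpos (by linarith)
  rw [h1, h2, sub_self]

lemma psi_nn (x : ℝ) : 0 ≤ psi x := by
  unfold psi
  rcases le_or_gt x 1 with h | h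
  · have h1 : eta x = 1 := Real.smoothTransition.one_of_one_le (by linarith)
    have h2 : eta (2 * x) ≤ 1 := Real.smoothTransition.le_one _
    linarith
  · have h1 : eta (2 * x) = 0 := Real.smoothTransition.zero_of_nonpos (by linarith)
    have h2 : 0 ≤ eta x := Real.smoothTransition.nonneg _
    linarith

lemma psi_le_one (x : ℝ) : psi x ≤ 1 := by
  unfold psi
  have h1 := eta_le_one x
  have h2 := eta_nonneg (2 * x)
  linarith

/-- weights are of bounded variation -/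
lemma bv_wt {w : ℝ → ℝ} (hw : IsWt w) : ∃ V : ℝ, BV V w ∧ ∀ u, 0 ≤ u → |w u| ≤ V := by
  obtain ⟨a, b, ha, hab, hs⟩ := hw.supp
  have hcs : HasCompactSupport w := by
    apply HasCompactSupport.intro (isCompact_Icc (a := a) (b := b))
    intro x hx
    by_contra h
    exact hx (hs x h)
  obtain ⟨K, hK⟩ := ContDiff.lipschitzWith_of_hasCompactSupport hcs hw.smooth (by simp)
  have hK0 : (0 : ℝ) ≤ K := K.2
  have w0 : w 0 = 0 := by
    by_contra h
    have := (hs 0 h).1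
    linarith
  have wb : ∀ u, b + 1 ≤ u → w u = 0 := by
    intro u hu
    by_contra h
    have := (hs u h).2
    linarith
  have wc : ∀ u, w (min u (b + 1)) = w u := by
    intro u
    rcases le_total u (b + 1) with h | h
    · rw [min_eq_left h]
    · rw [min_eq_right h, wb u h, wb _ le_rfl]
  have lip : ∀ u v : ℝ, |w u - w v| ≤ K * |u - v| := by
    intro u v
    have := hK.dist_le_mul u v
    rwa [Real.dist_eq, Real.dist_eq] at this
  have wle : ∀ u, 0 ≤ u → |w u| ≤ K * min u (b + 1) := by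
    intro u hu
    have := lip (min u (b + 1)) 0
    rw [wc, w0, sub_zero, sub_zero, abs_of_nonneg (le_min hu (by linarith))] at this
    exact this
  have mle : ∀ u, 0 ≤ u → K * min u (b + 1) ≤ K * (b + 1) :=
    fun u _ => mul_le_mul_of_nonneg_left (min_le_right _ _) hK0
  have mnn : ∀ u, 0 ≤ u → 0 ≤ K * min u (b + 1) :=
    fun u hu => mul_nonneg hK0 (le_min hu (by linarith))
  have hV0 : 0 ≤ K * (b + 1) := mul_nonneg hK0 (by linarith)
  refine ⟨2 * (K * (b + 1)), ⟨fun u => w u + K * min u (b + 1), fun u => K * min u (b + 1), ?_, ?_, ?_, ?_, ?_⟩, ?_⟩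
  · intro u _ v _ huv
    dsimp only
    have h1 := lip (min u (b + 1)) (min v (b + 1))
    rw [wc, wc] at h1
    have h2 : min u (b + 1) ≤ min v (b + 1) := min_le_min_right _ huv
    rw [abs_of_nonpos (by linarith : min u (b + 1) - min v (b + 1) ≤ 0)] at h1
    have h3 := (abs_le.1 h1).2
    nlinarith
  · intro u _ v _ huv
    dsimp only
    exact mul_le_mul_of_nonneg_left (min_le_min_right _ huv) hK0
  · intro u hu
    have h1 := abs_le.1 (wle u hu)
    have h2 := mle u hu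
    constructor <;> dsimp only <;> linarith [h1.1, h1.2]
  · intro u hu
    have h2 := mle u hu
    have h3 := mnn u hu
    constructor <;> dsimp only <;> linarith
  · intro u _
    ring
  · intro u hu
    have := wle u hu
    have h2 := mle u hu
    linarith

end Ma_aux

end Pool.Agent.Work.MP_a8fbd7_nt.OX.ASM
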