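import Mathlib
import Pool.Agent.Work.MP_a8fbd7_nt.OX.ASM.Stmts
import Pool.Agent.Work.MP_a8fbd7_nt.OX.ASM.BV
import Pool.Agent.Work.MP_a8fbd7_nt.OX.SV.Drop
import Pool.Agent.Work.MP_56b8f5_nt.WM.I_Mert

/-!
MP_a8fbd7_nt, block OX, part ASM, item Ma: masses.  Author: helper20.
-/

set_option autoImplicit false

open MeasureTheory Set Filter Topology

noncomputable section

namespace Pool.Agent.Work.MP_a8fbd7_nt.OX.ASM

open Pool.Agent.Work.MP_56b8f5_nt.UC (IsWt Bl Dp Om psi eta Sep psi_supp eta_nonneg eta_le_one)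
open Pool.Agent.Work.MP_a8fbd7_nt.OX.ID (Rough roughOne pb rg)

namespace Ma_aux

/-- Mertens -/
theorem mertens_pp : ∃ C : ℝ, 1 ≤ C ∧ ∀ y z : ℕ, 2 ≤ y → y ≤ z →
    ∑ p ∈ (Finset.Ioc y z).filter Nat.Prime, (1 : ℝ) / p ≤ Real.log (Real.log z / Real.log y) + C := by
  obtain ⟨C, hC, hM⟩ := Pool.Agent.Work.MP_56b8f5_nt.WM.Mert_pf
  refine ⟨1 + 2 * Real.log C, by linarith [Real.log_nonneg hC], fun y z hy hyz => ?_⟩
  have hS : ∀ z, Pool.Agent.Work.MP_56b8f5_nt.WM.S1 z =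
    ∑ p ∈ Pool.Agent.Work.MP_56b8f5_nt.WM.pr z, 1 / (p : ℝ) := fun z => rfl
  have hmem : ∀ z p : ℕ, p ∈ Pool.Agent.Work.MP_56b8f5_nt.WM.pr z ↔ p ≤ z ∧ p.Prime := by
    intro z p
    unfold Pool.Agent.Work.MP_56b8f5_nt.WM.pr
    simp [Nat.lt_succ_iff]
  have h1 := (hM z (hy.trans hyz)).1
  have h2 := (hM y hy).2
  have hC0 : 0 < C := by linarith
  have hly : 0 < Real.log (y : ℝ) := Real.log_pos (by exact_mod_cast (by omega : 1 < y))
  have hlz : 0 < Real.log (z : ℝ) := Real.log_pos (by exact_mod_cast (by omega : 1 < z))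
  have h3 : Pool.Agent.Work.MP_56b8f5_nt.WM.S1 z =
      Pool.Agent.Work.MP_56b8f5_nt.WM.S1 y + ∑ p ∈ (Finset.Ioc y z).filter Nat.Prime, (1 : ℝ) / p := by
    rw [hS, hS, ← Finset.sum_union]
    · apply Finset.sum_congr
      · ext p
        rw [Finset.mem_union, hmem, hmem, Finset.mem_filter, Finset.mem_Ioc]
        constructor
        · rintro ⟨a, b⟩
          rcases Nat.lt_or_ge y p with h | h
          · exact Or.inr ⟨⟨h, a⟩, b⟩
          · exact Or.inl ⟨h, b⟩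
        · rintro (⟨a, b⟩ | ⟨⟨a, b⟩, c⟩)
          · exact ⟨a.trans hyz, b⟩
          · exact ⟨b, c⟩
      · intro p _
        rfl
    · rw [Finset.disjoint_left]
      intro p hp hp'
      rw [hmem] at hp
      rw [Finset.mem_filter, Finset.mem_Ioc] at hp'
      omega
  have h4 : Real.exp (∑ p ∈ (Finset.Ioc y z).filter Nat.Prime, (1 : ℝ) / p) ≤
      C ^ 2 * (Real.log z / Real.log y) := by
    rw [h3, Real.exp_add] at h1
    have hey : 0 < Real.exp (Pool.Agent.Work.MP_56b8f5_nt.WM.S1 y) := Real.exp_pos _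
    set a := Real.exp (Pool.Agent.Work.MP_56b8f5_nt.WM.S1 y)
    set b := Real.exp (∑ p ∈ (Finset.Ioc y z).filter Nat.Prime, (1 : ℝ) / p)
    have hb : 0 < b := Real.exp_pos _
    rw [mul_div_assoc', le_div_iff₀ hly]
    calc b * Real.log y ≤ b * (C * a) := mul_le_mul_of_nonneg_left h2 hb.le
      _ = C * (a * b) := by ring
      _ ≤ C * (C * Real.log z) := mul_le_mul_of_nonneg_left h1 hC0.le
      _ = C ^ 2 * Real.log z := by ring
  have h5 : ∑ p ∈ (Finset.Ioc y z).filter Nat.Prime, (1 : ℝ) / p ≤ Real.log (C ^ 2 * (Real.log z / Real.log y)) :=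
    (Real.le_log_iff_exp_le (by positivity)).2 h4
  rw [Real.log_mul (by positivity) (by positivity), Real.log_pow] at h5
  push_cast at h5
  linarith

/-- rough numbers in a dyadic block -/
theorem rb_mass (y l : ℕ) (hy : 2 ≤ y) : ∑ n ∈ Finset.Icc 1 (2 * 2 ^ l), rb y l n / (n : ℝ) ≤ 300 / Real.log y := by
  classical
  have hly : 0 < Real.log (y : ℝ) := Real.log_pos (by exact_mod_cast (by omega : 1 < y))
  have h2l : (1 : ℝ) ≤ 2 ^ l := one_le_pow₀ (by norm_num)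
  set S := (Finset.Icc 1 (2 * 2 ^ l)).filter (fun n : ℕ => 2 ≤ n ∧ (2 : ℝ) ^ l / 2 ≤ n ∧ Rough y n) with hS
  have h1 : ∑ n ∈ Finset.Icc 1 (2 * 2 ^ l), rb y l n / (n : ℝ) ≤ ∑ n ∈ S, 1 / (n : ℝ) := by
    rw [hS, Finset.sum_filter]
    apply Finset.sum_le_sum
    intro n _
    have e : rb y l n = roughOne y n * psi ((n : ℝ) / 2 ^ l) := rfl
    rw [e, Pool.Agent.Work.MP_a8fbd7_nt.OX.ID.roughOne_apply]
    by_cases hr : 2 ≤ n ∧ Rough y n
    · rw [if_pos hr, one_mul]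
      by_cases hn : (2 : ℝ) ^ l / 2 ≤ n
      · rw [if_pos ⟨hr.1, hn, hr.2⟩]
        exact div_le_div_of_nonneg_right (psi_le_one _) (Nat.cast_nonneg n)
      · have : psi ((n : ℝ) / 2 ^ l) = 0 := by
          by_contra h
          have h' := (psi_supp h).1
          rw [le_div_iff₀ (by positivity)] at h'
          exact hn (by linarith)
        rw [this, zero_div]
        split_ifs
        · positivity
        · exact le_rfl
    · rw [if_neg hr, zero_mul, zero_div]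
      split_ifs
      · positivity
      · exact le_rfl
  have h2 := Pool.Agent.Work.MP_a8fbd7_nt.OX.SV.sum_inv y (max 1 (2 ^ l / 2)) (2 * 2 ^ l) hy (le_max_left _ _)
    (max_le (by linarith) (by linarith)) S (by
      intro n hn
      rw [hS, Finset.mem_filter, Finset.mem_Icc] at hn
      obtain ⟨⟨a1, a2⟩, a3, a4, a5⟩ := hn
      refine ⟨a3, max_le ?_ a4, ?_, a5⟩
      · exact_mod_cast a1
      · exact_mod_cast a2)
  have h3 : Real.log (2 * 2 ^ l / max 1 (2 ^ l / 2)) ≤ 2 := by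
    have h4 : 2 * 2 ^ l / max 1 ((2 : ℝ) ^ l / 2) ≤ 4 := by
      rw [div_le_iff₀ (by positivity)]
      have := le_max_right 1 ((2 : ℝ) ^ l / 2)
      linarith
    calc Real.log (2 * 2 ^ l / max 1 (2 ^ l / 2)) ≤ Real.log 4 := Real.log_le_log (by positivity) h4
      _ = 2 * Real.log 2 := by
        rw [show (4 : ℝ) = 2 ^ 2 by norm_num, Real.log_pow]
        norm_num
      _ ≤ 2 := by
        have := Real.log_two_lt_d9
        linarith
  calc ∑ n ∈ Finset.Icc 1 (2 * 2 ^ l), rb y l n / (n : ℝ) ≤ _ := h1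
    _ ≤ _ := h2
    _ ≤ 300 / Real.log y := div_le_div_of_nonneg_right (by linarith) hly.le

/-- `th lp` in a long dyadic block -/
theorem tb_mass (y l : ℕ) (D C0 E : ℝ) (lp lm : ℕ → ℝ) (hy : 2 ≤ y) (hS : IsSv y D C0 E lp lm) (hD : 1 ≤ D)
    (hDl : D ^ 2 * Real.log y ≤ 2 ^ l) (hC0 : 1 ≤ C0) :
    ∑ n ∈ Finset.Icc 1 (2 * 2 ^ l), tb lp l n / (n : ℝ) ≤ 8 * C0 / Real.log y := by
  have hly : 0 < Real.log (y : ℝ) := Real.log_pos (by exact_mod_cast (by omega : 1 < y))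
  have hN : (0 : ℝ) < 2 ^ l := by positivity
  have hthnn : ∀ n : ℕ, 1 ≤ n → 0 ≤ th lp n := by
    intro n hn
    by_cases hr : Rough y n
    · linarith [(hS.rough n hn hr).2]
    · exact (hS.nrough n hn hr).2
  set F : ℝ → ℝ := fun r => psi (r / 2 ^ l) with hF
  have hbv : BV 1 F := by
    have := bv_psi.comp (h := fun r => r / 2 ^ l) (fun x _ y _ hxy => div_le_div_of_nonneg_right hxy hN.le)
      (fun x hx => div_nonneg hx hN.le)
    exact this
  have h0 : ∀ r : ℝ, ((2 * 2 ^ l : ℕ) : ℝ) ≤ r → F r = 0 := by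
    intro r hr
    push_cast at hr
    apply psi_big
    rw [le_div_iff₀ hN]
    exact hr
  have h1 := theta_sum hbv (2 * 2 ^ l) h0 lp D (by linarith) hS.supp (fun d => (hS.bdp d).trans (by norm_num))
  have hJ0 : 0 ≤ ∫ x in (0 : ℝ)..((2 * 2 ^ l : ℕ) : ℝ), F x :=
    intervalIntegral.integral_nonneg (Nat.cast_nonneg _) (fun x _ => psi_nn _)
  have hJ1 : ∫ x in (0 : ℝ)..((2 * 2 ^ l : ℕ) : ℝ), F x ≤ 2 * 2 ^ l := by
    calc ∫ x in (0 : ℝ)..((2 * 2 ^ l : ℕ) : ℝ), F x ≤ ∫ _x in (0 : ℝ)..((2 * 2 ^ l : ℕ) : ℝ), (1 : ℝ) :=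
          intervalIntegral.integral_mono_on (Nat.cast_nonneg _) (hbv.integrable le_rfl (Nat.cast_nonneg _))
            intervalIntegrable_const (fun x _ => psi_le_one _)
      _ = 2 * 2 ^ l := by
          rw [intervalIntegral.integral_const]
          push_cast
          simp
  set J := ∫ x in (0 : ℝ)..((2 * 2 ^ l : ℕ) : ℝ), F x
  have hsum : J * ∑ d ∈ Finset.Icc 1 ⌊D⌋₊, lp d / (d : ℝ) ≤ 2 * 2 ^ l * (C0 / Real.log y) := by
    calc J * ∑ d ∈ Finset.Icc 1 ⌊D⌋₊, lp d / (d : ℝ) ≤ J * (C0 / Real.log y) :=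
          mul_le_mul_of_nonneg_left hS.tot hJ0
      _ ≤ 2 * 2 ^ l * (C0 / Real.log y) := mul_le_mul_of_nonneg_right hJ1 (by positivity)
  have h2 : ∑ n ∈ Finset.Icc (1 : ℕ) (2 * 2 ^ l), F (n : ℝ) * th lp n ≤ 2 * 2 ^ l * (C0 / Real.log y) + 2 * D := by
    have := (abs_le.1 h1).2
    linarith
  have h3 : ∑ n ∈ Finset.Icc 1 (2 * 2 ^ l), tb lp l n / (n : ℝ) ≤
      (2 / 2 ^ l) * ∑ n ∈ Finset.Icc (1 : ℕ) (2 * 2 ^ l), F (n : ℝ) * th lp n := by
    rw [Finset.mul_sum]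
    apply Finset.sum_le_sum
    intro n hn
    rw [Finset.mem_Icc] at hn
    have hn1 : (1 : ℝ) ≤ n := by exact_mod_cast hn.1
    have e : tb lp l n = psi ((n : ℝ) / 2 ^ l) * th lp n := rfl
    rw [e]
    by_cases hp : psi ((n : ℝ) / 2 ^ l) = 0
    · simp only [hF]
      rw [hp]
      simp
    · have h' := (psi_supp hp).1
      rw [le_div_iff₀ hN] at h'
      have hnn : 0 ≤ psi ((n : ℝ) / 2 ^ l) * th lp n := mul_nonneg (psi_nn _) (hthnn n hn.1)
      rw [div_le_iff₀ (by linarith)]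
      have h4 : 1 ≤ 2 / 2 ^ l * (n : ℝ) := by
        rw [div_mul_eq_mul_div, le_div_iff₀ hN]
        linarith
      calc psi ((n : ℝ) / 2 ^ l) * th lp n = 1 * (psi ((n : ℝ) / 2 ^ l) * th lp n) := (one_mul _).symm
        _ ≤ (2 / 2 ^ l * (n : ℝ)) * (psi ((n : ℝ) / 2 ^ l) * th lp n) := mul_le_mul_of_nonneg_right h4 hnn
        _ = 2 / 2 ^ l * (F n * th lp n) * (n : ℝ) := by simp only [hF]; ring
  have h4 : D / 2 ^ l ≤ 1 / Real.log y := by
    rw [div_le_div_iff₀ hN hly]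
    nlinarith [mul_pos (by linarith : 0 < D) hly]
  calc ∑ n ∈ Finset.Icc 1 (2 * 2 ^ l), tb lp l n / (n : ℝ) ≤ _ := h3
    _ ≤ (2 / 2 ^ l) * (2 * 2 ^ l * (C0 / Real.log y) + 2 * D) := mul_le_mul_of_nonneg_left h2 (by positivity)
    _ = 4 * (C0 / Real.log y) + 4 * (D / 2 ^ l) := by field_simp; ring
    _ ≤ 4 * (C0 / Real.log y) + 4 * (C0 / Real.log y) := by
        have : 1 / Real.log y ≤ C0 / Real.log y := div_le_div_of_nonneg_right hC0 hly.le
        linarith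
    _ = 8 * C0 / Real.log y := by ring

end Ma_aux

open Ma_aux in
theorem iMa : StMa := by
  obtain ⟨C, hC, hM⟩ := mertens_pp
  refine ⟨C + 300, by linarith, ?_, ?_, ?_⟩
  · intro y z hy hyz
    have := hM y z hy hyz
    linarith
  · intro y l hy
    have hly : 0 < Real.log (y : ℝ) := Real.log_pos (by exact_mod_cast (by omega : 1 < y))
    exact (rb_mass y l hy).trans (div_le_div_of_nonneg_right (by linarith) hly.le)
  · intro y l D C0 E lp lm hy hS hD hDl hC0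
    have hly : 0 < Real.log (y : ℝ) := Real.log_pos (by exact_mod_cast (by omega : 1 < y))
    exact (tb_mass y l D C0 E lp lm hy hS hD hDl hC0).trans (div_le_div_of_nonneg_right (by nlinarith) hly.le)

end Pool.Agent.Work.MP_a8fbd7_nt.OX.ASM
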