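import Mathlib
import Pool.Agent.Work.MP_a8fbd7_nt.OX.ASM.Stmts
import Pool.Agent.Work.MP_56b8f5_nt.UC.I_Ow

set_option autoImplicit false

open MeasureTheory Set Filter Topology

noncomputable section

namespace Pool.Agent.Work.MP_a8fbd7_nt.OX.ASM

open Pool.Agent.Work.MP_56b8f5_nt.UC (IsWt Bl Dp Om psi eta Sep)
open Pool.Agent.Work.MP_a8fbd7_nt.OX.ID (Rough roughOne pb rg)

namespace Mn_aux

/-- summability of window sums -/
theorem summable_SW {w : ℝ → ℝ} (hw : IsWt w) (c : ℕ → ℝ) {x T' : ℝ} (hx : 0 < x) (hT : 1 ≤ T') :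
    Summable (fun n : ℕ => c n * w (((n : ℝ) / x) ^ T')) := by
  obtain ⟨a, b, ha, hab, hs⟩ := hw.supp
  apply summable_of_ne_finset_zero (s := Finset.range (⌈x * (b + 1)⌉₊ + 1))
  intro n hn
  rw [Finset.mem_range, not_lt] at hn
  have hb : 0 < b := ha.trans hab
  have h1 : x * (b + 1) < n := by
    have h2 : (⌈x * (b + 1)⌉₊ : ℝ) + 1 ≤ n := by exact_mod_cast hn
    have h3 := Nat.le_ceil (x * (b + 1))
    linarith
  have h2 : b + 1 < (n : ℝ) / x := by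
    rw [lt_div_iff₀ hx]; linarith [mul_comm x (b + 1)]
  have h3 : (n : ℝ) / x ≤ ((n : ℝ) / x) ^ T' := by
    have : ((n : ℝ) / x) ^ (1 : ℝ) ≤ ((n : ℝ) / x) ^ T' :=
      Real.rpow_le_rpow_of_exponent_le (by linarith) hT
    rwa [Real.rpow_one] at this
  have h4 : w (((n : ℝ) / x) ^ T') = 0 := by
    by_contra h
    have := (hs _ h).2
    linarith
  rw [h4, mul_zero]

theorem SW_sum {w : ℝ → ℝ} (hw : IsWt w) {ι : Type*} (I : Finset ι) (c : ι → ℕ → ℝ) {x T' : ℝ} (hx : 0 < x)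
    (hT : 1 ≤ T') : SW w (fun n => ∑ i ∈ I, c i n) x T' = ∑ i ∈ I, SW w (c i) x T' := by
  unfold SW
  rw [← Summable.tsum_finsetSum (fun i _ => summable_SW hw (c i) hx hT)]
  congr 1
  ext n
  rw [Finset.sum_mul]

theorem SW_abs_sub_le {w : ℝ → ℝ} (hw : IsWt w) (hw0 : ∀ u, 0 ≤ w u) (c1 c2 c3 : ℕ → ℝ) {x T' : ℝ} (hx : 0 < x)
    (hT : 1 ≤ T') (h : ∀ n, |c1 n - c2 n| ≤ c3 n) :
    |SW w c1 x T' - SW w c2 x T'| ≤ SW w c3 x T' := by
  unfold SW
  have s1 := summable_SW hw c1 hx hT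
  have s2 := summable_SW hw c2 hx hT
  have s3 := summable_SW hw c3 hx hT
  rw [← Summable.tsum_sub s1 s2]
  have key : ∀ n : ℕ, |c1 n * w (((n : ℝ) / x) ^ T') - c2 n * w (((n : ℝ) / x) ^ T')| ≤ c3 n * w (((n : ℝ) / x) ^ T') := by
    intro n
    rw [← sub_mul, abs_mul, abs_of_nonneg (hw0 _)]
    exact mul_le_mul_of_nonneg_right (h n) (hw0 _)
  have s4 : Summable (fun n : ℕ => |c1 n * w (((n : ℝ) / x) ^ T') - c2 n * w (((n : ℝ) / x) ^ T')|) :=
    Summable.of_nonneg_of_le (fun _ => abs_nonneg _) key s3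
  calc |∑' n : ℕ, (c1 n * w (((n : ℝ) / x) ^ T') - c2 n * w (((n : ℝ) / x) ^ T'))|
      ≤ ∑' n : ℕ, |c1 n * w (((n : ℝ) / x) ^ T') - c2 n * w (((n : ℝ) / x) ^ T')| := by
        have := norm_tsum_le_tsum_norm (f := fun n : ℕ => c1 n * w (((n : ℝ) / x) ^ T') - c2 n * w (((n : ℝ) / x) ^ T'))
          (by simpa [Real.norm_eq_abs] using s4)
        simpa [Real.norm_eq_abs] using this
    _ ≤ _ := Summable.tsum_le_tsum key s4 s3

theorem SW_nonneg {w : ℝ → ℝ} (hw0 : ∀ u, 0 ≤ w u) (c : ℕ → ℝ) {x T' : ℝ} (h : ∀ n, 0 ≤ c n) : 0 ≤ SW w c x T' :=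
  tsum_nonneg fun n => mul_nonneg (h n) (hw0 _)

theorem LSep.subset {S S' : Finset ℝ} {T : ℝ} (h : LSep S T) (hs : S' ⊆ S) : LSep S' T :=
  ⟨fun x hx => h.1 x (hs hx), fun x hx y hy => h.2 x (hs hx) y (hs hy)⟩

open Classical in
/-- union of packings -/
theorem pack_union {ι : Type*} (I : Finset ι) {T B : ℝ} (P : ι → ℝ → Prop) (h : ∀ i ∈ I, PackLe T (P i) B) :
    PackLe T (fun x => ∃ i ∈ I, P i x) (I.card * B) := by
  intro S hS hx
  have hsub : S ⊆ I.biUnion fun i => S.filter (P i) := by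
    intro x hxS
    obtain ⟨_, _, i, hi, hP⟩ := hx x hxS
    exact Finset.mem_biUnion.2 ⟨i, hi, Finset.mem_filter.2 ⟨hxS, hP⟩⟩
  calc (S.card : ℝ) ≤ ((I.biUnion fun i => S.filter (P i)).card : ℝ) := by
        exact_mod_cast Finset.card_le_card hsub
    _ ≤ ∑ i ∈ I, ((S.filter (P i)).card : ℝ) := by exact_mod_cast Finset.card_biUnion_le
    _ ≤ ∑ _i ∈ I, B := by
        refine Finset.sum_le_sum fun i hi => ?_
        refine h i hi _ (LSep.subset hS (Finset.filter_subset _ _)) ?_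
        intro x hx'
        obtain ⟨h1, h2⟩ := Finset.mem_filter.1 hx'
        exact ⟨(hx x h1).1, (hx x h1).2.1, h2⟩
    _ = I.card * B := by rw [Finset.sum_const, nsmul_eq_mul]

theorem pack_mono {T B B' : ℝ} {P Q : ℝ → Prop} (h : PackLe T P B) (hPQ : ∀ x, T ^ 2 ≤ x → x ≤ 4 * T ^ 2 → Q x → P x)
    (hB : B ≤ B') : PackLe T Q B' := fun S hS hx =>
  (h S hS fun x hxS => ⟨(hx x hxS).1, (hx x hxS).2.1, hPQ x (hx x hxS).1 (hx x hxS).2.1 (hx x hxS).2.2⟩).trans hB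

theorem cw_nonneg {S : ℕ} (v : Fin S → Option ℕ) : 0 ≤ cw v := by unfold cw; positivity

theorem ns_le {S : ℕ} (v : Fin S → Option ℕ) : ns v ≤ S := by
  unfold ns
  exact (Finset.card_le_univ _).trans (by simp)

theorem cw_le {S : ℕ} (v : Fin S → Option ℕ) : cw v ≤ 5 * 3 ^ S := by
  unfold cw
  have h1 : (3 : ℝ) ^ ns v ≤ 3 ^ S := pow_le_pow_right₀ (by norm_num) (ns_le v)
  have h2 : ((S - ns v).factorial : ℝ) ≤ (S.factorial : ℝ) := by
    exact_mod_cast Nat.factorial_le (Nat.sub_le _ _)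
  have h3 : (0 : ℝ) < (S.factorial : ℝ) := by exact_mod_cast Nat.factorial_pos _
  rw [div_le_iff₀ h3]
  have h4 : (0 : ℝ) ≤ ((S - ns v).factorial : ℝ) := by positivity
  nlinarith [mul_le_mul h1 h2 h4 (by positivity : (0 : ℝ) ≤ 3 ^ S)]

theorem cc_le_cw {S : ℕ} (u : Fin 3 → Option ℕ) (v : Fin S → Option ℕ) : |cc u v| ≤ cw v := by
  unfold cc cw
  rw [abs_div, abs_mul]
  have h3 : (0 : ℝ) < (S.factorial : ℝ) := by exact_mod_cast Nat.factorial_pos _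
  rw [abs_of_pos h3, abs_of_nonneg (by positivity : (0 : ℝ) ≤ ((S - ns v).factorial : ℝ))]
  gcongr
  have e1 : |(3 : ℝ) * (-1) ^ ns v| ≤ 3 * 1 := by
    rw [abs_mul, abs_pow]; norm_num
  have e2 : |(-(3 / 2) : ℝ) * (-2) ^ ns v| ≤ (3 / 2) * 2 ^ ns v := by
    rw [abs_mul, abs_pow]; norm_num
  have e3 : |(1 / 3 : ℝ) * (-3) ^ ns v| ≤ (1 / 3) * 3 ^ ns v := by
    rw [abs_mul, abs_pow]; norm_num
  have p1 : (1 : ℝ) ≤ 3 ^ ns v := one_le_pow₀ (by norm_num)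
  have p2 : (2 : ℝ) ^ ns v ≤ 3 ^ ns v := pow_le_pow_left₀ (by norm_num) (by norm_num) _
  have a1 : |(if ∀ i : Fin 3, 1 ≤ i.val → u i = none then (3 : ℝ) * (-1) ^ ns v else 0)| ≤ 3 * 1 := by
    split_ifs
    · exact e1
    · rw [abs_zero]; norm_num
  have a2 : |(if ∀ i : Fin 3, 2 ≤ i.val → u i = none then (-(3 / 2) : ℝ) * (-2) ^ ns v else 0)| ≤ (3 / 2) * 2 ^ ns v := by
    split_ifs
    · exact e2
    · rw [abs_zero]; positivity
  calc _ ≤ _ := (abs_add_le _ _).trans (add_le_add (abs_add_le _ _) le_rfl)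
    _ ≤ 3 * 1 + (3 / 2) * 2 ^ ns v + (1 / 3) * 3 ^ ns v := add_le_add (add_le_add a1 a2) e3
    _ ≤ 5 * 3 ^ ns v := by linarith

theorem card_Bx (m : ℕ) (T : ℝ) : ((Bx m T).card : ℝ) = ((LL T : ℝ) + 1) ^ m := by
  unfold Bx
  rw [Fintype.card_piFinset]
  simp

theorem LL_le {T : ℝ} (h : 3 ≤ Real.log T) : (LL T : ℝ) + 1 ≤ 4 * Real.log T := by
  unfold LL
  have := Nat.ceil_lt_add_one (a := 3 * Real.log T) (by linarith)
  push_cast
  linarith


theorem dd_bound {w : ℝ → ℝ} (hw : IsWt w) (hw0 : ∀ u, 0 ≤ w u) {T x T1 : ℝ} (hx : 0 < x) (hT : 1 ≤ T) (hT1 : 1 ≤ T1)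
    (f g : ℕ → ℝ) (F : Finset (Fin 3)) (e : Fin 3 → ℕ → ℝ)
    (h : ∀ n, |f n - g n| ≤ ∑ i ∈ F, e i n) :
    |DD w f x T T1| ≤ |DD w g x T T1| + ∑ i ∈ F, (|DD w (e i) x T T1| + 2 * (T1 / x * SW w (e i) x T1)) := by
  have a1 := SW_abs_sub_le hw hw0 f g (fun n => ∑ i ∈ F, e i n) hx hT h
  have a2 := SW_abs_sub_le hw hw0 f g (fun n => ∑ i ∈ F, e i n) hx hT1 h
  rw [SW_sum hw F e hx hT] at a1
  rw [SW_sum hw F e hx hT1] at a2
  have hTx : 0 ≤ T / x := by positivity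
  have hT1x : 0 ≤ T1 / x := by positivity
  have b : |DD w f x T T1 - DD w g x T T1| ≤ T / x * ∑ i ∈ F, SW w (e i) x T + T1 / x * ∑ i ∈ F, SW w (e i) x T1 := by
    unfold DD
    have : T / x * SW w f x T - T1 / x * SW w f x T1 - (T / x * SW w g x T - T1 / x * SW w g x T1) =
      T / x * (SW w f x T - SW w g x T) - T1 / x * (SW w f x T1 - SW w g x T1) := by ring
    rw [this]
    calc _ ≤ |T / x * (SW w f x T - SW w g x T)| + |T1 / x * (SW w f x T1 - SW w g x T1)| := abs_sub _ _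
      _ ≤ _ := by
        rw [abs_mul, abs_mul, abs_of_nonneg hTx, abs_of_nonneg hT1x]
        gcongr
  have c : T / x * ∑ i ∈ F, SW w (e i) x T + T1 / x * ∑ i ∈ F, SW w (e i) x T1 ≤
      ∑ i ∈ F, (|DD w (e i) x T T1| + 2 * (T1 / x * SW w (e i) x T1)) := by
    rw [Finset.mul_sum, Finset.mul_sum, ← Finset.sum_add_distrib]
    refine Finset.sum_le_sum fun i _ => ?_
    have := le_abs_self (DD w (e i) x T T1)
    unfold DD at this ⊢
    linarith
  have d := abs_sub_abs_le_abs_sub (DD w f x T T1) (DD w g x T T1)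
  linarith

theorem pack_and {T B : ℝ} {H : Prop} {Q : ℝ → Prop} (hB : 0 ≤ B) (h : H → PackLe T Q B) :
    PackLe T (fun x => H ∧ Q x) B := by
  intro S hS hx
  by_cases hH : H
  · exact h hH S hS fun x hxS => ⟨(hx x hxS).1, (hx x hxS).2.1, (hx x hxS).2.2.2⟩
  · have : S = ∅ := by
      rw [Finset.eq_empty_iff_forall_notMem]
      intro x hxS
      exact hH (hx x hxS).2.2.1
    rw [this]
    simpa using hB

theorem exists_s {κ' C3 C0 ε : ℝ} (hκ : 0 < κ') (hC3 : 1 ≤ C3) (hε : 0 < ε) :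
    ∃ s : ℝ, 1 ≤ s ∧ C0 ≤ s ∧ (C3 / (κ' / s)) ^ 10 * Real.exp (-s) ≤ ε := by
  have h := Real.tendsto_pow_mul_exp_neg_atTop_nhds_zero 10
  have hK : 0 < (C3 / κ') ^ 10 := by positivity
  have h2 := h.eventually (ge_mem_nhds (show (0 : ℝ) < ε / (C3 / κ') ^ 10 by positivity))
  obtain ⟨s, hs⟩ := (h2.and ((eventually_ge_atTop 1).and (eventually_ge_atTop C0))).exists
  refine ⟨s, hs.2.1, hs.2.2, ?_⟩
  have h3 : C3 / (κ' / s) = (C3 / κ') * s := by
    have : 0 < s := by linarith [hs.2.1]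
    field_simp
  rw [h3, mul_pow, mul_assoc]
  have h4 := hs.1
  rw [le_div_iff₀ hK] at h4
  linarith [mul_comm (s ^ 10 * Real.exp (-s)) ((C3 / κ') ^ 10)]

theorem pbl_eq_zero {y z l : ℕ} (h : 2 * (z : ℝ) < 2 ^ l) : pbl y z l = 0 := by
  ext n
  show pb y z n * psi ((n : ℝ) / 2 ^ l) = 0
  by_cases hp : psi ((n : ℝ) / 2 ^ l) = 0
  · rw [hp, mul_zero]
  · have h1 := (Pool.Agent.Work.MP_56b8f5_nt.UC.psi_supp hp).1
    have h2 : (0 : ℝ) < 2 ^ l := by positivity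
    rw [le_div_iff₀ h2] at h1
    have h3 : (z : ℝ) < n := by linarith
    have h4 : z < n := by exact_mod_cast h3
    rw [Pool.Agent.Work.MP_a8fbd7_nt.OX.ID.pb_apply, if_neg (by omega), zero_mul]

theorem BF_eq_zero {y z S : ℕ} (u : Fin 3 → Option ℕ) (v : Fin S → Option ℕ) {r : Fin S} {l : ℕ} (hr : v r = some l)
    (h : 2 * (z : ℝ) < 2 ^ l) : BF y z u v = 0 := by
  unfold BF
  rw [Finset.prod_eq_zero (i := r) (s := Finset.univ) (f := fun r => ps y z (v r)) (Finset.mem_univ _)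
    (by simp only [hr, ps]; exact pbl_eq_zero h), mul_zero]

theorem SW_zero (w : ℝ → ℝ) (x T' : ℝ) : SW w (⇑(0 : ArithmeticFunction ℝ)) x T' = 0 := by
  unfold SW
  simp


/-- the bad points of the conditions attached to a box -/
def Pb (w : ℝ → ℝ) (T T1 κ2 κ3 β A : ℝ) (y z S : ℕ) (lp lm : ℕ → ℝ) :
    ((Fin 3 → Option ℕ) × (Fin S → Option ℕ)) × Option (Option (Fin 3)) → ℝ → Prop
  | ((u, v), none) => fun x => ((∀ i, ¬ Lg T κ2 (u i)) ∧ Sh T β u v) ∧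
      1 / Real.log T ^ A ≤ |DD w (BF y z u v) x T T1|
  | ((u, v), some none) => fun x => (∃ i, Lg T κ2 (u i)) ∧
      1 / Real.log T ^ A ≤ |DD w (BFA y z T κ3 (fun _ => lp) u v) x T T1|
  | ((u, v), some (some i)) => fun x => (∃ i, Lg T κ2 (u i)) ∧
      1 / Real.log T ^ A ≤ |DD w (BFA y z T κ3 (Function.update (fun _ => lp) i (fun d => lp d - lm d)) u v) x T T1|

open Classical in
/-- deterministic part: sums over the boxes at a good point -/
theorem good_point {w : ℝ → ℝ} (hw : IsWt w) (hw0 : ∀ u, 0 ≤ w u) (hV1 : StV1)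
    {T T1 κ1 κ2 κ3 A D C0 E CR x : ℝ} {y z S : ℕ} {lp lm : ℕ → ℝ} (hT3 : 3 ≤ T) (hT1 : 1 ≤ T1) (hκ3 : 0 < κ3)
    (hsv : IsSv y D C0 E lp lm) (hx1 : T ^ 2 ≤ x) (hL : 0 < Real.log T) (hz : (z : ℝ) ≤ T ^ (1 / 2 - κ1))
    (hRg : ∀ (u : Fin 3 → Option ℕ) (v : Fin S → Option ℕ) (T' : ℝ), 1 ≤ T' → SW w (BF y z u v) x T' ≠ 0 →
      T ^ 2 / CR ≤ PS u v ∧ PS u v ≤ CR * T ^ 2)
    (hSh : ∀ (u : Fin 3 → Option ℕ) (v : Fin S → Option ℕ), (∀ i, ¬ Lg T κ2 (u i)) →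
      (∀ r l, v r = some l → (2 : ℝ) ^ l ≤ 2 * T ^ (1 / 2 - κ1)) →
      T ^ 2 / CR ≤ PS u v → PS u v ≤ CR * T ^ 2 → Sh T (κ1 / 2) u v)
    (hgood : ∀ u ∈ Bx 3 T, ∀ v ∈ Bx S T, ∀ j, ¬ Pb w T T1 κ2 κ3 (κ1 / 2) A y z S lp lm ((u, v), j) x) :
    ∑ u ∈ Bx 3 T, ∑ v ∈ Bx S T, cw v * |DD w (BF y z u v) x T T1| ≤
      ∑ _u ∈ Bx 3 T, ∑ _v ∈ Bx S T, (5 * 3 ^ S) * (4 / Real.log T ^ A) +
      2 * ∑ u ∈ Bx 3 T, ∑ v ∈ Bx S T, cw v * ∑ i ∈ Finset.univ.filter (fun i => Lg T κ3 (u i)),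
        T1 / x * SW w (BFA y z T κ3 (Function.update (fun _ => lp) i (fun d => lp d - lm d)) u v) x T1 := by
  have hx : 0 < x := lt_of_lt_of_le (by positivity) hx1
  have hLA : 0 < Real.log T ^ A := Real.rpow_pos_of_pos hL _
  rw [Finset.mul_sum, ← Finset.sum_add_distrib]
  refine Finset.sum_le_sum fun u hu => ?_
  rw [Finset.mul_sum, ← Finset.sum_add_distrib]
  refine Finset.sum_le_sum fun v hv => ?_
  have hcw := cw_nonneg v
  have hcw2 := cw_le v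
  have hv1 := fun n => hV1 T κ3 D C0 E y z S lp lm u v n hT3 hκ3 hsv
  set e : Fin 3 → ℕ → ℝ := fun i => ⇑(BFA y z T κ3 (Function.update (fun _ => lp) i (fun d => lp d - lm d)) u v) with he
  have hsum0 : 0 ≤ ∑ i ∈ Finset.univ.filter (fun i => Lg T κ3 (u i)), T1 / x * SW w (e i) x T1 := by
    refine Finset.sum_nonneg fun i _ => mul_nonneg (by positivity) (SW_nonneg hw0 _ fun n => ?_)
    exact (hv1 n).2 i
  have h14 : 0 ≤ 4 / Real.log T ^ A := by positivity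
  have key : |DD w (BF y z u v) x T T1| ≤ 4 / Real.log T ^ A +
      2 * ∑ i ∈ Finset.univ.filter (fun i => Lg T κ3 (u i)), T1 / x * SW w (e i) x T1 := by
    by_cases hB : ∀ i, ¬ Lg T κ2 (u i)
    · have h1 : |DD w (BF y z u v) x T T1| ≤ 1 / Real.log T ^ A := by
        by_cases h0 : SW w (BF y z u v) x T = 0 ∧ SW w (BF y z u v) x T1 = 0
        · unfold DD
          rw [h0.1, h0.2, mul_zero, mul_zero, sub_zero, abs_zero]
          positivity
        · have hrel : T ^ 2 / CR ≤ PS u v ∧ PS u v ≤ CR * T ^ 2 := by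
            by_cases h2 : SW w (BF y z u v) x T = 0
            · exact hRg u v T1 hT1 fun h3 => h0 ⟨h2, h3⟩
            · exact hRg u v T (by linarith) h2
          have hpr : ∀ r l, v r = some l → (2 : ℝ) ^ l ≤ 2 * T ^ (1 / 2 - κ1) := by
            intro r l hr
            by_contra hcon
            rw [not_le] at hcon
            apply h0
            have hzero := BF_eq_zero (y := y) (z := z) u v hr (by linarith)
            rw [hzero, SW_zero, SW_zero]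
            exact ⟨rfl, rfl⟩
          have hsh := hSh u v hB hpr hrel.1 hrel.2
          have := hgood u hu v hv none
          unfold Pb at this
          by_contra hcon
          rw [not_le] at hcon
          exact this ⟨⟨hB, hsh⟩, hcon.le⟩
      have h5 : 1 / Real.log T ^ A ≤ 4 / Real.log T ^ A := by gcongr; norm_num
      linarith
    · have hA : ∃ i, Lg T κ2 (u i) := by
        push Not at hB; exact hB
      have h0 : |DD w (BFA y z T κ3 (fun _ => lp) u v) x T T1| ≤ 1 / Real.log T ^ A := by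
        have := hgood u hu v hv (some none)
        unfold Pb at this
        by_contra hcon
        rw [not_le] at hcon
        exact this ⟨hA, hcon.le⟩
      have h1 : ∀ i, |DD w (e i) x T T1| ≤ 1 / Real.log T ^ A := by
        intro i
        have := hgood u hu v hv (some (some i))
        unfold Pb at this
        by_contra hcon
        rw [not_le] at hcon
        exact this ⟨hA, hcon.le⟩
      have h2 := dd_bound hw hw0 hx (show (1 : ℝ) ≤ T by linarith) hT1 (BF y z u v) (BFA y z T κ3 (fun _ => lp) u v)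
        (Finset.univ.filter (fun i => Lg T κ3 (u i))) e (fun n => (hv1 n).1)
      have h3 : ∑ i ∈ Finset.univ.filter (fun i => Lg T κ3 (u i)), (|DD w (e i) x T T1| + 2 * (T1 / x * SW w (e i) x T1)) ≤
          3 / Real.log T ^ A + 2 * ∑ i ∈ Finset.univ.filter (fun i => Lg T κ3 (u i)), T1 / x * SW w (e i) x T1 := by
        rw [Finset.sum_add_distrib, ← Finset.mul_sum]
        have : ∑ i ∈ Finset.univ.filter (fun i => Lg T κ3 (u i)), |DD w (e i) x T T1| ≤ 3 / Real.log T ^ A := by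
          calc _ ≤ ∑ i ∈ Finset.univ.filter (fun i => Lg T κ3 (u i)), 1 / Real.log T ^ A :=
                Finset.sum_le_sum fun i _ => h1 i
            _ ≤ ∑ i : Fin 3, 1 / Real.log T ^ A :=
                Finset.sum_le_sum_of_subset_of_nonneg (Finset.filter_subset _ _) fun _ _ _ => by positivity
            _ = 3 / Real.log T ^ A := by simp; ring
        linarith
      have h4 : 1 / Real.log T ^ A + 3 / Real.log T ^ A = 4 / Real.log T ^ A := by ring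
      linarith
  calc cw v * |DD w (BF y z u v) x T T1| ≤ cw v * (4 / Real.log T ^ A +
      2 * ∑ i ∈ Finset.univ.filter (fun i => Lg T κ3 (u i)), T1 / x * SW w (e i) x T1) := by gcongr
    _ = cw v * (4 / Real.log T ^ A) + 2 * (cw v * ∑ i ∈ Finset.univ.filter (fun i => Lg T κ3 (u i)), T1 / x * SW w (e i) x T1) := by ring
    _ ≤ _ := by gcongr


theorem isSv_mono {y : ℕ} {D D' C0 E : ℝ} {lp lm : ℕ → ℝ} (h : IsSv y D C0 E lp lm) (hD : D ≤ D') : IsSv y D' C0 E lp lm := by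
  have hz : ∀ l : ℕ → ℝ, (∀ d, l d ≠ 0 → 1 ≤ d ∧ (d : ℝ) ≤ D) →
      ∑ d ∈ Finset.Icc 1 ⌊D'⌋₊, l d / (d : ℝ) = ∑ d ∈ Finset.Icc 1 ⌊D⌋₊, l d / (d : ℝ) := by
    intro l hl
    symm
    apply Finset.sum_subset
    · exact Finset.Icc_subset_Icc_right (Nat.floor_mono hD)
    · intro d _ hd2
      by_cases h0 : l d = 0
      · rw [h0, zero_div]
      · exfalso
        obtain ⟨h1, h2⟩ := hl d h0
        exact hd2 (Finset.mem_Icc.2 ⟨h1, Nat.le_floor h2⟩)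
  refine ⟨h.bdp, h.bdm, fun d hd => ⟨(h.supp d hd).1, (h.supp d hd).2.trans hD⟩,
    fun d hd => ⟨(h.supm d hd).1, (h.supm d hd).2.trans hD⟩, h.rough, h.nrough, ?_, ?_⟩
  · rw [hz (fun d => lp d - lm d)]
    · exact h.dif
    · intro d hd
      by_cases h0 : lp d = 0
      · have : lm d ≠ 0 := by
          intro h1
          apply hd
          simp [h0, h1]
        exact h.supm d this
      · exact h.supp d h0
  · rw [hz lp h.supp]
    exact h.tot

theorem pack_Pb {w : ℝ → ℝ} {T T1 κ1 κ2 κ3 κ' A C : ℝ} {y z S : ℕ} {lp lm : ℕ → ℝ} {C0 E D : ℝ}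
    (hT0 : 0 < T) (hsv : IsSv y D C0 E lp lm) (hD : D ≤ T ^ κ') (hC : 0 ≤ C)
    (hBB : ∀ (u : Fin 3 → Option ℕ) (v : Fin S → Option ℕ), (∀ i, ¬ Lg T κ2 (u i)) → Sh T (κ1 / 2) u v →
      PackLe T (fun x => 1 / Real.log T ^ A ≤ |DD w (BF y z u v) x T T1|) (C * T ^ r0))
    (hAA : ∀ (u : Fin 3 → Option ℕ) (v : Fin S → Option ℕ) (lw : Fin 3 → ℕ → ℝ), (∃ i, Lg T κ2 (u i)) →
      (∀ i d, |lw i d| ≤ 2) → (∀ i d, lw i d ≠ 0 → 1 ≤ d ∧ (d : ℝ) ≤ T ^ κ') →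
      PackLe T (fun x => 1 / Real.log T ^ A ≤ |DD w (BFA y z T κ3 lw u v) x T T1|) (C * T ^ r0)) :
    ∀ p, PackLe T (Pb w T T1 κ2 κ3 (κ1 / 2) A y z S lp lm p) (C * T ^ r0) := by
  have hB : 0 ≤ C * T ^ r0 := mul_nonneg hC (Real.rpow_nonneg hT0.le _)
  have hlp1 : ∀ d, |lp d| ≤ 2 := fun d => (hsv.bdp d).trans (by norm_num)
  have hdif : ∀ d, |lp d - lm d| ≤ 2 := fun d => by
    calc |lp d - lm d| ≤ |lp d| + |lm d| := abs_sub _ _
      _ ≤ 1 + 1 := add_le_add (hsv.bdp d) (hsv.bdm d)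
      _ = 2 := by norm_num
  have hsp : ∀ d, lp d ≠ 0 → 1 ≤ d ∧ (d : ℝ) ≤ T ^ κ' := fun d hd => ⟨(hsv.supp d hd).1, (hsv.supp d hd).2.trans hD⟩
  have hsd : ∀ d, lp d - lm d ≠ 0 → 1 ≤ d ∧ (d : ℝ) ≤ T ^ κ' := by
    intro d hd
    by_cases h0 : lp d = 0
    · have : lm d ≠ 0 := by
        intro h1
        apply hd
        simp [h0, h1]
      exact ⟨(hsv.supm d this).1, (hsv.supm d this).2.trans hD⟩
    · exact hsp d h0
  rintro ⟨⟨u, v⟩, j⟩
  rcases j with _ | _ | i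
  · exact pack_and hB fun h => hBB u v h.1 h.2
  · exact pack_and hB fun h => hAA u v _ h (fun _ => hlp1) (fun _ => hsp)
  · refine pack_and hB fun h => hAA u v _ h ?_ ?_
    · intro i' d
      by_cases hi : i' = i
      · subst hi; simpa using hdif d
      · simpa [Function.update_of_ne hi] using hlp1 d
    · intro i' d
      by_cases hi : i' = i
      · subst hi; simpa using hsd d
      · simpa [Function.update_of_ne hi] using hsp d

theorem num_box {T A : ℝ} {S : ℕ} (hA : A = ((4 * (S + 4) : ℕ) : ℝ)) (f1 : 12 ≤ Real.log T) :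
    ∑ _u ∈ Bx 3 T, ∑ _v ∈ Bx S T, (5 * 3 ^ S : ℝ) * (4 / Real.log T ^ A) ≤ 1 / Real.log T ^ 2 := by
  rw [Finset.sum_const, Finset.sum_const, nsmul_eq_mul, nsmul_eq_mul, card_Bx, card_Bx]
  have hLL := LL_le (T := T) (by linarith)
  have hLL0 : (0 : ℝ) ≤ (LL T : ℝ) + 1 := by positivity
  have hpow : Real.log T ^ A = Real.log T ^ (4 * (S + 4)) := by rw [hA, Real.rpow_natCast]
  rw [hpow]
  have h1 : ((LL T : ℝ) + 1) ^ 3 * ((LL T : ℝ) + 1) ^ S ≤ (4 * Real.log T) ^ (S + 3) := by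
    rw [← pow_add, add_comm 3 S]
    exact pow_le_pow_left₀ hLL0 hLL _
  have h2 : (4 * Real.log T) ^ (S + 3) * (20 * 3 ^ S) ≤ Real.log T ^ (2 * (S + 3) + 2) := by
    have h3 : (3 : ℝ) ^ S ≤ 3 ^ (S + 3) := pow_le_pow_right₀ (by norm_num) (by omega)
    calc (4 * Real.log T) ^ (S + 3) * (20 * 3 ^ S) ≤ (4 * Real.log T) ^ (S + 3) * (20 * 3 ^ (S + 3)) := by gcongr
      _ = (12 * Real.log T) ^ (S + 3) * 20 := by
        rw [show (12 : ℝ) * Real.log T = (4 * Real.log T) * 3 by ring, mul_pow (4 * Real.log T) 3]; ring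
      _ ≤ (Real.log T * Real.log T) ^ (S + 3) * Real.log T ^ 2 := by
        gcongr
        · nlinarith
      _ = Real.log T ^ (2 * (S + 3) + 2) := by rw [← pow_two, ← pow_mul, pow_add]
  have h4 : (0 : ℝ) < Real.log T ^ (4 * (S + 4)) := by positivity
  calc ((LL T : ℝ) + 1) ^ 3 * (((LL T : ℝ) + 1) ^ S * (5 * 3 ^ S * (4 / Real.log T ^ (4 * (S + 4))))) =
      (((LL T : ℝ) + 1) ^ 3 * ((LL T : ℝ) + 1) ^ S) * (20 * 3 ^ S) / Real.log T ^ (4 * (S + 4)) := by ring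
    _ ≤ (4 * Real.log T) ^ (S + 3) * (20 * 3 ^ S) / Real.log T ^ (4 * (S + 4)) := by gcongr
    _ ≤ Real.log T ^ (2 * (S + 3) + 2) / Real.log T ^ (4 * (S + 4)) := by gcongr
    _ ≤ 1 / Real.log T ^ 2 := by
      rw [div_le_div_iff₀ h4 (by positivity), one_mul, ← pow_add]
      exact pow_le_pow_right₀ (by linarith) (by omega)

theorem num_card {T : ℝ} {S : ℕ} (f1 : 12 ≤ Real.log T) (f4 : (4 * Real.log T) ^ (S + 3) ≤ T ^ (1 / 2000 : ℝ)) :
    ((((Bx 3 T ×ˢ Bx S T) ×ˢ (Finset.univ : Finset (Option (Option (Fin 3))))).card : ℕ) : ℝ) ≤ 5 * T ^ (1 / 2000 : ℝ) := by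
  rw [Finset.card_product, Finset.card_product]
  push_cast
  rw [card_Bx, card_Bx]
  have hLL := LL_le (T := T) (by linarith)
  have hLL0 : (0 : ℝ) ≤ (LL T : ℝ) + 1 := by positivity
  have h1 : ((LL T : ℝ) + 1) ^ 3 * ((LL T : ℝ) + 1) ^ S ≤ (4 * Real.log T) ^ (S + 3) := by
    rw [← pow_add, add_comm 3 S]
    exact pow_le_pow_left₀ hLL0 hLL _
  have h5 : ((Finset.univ : Finset (Option (Option (Fin 3)))).card : ℝ) = 5 := by simp
  rw [h5]
  linarith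

theorem fin_ineq {w : ℝ → ℝ} {T T1 x δ C1 κ1 C3 η E CL CE : ℝ} {y z S : ℕ} {Q1 Q2 : ℝ} (hx : 0 < x) (hx1 : T ^ 2 ≤ x) (hx2 : x ≤ 4 * T ^ 2)
    (hT3 : 3 ≤ T) (f1 : 12 ≤ Real.log T) (hδ : 0 < δ) (f2 : 4 * (6 * CL + 6 * CE + 3) / δ ≤ Real.log T)
    (hκ1δ : C1 * κ1 ≤ δ / 100) (hE10 : (C3 / η) ^ 10 * E ≤ δ / 100)
    (hli1 : |T / x * SW w pr x T - ∑ u ∈ Bx 3 T, ∑ v ∈ Bx S T, cc u v * (T / x * SW w (BF y z u v) x T)| ≤
      C1 * κ1 / Real.log T + CL / Real.log T ^ 2)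
    (hli2 : |T1 / x * SW w pr x T1 - ∑ u ∈ Bx 3 T, ∑ v ∈ Bx S T, cc u v * (T1 / x * SW w (BF y z u v) x T1)| ≤
      C1 * κ1 / Real.log T + CL / Real.log T ^ 2)
    (hgp : ∑ u ∈ Bx 3 T, ∑ v ∈ Bx S T, cw v * |DD w (BF y z u v) x T T1| ≤ Q1 + 2 * Q2)
    (hbox : Q1 ≤ 1 / Real.log T ^ 2) (hse : Q2 ≤ (C3 / η) ^ 10 * E / Real.log T + CE / Real.log T ^ 2)
    (hpn : |Real.log x * (T1 / x * SW w pr x T1) - Iw w| ≤ δ / 4) :
    |Real.log x * (T / x * SW w pr x T) - Iw w| ≤ δ := by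
  have hLpos : 0 < Real.log T := by linarith
  set L : ℝ := Real.log T with hL
  have hdiff : |T / x * SW w pr x T - T1 / x * SW w pr x T1| ≤ 2 * (C1 * κ1 / L + CL / L ^ 2) +
      (1 / L ^ 2 + 2 * ((C3 / η) ^ 10 * E / L + CE / L ^ 2)) := by
    have hsum : |∑ u ∈ Bx 3 T, ∑ v ∈ Bx S T, cc u v * (T / x * SW w (BF y z u v) x T) -
        ∑ u ∈ Bx 3 T, ∑ v ∈ Bx S T, cc u v * (T1 / x * SW w (BF y z u v) x T1)| ≤
        ∑ u ∈ Bx 3 T, ∑ v ∈ Bx S T, cw v * |DD w (BF y z u v) x T T1| := by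
      rw [← Finset.sum_sub_distrib]
      refine (Finset.abs_sum_le_sum_abs _ _).trans (Finset.sum_le_sum fun u _ => ?_)
      rw [← Finset.sum_sub_distrib]
      refine (Finset.abs_sum_le_sum_abs _ _).trans (Finset.sum_le_sum fun v _ => ?_)
      rw [← mul_sub, abs_mul]
      exact mul_le_mul_of_nonneg_right (cc_le_cw u v) (abs_nonneg _)
    have e1 := abs_le.1 hli1
    have e2 := abs_le.1 hli2
    have e3 := abs_le.1 hsum
    rw [abs_le]
    constructor <;> linarith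
  have hlx : Real.log x ≤ 3 * L := by
    have h1 : Real.log x ≤ Real.log (4 * T ^ 2) := Real.log_le_log hx hx2
    have h2 : Real.log (4 * T ^ 2) = Real.log 4 + 2 * L := by
      rw [Real.log_mul (by norm_num) (by positivity), Real.log_pow]; push_cast; ring
    have h3 : Real.log 4 ≤ 4 := by
      have := Real.log_le_sub_one_of_pos (show (0 : ℝ) < 4 by norm_num)
      linarith
    linarith
  have hlx0 : 0 ≤ Real.log x := Real.log_nonneg (by nlinarith)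
  have hf2 : (6 * CL + 6 * CE + 3) / L ≤ δ / 4 := by
    rw [div_le_iff₀ hδ] at f2
    rw [div_le_iff₀ hLpos]
    linarith
  have hmul : Real.log x * |T / x * SW w pr x T - T1 / x * SW w pr x T1| ≤
      6 * (C1 * κ1) + 6 * ((C3 / η) ^ 10 * E) + (6 * CL + 6 * CE + 3) / L := by
    calc _ ≤ (3 * L) * (2 * (C1 * κ1 / L + CL / L ^ 2) +
          (1 / L ^ 2 + 2 * ((C3 / η) ^ 10 * E / L + CE / L ^ 2))) := by gcongr
      _ = _ := by field_simp; ring
  have hfin : |Real.log x * (T / x * SW w pr x T) - Iw w| ≤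
      Real.log x * |T / x * SW w pr x T - T1 / x * SW w pr x T1| + δ / 4 := by
    have h1 : Real.log x * (T / x * SW w pr x T) - Iw w =
        Real.log x * (T / x * SW w pr x T - T1 / x * SW w pr x T1) + (Real.log x * (T1 / x * SW w pr x T1) - Iw w) := by ring
    rw [h1]
    refine (abs_add_le _ _).trans ?_
    rw [abs_mul, abs_of_nonneg hlx0]
    linarith
  linarith

end Mn_aux

open Mn_aux

open Classical in
theorem iMn (hBB : StBB) (hAA : StAA) (hSh : StSh) (hRg : StRg) (hV1 : StV1) (hSv : StSv) (hSE : StSE) (hLi : StLi)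
    (hPN : StPN) : StMn := by
  intro w hw hw0 δ hδ
  obtain ⟨C1, hC1, hLi⟩ := hLi w hw hw0
  obtain ⟨κ1, hκ1, hκ1', hκ1δ⟩ : ∃ κ1 : ℝ, 0 < κ1 ∧ κ1 ≤ 1 / 20 ∧ C1 * κ1 ≤ δ / 100 := by
    refine ⟨min (1 / 20) (δ / (100 * C1)), by positivity, min_le_left _ _, ?_⟩
    have := min_le_right (1 / 20) (δ / (100 * C1))
    have hC1' : 0 < C1 := by linarith
    calc C1 * min (1 / 20) (δ / (100 * C1)) ≤ C1 * (δ / (100 * C1)) := by gcongr
      _ = δ / 100 := by field_simp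
  obtain ⟨κ2, hκ2, hκ2', hBB⟩ := hBB (κ1 / 2) (by positivity) (by linarith)
  obtain ⟨κ3, κ', hκ3, hκ3', hκ', hκ'', hAA⟩ := hAA κ2 hκ2 (by linarith)
  obtain ⟨C0, hC0, hSv⟩ := hSv
  obtain ⟨C3, hC3, hSE⟩ := hSE w hw hw0 C0 hC0
  obtain ⟨s, hs1, hs0, hsE⟩ := exists_s (C0 := C0) hκ' hC3 (show 0 < δ / 100 by positivity)
  set η : ℝ := κ' / s with hη
  have hs : 0 < s := by linarith
  have hη0 : 0 < η := by positivity
  have hηκ : η ≤ κ' := by rw [hη, div_le_iff₀ hs]; nlinarith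
  have hη20 : η ≤ 1 / 20 := by linarith
  set S : ℕ := SS η with hS
  set A : ℝ := ((4 * (S + 4) : ℕ) : ℝ) with hA
  have hA0 : 0 < A := by rw [hA]; positivity
  obtain ⟨B1, hB1, hBB⟩ := hBB w hw η κ1 A hη0 hη20 hκ1 hκ1' hA0
  obtain ⟨B2, hB2, hAA⟩ := hAA w hw η κ1 A hη0 hηκ hκ1 hκ1' hA0
  set B : ℝ := max B1 B2 with hB
  have hB1' : 1 ≤ B := hB1.trans (le_max_left _ _)
  obtain ⟨CB, hCB, hBB⟩ := hBB B (le_max_left _ _)
  obtain ⟨CA, hCA, hAA⟩ := hAA B (le_max_right _ _)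
  obtain ⟨CR, hCR, hRg⟩ := hRg w hw S
  obtain ⟨CS, hCS, hSh⟩ := hSh κ1 κ2 hκ1 hκ1' hκ2 (by linarith)
  set E : ℝ := Real.exp (-s) with hE
  have hE0 : 0 < E := Real.exp_pos _
  obtain ⟨CE, hCE, hSE⟩ := hSE η κ1 κ3 κ' E B hη0 hη20 hκ1 hκ1' hκ3 (by linarith) hκ' (by linarith) hE0 hB1'
  obtain ⟨CL, hCL, hLi⟩ := hLi η κ1 hη0 hη20 hκ1 hκ1'
  obtain ⟨CP, hCP, hPN⟩ := hPN w hw hw0 B (δ / 4) hB1' (by positivity)
  -- large T
  have hlog : Tendsto (fun T : ℝ => Real.log T) atTop atTop := Real.tendsto_log_atTop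
  have ev1 : ∀ᶠ T : ℝ in atTop, 12 ≤ Real.log T := hlog.eventually_ge_atTop 12
  have ev2 : ∀ᶠ T : ℝ in atTop, 4 * (6 * CL + 6 * CE + 3) / δ ≤ Real.log T := hlog.eventually_ge_atTop _
  have ev3 : ∀ᶠ T : ℝ in atTop, Real.log T ^ B ≤ T := by
    have := (isLittleO_log_rpow_rpow_atTop B (zero_lt_one)).bound (zero_lt_one)
    filter_upwards [this, eventually_ge_atTop 3] with T h h3
    have hl : 0 ≤ Real.log T := Real.log_nonneg (by linarith)
    rw [Real.rpow_one, one_mul, Real.norm_eq_abs, Real.norm_eq_abs, abs_of_nonneg (by positivity), abs_of_nonneg (by linarith)] at h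
    exact h
  have ev4 : ∀ᶠ T : ℝ in atTop, (4 * Real.log T) ^ (S + 3) ≤ T ^ (1 / 2000 : ℝ) := by
    have := (isLittleO_log_rpow_rpow_atTop ((S + 3 : ℕ) : ℝ) (show (0 : ℝ) < 1 / 2000 by norm_num)).bound
      (show (0 : ℝ) < 1 / 4 ^ (S + 3) by positivity)
    filter_upwards [this, eventually_ge_atTop 3] with T h h3
    have hl : 0 ≤ Real.log T := Real.log_nonneg (by linarith)
    have hT0 : 0 < T := by linarith
    rw [Real.norm_eq_abs, Real.norm_eq_abs, Real.rpow_natCast, abs_of_nonneg (by positivity), abs_of_nonneg (by positivity)] at h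
    rw [mul_pow]
    calc (4 : ℝ) ^ (S + 3) * Real.log T ^ (S + 3) ≤ 4 ^ (S + 3) * (1 / 4 ^ (S + 3) * T ^ (1 / 2000 : ℝ)) := by gcongr
      _ = T ^ (1 / 2000 : ℝ) := by field_simp
  have ev5 : ∀ᶠ T : ℝ in atTop, CR ≤ T ^ (κ1 / 100) := (tendsto_rpow_atTop (by positivity)).eventually_ge_atTop CR
  have ev6 : ∀ᶠ T : ℝ in atTop, CR ≤ T ^ (1 / 100 : ℝ) := (tendsto_rpow_atTop (by positivity)).eventually_ge_atTop CR
  have ev7 : ∀ᶠ T : ℝ in atTop, 2 ≤ T ^ η := (tendsto_rpow_atTop hη0).eventually_ge_atTop 2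
  obtain ⟨T0, hT0⟩ := (ev1.and (ev2.and (ev3.and (ev4.and (ev5.and (ev6.and ev7)))))).exists_forall_of_atTop
  refine ⟨max (max (max T0 3) (max CB CA)) (max (max (max CS CE) (max CL CP)) (5 * (CB + CA))), ?_, ?_⟩
  · exact le_trans (by norm_num) (((le_max_right T0 3).trans (le_max_left _ _)).trans (le_max_left _ _))
  intro T hT
  simp only [max_le_iff] at hT
  obtain ⟨⟨⟨hTT0, hT3⟩, hTCB, hTCA⟩, ⟨⟨hTCS, hTCE⟩, hTCL, hTCP⟩, hT5⟩ := hT
  obtain ⟨f1, f2, f3, f4, f5, f6, f7⟩ := hT0 T hTT0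
  have hTpos : 0 < T := by linarith
  have hLpos : 0 < Real.log T := by linarith
  set T1 : ℝ := Real.log T ^ B with hT1
  have hT1' : 1 ≤ T1 := Real.one_le_rpow (by linarith) (by linarith)
  set y : ℕ := zz η T with hy
  set z : ℕ := zz (1 / 2 - κ1) T with hz
  have hy2 : 2 ≤ y := by
    rw [hy]; unfold zz
    exact Nat.le_floor (by exact_mod_cast f7)
  obtain ⟨lp, lm, hsv⟩ := hSv s y hs0 hy2
  have hD : (y : ℝ) ^ s ≤ T ^ κ' := by
    have h1 : (y : ℝ) ≤ T ^ η := by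
      rw [hy]; unfold zz
      exact Nat.floor_le (by positivity)
    calc (y : ℝ) ^ s ≤ (T ^ η) ^ s := Real.rpow_le_rpow (by positivity) h1 (by linarith)
      _ = T ^ κ' := by rw [← Real.rpow_mul hTpos.le, hη]; congr 1; field_simp
  have hzT : (z : ℝ) ≤ T ^ (1 / 2 - κ1) := by
    rw [hz]; unfold zz
    exact Nat.floor_le (by positivity)
  -- packing
  have hpk := pack_Pb (w := w) (T := T) (T1 := T1) (κ1 := κ1) (κ2 := κ2) (κ3 := κ3) (κ' := κ') (A := A)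
    (C := CB + CA) (y := y) (z := z) (S := S) hTpos hsv hD (by linarith)
    (fun u v h1 h2 => by
      intro S' hS' hx
      refine (hBB T u v hTCB h1 h2 S' hS' hx).trans ?_
      have : 0 ≤ T ^ r0 := Real.rpow_nonneg hTpos.le _
      nlinarith)
    (fun u v lw h1 h2 h3 => by
      intro S' hS' hx
      refine (hAA T u v lw hTCA h1 h2 h3 S' hS' hx).trans ?_
      have : 0 ≤ T ^ r0 := Real.rpow_nonneg hTpos.le _
      nlinarith)
  set I := (Bx 3 T ×ˢ Bx S T) ×ˢ (Finset.univ : Finset (Option (Option (Fin 3)))) with hI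
  have hun := pack_union I (Pb w T T1 κ2 κ3 (κ1 / 2) A y z S lp lm) (fun p _ => hpk p)
  refine pack_mono hun ?_ ?_
  · -- good points
    intro x hx1 hx2 hbad
    by_contra hcon
    have hgood : ∀ u ∈ Bx 3 T, ∀ v ∈ Bx S T, ∀ j, ¬ Pb w T T1 κ2 κ3 (κ1 / 2) A y z S lp lm ((u, v), j) x := by
      intro u hu v hv j hP
      exact hcon ⟨((u, v), j), by simp [hI, hu, hv], hP⟩
    have hx : 0 < x := lt_of_lt_of_le (by positivity) hx1
    have hgp := good_point hw hw0 hV1 (CR := CR) (κ1 := κ1) hT3 hT1' hκ3 hsv hx1 hLpos hzT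
      (fun u v T' hT' h => hRg T κ3 x T' y z (fun _ => lp) u v (by linarith) hT' hx1 hx2 (Or.inl h))
      (fun u v h1 h2 h3 h4 => by
        refine hSh T S u v hTCS h1 h2 ?_ ?_
        · refine le_trans ?_ h3
          have hCR0 : 0 < CR := by linarith
          rw [le_div_iff₀ hCR0]
          calc T ^ (2 - κ1 / 100) * CR ≤ T ^ (2 - κ1 / 100) * T ^ (κ1 / 100) := by gcongr
            _ = T ^ 2 := by
              rw [← Real.rpow_add hTpos, ← Real.rpow_natCast]; congr 1; push_cast; ring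
        · refine h4.trans ?_
          calc CR * T ^ 2 ≤ T ^ (1 / 100 : ℝ) * T ^ 2 := by gcongr
            _ = T ^ (2 + 1 / 100 : ℝ) := by
              rw [← Real.rpow_natCast, ← Real.rpow_add hTpos]; congr 1; push_cast; ring)
      hgood
    have hse := hSE T x lp lm hTCE hx1 hx2 (isSv_mono hsv hD)
    have hli1 := hLi T T x hTCL (by linarith) le_rfl hx1 hx2
    have hli2 := hLi T T1 x hTCL hT1' f3 hx1 hx2
    have hpn := hPN T x hTCP hx1 hx2
    -- number of boxes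
    have hbox := num_box (S := S) (A := A) hA f1
    exact absurd hbad (not_lt.2 (fin_ineq hx hx1 hx2 hT3 f1 hδ f2 hκ1δ hsE hli1 hli2 hgp hbox hse hpn))
  · -- number of points
    have hcard : (I.card : ℝ) ≤ 5 * T ^ (1 / 2000 : ℝ) := num_card f1 f4
    have hr : T ^ (1 / 2000 : ℝ) * T ^ r0 = T ^ r1 := by
      rw [← Real.rpow_add hTpos]; congr 1; unfold r0 r1; norm_num
    have hr1 : 0 ≤ T ^ r1 := Real.rpow_nonneg hTpos.le _
    have hr0 : 0 ≤ T ^ r0 := Real.rpow_nonneg hTpos.le _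
    calc (I.card : ℝ) * ((CB + CA) * T ^ r0) ≤ (5 * T ^ (1 / 2000 : ℝ)) * ((CB + CA) * T ^ r0) := by gcongr
      _ = 5 * (CB + CA) * (T ^ (1 / 2000 : ℝ) * T ^ r0) := by ring
      _ = 5 * (CB + CA) * T ^ r1 := by rw [hr]
      _ ≤ _ := by
        gcongr
        exact (le_max_right _ _).trans (le_max_right _ _)

end Pool.Agent.Work.MP_a8fbd7_nt.OX.ASM
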