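import Mathlib
import Pool.Agent.Work.MP_a8fbd7_nt.OX.ASM.Stmts

/-!
MP_a8fbd7_nt, block OX, part ASM, item PN: the prime number theorem in long windows.
Author: helper47.
-/

set_option autoImplicit false

open MeasureTheory Set Filter Topology

noncomputable section

namespace Pool.Agent.Work.MP_a8fbd7_nt.OX.ASM

open Pool.Agent.Work.MP_56b8f5_nt.UC (IsWt)
open Pool.Agent.Work.MP_a8fbd7_nt

namespace PN_aux

/-- logarithmic integral -/
def lint (t : ℝ) : ℝ := ∫ u in (2 : ℝ)..t, 1 / Real.log u

lemma sum_pr (n : ℕ) : ∑ k ∈ Finset.Icc 0 n, pr k = (Nat.primeCounting n : ℝ) := by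
  unfold pr Nat.primeCounting Nat.primeCounting'
  rw [Nat.count_eq_card_filter_range, Finset.card_filter]
  push_cast
  apply Finset.sum_congr _ (fun _ _ => rfl)
  ext k
  simp only [Finset.mem_Icc, Finset.mem_range]
  omega

lemma il_cont : ContinuousOn (fun u : ℝ => 1 / Real.log u) (Ioi 1) := by
  intro u hu
  have h1 : (1 : ℝ) < u := hu
  have h2 : Real.log u ≠ 0 := (Real.log_pos h1).ne'
  exact (continuousAt_const.div (Real.continuousAt_log (by linarith)) h2).continuousWithinAt

lemma lint_hd {t : ℝ} (ht : 2 ≤ t) : HasDerivAt lint (1 / Real.log t) t := by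
  have ho : IsOpen (Ioi (1 : ℝ)) := isOpen_Ioi
  have hsub : uIcc 2 t ⊆ Ioi (1 : ℝ) := by
    intro u hu
    rw [uIcc_of_le ht] at hu
    have := hu.1
    show (1 : ℝ) < u
    linarith
  have ht1 : t ∈ Ioi (1 : ℝ) := by
    show (1 : ℝ) < t
    linarith
  unfold lint
  apply intervalIntegral.integral_hasDerivAt_right
  · exact (il_cont.mono hsub).intervalIntegrable
  · exact il_cont.stronglyMeasurableAtFilter ho t ht1
  · exact (il_cont t ht1).continuousAt (ho.mem_nhds ht1)

/-- Abel summation -/
lemma abel {g g1 : ℝ → ℝ} {M D : ℝ} (hM : 2 ≤ M) (hg : ∀ t ∈ Icc 2 M, HasDerivAt g (g1 t) t)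
    (hc : ContinuousOn g1 (Icc 2 M)) (h2 : g 2 = 0) (hgM : g M = 0)
    (hE : ∀ t ∈ Icc 2 M, |g1 t * ((Nat.primeCounting ⌊t⌋₊ : ℝ) - lint t)| ≤ D * |g1 t|) :
    |∑ k ∈ Finset.Ioc 2 ⌊M⌋₊, g k * pr k - ∫ t in (2 : ℝ)..M, g t * (1 / Real.log t)| ≤
      D * ∫ t in (2 : ℝ)..M, |g1 t| := by
  have hd : ∀ t ∈ Icc 2 M, deriv g t = g1 t := fun t ht => (hg t ht).deriv
  have hi1 : IntegrableOn g1 (Icc 2 M) := hc.integrableOn_Icc
  have hi : IntegrableOn (deriv g) (Icc 2 M) := hi1.congr_fun (fun t ht => (hd t ht).symm) measurableSet_Icc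
  have h1 := sum_mul_eq_sub_sub_integral_mul pr (by norm_num : (0 : ℝ) ≤ 2) hM
    (fun t ht => (hg t ht).differentiableAt) hi
  rw [h2, hgM, zero_mul, zero_mul, sub_zero, zero_sub, show ⌊(2 : ℝ)⌋₊ = 2 by
    rw [show (2 : ℝ) = ((2 : ℕ) : ℝ) by norm_num, Nat.floor_natCast]] at h1
  have h3 : ∫ t in Ioc 2 M, deriv g t * ∑ k ∈ Finset.Icc 0 ⌊t⌋₊, pr k =
      ∫ t in (2 : ℝ)..M, g1 t * (Nat.primeCounting ⌊t⌋₊ : ℝ) := by
    rw [intervalIntegral.integral_of_le hM]
    apply setIntegral_congr_fun measurableSet_Ioc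
    intro t ht
    dsimp only
    rw [hd t (Ioc_subset_Icc_self ht), sum_pr]
  rw [h3] at h1
  -- integrability
  have hLc : ContinuousOn lint (Icc 2 M) := fun t ht => (lint_hd ht.1).continuousAt.continuousWithinAt
  have uI : uIcc 2 M = Icc 2 M := uIcc_of_le hM
  have j1 : IntervalIntegrable (fun t => g1 t * lint t) volume 2 M := by
    apply ContinuousOn.intervalIntegrable
    rw [uI]
    exact hc.mul hLc
  have hPm : Monotone (fun t : ℝ => (Nat.primeCounting ⌊t⌋₊ : ℝ)) := by
    intro a b hab
    dsimp only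
    exact_mod_cast Nat.monotone_primeCounting (Nat.floor_le_floor hab)
  have j2 : IntervalIntegrable (fun t => g1 t * (Nat.primeCounting ⌊t⌋₊ : ℝ)) volume 2 M := by
    have k1 : IntervalIntegrable (fun t : ℝ => (Nat.primeCounting ⌊t⌋₊ : ℝ)) volume 2 M := hPm.intervalIntegrable
    exact k1.continuousOn_mul (by rw [uI]; exact hc)
  have j3 : IntervalIntegrable (fun t => g1 t * ((Nat.primeCounting ⌊t⌋₊ : ℝ) - lint t)) volume 2 M := by
    refine (j2.sub j1).congr ?_
    intro t _
    dsimp only
    ring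
  have h4 : ∫ t in (2 : ℝ)..M, g1 t * (Nat.primeCounting ⌊t⌋₊ : ℝ) =
      (∫ t in (2 : ℝ)..M, g1 t * ((Nat.primeCounting ⌊t⌋₊ : ℝ) - lint t)) + ∫ t in (2 : ℝ)..M, g1 t * lint t := by
    rw [← intervalIntegral.integral_add j3 j1]
    apply intervalIntegral.integral_congr
    intro t _
    dsimp only
    ring
  have h5 : ∫ t in (2 : ℝ)..M, g t * (1 / Real.log t) = - ∫ t in (2 : ℝ)..M, g1 t * lint t := by
    have := intervalIntegral.integral_mul_deriv_eq_deriv_mul (a := 2) (b := M) (u := g) (v := lint) (u' := g1)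
      (v' := fun t => 1 / Real.log t)
      (fun t ht => hg t (by rwa [uI] at ht)) (fun t ht => lint_hd (by rw [uI] at ht; exact ht.1))
      (by
        apply ContinuousOn.intervalIntegrable
        rw [uI]
        exact hc)
      (by
        apply ContinuousOn.intervalIntegrable
        rw [uI]
        exact il_cont.mono (fun t ht => by
          show (1 : ℝ) < t
          linarith [ht.1]))
    rw [this, h2, hgM]
    ring
  have h6 : ∑ k ∈ Finset.Ioc 2 ⌊M⌋₊, g k * pr k - ∫ t in (2 : ℝ)..M, g t * (1 / Real.log t) =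
      - ∫ t in (2 : ℝ)..M, g1 t * ((Nat.primeCounting ⌊t⌋₊ : ℝ) - lint t) := by
    rw [h1, h4, h5]
    ring
  rw [h6, abs_neg, ← intervalIntegral.integral_const_mul]
  refine (intervalIntegral.abs_integral_le_integral_abs hM).trans ?_
  apply intervalIntegral.integral_mono_on hM j3.abs
  · apply ContinuousOn.intervalIntegrable
    rw [uI]
    exact (continuousOn_const.mul hc.abs)
  · exact hE

/-- elementary inequality -/
lemma el {θ L : ℝ} (h1 : |θ| ≤ 1 / 2) (hL : 1 ≤ L) : |Real.exp θ * (L / (L + θ)) - 1| ≤ 6 * |θ| := by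
  have h2 := abs_le.1 h1
  have h3 : 1 / 2 ≤ 1 + θ / L := by
    have : -(1 / 2) ≤ θ / L := by
      rw [le_div_iff₀ (by linarith)]
      nlinarith [h2.1]
    linarith
  have h4 : |Real.exp θ - 1| ≤ 2 * |θ| := by
    have := Real.abs_exp_sub_one_le (x := θ) (by linarith)
    exact this
  have h5 : |θ / L| ≤ |θ| := by
    rw [abs_div, abs_of_pos (by linarith : 0 < L)]
    exact div_le_self (abs_nonneg _) hL
  have hL0 : L ≠ 0 := by positivity
  have hLt : L + θ ≠ 0 := by linarith
  have h6 : Real.exp θ * (L / (L + θ)) - 1 = (Real.exp θ - 1 - θ / L) / (1 + θ / L) := by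
    have : 1 + θ / L ≠ 0 := by linarith
    have e : L / (L + θ) = 1 / (1 + θ / L) := by
      field_simp
    rw [e]
    field_simp
    ring
  rw [h6, abs_div, div_le_iff₀ (by rw [abs_of_pos (by linarith)]; linarith), abs_of_pos (by linarith : 0 < 1 + θ / L)]
  have h7 : |Real.exp θ - 1 - θ / L| ≤ 3 * |θ| := by
    refine (abs_sub _ _).trans ?_
    linarith
  nlinarith [abs_nonneg θ]

lemma deriv_supp {w : ℝ → ℝ} {a b : ℝ} (hs : ∀ x, w x ≠ 0 → a ≤ x ∧ x ≤ b) {v : ℝ} (hv : deriv w v ≠ 0) :
    a ≤ v ∧ v ≤ b := by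
  by_contra h
  apply hv
  have ho : IsOpen (Icc a b)ᶜ := isClosed_Icc.isOpen_compl
  have hm : v ∈ (Icc a b)ᶜ := h
  have he : w =ᶠ[𝓝 v] fun _ => (0 : ℝ) := by
    filter_upwards [ho.mem_nhds hm] with y hy
    by_contra h'
    exact hy (hs y h')
  rw [he.deriv_eq]
  simp

lemma pow_hd {x T1 t : ℝ} (hx : 0 < x) (ht : 0 < t) :
    HasDerivAt (fun t : ℝ => (t / x) ^ T1) (T1 * (t / x) ^ (T1 - 1) * (1 / x)) t := by
  have h1 : HasDerivAt (fun t : ℝ => t / x) (1 / x) t := (hasDerivAt_id t).div_const x
  have h2 := h1.rpow_const (p := T1) (Or.inl (div_pos ht hx).ne')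
  refine h2.congr_deriv ?_
  ring

end PN_aux

open PN_aux in
/-- item PN -/
theorem iPN (hP : ZF.StPnt) : StPN := by
  intro w hw hw0 B δ hB hδ
  obtain ⟨a, b, ha, hab, hs⟩ := hw.supp
  have hb : 0 < b := by linarith
  obtain ⟨C0, hC0, hP⟩ := hP (B + 2) (by linarith)
  have hwc : Continuous w := hw.smooth.continuous
  have hw1c : Continuous (deriv w) := hw.smooth.continuous_deriv (by simp)
  have hcs : HasCompactSupport w := by
    apply HasCompactSupport.intro (isCompact_Icc (a := a) (b := b))
    intro x hx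
    by_contra h
    exact hx (hs x h)
  obtain ⟨K, hK⟩ := hcs.deriv.exists_bound_of_continuous hw1c
  have hK' : ∀ v, |deriv w v| ≤ K := hK
  have hK0 : 0 ≤ K := (abs_nonneg _).trans (hK' 0)
  set m : ℝ := max |Real.log a| |Real.log b| with hm
  have hm0 : 0 ≤ m := (abs_nonneg _).trans (le_max_left _ _)
  have hI0 : 0 ≤ Iw w := by
    unfold Iw
    apply setIntegral_nonneg measurableSet_Ioi
    intro u hu
    exact div_nonneg (hw0 u) (le_of_lt hu)
  set D0 : ℝ := C0 * (b + 1) * 2 ^ (B + 2) * (K * (b + 1)) with hD0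
  have hD00 : 0 ≤ D0 := by positivity
  set Λ : ℝ := 2 + 2 * m + 12 * m * Iw w / δ + 2 * D0 / δ with hΛ
  have hΛ2 : 2 ≤ Λ := by
    have h1 : 0 ≤ 12 * m * Iw w / δ := by positivity
    have h2 : 0 ≤ 2 * D0 / δ := by positivity
    linarith
  have hΛm : 2 * m ≤ Λ := by
    have h1 : 0 ≤ 12 * m * Iw w / δ := by positivity
    have h2 : 0 ≤ 2 * D0 / δ := by positivity
    linarith
  have hΛI : 12 * m * Iw w ≤ δ * Λ := by
    have h1 : 12 * m * Iw w / δ ≤ Λ := by
      have h2 : 0 ≤ 2 * D0 / δ := by positivity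
      linarith
    rw [div_le_iff₀ hδ] at h1
    linarith
  have hΛD : 2 * D0 ≤ δ * Λ := by
    have h1 : 2 * D0 / δ ≤ Λ := by
      have h2 : 0 ≤ 12 * m * Iw w / δ := by positivity
      linarith
    rw [div_le_iff₀ hδ] at h1
    linarith
  refine ⟨Real.exp Λ, Real.one_le_exp (by linarith), ?_⟩
  intro T x hT hTx hxT
  have hT0 : 0 < T := lt_of_lt_of_le (Real.exp_pos _) hT
  have hlT : Λ ≤ Real.log T := by
    rw [Real.le_log_iff_exp_le hT0]
    exact hT
  have hT1' : 4 ≤ T := by
    have h1 : Real.exp 2 ≤ T := (Real.exp_le_exp.2 hΛ2).trans hT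
    have h2 : (4 : ℝ) ≤ Real.exp 2 := by
      have h3 : Real.exp 2 = Real.exp 1 * Real.exp 1 := by rw [← Real.exp_add]; norm_num
      have h4 := Real.exp_one_gt_d9
      rw [h3]
      nlinarith
    linarith
  have hx16 : 16 ≤ x := by nlinarith
  have hx0 : 0 < x := by linarith
  set L := Real.log x with hL
  have hTL : Real.log T ≤ L := Real.log_le_log hT0 (by nlinarith)
  have hL2 : 2 ≤ L := by linarith
  have hL0 : 0 < L := by linarith
  set T1 := Real.log T ^ B with hT1
  have hlT1 : 1 ≤ Real.log T := by linarith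
  have hT1a : Real.log T ≤ T1 := by
    calc Real.log T = Real.log T ^ (1 : ℝ) := (Real.rpow_one _).symm
      _ ≤ T1 := Real.rpow_le_rpow_of_exponent_le hlT1 hB
  have hT1Λ : Λ ≤ T1 := hlT.trans hT1a
  have hT10 : 0 < T1 := by linarith
  have hT1L : T1 ≤ L ^ B := Real.rpow_le_rpow (by linarith) hTL (by linarith)
  have hmT : m / T1 ≤ 1 / 2 := by
    rw [div_le_iff₀ hT10]
    linarith
  -- the function `v`
  set v : ℝ → ℝ := fun t => (t / x) ^ T1 with hv
  set v1 : ℝ → ℝ := fun t => T1 * (t / x) ^ (T1 - 1) * (1 / x) with hv1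
  have hvd : ∀ t, 0 < t → HasDerivAt v (v1 t) t := fun t ht => pow_hd hx0 ht
  have hv10 : ∀ t, 0 < t → 0 ≤ v1 t := by
    intro t ht
    have : 0 ≤ (t / x) ^ (T1 - 1) := Real.rpow_nonneg (div_pos ht hx0).le _
    rw [hv1]
    positivity
  have hvpos : ∀ t, 0 < t → 0 < v t := fun t ht => Real.rpow_pos_of_pos (div_pos ht hx0) _
  have hθ : ∀ t, 0 < t → a ≤ v t → v t ≤ b → |Real.log (t / x)| ≤ m / T1 := by
    intro t ht h1 h2
    have e : Real.log (v t) = T1 * Real.log (t / x) := Real.log_rpow (div_pos ht hx0) _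
    have h3 : Real.log a ≤ T1 * Real.log (t / x) := by
      rw [← e]
      exact Real.log_le_log ha h1
    have h4 : T1 * Real.log (t / x) ≤ Real.log b := by
      rw [← e]
      exact Real.log_le_log (hvpos t ht) h2
    have h5 : |T1 * Real.log (t / x)| ≤ m := by
      rw [abs_le]
      constructor
      · have := (abs_le.1 (le_max_left |Real.log a| |Real.log b|)).1
        rw [← hm] at this
        linarith
      · have := (abs_le.1 (le_max_right |Real.log a| |Real.log b|)).2
        rw [← hm] at this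
        linarith
    rw [abs_mul, abs_of_pos hT10] at h5
    rw [le_div_iff₀ hT10]
    linarith
  -- `v 2 < a`
  have hv2 : v 2 < a := by
    by_contra h
    have h1 : a ≤ v 2 := not_lt.1 h
    have e : Real.log (v 2) = T1 * Real.log (2 / x) := Real.log_rpow (by positivity) _
    have h3 : Real.log a ≤ T1 * Real.log (2 / x) := by
      rw [← e]
      exact Real.log_le_log ha h1
    have h4 : -m ≤ Real.log a := by
      have := (abs_le.1 (le_max_left |Real.log a| |Real.log b|)).1
      rwa [← hm] at this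
    have h5 : Real.log (2 / x) ≤ -1 := by
      have h6 : Real.log (2 / x) ≤ Real.log (1 / 8) := by
        apply Real.log_le_log (by positivity)
        rw [div_le_div_iff₀ hx0 (by norm_num)]
        linarith
      have h7 : Real.log (1 / 8) ≤ -1 := by
        rw [Real.log_le_iff_le_exp (by norm_num), Real.exp_neg]
        have := Real.exp_one_lt_d9
        rw [one_div]
        apply inv_anti₀ (Real.exp_pos _)
        linarith
      linarith
    nlinarith
  set M := x * (b + 1) ^ (1 / T1) with hM
  have hb1 : 1 ≤ (b + 1) ^ (1 / T1) := Real.one_le_rpow (by linarith) (by positivity)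
  have hb2 : (b + 1) ^ (1 / T1) ≤ b + 1 := by
    calc (b + 1) ^ (1 / T1) ≤ (b + 1) ^ (1 : ℝ) := by
          apply Real.rpow_le_rpow_of_exponent_le (by linarith)
          rw [div_le_one hT10]
          linarith
      _ = b + 1 := Real.rpow_one _
  have hMx : x ≤ M := by
    rw [hM]
    nlinarith
  have hM2 : 2 ≤ M := by linarith
  have hM0 : 0 < M := by linarith
  have hMle : M ≤ x * (b + 1) := mul_le_mul_of_nonneg_left hb2 hx0.le
  have hvM : v M = b + 1 := by
    rw [hv]
    dsimp only
    rw [hM, mul_div_cancel_left₀ _ hx0.ne', ← Real.rpow_mul (by linarith), one_div, inv_mul_cancel₀ hT10.ne',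
      Real.rpow_one]
  set g : ℝ → ℝ := fun t => w (v t) with hg
  set g1 : ℝ → ℝ := fun t => deriv w (v t) * v1 t with hg1
  have hgd : ∀ t, 0 < t → HasDerivAt g (g1 t) t := by
    intro t ht
    have h1 : HasDerivAt w (deriv w (v t)) (v t) :=
      ((hw.smooth.differentiable (by simp)) (v t)).hasDerivAt
    exact h1.comp t (hvd t ht)
  have hpos : ∀ t ∈ Icc 2 M, (0 : ℝ) < t := fun t ht => by linarith [ht.1]
  have hvc : ContinuousOn v (Icc 2 M) := fun t ht => (hvd t (hpos t ht)).continuousAt.continuousWithinAt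
  have hv1c : ContinuousOn v1 (Icc 2 M) := by
    intro t ht
    have h1 : 0 < t / x := div_pos (hpos t ht) hx0
    have h2 : ContinuousAt (fun t : ℝ => (t / x) ^ (T1 - 1)) t :=
      ContinuousAt.rpow_const (by fun_prop) (Or.inl h1.ne')
    exact ((continuousAt_const.mul h2).mul continuousAt_const).continuousWithinAt
  have hg1c : ContinuousOn g1 (Icc 2 M) := (hw1c.comp_continuousOn hvc).mul hv1c
  have hgc : ContinuousOn g (Icc 2 M) := hwc.comp_continuousOn hvc
  have hg2 : g 2 = 0 := by
    by_contra h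
    have := (hs (v 2) h).1
    linarith
  have hgM : g M = 0 := by
    by_contra h
    have := (hs (v M) h).2
    rw [hvM] at this
    linarith
  have hvmono : ∀ t, M ≤ t → b + 1 ≤ v t := by
    intro t ht
    rw [← hvM]
    exact Real.rpow_le_rpow (by positivity) (div_le_div_of_nonneg_right ht hx0.le) hT10.le
  -- the error term
  set D := C0 * (x * (b + 1)) * (2 ^ (B + 2) / L ^ (B + 2)) with hD
  have hE : ∀ t ∈ Icc 2 M, |g1 t * ((Nat.primeCounting ⌊t⌋₊ : ℝ) - lint t)| ≤ D * |g1 t| := by
    intro t ht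
    have ht0 := hpos t ht
    by_cases h : g1 t = 0
    · rw [h, zero_mul, abs_zero, mul_zero]
    · have h1 : deriv w (v t) ≠ 0 := by
        intro h'
        apply h
        rw [hg1]
        dsimp only
        rw [h', zero_mul]
      obtain ⟨h2, h3⟩ := deriv_supp hs h1
      have h4 := hθ t ht0 h2 h3
      have h5 : Real.log t = L + Real.log (t / x) := by
        rw [Real.log_div ht0.ne' hx0.ne']
        ring
      have h6 : L / 2 ≤ Real.log t := by
        have := (abs_le.1 (h4.trans hmT)).1
        linarith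
      have h7 := hP t ht.1
      have h8 : C0 * t / Real.log t ^ (B + 2) ≤ D := by
        have k1 : (L / 2) ^ (B + 2) ≤ Real.log t ^ (B + 2) := Real.rpow_le_rpow (by linarith) h6 (by linarith)
        have k2 : (L / 2) ^ (B + 2) = L ^ (B + 2) / 2 ^ (B + 2) := Real.div_rpow hL0.le (by norm_num) _
        have k3 : 0 < (L / 2) ^ (B + 2) := Real.rpow_pos_of_pos (by linarith) _
        calc C0 * t / Real.log t ^ (B + 2) ≤ C0 * (x * (b + 1)) / (L / 2) ^ (B + 2) := by
              apply div_le_div₀ (by positivity) _ k3 k1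
              exact mul_le_mul_of_nonneg_left (ht.2.trans hMle) (by linarith)
          _ = D := by
              rw [k2, hD]
              field_simp
      rw [abs_mul, mul_comm]
      exact mul_le_mul_of_nonneg_right (h7.trans h8) (abs_nonneg _)
  have hab1 := abel hM2 (fun t ht => hgd t (hpos t ht)) hg1c hg2 hgM hE
  -- total variation
  have uI : uIcc 2 M = Icc 2 M := uIcc_of_le hM2
  have hV : ∫ t in (2 : ℝ)..M, |g1 t| ≤ K * (b + 1) := by
    have e1 : ∫ t in (2 : ℝ)..M, |g1 t| = ∫ t in (2 : ℝ)..M, ((fun u => |deriv w u|) ∘ v) t * v1 t := by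
      apply intervalIntegral.integral_congr
      intro t ht
      rw [uI] at ht
      dsimp only [Function.comp]
      rw [hg1]
      dsimp only
      rw [abs_mul, abs_of_nonneg (hv10 t (hpos t ht))]
    have e2 : ∫ t in (2 : ℝ)..M, ((fun u => |deriv w u|) ∘ v) t * v1 t = ∫ u in (v 2)..(v M), |deriv w u| := by
      apply intervalIntegral.integral_comp_mul_deriv
      · intro t ht
        rw [uI] at ht
        exact hvd t (hpos t ht)
      · rw [uI]
        exact hv1c
      · exact hw1c.abs
    have h2 : v 2 ≤ v M := by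
      rw [hvM]
      linarith
    rw [e1, e2]
    calc ∫ u in (v 2)..(v M), |deriv w u| ≤ ∫ _u in (v 2)..(v M), K :=
          intervalIntegral.integral_mono_on h2 (hw1c.abs.intervalIntegrable _ _) (by simp) (fun u _ => hK' u)
      _ = (v M - v 2) * K := by rw [intervalIntegral.integral_const, smul_eq_mul]
      _ ≤ K * (b + 1) := by
          rw [hvM]
          have := (hvpos 2 (by norm_num)).le
          nlinarith
  -- main term
  have hI : Iw w = ∫ t in (2 : ℝ)..M, g t * (T1 / t) := by
    have e1 : ∫ t in (2 : ℝ)..M, g t * (T1 / t) = ∫ t in (2 : ℝ)..M, ((fun u => w u / u) ∘ v) t * v1 t := by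
      apply intervalIntegral.integral_congr
      intro t ht
      rw [uI] at ht
      have ht0 := hpos t ht
      have h1 : 0 < t / x := div_pos ht0 hx0
      have h2 := (hvpos t ht0).ne'
      have h3 : v1 t = v t * (T1 / t) := by
        rw [hv1, hv]
        dsimp only
        rw [Real.rpow_sub_one h1.ne']
        field_simp
      dsimp only [Function.comp]
      rw [h3, hg]
      dsimp only
      field_simp
    have e2 : ∫ t in (2 : ℝ)..M, ((fun u => w u / u) ∘ v) t * v1 t = ∫ u in (v 2)..(v M), w u / u := by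
      apply intervalIntegral.integral_comp_mul_deriv''
      · rw [uI]
        exact hvc
      · intro t ht
        rw [min_eq_left hM2, max_eq_right hM2] at ht
        exact (hvd t (by linarith [ht.1])).hasDerivWithinAt
      · rw [uI]
        exact hv1c
      · rw [uI]
        intro u hu
        obtain ⟨t, ht, rfl⟩ := hu
        have h1 := (hvpos t (hpos t ht)).ne'
        exact (hwc.continuousAt.div continuousAt_id h1).continuousWithinAt
    rw [e1, e2, hvM, intervalIntegral.integral_of_le (by linarith)]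
    unfold Iw
    apply setIntegral_eq_of_subset_of_forall_sdiff_eq_zero measurableSet_Ioi
    · intro u hu
      have := hvpos 2 (by norm_num)
      show 0 < u
      linarith [hu.1]
    · intro u hu
      have h1 : w u = 0 := by
        by_contra h
        obtain ⟨h2, h3⟩ := hs u h
        apply hu.2
        constructor <;> linarith
      rw [h1, zero_div]
  have hcI : IntervalIntegrable (fun t => g t * (T1 / t)) volume 2 M := by
    apply ContinuousOn.intervalIntegrable
    rw [uI]
    exact hgc.mul (continuousOn_const.div continuousOn_id (fun t ht => (hpos t ht).ne'))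
  have hcJ : IntervalIntegrable (fun t => g t * (1 / Real.log t)) volume 2 M := by
    apply ContinuousOn.intervalIntegrable
    rw [uI]
    exact hgc.mul (il_cont.mono (fun t ht => by
      show (1 : ℝ) < t
      linarith [ht.1]))
  have hmain : |L * (T1 / x) * (∫ t in (2 : ℝ)..M, g t * (1 / Real.log t)) - Iw w| ≤ 6 * (m / T1) * Iw w := by
    rw [hI, ← intervalIntegral.integral_const_mul, ← intervalIntegral.integral_const_mul,
      ← intervalIntegral.integral_sub (hcJ.const_mul _) hcI]
    refine (intervalIntegral.abs_integral_le_integral_abs hM2).trans ?_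
    apply intervalIntegral.integral_mono_on hM2 ((hcJ.const_mul _).sub hcI).abs (hcI.const_mul _)
    intro t ht
    have ht0 := hpos t ht
    by_cases h : g t = 0
    · rw [h]
      simp
    · obtain ⟨h2, h3⟩ := hs (v t) h
      have h4 := hθ t ht0 h2 h3
      have h5 : Real.log t = L + Real.log (t / x) := by
        rw [Real.log_div ht0.ne' hx0.ne']
        ring
      have h6 := el (h4.trans hmT) (by linarith : 1 ≤ L)
      rw [Real.exp_log (div_pos ht0 hx0), ← h5] at h6
      have h7 : Real.log t ≠ 0 := by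
        have := (abs_le.1 (h4.trans hmT)).1
        have : 0 < Real.log t := by linarith
        exact this.ne'
      have e : L * (T1 / x) * (g t * (1 / Real.log t)) - g t * (T1 / t) =
          (g t * (T1 / t)) * (t / x * (L / Real.log t) - 1) := by
        field_simp
      have hg0 : 0 ≤ g t * (T1 / t) := mul_nonneg (hw0 _) (by positivity)
      show |L * (T1 / x) * (g t * (1 / Real.log t)) - g t * (T1 / t)| ≤ 6 * (m / T1) * (g t * (T1 / t))
      rw [e, abs_mul, abs_of_nonneg hg0, mul_comm]
      apply mul_le_mul_of_nonneg_right _ hg0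
      linarith
  -- the sum
  have hSW : SW w pr x T1 = ∑ k ∈ Finset.Ioc 2 ⌊M⌋₊, g k * pr k := by
    unfold SW
    rw [tsum_eq_sum (s := Finset.Ioc 2 ⌊M⌋₊)]
    · apply Finset.sum_congr rfl
      intro k _
      rw [hg, hv]
      ring
    · intro n hn
      by_contra h
      apply hn
      have h1 : pr n ≠ 0 := left_ne_zero_of_mul h
      have h2 : w (((n : ℝ) / x) ^ T1) ≠ 0 := right_ne_zero_of_mul h
      have hp : n.Prime := by
        by_contra h'
        apply h1
        unfold pr
        rw [if_neg h']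
      rw [Finset.mem_Ioc]
      constructor
      · rcases lt_or_eq_of_le hp.two_le with h3 | h3
        · exact h3
        · exfalso
          rw [← h3] at h2
          exact h2 hg2
      · apply Nat.le_floor
        by_contra h3
        have h4 := hvmono n (le_of_lt (not_le.1 h3))
        have h5 := (hs _ h2).2
        have h6 : v n ≤ b := h5
        linarith
  rw [hSW]
  set Sg := ∑ k ∈ Finset.Ioc 2 ⌊M⌋₊, g k * pr k with hSg
  set J := ∫ t in (2 : ℝ)..M, g t * (1 / Real.log t) with hJ
  have hD1 : 0 ≤ D := by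
    have : 0 < L ^ (B + 2) := Real.rpow_pos_of_pos hL0 _
    positivity
  have f1 : |Sg - J| ≤ D * (K * (b + 1)) := hab1.trans (mul_le_mul_of_nonneg_left hV hD1)
  have f2 : L * (T1 / x) * (D * (K * (b + 1))) ≤ δ / 2 := by
    have hLp : 0 < L ^ B := Real.rpow_pos_of_pos hL0 _
    have e1 : L ^ (B + 2) = L ^ B * L ^ 2 := by
      rw [Real.rpow_add hL0]
      norm_num
    have e2 : L * (T1 / x) * (D * (K * (b + 1))) = D0 * (T1 / (L ^ B * L)) := by
      rw [hD, hD0, e1]
      field_simp
    rw [e2]
    have h1 : T1 / (L ^ B * L) ≤ 1 / L := by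
      rw [div_le_div_iff₀ (by positivity) hL0, one_mul]
      exact mul_le_mul_of_nonneg_right hT1L hL0.le
    calc D0 * (T1 / (L ^ B * L)) ≤ D0 * (1 / L) := mul_le_mul_of_nonneg_left h1 hD00
      _ ≤ δ / 2 := by
          rw [mul_one_div, div_le_iff₀ hL0]
          nlinarith
  have f3 : 6 * (m / T1) * Iw w ≤ δ / 2 := by
    rw [show 6 * (m / T1) * Iw w = (6 * m * Iw w) / T1 by ring, div_le_iff₀ hT10]
    nlinarith
  have e : L * (T1 / x * Sg) - Iw w = L * (T1 / x) * (Sg - J) + (L * (T1 / x) * J - Iw w) := by ring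
  rw [e]
  have hc0 : 0 ≤ L * (T1 / x) := by positivity
  calc |L * (T1 / x) * (Sg - J) + (L * (T1 / x) * J - Iw w)| ≤
        |L * (T1 / x) * (Sg - J)| + |L * (T1 / x) * J - Iw w| := abs_add_le _ _
    _ ≤ L * (T1 / x) * (D * (K * (b + 1))) + 6 * (m / T1) * Iw w := by
        apply add_le_add _ hmain
        rw [abs_mul, abs_of_nonneg hc0]
        exact mul_le_mul_of_nonneg_left f1 hc0
    _ ≤ δ := by linarith

end Pool.Agent.Work.MP_a8fbd7_nt.OX.ASM
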