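import Pool.Agent.Work.MP_a8fbd7_nt.OX.ASM.Stmts

/-! Item Pd: products of arithmetic functions and Dirichlet polynomials. -/

set_option autoImplicit false

open MeasureTheory Set Filter Topology

noncomputable section

namespace Pool.Agent.Work.MP_a8fbd7_nt.OX.ASM

open Pool.Agent.Work.MP_56b8f5_nt.UC (IsWt Bl Dp Om psi eta Sep)

namespace Pd_aux

/-- sum of a Dirichlet convolution of finitely supported functions -/
lemma conv_sum {R : Type} [CommSemiring R] (F G : ℕ → R) (Y1 Y2 Z : ℕ)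
    (hF : ∀ n, F n ≠ 0 → n ≤ Y1) (hG : ∀ n, G n ≠ 0 → n ≤ Y2) (hZ : Y1 * Y2 ≤ Z) :
    ∑ n ∈ Finset.Icc 1 Z, ∑ p ∈ n.divisorsAntidiagonal, F p.1 * G p.2 =
      (∑ n ∈ Finset.Icc 1 Y1, F n) * ∑ n ∈ Finset.Icc 1 Y2, G n := by
  classical
  rw [Finset.sum_mul_sum, ← Finset.sum_product']
  rw [← Finset.sum_fiberwise_of_maps_to (s := Finset.Icc 1 Y1 ×ˢ Finset.Icc 1 Y2)
    (t := Finset.Icc 1 Z) (g := fun p => p.1 * p.2)]
  · apply Finset.sum_congr rfl
    intro n hn
    rw [Finset.mem_Icc] at hn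
    symm
    apply Finset.sum_subset
    · intro p hp
      rw [Finset.mem_filter] at hp
      rw [Nat.mem_divisorsAntidiagonal]
      exact ⟨hp.2, by omega⟩
    · intro p hp hnp
      rw [Nat.mem_divisorsAntidiagonal] at hp
      by_contra hne
      apply hnp
      have h1 : F p.1 ≠ 0 := fun h => hne (by rw [h, zero_mul])
      have h2 : G p.2 ≠ 0 := fun h => hne (by rw [h, mul_zero])
      have h3 : p.1 * p.2 ≠ 0 := by rw [hp.1]; exact hp.2
      rw [Finset.mem_filter, Finset.mem_product, Finset.mem_Icc, Finset.mem_Icc]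
      have h4 : p.1 ≠ 0 := fun h => h3 (by rw [h, zero_mul])
      have h5 : p.2 ≠ 0 := fun h => h3 (by rw [h, mul_zero])
      exact ⟨⟨⟨by omega, hF _ h1⟩, ⟨by omega, hG _ h2⟩⟩, hp.1⟩
  · intro p hp
    rw [Finset.mem_product, Finset.mem_Icc, Finset.mem_Icc] at hp
    rw [Finset.mem_Icc]
    refine ⟨Nat.mul_pos hp.1.1 hp.2.1, le_trans (Nat.mul_le_mul hp.1.2 hp.2.2) hZ⟩

lemma mul_ne {F G : ArithmeticFunction ℝ} {n : ℕ} (h : (F * G) n ≠ 0) :
    ∃ d e : ℕ, d * e = n ∧ n ≠ 0 ∧ F d ≠ 0 ∧ G e ≠ 0 := by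
  rw [ArithmeticFunction.mul_apply] at h
  obtain ⟨p, hp, hne⟩ := Finset.exists_ne_zero_of_sum_ne_zero h
  rw [Nat.mem_divisorsAntidiagonal] at hp
  exact ⟨p.1, p.2, hp.1, hp.2, fun h => hne (by rw [h, zero_mul]), fun h => hne (by rw [h, mul_zero])⟩

lemma sum_abs {F G : ArithmeticFunction ℝ} {Y1 Y2 : ℕ}
    (hF : ∀ n, F n ≠ 0 → n ≤ Y1) (hG : ∀ n, G n ≠ 0 → n ≤ Y2) (Z : ℕ) :
    ∑ n ∈ Finset.Icc 1 Z, |(F * G) n| ≤ (∑ n ∈ Finset.Icc 1 Y1, |F n|) * ∑ n ∈ Finset.Icc 1 Y2, |G n| := by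
  have hc := conv_sum (fun n => |F n|) (fun n => |G n|) Y1 Y2 (max Z (Y1 * Y2))
    (fun n hn => hF n (fun h => hn (by simp only [h, abs_zero])))
    (fun n hn => hG n (fun h => hn (by simp only [h, abs_zero]))) (le_max_right _ _)
  rw [← hc]
  calc ∑ n ∈ Finset.Icc 1 Z, |(F * G) n|
      ≤ ∑ n ∈ Finset.Icc 1 (max Z (Y1 * Y2)), |(F * G) n| :=
        Finset.sum_le_sum_of_subset_of_nonneg
          (Finset.Icc_subset_Icc le_rfl (le_max_left _ _)) (fun _ _ _ => abs_nonneg _)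
    _ ≤ _ := by
        apply Finset.sum_le_sum
        intro n _
        rw [ArithmeticFunction.mul_apply]
        refine (Finset.abs_sum_le_sum_abs _ _).trans (le_of_eq ?_)
        exact Finset.sum_congr rfl (fun p _ => abs_mul _ _)

lemma dp_mul {F G : ArithmeticFunction ℝ} {Y1 Y2 Z : ℕ}
    (hF : ∀ n, F n ≠ 0 → n ≤ Y1) (hG : ∀ n, G n ≠ 0 → n ≤ Y2) (hZ : Y1 * Y2 ≤ Z) (t : ℝ) :
    Dp Z (fun n => (((F * G) n : ℝ) : ℂ)) t =
      Dp Y1 (fun n => ((F n : ℝ) : ℂ)) t * Dp Y2 (fun n => ((G n : ℝ) : ℂ)) t := by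
  have hc := conv_sum (fun n : ℕ => ((F n : ℝ) : ℂ) * (n : ℂ) ^ (-(t * Complex.I)))
    (fun n : ℕ => ((G n : ℝ) : ℂ) * (n : ℂ) ^ (-(t * Complex.I))) Y1 Y2 Z
    (fun n hn => hF n (fun h => hn (by simp only [h, Complex.ofReal_zero, zero_mul])))
    (fun n hn => hG n (fun h => hn (by simp only [h, Complex.ofReal_zero, zero_mul]))) hZ
  unfold Dp
  rw [← hc]
  apply Finset.sum_congr rfl
  intro n _
  beta_reduce
  rw [ArithmeticFunction.mul_apply, Complex.ofReal_sum, Finset.sum_mul]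
  apply Finset.sum_congr rfl
  intro p hp
  rw [Nat.mem_divisorsAntidiagonal] at hp
  rw [← hp.1, Nat.cast_mul, Complex.natCast_mul_natCast_cpow, Complex.ofReal_mul]
  ring

end Pd_aux

open Pd_aux in
theorem iPd : StPd := by
  intro ι I f a Y ha hf
  induction I using Finset.cons_induction with
  | empty =>
    refine ⟨?_, ?_, ?_⟩
    · intro n hn
      rw [Finset.prod_empty, ArithmeticFunction.one_apply] at hn
      have h1 : n = 1 := by
        by_contra h
        exact hn (if_neg h)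
      subst h1
      simp
    · intro Z
      rw [Finset.prod_empty, Finset.prod_empty]
      calc ∑ n ∈ Finset.Icc 1 Z, |(1 : ArithmeticFunction ℝ) n|
          = ∑ n ∈ Finset.Icc 1 Z, if n = 1 then (1 : ℝ) else 0 := by
            apply Finset.sum_congr rfl
            intro n _
            rw [ArithmeticFunction.one_apply]
            split_ifs <;> simp
        _ ≤ 1 := by
            rw [Finset.sum_ite_eq']
            split_ifs <;> norm_num
    · intro Z t hZ
      rw [Finset.prod_empty] at hZ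
      rw [Finset.prod_empty, Finset.prod_empty]
      unfold Dp
      rw [Finset.sum_eq_single 1]
      · simp
      · intro n _ hn
        beta_reduce
        rw [ArithmeticFunction.one_apply, if_neg hn]
        simp
      · intro h
        exact absurd (Finset.mem_Icc.mpr ⟨le_rfl, hZ⟩) h
  | cons i I hi ih =>
    have ha' : ∀ j ∈ I, 0 ≤ a j := fun j hj => ha j (Finset.mem_cons_of_mem hj)
    obtain ⟨ih1, ih2, ih3⟩ := ih ha' (fun j hj => hf j (Finset.mem_cons_of_mem hj))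
    have hi1 := ha i (Finset.mem_cons_self i I)
    have hi2 := hf i (Finset.mem_cons_self i I)
    have hP : 0 ≤ ∏ j ∈ I, a j := Finset.prod_nonneg ha'
    have hG : ∀ n, (∏ j ∈ I, f j) n ≠ 0 → n ≤ ∏ j ∈ I, Y j := fun n hn => (ih1 n hn).2.2
    have hF : ∀ n, f i n ≠ 0 → n ≤ Y i := fun n hn => (hi2 n hn).2
    refine ⟨?_, ?_, ?_⟩
    · intro n hn
      rw [Finset.prod_cons] at hn
      obtain ⟨d, e, hde, hn0, hd, he⟩ := mul_ne hn
      obtain ⟨h1, h2, h3⟩ := ih1 e he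
      obtain ⟨h4, h5⟩ := hi2 d hd
      refine ⟨Nat.one_le_iff_ne_zero.mpr hn0, ?_, ?_⟩
      · rw [Finset.prod_cons, ← hde, Nat.cast_mul]
        exact mul_le_mul h4 h2 hP (Nat.cast_nonneg _)
      · rw [Finset.prod_cons, ← hde]
        exact Nat.mul_le_mul h5 h3
    · intro Z
      rw [Finset.prod_cons, Finset.prod_cons]
      refine (sum_abs hF hG Z).trans ?_
      exact mul_le_mul_of_nonneg_left (ih2 _) (Finset.sum_nonneg (fun _ _ => abs_nonneg _))
    · intro Z t hZ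
      rw [Finset.prod_cons] at hZ
      rw [Finset.prod_cons, Finset.prod_cons, dp_mul hF hG hZ t, ih3 _ t le_rfl]

end Pool.Agent.Work.MP_a8fbd7_nt.OX.ASM
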