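import Mathlib
import Pool.Agent.Work.MP_a8fbd7_nt.OX.ASM.Stmts
import Pool.Agent.Work.MP_56b8f5_nt.UC.I_Ow

/-!
MP_a8fbd7_nt, block OX, part ASM, item Re: reflection of one factor.
-/

set_option autoImplicit false

open MeasureTheory Set Filter Topology

noncomputable section

namespace Pool.Agent.Work.MP_a8fbd7_nt.OX.ASM

open Pool.Agent.Work.MP_56b8f5_nt
open Pool.Agent.Work.MP_56b8f5_nt.UC (IsWt Bl Dp Om psi eta Sep)

namespace Re_aux

lemma wt_psi : IsWt psi := by
  refine ⟨UC.psi_smooth, 1 / 2, 2, by norm_num, by norm_num, ?_⟩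
  intro x hx
  exact UC.psi_supp hx

/-- the kernel `(1+|y|)^{-40}` -/
def kr (y : ℝ) : ℝ := 1 / (1 + |y|) ^ 40

lemma kr_nonneg (y : ℝ) : 0 ≤ kr y := by unfold kr; positivity

lemma kr_cont : Continuous kr := by
  unfold kr
  refine continuous_const.div (by fun_prop) ?_
  intro y
  positivity

lemma kr_int : Integrable kr := by
  refine Integrable.mono' integrable_inv_one_add_sq kr_cont.aestronglyMeasurable ?_
  refine Eventually.of_forall fun y => ?_
  rw [Real.norm_of_nonneg (kr_nonneg y)]
  unfold kr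
  rw [one_div]
  have h0 : (0 : ℝ) ≤ |y| := abs_nonneg y
  apply inv_anti₀ (by positivity)
  calc 1 + y ^ 2 = 1 + |y| ^ 2 := by rw [sq_abs]
    _ ≤ (1 + |y|) ^ 2 := by nlinarith
    _ ≤ (1 + |y|) ^ 40 := pow_le_pow_right₀ (by linarith) (by norm_num)

/-- mass of the kernel -/
def Kk : ℝ := ∫ y, kr y

lemma Kk_nonneg : 0 ≤ Kk := integral_nonneg kr_nonneg

/-- exchange of the integrals and choice of the shift -/
lemma exists_shift (H f : ℝ → ℝ) (Q T1 T2 : ℝ) (hT : T1 ≤ T2) (hH : Continuous H) (hH0 : ∀ t, 0 ≤ H t)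
    (hf : Continuous f) (hf0 : ∀ t, 0 ≤ f t) (hQ : ∀ t, f t ≤ Q) :
    ∃ s : ℝ, ∫ t in T1..T2, H t * ∫ y, f (t + y) * kr y ≤ 2 * (Kk + 1) * ∫ t in T1..T2, H t * f (t + s) := by
  by_contra hcon
  push Not at hcon
  set I : ℝ := ∫ t in T1..T2, H t * ∫ y, f (t + y) * kr y with hI
  set G : ℝ → ℝ := fun s => ∫ t in T1..T2, H t * f (t + s) with hG
  have hG0 : ∀ s, 0 ≤ G s := fun s =>
    intervalIntegral.integral_nonneg hT fun t _ => mul_nonneg (hH0 t) (hf0 _)
  have hK := Kk_nonneg
  have hIpos : 0 < I := lt_of_le_of_lt (mul_nonneg (by linarith) (hG0 0)) (hcon 0)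
  -- Fubini
  have hint : Integrable (Function.uncurry fun t y => H t * (f (t + y) * kr y))
      ((volume.restrict (Ioc T1 T2)).prod volume) := by
    have hHi : IntegrableOn H (Ioc T1 T2) := (hH.integrableOn_Icc).mono_set Ioc_subset_Icc_self
    have hb : Integrable (fun z : ℝ × ℝ => H z.1 * (Q * kr z.2)) ((volume.restrict (Ioc T1 T2)).prod volume) :=
      Integrable.mul_prod hHi (kr_int.const_mul Q)
    refine Integrable.mono' hb ?_ ?_
    · have : Continuous (Function.uncurry fun t y => H t * (f (t + y) * kr y)) := by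
        have h1 : Continuous fun z : ℝ × ℝ => H z.1 := hH.comp continuous_fst
        have h2 : Continuous fun z : ℝ × ℝ => f (z.1 + z.2) := hf.comp (continuous_fst.add continuous_snd)
        have h3 : Continuous fun z : ℝ × ℝ => kr z.2 := kr_cont.comp continuous_snd
        exact h1.mul (h2.mul h3)
      exact this.aestronglyMeasurable
    · refine Eventually.of_forall fun z => ?_
      simp only [Function.uncurry]
      rw [Real.norm_of_nonneg (mul_nonneg (hH0 _) (mul_nonneg (hf0 _) (kr_nonneg _)))]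
      exact mul_le_mul_of_nonneg_left (mul_le_mul_of_nonneg_right (hQ _) (kr_nonneg _)) (hH0 _)
  have hswap := integral_integral_swap hint
  have hI2 : I = ∫ y, kr y * G y := by
    rw [hI, intervalIntegral.integral_of_le hT]
    calc ∫ t in Ioc T1 T2, H t * ∫ y, f (t + y) * kr y
        = ∫ t in Ioc T1 T2, ∫ y, H t * (f (t + y) * kr y) := by
          refine integral_congr_ae (Eventually.of_forall fun t => ?_)
          simp only
          rw [← integral_const_mul]
      _ = ∫ y, ∫ t in Ioc T1 T2, H t * (f (t + y) * kr y) := hswap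
      _ = ∫ y, kr y * G y := by
          refine integral_congr_ae (Eventually.of_forall fun y => ?_)
          simp only [hG]
          rw [intervalIntegral.integral_of_le hT, ← integral_const_mul]
          refine integral_congr_ae (Eventually.of_forall fun t => ?_)
          simp only
          ring
  have hle : I ≤ Kk * (I / (2 * (Kk + 1))) := by
    have h1 : ∫ y, kr y * G y ≤ ∫ y, kr y * (I / (2 * (Kk + 1))) := by
      refine integral_mono_of_nonneg (Eventually.of_forall fun y => mul_nonneg (kr_nonneg y) (hG0 y))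
        (kr_int.mul_const _) (Eventually.of_forall fun y => ?_)
      refine mul_le_mul_of_nonneg_left ?_ (kr_nonneg y)
      rw [le_div_iff₀ (by linarith)]
      have h3 : 2 * (Kk + 1) * G y < I := hcon y
      linarith
    rw [integral_mul_const, ← hI2] at h1
    exact h1
  have h2 : Kk * (I / (2 * (Kk + 1))) ≤ I / 2 := by
    rw [← mul_div_assoc, div_le_div_iff₀ (by linarith) (by norm_num)]
    nlinarith
  linarith

/-- the modulus of `n^{-is}` is `1` -/
lemma norm_cpow_le (n : ℕ) (hn : 1 ≤ n) (s : ℝ) : ‖(n : ℂ) ^ (-(s * Complex.I))‖ = 1 := by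
  have h : (0 : ℝ) < n := by exact_mod_cast hn
  have := Complex.norm_natCast_cpow_of_pos (n := n) (by omega) (-(s * Complex.I))
  rw [this]
  simp

open Classical in
/-- the pieces -/
def pc (u : ℝ → ℝ) (B M s L : ℝ) (n : ℕ) : ℂ :=
  if L / 2 ≤ (n : ℝ) ∧ (n : ℝ) < 2 * L then ((u ((n : ℝ) / M) : ℝ) : ℂ) / (B : ℂ) * (n : ℂ) ^ (-(s * Complex.I)) else 0

lemma pc_blk (u : ℝ → ℝ) (B M s L : ℝ) (hB : 1 ≤ B) (hu : ∀ x, |u x| ≤ B) (hL : 0 < L) : IsBlk (pc u B M s L) L := by
  constructor
  · intro n
    unfold pc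
    split_ifs with h
    · have hn : 1 ≤ n := by
        by_contra hn
        have : n = 0 := by omega
        rw [this] at h
        have := h.1
        simp only [Nat.cast_zero] at this
        linarith
      rw [norm_mul, norm_cpow_le n hn, mul_one, norm_div, Complex.norm_real, Complex.norm_real, Real.norm_eq_abs,
        Real.norm_of_nonneg (by linarith : (0:ℝ) ≤ B)]
      rw [div_le_one (by linarith)]
      exact hu _
    · simp
  · intro n hn
    unfold pc at hn
    split_ifs at hn with h
    · exact ⟨h.1, h.2.le⟩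
    · exact absurd rfl hn

/-- the block as a sum of pieces -/
lemma bl_eq (u : ℝ → ℝ) (a b B M s t : ℝ) (k : ℕ) (hB : 1 ≤ B) (ha : 0 < a) (hM : 0 < M)
    (hsupp : ∀ x, u x ≠ 0 → a ≤ x ∧ x ≤ b) (hk : b < a * 4 ^ k) :
    Bl u M (t + s) = (B : ℂ) * ∑ i ∈ Finset.range k, PB (pc u B M s (2 * (a * M) * 4 ^ i)) (2 * (a * M) * 4 ^ i) t := by
  have hBc : (B : ℂ) ≠ 0 := by
    exact_mod_cast (by linarith : B ≠ 0)
  have haM : 0 < a * M := mul_pos ha hM
  set Y : ℕ := ⌊2 * (2 * (a * M) * 4 ^ k)⌋₊ with hY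
  -- the pieces as sums up to `Y`
  have hpc : ∀ i ∈ Finset.range k, PB (pc u B M s (2 * (a * M) * 4 ^ i)) (2 * (a * M) * 4 ^ i) t =
      ∑ n ∈ Finset.Icc 1 Y, pc u B M s (2 * (a * M) * 4 ^ i) n * (n : ℂ) ^ (-(t * Complex.I)) := by
    intro i hi
    have hik : i < k := Finset.mem_range.mp hi
    unfold PB Dp
    refine Finset.sum_subset ?_ ?_
    · refine Finset.Icc_subset_Icc_right ?_
      apply Nat.floor_mono
      have : (4 : ℝ) ^ i ≤ 4 ^ k := pow_le_pow_right₀ (by norm_num) hik.le
      nlinarith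
    · intro n hn hn2
      rw [Finset.mem_Icc] at hn hn2
      have h1 : ¬ n ≤ ⌊2 * (2 * (a * M) * 4 ^ i)⌋₊ := fun h => hn2 ⟨hn.1, h⟩
      have h2 : 2 * (2 * (a * M) * 4 ^ i) < (n : ℝ) := by
        by_contra h
        exact h1 (Nat.le_floor (not_lt.mp h))
      unfold pc
      rw [if_neg, zero_mul]
      rintro ⟨_, h3⟩
      linarith
  rw [Finset.sum_congr rfl hpc, Finset.sum_comm, Finset.mul_sum]
  unfold Bl
  rw [tsum_eq_sum (s := Finset.Icc 1 Y)]
  · refine Finset.sum_congr rfl fun n hn => ?_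
    have hn1 : 1 ≤ n := (Finset.mem_Icc.mp hn).1
    have hn0 : (n : ℂ) ≠ 0 := by
      have : n ≠ 0 := by omega
      exact_mod_cast this
    have hnpos : (0 : ℝ) < n := by exact_mod_cast hn1
    rw [← Finset.sum_mul]
    have hsum : ∑ i ∈ Finset.range k, pc u B M s (2 * (a * M) * 4 ^ i) n =
        ((u ((n : ℝ) / M) : ℝ) : ℂ) / (B : ℂ) * (n : ℂ) ^ (-(s * Complex.I)) := by
      by_cases hu : u ((n : ℝ) / M) = 0
      · rw [hu]
        simp only [Complex.ofReal_zero, zero_div, zero_mul]
        refine Finset.sum_eq_zero fun i _ => ?_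
        unfold pc
        rw [hu]
        simp
      · obtain ⟨h1, h2⟩ := hsupp _ hu
        rw [le_div_iff₀ hM] at h1
        rw [div_le_iff₀ hM] at h2
        -- choice of the piece
        have hex : ∃ j : ℕ, (n : ℝ) < a * M * 4 ^ (j + 1) := by
          have hkpos : k ≠ 0 := by
            rintro rfl
            rw [pow_zero, mul_one] at hk
            have : a * M ≤ b * M := h1.trans h2
            have : a ≤ b := le_of_mul_le_mul_right this hM
            linarith
          refine ⟨k, ?_⟩
          have h3 : b * M < a * 4 ^ k * M := mul_lt_mul_of_pos_right hk hM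
          have h4 : (4 : ℝ) ^ k ≤ 4 ^ (k + 1) := pow_le_pow_right₀ (by norm_num) (by omega)
          have : a * M * 4 ^ k ≤ a * M * 4 ^ (k + 1) := mul_le_mul_of_nonneg_left h4 haM.le
          linarith
        set j := Nat.find hex with hj
        have hj1 : (n : ℝ) < a * M * 4 ^ (j + 1) := Nat.find_spec hex
        have hj2 : a * M * 4 ^ j ≤ (n : ℝ) := by
          by_cases hj0 : j = 0
          · rw [hj0, pow_zero, mul_one]; exact h1
          · obtain ⟨j', hj'⟩ := Nat.exists_eq_succ_of_ne_zero hj0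
            have := Nat.find_min hex (m := j') (by omega)
            rw [hj']
            exact not_lt.mp this
        have hjk : j < k := by
          by_contra hjk
          have h3 : b * M < a * 4 ^ k * M := mul_lt_mul_of_pos_right hk hM
          have h4 : (4 : ℝ) ^ k ≤ 4 ^ j := pow_le_pow_right₀ (by norm_num) (by omega)
          have : a * M * 4 ^ k ≤ a * M * 4 ^ j := mul_le_mul_of_nonneg_left h4 haM.le
          linarith
        rw [Finset.sum_eq_single j]
        · unfold pc
          rw [if_pos]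
          refine ⟨by linarith, ?_⟩
          rw [pow_succ] at hj1
          linarith
        · intro i _ hij
          unfold pc
          rw [if_neg]
          rintro ⟨h3, h4⟩
          rcases lt_or_gt_of_ne hij with h | h
          · have h5 : (4 : ℝ) ^ (i + 1) ≤ 4 ^ j := pow_le_pow_right₀ (by norm_num) (by omega)
            have h6 : a * M * 4 ^ (i + 1) ≤ a * M * 4 ^ j := mul_le_mul_of_nonneg_left h5 haM.le
            rw [pow_succ] at h6
            linarith
          · have h5 : (4 : ℝ) ^ (j + 1) ≤ 4 ^ i := pow_le_pow_right₀ (by norm_num) (by omega)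
            have h6 : a * M * 4 ^ (j + 1) ≤ a * M * 4 ^ i := mul_le_mul_of_nonneg_left h5 haM.le
            linarith
        · intro h
          exact absurd (Finset.mem_range.mpr hjk) h
    rw [hsum]
    have hpow : (n : ℂ) ^ (-(((t + s : ℝ) : ℂ) * Complex.I)) = (n : ℂ) ^ (-(s * Complex.I)) * (n : ℂ) ^ (-(t * Complex.I)) := by
      rw [← Complex.cpow_add _ _ hn0]
      congr 1
      push_cast
      ring
    rw [hpow]
    field_simp
  · intro n hn
    have hu : u ((n : ℝ) / M) = 0 := by
      by_contra hu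
      obtain ⟨h1, h2⟩ := hsupp _ hu
      rw [le_div_iff₀ hM] at h1
      rw [div_le_iff₀ hM] at h2
      apply hn
      rw [Finset.mem_Icc]
      constructor
      · by_contra h
        have : n = 0 := by omega
        rw [this, Nat.cast_zero] at h1
        linarith
      · apply Nat.le_floor
        have h3 : b * M < a * 4 ^ k * M := mul_lt_mul_of_pos_right hk hM
        have h4 : 0 < a * M * 4 ^ k := by positivity
        linarith
    rw [hu]
    simp

/-- the bound after reflection (abstract form): in the second case some piece is large -/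
lemma main_piece (H : ℝ → ℝ) (u : ℝ → ℝ) (a b B M T1 T2 : ℝ) (k : ℕ) (Q : ℝ) (hT : T1 ≤ T2) (hH : Continuous H)
    (hH0 : ∀ t, 0 ≤ H t) (hB : 1 ≤ B) (ha : 0 < a) (hM : 0 < M)
    (hsupp : ∀ x, u x ≠ 0 → a ≤ x ∧ x ≤ b) (hk : b < a * 4 ^ k) (hk0 : 1 ≤ k)
    (hcont : Continuous (Bl u M)) (hQ : ∀ t, ‖Bl u M t‖ ≤ Q) :
    ∃ (s : ℝ) (i : ℕ), i < k ∧ ∫ t in T1..T2, H t * ∫ y, ‖Bl u M (t + y)‖ * kr y ≤
      2 * (Kk + 1) * B * k * ∫ t in T1..T2, H t * ‖PB (pc u B M s (2 * (a * M) * 4 ^ i)) (2 * (a * M) * 4 ^ i) t‖ := by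
  obtain ⟨s, hs⟩ := exists_shift H (fun t => ‖Bl u M t‖) Q T1 T2 hT hH hH0 hcont.norm (fun t => norm_nonneg _) hQ
  have hPc : ∀ i : ℕ, Continuous fun t => ‖PB (pc u B M s (2 * (a * M) * 4 ^ i)) (2 * (a * M) * 4 ^ i) t‖ := by
    intro i
    refine Continuous.norm ?_
    unfold PB Dp
    refine continuous_finsetSum _ fun n hn => ?_
    have hn0 : (n : ℂ) ≠ 0 := by
      have h1 := (Finset.mem_Icc.mp hn).1
      have : n ≠ 0 := by omega
      exact_mod_cast this
    refine continuous_const.mul ?_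
    exact Continuous.const_cpow (by fun_prop) (Or.inl hn0)
  set J : ℕ → ℝ := fun i => ∫ t in T1..T2, H t * ‖PB (pc u B M s (2 * (a * M) * 4 ^ i)) (2 * (a * M) * 4 ^ i) t‖ with hJ
  have hsum : ∫ t in T1..T2, H t * ‖Bl u M (t + s)‖ ≤ B * ∑ i ∈ Finset.range k, J i := by
    have h1 : ∑ i ∈ Finset.range k, J i = ∫ t in T1..T2, ∑ i ∈ Finset.range k,
        H t * ‖PB (pc u B M s (2 * (a * M) * 4 ^ i)) (2 * (a * M) * 4 ^ i) t‖ := by
      rw [intervalIntegral.integral_finsetSum]
      intro i _
      exact (hH.mul (hPc i)).intervalIntegrable _ _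
    rw [h1, ← intervalIntegral.integral_const_mul]
    refine intervalIntegral.integral_mono_on hT ?_ ?_ ?_
    · refine Continuous.intervalIntegrable ?_ _ _
      exact hH.mul ((hcont.comp (continuous_id.add continuous_const)).norm)
    · refine Continuous.intervalIntegrable ?_ _ _
      exact continuous_const.mul (continuous_finsetSum _ fun i _ => hH.mul (hPc i))
    · intro t _
      rw [bl_eq u a b B M s t k hB ha hM hsupp hk, norm_mul, Complex.norm_real, Real.norm_of_nonneg (by linarith : (0:ℝ) ≤ B),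
        ← Finset.mul_sum]
      have h2 := norm_sum_le (Finset.range k) fun i => PB (pc u B M s (2 * (a * M) * 4 ^ i)) (2 * (a * M) * 4 ^ i) t
      have h3 := mul_le_mul_of_nonneg_left h2 (mul_nonneg (hH0 t) (by linarith : (0:ℝ) ≤ B))
      calc H t * (B * ‖∑ i ∈ Finset.range k, PB (pc u B M s (2 * (a * M) * 4 ^ i)) (2 * (a * M) * 4 ^ i) t‖)
          = H t * B * ‖∑ i ∈ Finset.range k, PB (pc u B M s (2 * (a * M) * 4 ^ i)) (2 * (a * M) * 4 ^ i) t‖ := by ring
        _ ≤ _ := h3
        _ = _ := by ring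
  -- the largest piece
  obtain ⟨i, hi, hmax⟩ := Finset.exists_max_image (Finset.range k) J ⟨0, Finset.mem_range.mpr (by omega)⟩
  refine ⟨s, i, Finset.mem_range.mp hi, ?_⟩
  have h4 : ∑ i' ∈ Finset.range k, J i' ≤ k * J i := by
    have := Finset.sum_le_card_nsmul (Finset.range k) J (J i) hmax
    rwa [Finset.card_range, nsmul_eq_mul] at this
  have hK := Kk_nonneg
  calc ∫ t in T1..T2, H t * ∫ y, ‖Bl u M (t + y)‖ * kr y
      ≤ 2 * (Kk + 1) * ∫ t in T1..T2, H t * ‖Bl u M (t + s)‖ := hs
    _ ≤ 2 * (Kk + 1) * (B * (k * J i)) := by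
        refine mul_le_mul_of_nonneg_left (hsum.trans ?_) (by linarith)
        exact mul_le_mul_of_nonneg_left h4 (by linarith)
    _ = _ := by ring

end Re_aux

open Re_aux in
/-- ITEM Re. -/
theorem iRe (hRf : UC.StRf) (hBc : UC.StBc) : StRe := by
  intro η hη0 hη1
  obtain ⟨u, hu, hRfA⟩ := hRf psi wt_psi
  obtain ⟨C1, hC1, hR⟩ := hRfA 40 (by norm_num)
  obtain ⟨hus, a, b, ha, hab, hsupp⟩ := hu
  have hu' : IsWt u := ⟨hus, a, b, ha, hab, hsupp⟩
  obtain ⟨B, hB, huB⟩ := hu'.bounded
  obtain ⟨-, hcontB, -, C2, hC2, hBd, -⟩ := hBc u hu'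
  obtain ⟨-, hcontP, -, -⟩ := hBc psi wt_psi
  -- number of pieces
  obtain ⟨k, hk⟩ : ∃ k : ℕ, b < a * 4 ^ k := by
    obtain ⟨k, hk⟩ := pow_unbounded_of_one_lt (b / a) (by norm_num : (1 : ℝ) < 4)
    refine ⟨k, ?_⟩
    rw [div_lt_iff₀ ha] at hk
    linarith
  have hk0 : 1 ≤ k := by
    by_contra h
    have : k = 0 := by omega
    rw [this, pow_zero, mul_one] at hk
    linarith
  have hK := Kk_nonneg
  set q : ℝ := 2 * a * 4 ^ k with hq
  have hq0 : 0 < q := by positivity
  -- the constant
  set Cc : ℝ := 1 + q + q ^ (1 / η) + (C1 * C2 * Kk / Real.sqrt a + 2 * C1) + 4 * C1 +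
    4 * C1 * (Kk + 1) * B * k * Real.sqrt q with hCc
  have hn1 : 0 ≤ q ^ (1 / η) := Real.rpow_nonneg hq0.le _
  have hn2 : 0 ≤ C1 * C2 * Kk / Real.sqrt a := by positivity
  have hn3 : 0 ≤ 4 * C1 * (Kk + 1) * B * k * Real.sqrt q := by positivity
  refine ⟨Cc, by linarith, ?_⟩
  intro T T' N H hCT hT'1 hT'2 hN1 hN2 hH hH0
  have hT1 : 1 ≤ T := by linarith
  have hT0 : 0 < T := by linarith
  have hT'one : 1 ≤ T' := le_trans (Real.one_le_rpow hT1 (by norm_num)) hT'1
  have hT'0 : 0 < T' := by linarith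
  have hNone : 1 ≤ N := le_trans (Real.one_le_rpow hT1 (by positivity)) hN1
  have hN0 : 0 < N := by linarith
  have hTη : 1 ≤ T ^ (η / 2) := Real.one_le_rpow hT1 (by positivity)
  have hTle : T' ≤ 2 * T' := by linarith
  have hIH : 0 ≤ ∫ t in T'..(2 * T'), H t := intervalIntegral.integral_nonneg hTle fun t _ => hH0 t
  have hsN : 1 ≤ Real.sqrt N := by rw [Real.one_le_sqrt]; exact hNone
  set M : ℝ := T' / N with hM
  have hM0 : 0 < M := div_pos hT'0 hN0
  have hsM : N / Real.sqrt T' = Real.sqrt N / Real.sqrt M := by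
    rw [hM, Real.sqrt_div hT'0.le]
    have h1 : Real.sqrt N * Real.sqrt N = N := Real.mul_self_sqrt hN0.le
    have h2 : 0 < Real.sqrt T' := Real.sqrt_pos.mpr hT'0
    have h3 : 0 < Real.sqrt N := Real.sqrt_pos.mpr hN0
    field_simp
    nlinarith
  -- the reflection
  have hrefl : ∀ t ∈ Icc T' (2 * T'), ‖Bl psi N t‖ ≤
      C1 * (N / Real.sqrt T') * (∫ y, ‖Bl u M (t + y)‖ * kr y) + 2 * C1 := by
    intro t ht
    have ht0 : 0 < t := lt_of_lt_of_le hT'0 ht.1
    have h1 := hR N T' t hN0 hT'one (by rw [abs_of_pos ht0]; exact ht.1) (by rw [abs_of_pos ht0]; exact ht.2)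
    have h2 : (∫ y : ℝ, ‖Bl u (T' / N) (t + y)‖ / (1 + |y|) ^ 40) = ∫ y, ‖Bl u M (t + y)‖ * kr y := by
      refine integral_congr_ae (Eventually.of_forall fun y => ?_)
      simp only [kr, hM]
      rw [mul_one_div]
    rw [h2] at h1
    have h3 : C1 / T' ≤ C1 := div_le_self (by linarith) hT'one
    have h4 : C1 * N / T' ^ 40 ≤ C1 := by
      rw [div_le_iff₀ (by positivity)]
      have h5 : N ≤ T' ^ 40 := by
        calc N ≤ T ^ (3 : ℝ) := by exact_mod_cast hN2
          _ ≤ T ^ (4 : ℝ) := Real.rpow_le_rpow_of_exponent_le hT1 (by norm_num)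
          _ = (T ^ (1 / 10 : ℝ)) ^ (40 : ℕ) := by
              rw [← Real.rpow_natCast, ← Real.rpow_mul hT0.le]; norm_num
          _ ≤ T' ^ 40 := pow_le_pow_left₀ (Real.rpow_nonneg hT0.le _) hT'1 40
      exact mul_le_mul_of_nonneg_left h5 (by linarith)
    linarith
  have hintR : ∀ M' : ℝ, Continuous fun t => H t * M' := fun M' => hH.mul continuous_const
  by_cases hcase : a * M ≤ T ^ η
  · -- first case: short reflected block
    left
    have hpt : ∀ t ∈ Icc T' (2 * T'), ‖Bl psi N t‖ ≤ (C1 * C2 * Kk / Real.sqrt a + 2 * C1) * (Real.sqrt N * T ^ (η / 2)) := by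
      intro t ht
      have h1 := hrefl t ht
      have h2 : (∫ y, ‖Bl u M (t + y)‖ * kr y) ≤ C2 * M * Kk := by
        have h3 : (∫ y, ‖Bl u M (t + y)‖ * kr y) ≤ ∫ y, C2 * M * kr y := by
          refine integral_mono_of_nonneg (Eventually.of_forall fun y => mul_nonneg (norm_nonneg _) (kr_nonneg y))
            (kr_int.const_mul _) (Eventually.of_forall fun y => ?_)
          exact mul_le_mul_of_nonneg_right (hBd M (t + y) hM0) (kr_nonneg y)
        rw [integral_const_mul] at h3
        exact h3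
      have h4 : Real.sqrt M ≤ T ^ (η / 2) / Real.sqrt a := by
        rw [le_div_iff₀ (Real.sqrt_pos.mpr ha), ← Real.sqrt_mul hM0.le]
        have h5 : T ^ (η / 2) = Real.sqrt (T ^ η) := by
          rw [Real.sqrt_eq_rpow, ← Real.rpow_mul hT0.le]
          congr 1
          ring
        rw [h5]
        apply Real.sqrt_le_sqrt
        linarith
      have h6 : C1 * (N / Real.sqrt T') * (C2 * M * Kk) = C1 * C2 * Kk * (Real.sqrt N * Real.sqrt M) := by
        rw [hsM]
        have h7 : 0 < Real.sqrt M := Real.sqrt_pos.mpr hM0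
        have h8 : M = Real.sqrt M * Real.sqrt M := (Real.mul_self_sqrt hM0.le).symm
        calc C1 * (Real.sqrt N / Real.sqrt M) * (C2 * M * Kk)
            = C1 * (Real.sqrt N / Real.sqrt M) * (C2 * (Real.sqrt M * Real.sqrt M) * Kk) := by rw [← h8]
          _ = _ := by field_simp
      have h9 : 0 ≤ C1 * (N / Real.sqrt T') := by positivity
      have h10 : C1 * (N / Real.sqrt T') * (∫ y, ‖Bl u M (t + y)‖ * kr y) ≤ C1 * C2 * Kk * (Real.sqrt N * (T ^ (η / 2) / Real.sqrt a)) := by
        refine (mul_le_mul_of_nonneg_left h2 h9).trans ?_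
        rw [h6]
        refine mul_le_mul_of_nonneg_left ?_ (by positivity)
        exact mul_le_mul_of_nonneg_left h4 (by positivity)
      have h11 : (1 : ℝ) ≤ Real.sqrt N * T ^ (η / 2) := one_le_mul_of_one_le_of_one_le hsN hTη
      have h12 : 2 * C1 ≤ 2 * C1 * (Real.sqrt N * T ^ (η / 2)) := le_mul_of_one_le_right (by linarith) h11
      calc ‖Bl psi N t‖ ≤ _ := h1
        _ ≤ C1 * C2 * Kk * (Real.sqrt N * (T ^ (η / 2) / Real.sqrt a)) + 2 * C1 * (Real.sqrt N * T ^ (η / 2)) := add_le_add h10 h12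
        _ = _ := by ring
    have hP0 : 0 ≤ Real.sqrt N * T ^ (η / 2) := by positivity
    calc ∫ t in T'..(2 * T'), H t * ‖Bl psi N t‖
        ≤ ∫ t in T'..(2 * T'), H t * ((C1 * C2 * Kk / Real.sqrt a + 2 * C1) * (Real.sqrt N * T ^ (η / 2))) := by
          refine intervalIntegral.integral_mono_on hTle ?_ ?_ ?_
          · exact (hH.mul (hcontP N hN0).norm).intervalIntegrable _ _
          · exact (hintR _).intervalIntegrable _ _
          · intro t ht
            exact mul_le_mul_of_nonneg_left (hpt t ht) (hH0 t)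
      _ = (C1 * C2 * Kk / Real.sqrt a + 2 * C1) * ((Real.sqrt N * T ^ (η / 2)) * ∫ t in T'..(2 * T'), H t) := by
          rw [intervalIntegral.integral_mul_const]; ring
      _ ≤ Cc * ((Real.sqrt N * T ^ (η / 2)) * ∫ t in T'..(2 * T'), H t) := by
          refine mul_le_mul_of_nonneg_right ?_ (mul_nonneg hP0 hIH)
          linarith
      _ = _ := by ring
  · -- second case
    rw [not_le] at hcase
    obtain ⟨s, i, hik, hpiece⟩ := main_piece H u a b B M T' (2 * T') k (C2 * M) hTle hH hH0 hB ha hM0 hsupp hk hk0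
      (hcontB M hM0) (fun t => hBd M t hM0)
    set L : ℝ := 2 * (a * M) * 4 ^ i with hL
    set bb : ℕ → ℂ := pc u B M s L with hbb
    have haM : 0 < a * M := mul_pos ha hM0
    have h4i : (1 : ℝ) ≤ 4 ^ i := one_le_pow₀ (by norm_num)
    have h4ik : (4 : ℝ) ^ i ≤ 4 ^ k := pow_le_pow_right₀ (by norm_num) hik.le
    have hL0 : 0 < L := by positivity
    have hLM : L ≤ q * M := by
      rw [hL, hq]
      have : 2 * (a * M) * 4 ^ i ≤ 2 * (a * M) * 4 ^ k := mul_le_mul_of_nonneg_left h4ik (by positivity)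
      linarith
    set I : ℝ := ∫ t in T'..(2 * T'), H t * ∫ y, ‖Bl u M (t + y)‖ * kr y with hI
    set J : ℝ := ∫ t in T'..(2 * T'), H t * ‖PB bb L t‖ with hJ
    -- continuity of the inner integral is not needed: bound by cases
    have hgc : Continuous fun t => ∫ y, ‖Bl u M (t + y)‖ * kr y := by
      refine continuous_of_dominated (bound := fun y => C2 * M * kr y) ?_ ?_ (kr_int.const_mul _) ?_
      · intro t
        refine Continuous.aestronglyMeasurable ?_
        exact (((hcontB M hM0).comp (continuous_const.add continuous_id)).norm).mul kr_cont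
      · intro t
        refine Eventually.of_forall fun y => ?_
        rw [Real.norm_of_nonneg (mul_nonneg (norm_nonneg _) (kr_nonneg y))]
        exact mul_le_mul_of_nonneg_right (hBd M (t + y) hM0) (kr_nonneg y)
      · refine Eventually.of_forall fun y => ?_
        exact (((hcontB M hM0).comp (continuous_id.add continuous_const)).norm).mul continuous_const
    have htot : ∫ t in T'..(2 * T'), H t * ‖Bl psi N t‖ ≤ C1 * (N / Real.sqrt T') * I + 2 * C1 * ∫ t in T'..(2 * T'), H t := by
      calc ∫ t in T'..(2 * T'), H t * ‖Bl psi N t‖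
          ≤ ∫ t in T'..(2 * T'), (C1 * (N / Real.sqrt T') * (H t * ∫ y, ‖Bl u M (t + y)‖ * kr y) + 2 * C1 * H t) := by
            refine intervalIntegral.integral_mono_on hTle ?_ ?_ ?_
            · exact (hH.mul (hcontP N hN0).norm).intervalIntegrable _ _
            · refine Continuous.intervalIntegrable ?_ _ _
              exact (continuous_const.mul (hH.mul hgc)).add (continuous_const.mul hH)
            · intro t ht
              have := mul_le_mul_of_nonneg_left (hrefl t ht) (hH0 t)
              calc H t * ‖Bl psi N t‖ ≤ _ := this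
                _ = _ := by ring
        _ = _ := by
            rw [intervalIntegral.integral_add, intervalIntegral.integral_const_mul, intervalIntegral.integral_const_mul]
            · exact (continuous_const.mul (hH.mul hgc)).intervalIntegrable _ _
            · exact (continuous_const.mul hH).intervalIntegrable _ _
    by_cases hdom : C1 * (N / Real.sqrt T') * I ≤ 2 * C1 * ∫ t in T'..(2 * T'), H t
    · left
      have h11 : (1 : ℝ) ≤ Real.sqrt N * T ^ (η / 2) := one_le_mul_of_one_le_of_one_le hsN hTη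
      calc ∫ t in T'..(2 * T'), H t * ‖Bl psi N t‖ ≤ 4 * C1 * ∫ t in T'..(2 * T'), H t := by linarith
        _ ≤ Cc * (Real.sqrt N * T ^ (η / 2)) * ∫ t in T'..(2 * T'), H t := by
            refine mul_le_mul_of_nonneg_right ?_ hIH
            have h12 : 4 * C1 ≤ Cc := by linarith
            exact h12.trans (le_mul_of_one_le_right (by linarith) h11)
        _ = _ := by ring
    · rw [not_le] at hdom
      right
      refine ⟨bb, L, pc_blk u B M s L hB huB hL0, ?_, ?_, ?_, ?_⟩
      · have h1 : 0 < T ^ η := Real.rpow_pos_of_pos hT0 _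
        have h2 : 2 * (a * M) * 1 ≤ L := mul_le_mul_of_nonneg_left h4i (by positivity)
        linarith
      · -- `L ≤ q T'/N ≤ q T^{1/2-η} ≤ T^{1/2}`
        have h1 : M ≤ T ^ (1 + η) / T ^ (1 / 2 + 2 * η) := by
          rw [hM]
          exact div_le_div₀ (Real.rpow_nonneg hT0.le _) hT'2 (Real.rpow_pos_of_pos hT0 _) hN1
        rw [← Real.rpow_sub hT0] at h1
        have h2 : q ≤ T ^ η := by
          have h3 : q ^ (1 / η) ≤ T := by linarith
          have h4 := Real.rpow_le_rpow hn1 h3 hη0.le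
          rw [← Real.rpow_mul hq0.le, one_div, inv_mul_cancel₀ hη0.ne', Real.rpow_one] at h4
          exact h4
        calc L ≤ q * M := hLM
          _ ≤ T ^ η * T ^ (1 + η - (1 / 2 + 2 * η)) := mul_le_mul h2 h1 hM0.le (Real.rpow_nonneg hT0.le _)
          _ = T ^ (1 / 2 : ℝ) := by
              rw [← Real.rpow_add hT0]
              congr 1
              ring
      · calc L * N ≤ q * M * N := mul_le_mul_of_nonneg_right hLM hN0.le
          _ = q * T' := by rw [hM]; field_simp
          _ ≤ Cc * T' := by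
              refine mul_le_mul_of_nonneg_right ?_ hT'0.le
              linarith
      · have hJ0 : 0 ≤ J := intervalIntegral.integral_nonneg hTle fun t _ => mul_nonneg (hH0 t) (norm_nonneg _)
        have h1 : ∫ t in T'..(2 * T'), H t * (‖PB bb L t‖ / Real.sqrt L) = J / Real.sqrt L := by
          rw [hJ, ← intervalIntegral.integral_div]
          refine intervalIntegral.integral_congr fun t _ => ?_
          exact mul_div_assoc _ _ _ |>.symm
        rw [h1]
        have hsL : 0 < Real.sqrt L := Real.sqrt_pos.mpr hL0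
        have hsM0 : 0 < Real.sqrt M := Real.sqrt_pos.mpr hM0
        have h2 : Real.sqrt L ≤ Real.sqrt q * Real.sqrt M := by
          rw [← Real.sqrt_mul hq0.le]
          exact Real.sqrt_le_sqrt hLM
        have h3 : 1 / Real.sqrt M ≤ Real.sqrt q / Real.sqrt L := by
          rw [div_le_div_iff₀ hsM0 hsL]
          linarith
        have h5 : 0 ≤ 2 * (Kk + 1) * B * k := by positivity
        calc ∫ t in T'..(2 * T'), H t * ‖Bl psi N t‖ ≤ 2 * (C1 * (N / Real.sqrt T') * I) := by linarith
          _ ≤ 2 * (C1 * (N / Real.sqrt T') * (2 * (Kk + 1) * B * k * J)) := by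
              refine mul_le_mul_of_nonneg_left ?_ (by norm_num)
              refine mul_le_mul_of_nonneg_left hpiece (by positivity)
          _ = 4 * C1 * (Kk + 1) * B * k * Real.sqrt N * J * (1 / Real.sqrt M) := by rw [hsM]; ring
          _ ≤ 4 * C1 * (Kk + 1) * B * k * Real.sqrt N * J * (Real.sqrt q / Real.sqrt L) := by
              refine mul_le_mul_of_nonneg_left h3 ?_
              positivity
          _ = 4 * C1 * (Kk + 1) * B * k * Real.sqrt q * (Real.sqrt N * (J / Real.sqrt L)) := by ring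
          _ ≤ Cc * (Real.sqrt N * (J / Real.sqrt L)) := by
              refine mul_le_mul_of_nonneg_right ?_ (by positivity)
              linarith
          _ = _ := by ring

end Pool.Agent.Work.MP_a8fbd7_nt.OX.ASM
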