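import Pool.Agent.Work.MP_a8fbd7_nt.OX.ASM.Stmts

/-!
MP_a8fbd7_nt, block OX, part ASM, item V1: the vector sieve sandwich.
-/

set_option autoImplicit false

open MeasureTheory Set Filter Topology

noncomputable section

namespace Pool.Agent.Work.MP_a8fbd7_nt.OX.ASM

open Pool.Agent.Work.MP_56b8f5_nt.UC (IsWt Bl Dp Om psi eta Sep)
open Pool.Agent.Work.MP_a8fbd7_nt.OX.ID (Rough roughOne pb rg)

namespace V1_aux

/-- nonnegative arithmetic functions -/
def NN (f : ArithmeticFunction ℝ) : Prop := ∀ n, 0 ≤ f n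

lemma NN.mul {f g : ArithmeticFunction ℝ} (hf : NN f) (hg : NN g) : NN (f * g) := by
  intro n
  rw [ArithmeticFunction.mul_apply]
  exact Finset.sum_nonneg (fun x _ => mul_nonneg (hf _) (hg _))

lemma NN.add {f g : ArithmeticFunction ℝ} (hf : NN f) (hg : NN g) : NN (f + g) := by
  intro n
  rw [ArithmeticFunction.add_apply]
  exact add_nonneg (hf _) (hg _)

lemma nn_one : NN (1 : ArithmeticFunction ℝ) := by
  intro n
  rw [ArithmeticFunction.one_apply]
  split_ifs <;> norm_num

lemma nn_zero : NN (0 : ArithmeticFunction ℝ) := by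
  intro n
  simp

lemma nn_prod {ι : Type*} (s : Finset ι) (f : ι → ArithmeticFunction ℝ) (h : ∀ i ∈ s, NN (f i)) :
    NN (∏ i ∈ s, f i) := by
  classical
  induction s using Finset.induction_on with
  | empty => simpa using nn_one
  | insert a s ha ih =>
    rw [Finset.prod_insert ha]
    exact (h a (Finset.mem_insert_self a s)).mul (ih (fun i hi => h i (Finset.mem_insert_of_mem hi)))

lemma sub_apply' (f g : ArithmeticFunction ℝ) (n : ℕ) : (f - g) n = f n - g n := rfl

lemma psi_nn {x : ℝ} (hx : 0 ≤ x) : 0 ≤ psi x := by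
  unfold psi
  rcases le_or_gt x 1 with h | h
  · have h1 : eta x = 1 := Real.smoothTransition.one_of_one_le (by linarith)
    have h2 : eta (2 * x) ≤ 1 := Real.smoothTransition.le_one _
    linarith
  · have h1 : eta (2 * x) = 0 := Real.smoothTransition.zero_of_nonpos (by linarith)
    have h2 : 0 ≤ eta x := Real.smoothTransition.nonneg _
    linarith

lemma psi_zero {x : ℝ} (hx : x ≤ 1 / 2) : psi x = 0 := by
  unfold psi
  have h1 : eta x = 1 := Real.smoothTransition.one_of_one_le (by linarith)
  have h2 : eta (2 * x) = 1 := Real.smoothTransition.one_of_one_le (by linarith)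
  linarith

lemma nn_pbl (y z l : ℕ) : NN (pbl y z l) := by
  intro n
  have h : pbl y z l n = pb y z n * psi ((n : ℝ) / 2 ^ l) := rfl
  rw [h]
  refine mul_nonneg ?_ (psi_nn (by positivity))
  have h2 : pb y z n = if n.Prime ∧ y < n ∧ n ≤ z then (1 : ℝ) else 0 := rfl
  rw [h2]
  split_ifs <;> norm_num

lemma nn_rb (y l : ℕ) : NN (rb y l) := by
  intro n
  have h : rb y l n = roughOne y n * psi ((n : ℝ) / 2 ^ l) := rfl
  rw [h]
  refine mul_nonneg ?_ (psi_nn (by positivity))
  rw [Pool.Agent.Work.MP_a8fbd7_nt.OX.ID.roughOne_apply]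
  split_ifs <;> norm_num

lemma nn_ps (y z : ℕ) (o : Option ℕ) : NN (ps y z o) := by
  cases o with
  | none => exact nn_one
  | some l => exact nn_pbl y z l

lemma nn_ms (y : ℕ) (o : Option ℕ) : NN (ms y o) := by
  cases o with
  | none => exact nn_one
  | some l => exact nn_rb y l

/-- the two inequalities in a long slot -/
lemma long_slot {y : ℕ} {D C0 E : ℝ} {lp lm : ℕ → ℝ} (hS : IsSv y D C0 E lp lm) (l : ℕ) (hl : 1 ≤ l) (n : ℕ) :
    0 ≤ tb lp l n ∧ 0 ≤ tb lp l n - rb y l n ∧
      tb lp l n - rb y l n ≤ tb (fun d => lp d - lm d) l n := by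
  have h1 : rb y l n = roughOne y n * psi ((n : ℝ) / 2 ^ l) := rfl
  have h2 : tb lp l n = psi ((n : ℝ) / 2 ^ l) * th lp n := rfl
  have h3 : tb (fun d => lp d - lm d) l n = psi ((n : ℝ) / 2 ^ l) * (th lp n - th lm n) := by
    have : th (fun d => lp d - lm d) n = th lp n - th lm n := by
      unfold th
      rw [Finset.sum_sub_distrib]
    show psi ((n : ℝ) / 2 ^ l) * th (fun d => lp d - lm d) n = _
    rw [this]
  have hps : 0 ≤ psi ((n : ℝ) / 2 ^ l) := psi_nn (by positivity)
  rw [h1, h2, h3, Pool.Agent.Work.MP_a8fbd7_nt.OX.ID.roughOne_apply]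
  rcases Nat.lt_or_ge n 2 with hn | hn
  · have hn1 : (n : ℝ) ≤ 1 := by exact_mod_cast (by omega : n ≤ 1)
    have h2l : (2 : ℝ) ≤ 2 ^ l := by
      calc (2 : ℝ) = 2 ^ 1 := by norm_num
        _ ≤ 2 ^ l := pow_le_pow_right₀ (by norm_num) hl
    have hx : (n : ℝ) / 2 ^ l ≤ 1 / 2 := by
      rw [div_le_iff₀ (by positivity)]
      linarith
    rw [psi_zero hx]
    simp
  · by_cases hr : Rough y n
    · have h := hS.rough n (by omega) hr
      rw [if_pos ⟨hn, hr⟩]
      refine ⟨mul_nonneg hps (by linarith), ?_, ?_⟩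
      · nlinarith [h.2]
      · nlinarith [h.1]
    · have h := hS.nrough n (by omega) hr
      rw [if_neg (fun h => hr h.2)]
      refine ⟨mul_nonneg hps (by linarith), ?_, ?_⟩
      · nlinarith [h.2]
      · nlinarith [h.1]

open Classical in
lemma slot {T κ : ℝ} (hT : 3 ≤ T) (hκ : 0 < κ) {y : ℕ} {D C0 E : ℝ} {lp lm : ℕ → ℝ}
    (hS : IsSv y D C0 E lp lm) (o : Option ℕ) :
    NN (msA y T κ lp o) ∧ NN (msA y T κ lp o - ms y o) ∧
      NN ((if Lg T κ o then msA y T κ (fun d => lp d - lm d) o else 0) - (msA y T κ lp o - ms y o)) ∧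
      NN (msA y T κ (fun d => lp d - lm d) o) := by
  cases o with
  | none =>
    have hL : ¬ Lg T κ none := by
      rintro ⟨l, hl, -⟩
      cases hl
    rw [if_neg hL]
    refine ⟨nn_one, ?_, ?_, nn_one⟩
    · intro n
      show (0 : ℝ) ≤ ((1 : ArithmeticFunction ℝ) - 1) n
      simp
    · intro n
      show (0 : ℝ) ≤ (0 - ((1 : ArithmeticFunction ℝ) - 1)) n
      simp
  | some l =>
    by_cases hlong : T ^ (1 / 2 + κ) < (2 : ℝ) ^ l
    · have hL : Lg T κ (some l) := ⟨l, rfl, hlong⟩
      have hl : 1 ≤ l := by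
        by_contra h
        have h0 : l = 0 := by omega
        rw [h0] at hlong
        have : (1 : ℝ) ≤ T ^ (1 / 2 + κ) := Real.one_le_rpow (by linarith) (by linarith)
        simp at hlong
        norm_num at this
        linarith
      rw [if_pos hL]
      have e1 : msA y T κ lp (some l) = tb lp l := by
        simp only [msA, if_pos hlong]
      have e2 : msA y T κ (fun d => lp d - lm d) (some l) = tb (fun d => lp d - lm d) l := by
        simp only [msA, if_pos hlong]
      have e3 : ms y (some l) = rb y l := rfl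
      rw [e1, e2, e3]
      refine ⟨fun n => (long_slot hS l hl n).1, fun n => ?_, fun n => ?_, fun n => ?_⟩
      · rw [sub_apply']
        exact (long_slot hS l hl n).2.1
      · rw [sub_apply', sub_apply']
        have := (long_slot hS l hl n).2.2
        linarith
      · have h := long_slot hS l hl n
        linarith [h.2.1, h.2.2]
    · have hL : ¬ Lg T κ (some l) := by
        rintro ⟨l', hl', h'⟩
        cases hl'
        exact hlong h'
      have e1 : msA y T κ lp (some l) = rb y l := by
        simp only [msA, if_neg hlong]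
      have e2 : msA y T κ (fun d => lp d - lm d) (some l) = rb y l := by
        simp only [msA, if_neg hlong]
      have e3 : ms y (some l) = rb y l := rfl
      rw [if_neg hL, e1, e2, e3]
      refine ⟨nn_rb y l, fun n => ?_, fun n => ?_, nn_rb y l⟩
      · rw [sub_self]; simp
      · rw [sub_self, sub_zero]; simp

end V1_aux

open V1_aux

theorem iV1 : StV1 := by
  classical
  intro T κ D C0 E y z S lp lm u v n hT hκ hS
  set V : ArithmeticFunction ℝ := ∏ r, ps y z (v r) with hV
  have hVnn : NN V := nn_prod _ _ (fun r _ => nn_ps y z (v r))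
  obtain ⟨g0, d0, x0, e0⟩ := slot hT hκ hS (u 0)
  obtain ⟨g1, d1, x1, e1⟩ := slot hT hκ hS (u 1)
  obtain ⟨g2, d2, x2, e2⟩ := slot hT hκ hS (u 2)
  have f0 := nn_ms y (u 0)
  have f1 := nn_ms y (u 1)
  have f2 := nn_ms y (u 2)
  set G0 := msA y T κ lp (u 0) with hG0
  set G1 := msA y T κ lp (u 1) with hG1
  set G2 := msA y T κ lp (u 2) with hG2
  set F0 := ms y (u 0) with hF0
  set F1 := ms y (u 1) with hF1
  set F2 := ms y (u 2) with hF2
  set M0 := msA y T κ (fun d => lp d - lm d) (u 0) with hM0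
  set M1 := msA y T κ (fun d => lp d - lm d) (u 1) with hM1
  set M2 := msA y T κ (fun d => lp d - lm d) (u 2) with hM2
  have b0 : BFA y z T κ (Function.update (fun _ => lp) 0 (fun d => lp d - lm d)) u v = M0 * G1 * G2 * V := by
    unfold BFA
    rw [Fin.prod_univ_three]
    simp [Function.update, hM0, hG1, hG2, hV]
  have b1 : BFA y z T κ (Function.update (fun _ => lp) 1 (fun d => lp d - lm d)) u v = G0 * M1 * G2 * V := by
    unfold BFA
    rw [Fin.prod_univ_three]
    simp [Function.update, hM1, hG0, hG2, hV]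
  have b2 : BFA y z T κ (Function.update (fun _ => lp) 2 (fun d => lp d - lm d)) u v = G0 * G1 * M2 * V := by
    unfold BFA
    rw [Fin.prod_univ_three]
    simp [Function.update, hM2, hG0, hG1, hV]
  have bF : BF y z u v = F0 * F1 * F2 * V := by
    unfold BF
    rw [Fin.prod_univ_three]
  have bG : BFA y z T κ (fun _ => lp) u v = G0 * G1 * G2 * V := by
    unfold BFA
    rw [Fin.prod_univ_three]
  constructor
  · have hup : NN (((if Lg T κ (u 0) then M0 else 0) * G1 * G2 + G0 * (if Lg T κ (u 1) then M1 else 0) * G2 +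
        G0 * G1 * (if Lg T κ (u 2) then M2 else 0)) * V - (G0 * G1 * G2 * V - F0 * F1 * F2 * V)) := by
      set X0 := (if Lg T κ (u 0) then M0 else 0) with hX0
      set X1 := (if Lg T κ (u 1) then M1 else 0) with hX1
      set X2 := (if Lg T κ (u 2) then M2 else 0) with hX2
      have key : (X0 * G1 * G2 + G0 * X1 * G2 + G0 * G1 * X2) * V - (G0 * G1 * G2 * V - F0 * F1 * F2 * V) =
          ((X0 - (G0 - F0)) * G1 * G2 + (X1 - (G1 - F1)) * G0 * G2 + (G1 - F1) * (G0 - F0) * G2 +
            (X2 - (G2 - F2)) * G0 * G1 + (G2 - F2) * (G0 - F0) * G1 + (G2 - F2) * F0 * (G1 - F1)) * V := by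
        ring
      rw [key]
      exact (((((((x0.mul g1).mul g2).add ((x1.mul g0).mul g2)).add ((d1.mul d0).mul g2)).add
        ((x2.mul g0).mul g1)).add ((d2.mul d0).mul g1)).add ((d2.mul f0).mul d1)).mul hVnn
    have hlow : NN (G0 * G1 * G2 * V - F0 * F1 * F2 * V) := by
      have key : G0 * G1 * G2 * V - F0 * F1 * F2 * V =
          ((G0 - F0) * G1 * G2 + F0 * (G1 - F1) * G2 + F0 * F1 * (G2 - F2)) * V := by ring
      rw [key]
      exact ((((d0.mul g1).mul g2).add ((f0.mul d1).mul g2)).add ((f0.mul f1).mul d2)).mul hVnn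
    have h1 := hup n
    have h2 := hlow n
    rw [sub_apply', sub_apply'] at h1
    rw [sub_apply'] at h2
    rw [bF, bG, abs_sub_comm, abs_of_nonneg h2, Finset.sum_filter, Fin.sum_univ_three, b0, b1, b2]
    have hsum : ((if Lg T κ (u 0) then (M0 * G1 * G2 * V) n else 0) + (if Lg T κ (u 1) then (G0 * M1 * G2 * V) n else 0) +
        (if Lg T κ (u 2) then (G0 * G1 * M2 * V) n else 0)) =
        (((if Lg T κ (u 0) then M0 else 0) * G1 * G2 + G0 * (if Lg T κ (u 1) then M1 else 0) * G2 +
        G0 * G1 * (if Lg T κ (u 2) then M2 else 0)) * V) n := by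
      rw [add_mul, add_mul, ArithmeticFunction.add_apply, ArithmeticFunction.add_apply]
      congr 1
      · congr 1
        · split_ifs <;> simp
        · split_ifs <;> simp
      · split_ifs <;> simp
    rw [hsum]
    linarith
  · intro i
    fin_cases i
    · show 0 ≤ BFA y z T κ (Function.update (fun _ => lp) 0 (fun d => lp d - lm d)) u v n
      rw [b0]
      exact ((e0.mul g1).mul g2).mul hVnn n
    · show 0 ≤ BFA y z T κ (Function.update (fun _ => lp) 1 (fun d => lp d - lm d)) u v n
      rw [b1]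
      exact ((g0.mul e1).mul g2).mul hVnn n
    · show 0 ≤ BFA y z T κ (Function.update (fun _ => lp) 2 (fun d => lp d - lm d)) u v n
      rw [b2]
      exact ((g0.mul g1).mul e2).mul hVnn n

end Pool.Agent.Work.MP_a8fbd7_nt.OX.ASM
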