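import Mathlib
import Pool.Agent.Work.MP_56b8f5_nt.UC.I_Ow
import Pool.Agent.Work.MP_a8fbd7_nt.OX.ASM.Stmts
import Pool.Agent.Work.MP_a8fbd7_nt.OX.ASM.Win
import Pool.Agent.Work.MP_a8fbd7_nt.OX.ASM.I_V1
import Pool.Agent.Work.MP_a8fbd7_nt.OX.ASM.I_Ex

/-!
MP_a8fbd7_nt, OX/ASM, item SE: the total sieve error.
-/

set_option autoImplicit false

open Set Filter Topology

noncomputable section

namespace Pool.Agent.Work.MP_a8fbd7_nt.OX.ASM

open Pool.Agent.Work.MP_56b8f5_nt.UC (IsWt psi eta)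
open Pool.Agent.Work.MP_a8fbd7_nt.OX.ID (Rough roughOne pb rg af_sum af_smul roughOne_apply)

namespace SE_aux

open V1_aux (NN NN.mul NN.add nn_one nn_zero nn_prod psi_nn nn_pbl nn_rb nn_ps slot)

/-! ### The mass functional -/

/-- `∑_{n ≤ N} f n / n` -/
def mu (N : ℕ) (f : ArithmeticFunction ℝ) : ℝ := ∑ n ∈ Finset.Icc 1 N, f n / n

theorem conv_sum (N : ℕ) (F : ℕ → ℕ → ℝ) :
    ∑ n ∈ Finset.Icc 1 N, ∑ p ∈ n.divisorsAntidiagonal, F p.1 p.2 =
      ∑ p ∈ ((Finset.Icc 1 N) ×ˢ (Finset.Icc 1 N)).filter (fun p => p.1 * p.2 ≤ N), F p.1 p.2 := by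
  classical
  rw [← Finset.sum_biUnion]
  · apply Finset.sum_congr _ (fun _ _ => rfl)
    ext p
    simp only [Finset.mem_biUnion, Finset.mem_Icc, Nat.mem_divisorsAntidiagonal, Finset.mem_filter, Finset.mem_product]
    constructor
    · rintro ⟨n, ⟨h1, h2⟩, h3, h4⟩
      have ha : p.1 ≠ 0 := fun h => h4 (by rw [← h3, h, zero_mul])
      have hb : p.2 ≠ 0 := fun h => h4 (by rw [← h3, h, mul_zero])
      have h5 : p.1 ≤ p.1 * p.2 := Nat.le_mul_of_pos_right _ (Nat.pos_of_ne_zero hb)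
      have h6 : p.2 ≤ p.1 * p.2 := Nat.le_mul_of_pos_left _ (Nat.pos_of_ne_zero ha)
      omega
    · rintro ⟨⟨⟨h1, h2⟩, h3, h4⟩, h5⟩
      have h6 : 0 < p.1 * p.2 := Nat.mul_pos h1 h3
      exact ⟨p.1 * p.2, ⟨h6, h5⟩, rfl, h6.ne'⟩
  · intro a _ b _ hab
    rw [Function.onFun, Finset.disjoint_left]
    intro p hp hp'
    rw [Nat.mem_divisorsAntidiagonal] at hp hp'
    exact hab (hp.1.symm.trans hp'.1)

theorem mu_nonneg {N : ℕ} {f : ArithmeticFunction ℝ} (hf : NN f) : 0 ≤ mu N f :=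
  Finset.sum_nonneg fun n _ => div_nonneg (hf n) (Nat.cast_nonneg n)

theorem mu_mul_le {N : ℕ} {f g : ArithmeticFunction ℝ} (hf : NN f) (hg : NN g) : mu N (f * g) ≤ mu N f * mu N g := by
  have h1 : mu N (f * g) = ∑ n ∈ Finset.Icc 1 N, ∑ p ∈ n.divisorsAntidiagonal, f p.1 / p.1 * (g p.2 / p.2) := by
    unfold mu
    refine Finset.sum_congr rfl fun n hn => ?_
    rw [ArithmeticFunction.mul_apply, Finset.sum_div]
    refine Finset.sum_congr rfl fun p hp => ?_
    rw [Nat.mem_divisorsAntidiagonal] at hp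
    rw [← hp.1]
    push_cast
    rw [div_mul_div_comm]
  rw [h1, conv_sum N (fun a b => f a / a * (g b / b))]
  have h2 : mu N f * mu N g = ∑ p ∈ (Finset.Icc 1 N) ×ˢ (Finset.Icc 1 N), f p.1 / p.1 * (g p.2 / p.2) := by
    unfold mu
    rw [Finset.sum_mul_sum, Finset.sum_product]
  rw [h2]
  apply Finset.sum_le_sum_of_subset_of_nonneg (Finset.filter_subset _ _)
  intro p _ _
  exact mul_nonneg (div_nonneg (hf _) (Nat.cast_nonneg _)) (div_nonneg (hg _) (Nat.cast_nonneg _))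

theorem mu_one_le (N : ℕ) : mu N 1 ≤ 1 := by
  unfold mu
  rcases Nat.eq_zero_or_pos N with rfl | hN
  · simp
  · rw [Finset.sum_eq_single 1]
    · simp
    · intro b _ hb
      rw [ArithmeticFunction.one_apply_ne hb, zero_div]
    · intro h
      exact absurd (Finset.mem_Icc.2 ⟨le_refl 1, hN⟩) h

theorem mu_add (N : ℕ) (f g : ArithmeticFunction ℝ) : mu N (f + g) = mu N f + mu N g := by
  unfold mu
  rw [← Finset.sum_add_distrib]
  refine Finset.sum_congr rfl fun n _ => ?_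
  rw [ArithmeticFunction.add_apply, add_div]

theorem mu_smul (N : ℕ) (c : ℝ) (f : ArithmeticFunction ℝ) : mu N (c • f) = c * mu N f := by
  unfold mu
  rw [Finset.mul_sum]
  refine Finset.sum_congr rfl fun n _ => ?_
  rw [af_smul, mul_div_assoc]

theorem mu_sum {ι : Type*} (N : ℕ) (s : Finset ι) (f : ι → ArithmeticFunction ℝ) :
    mu N (∑ i ∈ s, f i) = ∑ i ∈ s, mu N (f i) := by
  unfold mu
  rw [Finset.sum_comm]
  refine Finset.sum_congr rfl fun n _ => ?_
  rw [af_sum, Finset.sum_div]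

theorem nn_sum {ι : Type*} (s : Finset ι) (f : ι → ArithmeticFunction ℝ) (h : ∀ i ∈ s, NN (f i)) :
    NN (∑ i ∈ s, f i) := by
  intro n
  rw [af_sum]
  exact Finset.sum_nonneg fun i hi => h i hi n

theorem nn_pow {f : ArithmeticFunction ℝ} (hf : NN f) : ∀ k : ℕ, NN (f ^ k)
  | 0 => by
    rw [pow_zero]
    exact nn_one
  | k + 1 => by
    rw [pow_succ]
    exact (nn_pow hf k).mul hf

theorem nn_smul {f : ArithmeticFunction ℝ} (hf : NN f) {c : ℝ} (hc : 0 ≤ c) : NN (c • f) := by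
  intro n
  rw [af_smul]
  exact mul_nonneg hc (hf n)

theorem mu_pow_le {N : ℕ} {f : ArithmeticFunction ℝ} (hf : NN f) : ∀ k : ℕ, mu N (f ^ k) ≤ mu N f ^ k
  | 0 => by
    rw [pow_zero, pow_zero]
    exact mu_one_le N
  | k + 1 => by
    rw [pow_succ, pow_succ]
    exact (mu_mul_le (nn_pow hf k) hf).trans (mul_le_mul_of_nonneg_right (mu_pow_le hf k) (mu_nonneg hf))

/-! ### The sum `SW` of a product -/

theorem SW_mul (w : ℝ → ℝ) (f g : ArithmeticFunction ℝ) (x T1 : ℝ) (N : ℕ)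
    (hN : ∀ n : ℕ, w (((n : ℝ) / x) ^ T1) ≠ 0 → 1 ≤ n ∧ n ≤ N) :
    SW w (⇑(f * g)) x T1 = ∑ P ∈ Finset.Icc 1 N, g P * ∑ m ∈ Finset.Icc 1 N, f m * w (((m : ℝ) * P / x) ^ T1) := by
  have h1 : SW w (⇑(f * g)) x T1 = ∑ n ∈ Finset.Icc 1 N, (f * g) n * w (((n : ℝ) / x) ^ T1) := by
    rw [SW]
    apply tsum_eq_sum
    intro n hn
    rw [Finset.mem_Icc] at hn
    have : w (((n : ℝ) / x) ^ T1) = 0 := by
      by_contra h0
      exact hn (hN n h0)
    rw [this, mul_zero]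
  have h2 : ∀ n ∈ Finset.Icc 1 N, (f * g) n * w (((n : ℝ) / x) ^ T1) =
      ∑ p ∈ n.divisorsAntidiagonal, f p.1 * g p.2 * w (((p.1 : ℝ) * p.2 / x) ^ T1) := by
    intro n _
    rw [ArithmeticFunction.mul_apply, Finset.sum_mul]
    refine Finset.sum_congr rfl fun p hp => ?_
    rw [Nat.mem_divisorsAntidiagonal] at hp
    rw [← hp.1]
    push_cast
    rfl
  rw [h1, Finset.sum_congr rfl h2, conv_sum N (fun a b => f a * g b * w (((a : ℝ) * b / x) ^ T1)),
    Finset.sum_filter_of_ne, Finset.sum_product_right]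
  · refine Finset.sum_congr rfl fun P _ => ?_
    rw [Finset.mul_sum]
    refine Finset.sum_congr rfl fun m _ => ?_
    ring
  · intro p _ hp
    by_contra h
    apply hp
    have : w (((p.1 : ℝ) * p.2 / x) ^ T1) = 0 := by
      by_contra h0
      have h3 := hN (p.1 * p.2) (by push_cast; exact h0)
      exact h h3.2
    rw [this, mul_zero]

theorem inner_eq (w : ℝ → ℝ) (d : ℕ → ℝ) (k P : ℕ) (x T1 : ℝ) (N : ℕ) (hP : 1 ≤ P)
    (hN : ∀ n : ℕ, w (((n : ℝ) / x) ^ T1) ≠ 0 → 1 ≤ n ∧ n ≤ N) :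
    ∑ m ∈ Finset.Icc 1 N, tb d k m * w (((m : ℝ) * P / x) ^ T1) =
      ∑ m ∈ Finset.Icc 1 (2 * 2 ^ k), tb d k m * w (((m : ℝ) * P / x) ^ T1) := by
  set F : ℕ → ℝ := fun m => tb d k m * w (((m : ℝ) * P / x) ^ T1) with hF
  have h1 : ∑ m ∈ Finset.Icc 1 N, F m = ∑ m ∈ Finset.Icc 1 (max N (2 * 2 ^ k)), F m := by
    apply Finset.sum_subset
    · exact Finset.Icc_subset_Icc le_rfl (le_max_left _ _)
    · intro m hm hm'
      rw [Finset.mem_Icc] at hm hm'
      have hmN : N < m := by omega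
      have : w (((m : ℝ) * P / x) ^ T1) = 0 := by
        by_contra h0
        have h3 := hN (m * P) (by push_cast; exact h0)
        have : m ≤ m * P := Nat.le_mul_of_pos_right _ hP
        omega
      rw [hF]
      simp only
      rw [this, mul_zero]
  have h2 : ∑ m ∈ Finset.Icc 1 (2 * 2 ^ k), F m = ∑ m ∈ Finset.Icc 1 (max N (2 * 2 ^ k)), F m := by
    apply Finset.sum_subset
    · exact Finset.Icc_subset_Icc le_rfl (le_max_right _ _)
    · intro m hm hm'
      rw [Finset.mem_Icc] at hm hm'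
      have hmN : 2 * 2 ^ k < m := by omega
      have : tb d k m = 0 := by
        show psi ((m : ℝ) / 2 ^ k) * th d m = 0
        have : psi ((m : ℝ) / 2 ^ k) = 0 := by
          by_contra h0
          have h3 := (Pool.Agent.Work.MP_56b8f5_nt.UC.psi_supp h0).2
          rw [div_le_iff₀ (by positivity)] at h3
          have h4 : ((2 * 2 ^ k : ℕ) : ℝ) < m := by exact_mod_cast hmN
          push_cast at h4
          linarith
        rw [this, zero_mul]
      rw [hF]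
      simp only
      rw [this, zero_mul]
  rw [h1, h2]

/-! ### The other slots -/

/-- product of the other slots -/
def Gi (y z : ℕ) (T κ : ℝ) (l : ℕ → ℝ) (i : Fin 3) (u : Fin 3 → Option ℕ) {S : ℕ} (v : Fin S → Option ℕ) :
    ArithmeticFunction ℝ :=
  (∏ j ∈ Finset.univ.erase i, msA y T κ l (u j)) * ∏ r, ps y z (v r)

theorem BFA_split {y z : ℕ} {T κ : ℝ} (lp d : ℕ → ℝ) (i : Fin 3) (u : Fin 3 → Option ℕ) {S : ℕ} (v : Fin S → Option ℕ)
    {k : ℕ} (hk : u i = some k) (hlong : T ^ (1 / 2 + κ) < (2 : ℝ) ^ k) :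
    BFA y z T κ (Function.update (fun _ => lp) i d) u v = tb d k * Gi y z T κ lp i u v := by
  unfold BFA Gi
  rw [← Finset.mul_prod_erase Finset.univ _ (Finset.mem_univ i), mul_assoc]
  congr 1
  · rw [Function.update_self, hk]
    simp only [msA, if_pos hlong]
  · congr 1
    refine Finset.prod_congr rfl fun j hj => ?_
    rw [Function.update_of_ne (Finset.ne_of_mem_erase hj)]

/-- indicator of the relevant scales -/
def ind (c1 c2 x : ℝ) (P : ℕ) : Option ℕ → ℝ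
  | none => 0
  | some k => if x / c1 ≤ 2 ^ k * (P : ℝ) ∧ 2 ^ k * (P : ℝ) ≤ c2 * x then 1 else 0

theorem ind_nonneg (c1 c2 x : ℝ) (P : ℕ) (o : Option ℕ) : 0 ≤ ind c1 c2 x P o := by
  cases o with
  | none => exact le_refl _
  | some k =>
    simp only [ind]
    split_ifs <;> norm_num

/-- number of relevant scales -/
theorem ind_sum (c1 c2 x : ℝ) (P L : ℕ) (hc1 : 0 < c1) (hc2 : 0 < c2) (hx : 0 < x) :
    ∑ o ∈ Finset.insertNone (Finset.range L), ind c1 c2 x P o ≤ c1 * c2 + 1 := by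
  rw [Finset.sum_insertNone]
  have h0 : ind c1 c2 x P none = 0 := rfl
  rw [h0, zero_add]
  have h1 : ∑ k ∈ Finset.range L, ind c1 c2 x P (some k) =
      (((Finset.range L).filter fun k => x / c1 ≤ 2 ^ k * (P : ℝ) ∧ 2 ^ k * (P : ℝ) ≤ c2 * x).card : ℝ) := by
    rw [Finset.card_filter, Nat.cast_sum]
    refine Finset.sum_congr rfl fun k _ => ?_
    simp only [ind]
    split_ifs <;> simp
  rw [h1]
  set A := (Finset.range L).filter fun k => x / c1 ≤ 2 ^ k * (P : ℝ) ∧ 2 ^ k * (P : ℝ) ≤ c2 * x with hA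
  rcases A.eq_empty_or_nonempty with h | hne
  · rw [h]
    simp only [Finset.card_empty, Nat.cast_zero]
    positivity
  · have h2 : A ⊆ Finset.Icc (A.min' hne) (A.max' hne) := by
      intro n hn
      rw [Finset.mem_Icc]
      exact ⟨A.min'_le n hn, A.le_max' n hn⟩
    have h3 := Finset.card_le_card h2
    rw [Nat.card_Icc] at h3
    have hle : A.min' hne ≤ A.max' hne := A.min'_le _ (A.max'_mem hne)
    have ha := Finset.mem_filter.1 (A.min'_mem hne)
    have hb := Finset.mem_filter.1 (A.max'_mem hne)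
    obtain ⟨t, ht⟩ := Nat.exists_eq_add_of_le hle
    have hP : (0 : ℝ) < P := by
      rcases Nat.eq_zero_or_pos P with h | h
      · exfalso
        have h4 := ha.2.1
        rw [h, Nat.cast_zero, mul_zero] at h4
        have : 0 < x / c1 := by positivity
        linarith
      · exact_mod_cast h
    have h4 : (2 : ℝ) ^ t ≤ c1 * c2 := by
      have h5 := ha.2.1
      have h6 := hb.2.2
      rw [ht, pow_add] at h6
      rw [div_le_iff₀ hc1] at h5
      have h7 : 0 < (2 : ℝ) ^ (A.min' hne) * P := by positivity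
      have h8 : (2 : ℝ) ^ t * (2 ^ (A.min' hne) * P) ≤ c1 * c2 * (2 ^ (A.min' hne) * P) := by
        calc (2 : ℝ) ^ t * (2 ^ (A.min' hne) * P) = 2 ^ (A.min' hne) * 2 ^ t * P := by ring
          _ ≤ c2 * x := h6
          _ ≤ c2 * (2 ^ (A.min' hne) * P * c1) := by gcongr
          _ = c1 * c2 * (2 ^ (A.min' hne) * P) := by ring
      exact le_of_mul_le_mul_right h8 h7
    have h5 : (t : ℝ) ≤ 2 ^ t := by exact_mod_cast (Nat.lt_two_pow_self (n := t)).le
    have h6 : A.card ≤ t + 1 := by omega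
    have h7 : (A.card : ℝ) ≤ t + 1 := by exact_mod_cast h6
    linarith

/-- the sum over the slots of `u` -/
theorem sum_u (y : ℕ) (T κ : ℝ) (l : ℕ → ℝ) (i : Fin 3) (c : Option ℕ → ℝ) :
    ∑ u ∈ Bx 3 T, c (u i) • ∏ j ∈ Finset.univ.erase i, msA y T κ l (u j) =
      (∑ o ∈ Finset.insertNone (Finset.range (LL T)), c o) •
        (∑ o ∈ Finset.insertNone (Finset.range (LL T)), msA y T κ l o) ^ 2 := by
  classical
  set I := Finset.insertNone (Finset.range (LL T)) with hI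
  set g : Fin 3 → Option ℕ → ArithmeticFunction ℝ := fun j o => if j = i then c o • 1 else msA y T κ l o with hg
  have h1 : ∀ u : Fin 3 → Option ℕ, c (u i) • ∏ j ∈ Finset.univ.erase i, msA y T κ l (u j) = ∏ j, g j (u j) := by
    intro u
    rw [← Finset.mul_prod_erase Finset.univ _ (Finset.mem_univ i)]
    have e1 : g i (u i) = c (u i) • 1 := by rw [hg]; simp
    have e2 : ∏ j ∈ Finset.univ.erase i, g j (u j) = ∏ j ∈ Finset.univ.erase i, msA y T κ l (u j) := by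
      refine Finset.prod_congr rfl fun j hj => ?_
      rw [hg]
      simp only
      rw [if_neg (Finset.ne_of_mem_erase hj)]
    rw [e1, e2, smul_one_mul]
  rw [Finset.sum_congr rfl fun u _ => h1 u]
  unfold Bx
  rw [← Finset.prod_univ_sum (fun _ : Fin 3 => I) (fun j o => g j o),
    ← Finset.mul_prod_erase Finset.univ _ (Finset.mem_univ i)]
  have e1 : ∑ o ∈ I, g i o = (∑ o ∈ I, c o) • 1 := by
    rw [Finset.sum_smul]
    refine Finset.sum_congr rfl fun o _ => ?_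
    rw [hg]
    simp
  have e2 : ∏ j ∈ Finset.univ.erase i, ∑ o ∈ I, g j o = (∑ o ∈ I, msA y T κ l o) ^ 2 := by
    have h2 : ∀ j ∈ Finset.univ.erase i, ∑ o ∈ I, g j o = ∑ o ∈ I, msA y T κ l o := by
      intro j hj
      refine Finset.sum_congr rfl fun o _ => ?_
      rw [hg]
      simp only
      rw [if_neg (Finset.ne_of_mem_erase hj)]
    rw [Finset.prod_congr rfl h2, Finset.prod_const, Finset.card_erase_of_mem (Finset.mem_univ i)]
    rfl
  rw [e1, e2, smul_one_mul]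

/-! ### Masses -/

theorem mu_le_of_supp {N M : ℕ} {f : ArithmeticFunction ℝ} (hf : NN f) (h : ∀ n, M < n → f n = 0) :
    mu N f ≤ ∑ n ∈ Finset.Icc 1 M, f n / n := by
  have h1 : mu N f ≤ ∑ n ∈ Finset.Icc 1 (max N M), f n / n := by
    apply Finset.sum_le_sum_of_subset_of_nonneg (Finset.Icc_subset_Icc le_rfl (le_max_left _ _))
    intro n _ _
    exact div_nonneg (hf n) (Nat.cast_nonneg n)
  refine h1.trans (le_of_eq ?_)
  symm
  apply Finset.sum_subset (Finset.Icc_subset_Icc le_rfl (le_max_right _ _))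
  intro m hm hm'
  rw [Finset.mem_Icc] at hm hm'
  rw [h m (by omega), zero_div]

theorem psi_eq_zero_of_lt {k n : ℕ} (h : 2 * 2 ^ k < n) : psi ((n : ℝ) / 2 ^ k) = 0 := by
  by_contra h0
  have h3 := (Pool.Agent.Work.MP_56b8f5_nt.UC.psi_supp h0).2
  rw [div_le_iff₀ (by positivity)] at h3
  have h4 : ((2 * 2 ^ k : ℕ) : ℝ) < n := by exact_mod_cast h
  push_cast at h4
  linarith

/-- mass of the sum over the scales of a slot for rough numbers -/
theorem mu_R {N y : ℕ} {T κ D C0 E CM : ℝ} {lp lm : ℕ → ℝ} (hT : 3 ≤ T) (hκ : 0 < κ) (hCM : 1 ≤ CM) (hC0 : 1 ≤ C0)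
    (hy : 2 ≤ y) (hS : IsSv y D C0 E lp lm) (hD : D ^ 2 * Real.log y ≤ T ^ (1 / 2 + κ))
    (h2 : ∀ l : ℕ, ∑ n ∈ Finset.Icc 1 (2 * 2 ^ l), rb y l n / (n : ℝ) ≤ CM / Real.log y)
    (h3 : ∀ l : ℕ, D ^ 2 * Real.log y ≤ 2 ^ l →
      ∑ n ∈ Finset.Icc 1 (2 * 2 ^ l), tb lp l n / (n : ℝ) ≤ CM * C0 / Real.log y) :
    mu N (∑ o ∈ Finset.insertNone (Finset.range (LL T)), msA y T κ lp o) ≤ 1 + LL T * (CM * C0 / Real.log y) := by
  have hy2 : (2 : ℝ) ≤ y := by exact_mod_cast hy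
  have hly : 0 < Real.log y := Real.log_pos (by linarith)
  rw [mu_sum, Finset.sum_insertNone]
  have e0 : msA y T κ lp none = 1 := rfl
  rw [e0]
  apply add_le_add (mu_one_le N)
  have h4 : ∀ k ∈ Finset.range (LL T), mu N (msA y T κ lp (some k)) ≤ CM * C0 / Real.log y := by
    intro k _
    have hnn := (slot hT hκ hS (some k)).1
    by_cases hlong : T ^ (1 / 2 + κ) < (2 : ℝ) ^ k
    · have e1 : msA y T κ lp (some k) = tb lp k := by
        simp only [msA, if_pos hlong]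
      rw [e1] at hnn ⊢
      refine (mu_le_of_supp (M := 2 * 2 ^ k) hnn ?_).trans (h3 k (hD.trans hlong.le))
      intro n hn
      show psi ((n : ℝ) / 2 ^ k) * th lp n = 0
      rw [psi_eq_zero_of_lt hn, zero_mul]
    · have e1 : msA y T κ lp (some k) = rb y k := by
        simp only [msA, if_neg hlong]
      rw [e1]
      refine (mu_le_of_supp (M := 2 * 2 ^ k) (nn_rb y k) ?_).trans ((h2 k).trans ?_)
      · intro n hn
        rw [rb_apply, psi_eq_zero_of_lt hn, mul_zero]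
      · gcongr
        exact le_mul_of_one_le_right (by linarith) hC0
  refine (Finset.sum_le_sum h4).trans (le_of_eq ?_)
  rw [Finset.sum_const, Finset.card_range, nsmul_eq_mul]

theorem nn_pbt (y z L : ℕ) : NN (pbt y z L) := nn_sum _ _ fun l _ => nn_pbl y z l

theorem pbt_le (y z L n : ℕ) : pbt y z L n ≤ pb y z n := by
  unfold pbt
  rw [af_sum, Finset.sum_congr rfl fun l _ => pbl_apply y z l n, ← Finset.mul_sum, sum_psi_eq]
  have h1 : 0 ≤ pb y z n := by
    have h2 : pb y z n = if n.Prime ∧ y < n ∧ n ≤ z then (1 : ℝ) else 0 := rfl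
    rw [h2]
    split_ifs <;> norm_num
  have h2 := Pool.Agent.Work.MP_56b8f5_nt.UC.eta_le_one (2 * (n : ℝ) / 2 ^ L)
  have h3 := Pool.Agent.Work.MP_56b8f5_nt.UC.eta_nonneg (2 * (n : ℝ))
  calc pb y z n * (eta (2 * (n : ℝ) / 2 ^ L) - eta (2 * (n : ℝ))) ≤ pb y z n * 1 := by
        gcongr
        linarith
    _ = pb y z n := mul_one _

theorem mu_pbt (N y z L : ℕ) : mu N (pbt y z L) ≤ ∑ p ∈ (Finset.Ioc y z).filter Nat.Prime, (1 : ℝ) / p := by
  have h1 : mu N (pbt y z L) ≤ ∑ n ∈ Finset.Icc 1 N, pb y z n / n := by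
    apply Finset.sum_le_sum
    intro n _
    have := pbt_le y z L n
    gcongr
  have h2 : ∑ n ∈ Finset.Icc 1 N, pb y z n / n =
      ∑ n ∈ (Finset.Icc 1 N).filter (fun n => n.Prime ∧ y < n ∧ n ≤ z), (1 : ℝ) / n := by
    rw [Finset.sum_filter]
    refine Finset.sum_congr rfl fun n _ => ?_
    have h2 : pb y z n = if n.Prime ∧ y < n ∧ n ≤ z then (1 : ℝ) else 0 := rfl
    rw [h2]
    split_ifs
    · rfl
    · rw [zero_div]
  rw [h2] at h1
  refine h1.trans ?_
  apply Finset.sum_le_sum_of_subset_of_nonneg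
  · intro n hn
    rw [Finset.mem_filter] at hn
    rw [Finset.mem_filter, Finset.mem_Ioc]
    exact ⟨hn.2.2, hn.2.1⟩
  · intro n _ _
    positivity

/-- mass of the prime slots with the weights `cw` -/
theorem mu_V (N y z S : ℕ) (T M : ℝ) (hM : ∑ p ∈ (Finset.Ioc y z).filter Nat.Prime, (1 : ℝ) / p ≤ M) :
    mu N (∑ v ∈ Bx S T, cw v • ∏ r, ps y z (v r)) ≤ 5 * Real.exp (3 * M) := by
  have h1 : ∑ v ∈ Bx S T, cw v • ∏ r, ps y z (v r) =
      (5 : ℝ) • ∑ s ∈ Finset.range (S + 1), ((3 : ℝ) ^ s / (s.factorial : ℝ)) • pbt y z (LL T) ^ s := by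
    rw [← sum_v, Finset.smul_sum]
    refine Finset.sum_congr rfl fun v _ => ?_
    rw [smul_smul]
    congr 1
    unfold cw
    ring
  rw [h1, mu_smul, mu_sum]
  have h0 : 0 ≤ mu N (pbt y z (LL T)) := mu_nonneg (nn_pbt _ _ _)
  have h2 : ∑ s ∈ Finset.range (S + 1), mu N (((3 : ℝ) ^ s / (s.factorial : ℝ)) • pbt y z (LL T) ^ s) ≤
      ∑ s ∈ Finset.range (S + 1), (3 * mu N (pbt y z (LL T))) ^ s / (s.factorial : ℝ) := by
    refine Finset.sum_le_sum fun s _ => ?_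
    rw [mu_smul, mul_pow, mul_div_right_comm]
    exact mul_le_mul_of_nonneg_left (mu_pow_le (nn_pbt _ _ _) s) (by positivity)
  have h3 := Real.sum_le_exp_of_nonneg (x := 3 * mu N (pbt y z (LL T))) (by positivity) (S + 1)
  have h4 : Real.exp (3 * mu N (pbt y z (LL T))) ≤ Real.exp (3 * M) := by
    apply Real.exp_le_exp.2
    have := (mu_pbt N y z (LL T)).trans hM
    linarith
  linarith

/-! ### One term -/

theorem term_le {w : ℝ → ℝ} {d : ℕ → ℝ} {G : ArithmeticFunction ℝ} {k N y : ℕ} {x T T1 Cw CI E D κ : ℝ} (hG : NN G)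
    (hx : 0 < x) (hT : 1 ≤ T) (hT1 : 0 < T1) (hCw : 1 ≤ Cw) (hCI : 0 ≤ CI) (hD : 0 ≤ D) (hκ : 0 < κ)
    (hly : 0 < Real.log y)
    (hN : ∀ n : ℕ, w (((n : ℝ) / x) ^ T1) ≠ 0 → 1 ≤ n ∧ n ≤ N)
    (hwin : ∀ n : ℕ, w (((n : ℝ) / x) ^ T1) ≠ 0 → x / Cw ≤ n ∧ (n : ℝ) ≤ (1 + Cw) * x)
    (hlong : T ^ (1 / 2 + κ) < (2 : ℝ) ^ k)
    (hin : ∀ P : ℕ, 1 ≤ P → ∑ m ∈ Finset.Icc 1 (2 * 2 ^ k), tb d k m * w (((m : ℝ) * P / x) ^ T1) ≤
      CI * (E / Real.log y) * (x / (P * T1)) + CI * D) :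
    T1 / x * SW w (⇑(tb d k * G)) x T1 ≤ (CI * (E / Real.log y) + CI * D * T1 * (2 * (1 + Cw)) / T ^ (1 / 2 : ℝ)) *
      ∑ P ∈ Finset.Icc 1 N, G P / P * ind (2 * Cw) (2 * (1 + Cw)) x P (some k) := by
  rw [SW_mul w _ _ x T1 N hN, Finset.mul_sum, Finset.mul_sum]
  refine Finset.sum_le_sum fun P hP => ?_
  rw [Finset.mem_Icc] at hP
  rw [inner_eq w d k P x T1 N hP.1 hN]
  have hP0 : (0 : ℝ) < P := by exact_mod_cast hP.1
  have hGP := hG P
  by_cases hrel : x / (2 * Cw) ≤ 2 ^ k * (P : ℝ) ∧ 2 ^ k * (P : ℝ) ≤ 2 * (1 + Cw) * x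
  · have e1 : ind (2 * Cw) (2 * (1 + Cw)) x P (some k) = 1 := by
      simp only [ind]
      rw [if_pos hrel]
    rw [e1, mul_one]
    have hT12 : 0 < T ^ (1 / 2 : ℝ) := by positivity
    have h1 : T ^ (1 / 2 : ℝ) ≤ 2 ^ k := by
      refine le_trans ?_ hlong.le
      apply Real.rpow_le_rpow_of_exponent_le hT
      linarith
    have h2 : (P : ℝ) / x ≤ 2 * (1 + Cw) / T ^ (1 / 2 : ℝ) := by
      rw [div_le_div_iff₀ hx hT12]
      calc (P : ℝ) * T ^ (1 / 2 : ℝ) ≤ P * 2 ^ k := by gcongr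
        _ = 2 ^ k * P := mul_comm _ _
        _ ≤ 2 * (1 + Cw) * x := hrel.2
    calc T1 / x * (G P * ∑ m ∈ Finset.Icc 1 (2 * 2 ^ k), tb d k m * w (((m : ℝ) * P / x) ^ T1))
        ≤ T1 / x * (G P * (CI * (E / Real.log y) * (x / (P * T1)) + CI * D)) := by
          have := hin P hP.1
          gcongr
      _ = (CI * (E / Real.log y) + CI * D * T1 * (P / x)) * (G P / P) := by
          field_simp
      _ ≤ (CI * (E / Real.log y) + CI * D * T1 * (2 * (1 + Cw) / T ^ (1 / 2 : ℝ))) * (G P / P) := by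
          gcongr
      _ = _ := by rw [mul_div_assoc (CI * D * T1)]
  · have e1 : ind (2 * Cw) (2 * (1 + Cw)) x P (some k) = 0 := by
      simp only [ind]
      rw [if_neg hrel]
    have e2 : ∑ m ∈ Finset.Icc 1 (2 * 2 ^ k), tb d k m * w (((m : ℝ) * P / x) ^ T1) = 0 := by
      refine Finset.sum_eq_zero fun m _ => ?_
      by_contra h0
      have h1 : w (((m : ℝ) * P / x) ^ T1) ≠ 0 := right_ne_zero_of_mul h0
      have h2 : psi ((m : ℝ) / 2 ^ k) * th d m ≠ 0 := left_ne_zero_of_mul h0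
      have h3 := Pool.Agent.Work.MP_56b8f5_nt.UC.psi_supp (left_ne_zero_of_mul h2)
      have h4 := hwin (m * P) (by push_cast; exact h1)
      push_cast at h4
      rw [le_div_iff₀ (by positivity), div_le_iff₀ (by positivity)] at h3
      apply hrel
      constructor
      · rw [div_le_iff₀ (by positivity)]
        have h5 := h4.1
        rw [div_le_iff₀ (by positivity)] at h5
        calc x ≤ m * P * Cw := h5
          _ ≤ (2 * 2 ^ k) * P * Cw := by
            have := h3.2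
            gcongr
          _ = 2 ^ k * P * (2 * Cw) := by ring
      · have h5 : (2 : ℝ) ^ k ≤ 2 * m := by linarith [h3.1]
        calc (2 : ℝ) ^ k * P ≤ 2 * m * P := by gcongr
          _ = 2 * (m * P) := by ring
          _ ≤ 2 * ((1 + Cw) * x) := by linarith [h4.2]
          _ = 2 * (1 + Cw) * x := by ring
    rw [e1, e2]
    simp

/-- the sum over all boxes for fixed `i` and `P` -/
theorem sum_boxes (y z : ℕ) (T κ : ℝ) (l : ℕ → ℝ) (i : Fin 3) (c : Option ℕ → ℝ) (S P : ℕ) :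
    ∑ u ∈ Bx 3 T, ∑ v ∈ Bx S T, cw v * (Gi y z T κ l i u v P * c (u i)) =
      (∑ o ∈ Finset.insertNone (Finset.range (LL T)), c o) *
        ((∑ o ∈ Finset.insertNone (Finset.range (LL T)), msA y T κ l o) ^ 2 *
          ∑ v ∈ Bx S T, cw v • ∏ r, ps y z (v r)) P := by
  rw [← af_smul, ← smul_mul_assoc, ← sum_u y T κ l i c, Finset.sum_mul_sum, af_sum]
  refine Finset.sum_congr rfl fun u _ => ?_
  rw [af_sum]
  refine Finset.sum_congr rfl fun v _ => ?_
  rw [smul_mul_smul_comm, af_smul]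
  unfold Gi
  ring

theorem swap4 {α β γ δ : Type*} (a : Finset α) (b : Finset β) (c : Finset γ) (d : Finset δ) (f : α → β → γ → δ → ℝ) :
    ∑ u ∈ a, ∑ v ∈ b, ∑ i ∈ c, ∑ P ∈ d, f u v i P = ∑ i ∈ c, ∑ P ∈ d, ∑ u ∈ a, ∑ v ∈ b, f u v i P := by
  rw [Finset.sum_congr rfl (fun u _ => Finset.sum_comm (s := b) (t := c) (f := fun v i => ∑ P ∈ d, f u v i P)),
    Finset.sum_comm]
  refine Finset.sum_congr rfl fun i _ => ?_
  rw [Finset.sum_congr rfl (fun u _ => Finset.sum_comm (s := b) (t := d) (f := fun v P => f u v i P)),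
    Finset.sum_comm]

theorem cw_nonneg {S : ℕ} (v : Fin S → Option ℕ) : 0 ≤ cw v := by
  unfold cw
  positivity

/-- the total over all boxes in terms of masses -/
theorem total_le (y z N S : ℕ) (T κ A c1 c2 x : ℝ) (lp : ℕ → ℝ) (hA : 0 ≤ A) (hc1 : 0 < c1) (hc2 : 0 < c2) (hx : 0 < x)
    (hnn : ∀ o, NN (msA y T κ lp o)) :
    ∑ u ∈ Bx 3 T, ∑ v ∈ Bx S T, cw v * ∑ i : Fin 3, A * ∑ P ∈ Finset.Icc 1 N,
      Gi y z T κ lp i u v P / P * ind c1 c2 x P (u i) ≤
    3 * A * (c1 * c2 + 1) * (mu N (∑ o ∈ Finset.insertNone (Finset.range (LL T)), msA y T κ lp o) ^ 2 *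
      mu N (∑ v ∈ Bx S T, cw v • ∏ r, ps y z (v r))) := by
  set R := ∑ o ∈ Finset.insertNone (Finset.range (LL T)), msA y T κ lp o with hR
  set V := ∑ v ∈ Bx S T, cw v • ∏ r, ps y z (v r) with hV
  have hRn : NN R := nn_sum _ _ fun o _ => hnn o
  have hVn : NN V := nn_sum _ _ fun v _ => nn_smul (nn_prod _ _ fun r _ => nn_ps y z (v r)) (cw_nonneg v)
  have h1 : ∑ u ∈ Bx 3 T, ∑ v ∈ Bx S T, cw v * ∑ i : Fin 3, A * ∑ P ∈ Finset.Icc 1 N,
      Gi y z T κ lp i u v P / P * ind c1 c2 x P (u i) =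
      ∑ i : Fin 3, ∑ P ∈ Finset.Icc 1 N, (A / P) * ∑ u ∈ Bx 3 T, ∑ v ∈ Bx S T,
        cw v * (Gi y z T κ lp i u v P * ind c1 c2 x P (u i)) := by
    simp only [Finset.mul_sum]
    rw [swap4]
    refine Finset.sum_congr rfl fun i _ => Finset.sum_congr rfl fun P _ => Finset.sum_congr rfl fun u _ =>
      Finset.sum_congr rfl fun v _ => ?_
    ring
  rw [h1]
  have h2 : ∀ i : Fin 3, ∑ P ∈ Finset.Icc 1 N, (A / P) * ∑ u ∈ Bx 3 T, ∑ v ∈ Bx S T,
        cw v * (Gi y z T κ lp i u v P * ind c1 c2 x P (u i)) ≤ A * (c1 * c2 + 1) * (mu N R ^ 2 * mu N V) := by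
    intro i
    have h3 : ∑ P ∈ Finset.Icc 1 N, (A / P) * ∑ u ∈ Bx 3 T, ∑ v ∈ Bx S T,
        cw v * (Gi y z T κ lp i u v P * ind c1 c2 x P (u i)) ≤ A * (c1 * c2 + 1) * mu N (R ^ 2 * V) := by
      unfold mu
      rw [Finset.mul_sum]
      refine Finset.sum_le_sum fun P _ => ?_
      rw [sum_boxes y z T κ lp i (ind c1 c2 x P) S P]
      have h4 := ind_sum c1 c2 x P (LL T) hc1 hc2 hx
      have h5 : 0 ≤ (R ^ 2 * V) P := (nn_pow hRn 2).mul hVn P
      have h6 : 0 ≤ (R ^ 2 * V) P / P := div_nonneg h5 (Nat.cast_nonneg P)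
      calc A / P * ((∑ o ∈ Finset.insertNone (Finset.range (LL T)), ind c1 c2 x P o) * (R ^ 2 * V) P)
          = A * (∑ o ∈ Finset.insertNone (Finset.range (LL T)), ind c1 c2 x P o) * ((R ^ 2 * V) P / P) := by ring
        _ ≤ A * (c1 * c2 + 1) * ((R ^ 2 * V) P / P) := by gcongr
    refine h3.trans ?_
    have h4 : mu N (R ^ 2 * V) ≤ mu N R ^ 2 * mu N V := by
      refine (mu_mul_le (nn_pow hRn 2) hVn).trans ?_
      exact mul_le_mul_of_nonneg_right (mu_pow_le hRn 2) (mu_nonneg hVn)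
    gcongr
  refine (Finset.sum_le_sum fun i _ => h2 i).trans (le_of_eq ?_)
  rw [Finset.sum_const, Finset.card_univ, Fintype.card_fin, nsmul_eq_mul]
  push_cast
  ring

/-- powers of logarithms -/
theorem log_rpow_le {r T : ℝ} (hr : 0 < r) (hT : 1 ≤ T) :
    Real.log T ^ r ≤ (20 * r / 9) ^ r * T ^ (9 / 20 : ℝ) := by
  have h0 : 0 ≤ Real.log T := Real.log_nonneg hT
  have h1 := Real.log_le_rpow_div (by linarith : (0 : ℝ) ≤ T) (show 0 < 9 / 20 / r by positivity)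
  have h2 := Real.rpow_le_rpow h0 h1 hr.le
  refine h2.trans (le_of_eq ?_)
  rw [Real.div_rpow (by positivity) (by positivity), ← Real.rpow_mul (by linarith), div_mul_cancel₀ _ hr.ne',
    div_eq_mul_inv, mul_comm, ← Real.inv_rpow (by positivity)]
  congr 2
  field_simp

end SE_aux

open SE_aux V1_aux in
open Classical in
theorem iSE (hMa : StMa) (hIn : StIn) (_hPd : StPd) (_hRg : StRg) : StSE := by
  intro w hw hw0 C0 hC0
  obtain ⟨Cw, hCw, -, hwin⟩ := Win.window w hw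
  obtain ⟨CI, hCI, hIn'⟩ := hIn w hw hw0
  obtain ⟨CM, hCM, hM1, hM2, hM3⟩ := hMa
  set K : ℝ := (2 * Cw) * (2 * (1 + Cw)) + 1 with hK
  have hCw0 : 0 < Cw := by linarith
  have hK1 : 1 ≤ K := by
    have : 0 < (2 * Cw) * (2 * (1 + Cw)) := by positivity
    linarith
  set C3 : ℝ := 3 * K * (81 * CM ^ 2 * C0 ^ 2) * (5 * Real.exp (3 * CM) * 8) * (2 * CI) with hC3
  have hexp : 1 ≤ Real.exp (3 * CM) := Real.one_le_exp (by linarith)
  have hC31 : 1 ≤ C3 := by
    have h1 : 1 ≤ CM ^ 2 := one_le_pow₀ hCM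
    have h2 : 1 ≤ C0 ^ 2 := one_le_pow₀ hC0
    have h3 : 1 ≤ 3 * K := by linarith
    have h4 : 1 ≤ 81 * CM ^ 2 * C0 ^ 2 := by
      have : 1 ≤ CM ^ 2 * C0 ^ 2 := one_le_mul_of_one_le_of_one_le h1 h2
      calc 1 ≤ CM ^ 2 * C0 ^ 2 := this
        _ ≤ 81 * (CM ^ 2 * C0 ^ 2) := by linarith
        _ = 81 * CM ^ 2 * C0 ^ 2 := by ring
    have h5 : 1 ≤ 5 * Real.exp (3 * CM) * 8 := by linarith
    have h6 : 1 ≤ 2 * CI := by linarith
    rw [hC3]
    exact one_le_mul_of_one_le_of_one_le (one_le_mul_of_one_le_of_one_le (one_le_mul_of_one_le_of_one_le h3 h4) h5) h6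
  refine ⟨C3, hC31, ?_⟩
  intro η κ1 κ3 κ' E B hη hη' hκ1 hκ1' hκ3 hκ3' hκ' hκ'' hE hB
  set Mη : ℝ := (9 * CM * C0 / η) ^ 2 * (5 * (Real.exp (3 * CM) * 8 / η ^ 3)) with hMη
  have hMη0 : 0 < Mη := by positivity
  set CB : ℝ := (20 * (B + 2) / 9) ^ (B + 2) with hCB
  have hCB0 : 0 < CB := by positivity
  set Cf : ℝ := 3 * K * Mη * CI * (2 * (1 + Cw)) * CB with hCf
  refine ⟨max (max 9 (4 ^ (1 / η))) Cf, le_trans (by norm_num) ((le_max_left _ _).trans (le_max_left _ _)), ?_⟩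
  intro T x lp lm hT hx1 hx2 hS
  have hT9 : 9 ≤ T := ((le_max_left _ _).trans (le_max_left _ _)).trans hT
  have hTE : (4 : ℝ) ^ (1 / η) ≤ T := ((le_max_right _ _).trans (le_max_left _ _)).trans hT
  have hT0 : 0 < T := by linarith
  have hT1 : 1 ≤ T := by linarith
  have hx0 : 0 < x := lt_of_lt_of_le (by positivity) hx1
  have hxone : 1 ≤ x := le_trans (one_le_pow₀ hT1) hx1
  have hl2 : 2 ≤ Real.log T := by
    rw [Real.le_log_iff_exp_le hT0]
    have h1 := Real.exp_one_lt_d9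
    have h2 : Real.exp 2 = Real.exp 1 * Real.exp 1 := by rw [← Real.exp_add]; norm_num
    have h3 := Real.exp_pos 1
    nlinarith
  have hl0 : 0 < Real.log T := by linarith
  set y : ℕ := zz η T with hy
  set z : ℕ := zz (1 / 2 - κ1) T with hz
  have hTη : (4 : ℝ) ≤ T ^ η := by
    have h1 := Real.rpow_le_rpow (by positivity) hTE hη.le
    rwa [← Real.rpow_mul (by norm_num), one_div, inv_mul_cancel₀ hη.ne', Real.rpow_one] at h1
  have hyge : T ^ η / 2 ≤ (y : ℝ) := zz_ge hη.le hT1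
  have hyle : (y : ℝ) ≤ T ^ η := Nat.floor_le (by positivity)
  have hy2 : 2 ≤ y := by
    have : (2 : ℝ) ≤ y := by linarith
    exact_mod_cast this
  have hy0 : (0 : ℝ) < y := by exact_mod_cast (by omega : 0 < y)
  have hly : η / 2 * Real.log T ≤ Real.log y := by
    have h1 := Real.log_le_log (by positivity) hyge
    rw [Real.log_div (by positivity) (by norm_num), Real.log_rpow hT0] at h1
    have h2 := Real.log_le_log (by norm_num) hTη
    rw [Real.log_rpow hT0] at h2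
    have h3 : Real.log 4 = 2 * Real.log 2 := by
      rw [show (4 : ℝ) = 2 ^ 2 by norm_num, Real.log_pow]
      push_cast
      ring
    linarith
  have hly0 : 0 < Real.log y := lt_of_lt_of_le (by positivity) hly
  have hyz : y ≤ z := zz_mono (by linarith) hT1
  set D : ℝ := T ^ κ' with hD
  have hD1 : 1 ≤ D := Real.one_le_rpow hT1 hκ'.le
  have hD20 : D ≤ T ^ (1 / 20 : ℝ) := Real.rpow_le_rpow_of_exponent_le hT1 hκ''
  have hDly : D ^ 2 * Real.log y ≤ T ^ (1 / 2 + κ3) := by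
    have h1 : D ^ 2 ≤ T ^ (1 / 10 : ℝ) := by
      calc D ^ 2 ≤ (T ^ (1 / 20 : ℝ)) ^ 2 := by gcongr
        _ = T ^ (1 / 10 : ℝ) := by
          rw [← Real.rpow_natCast, ← Real.rpow_mul hT0.le]
          norm_num
    have h2 : Real.log y ≤ T ^ (2 / 5 : ℝ) := by
      have h3 := Real.log_le_log hy0 hyle
      rw [Real.log_rpow hT0] at h3
      have h4 := Real.log_le_rpow_div hT0.le (show (0 : ℝ) < 2 / 5 by norm_num)
      have h5 : 0 < T ^ (2 / 5 : ℝ) := by positivity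
      calc Real.log y ≤ η * Real.log T := h3
        _ ≤ 1 / 20 * (T ^ (2 / 5 : ℝ) / (2 / 5)) := by gcongr
        _ = 1 / 8 * T ^ (2 / 5 : ℝ) := by ring
        _ ≤ T ^ (2 / 5 : ℝ) := by linarith
    calc D ^ 2 * Real.log y ≤ T ^ (1 / 10 : ℝ) * T ^ (2 / 5 : ℝ) := by gcongr
      _ = T ^ (1 / 2 : ℝ) := by rw [← Real.rpow_add hT0]; norm_num
      _ ≤ T ^ (1 / 2 + κ3) := Real.rpow_le_rpow_of_exponent_le hT1 (by linarith)
  set T1 : ℝ := Real.log T ^ B with hT1def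
  have hT1one : 1 ≤ T1 := Real.one_le_rpow (by linarith) (by linarith)
  have hT10 : 0 < T1 := by linarith
  -- the window
  obtain ⟨x1, hxa, hxb, hn⟩ := hwin x T1 hx0 hT1one
  have hwin' : ∀ n : ℕ, w (((n : ℝ) / x) ^ T1) ≠ 0 → x / Cw ≤ n ∧ (n : ℝ) ≤ (1 + Cw) * x := by
    intro n h0
    obtain ⟨h1, h2⟩ := hn n h0
    refine ⟨by linarith, ?_⟩
    have h3 : x / T1 ≤ x := div_le_self hx0.le hT1one
    have h4 : Cw * (x / T1) ≤ Cw * x := by gcongr
    linarith
  set N : ℕ := ⌊(1 + Cw) * x⌋₊ with hN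
  have hN' : ∀ n : ℕ, w (((n : ℝ) / x) ^ T1) ≠ 0 → 1 ≤ n ∧ n ≤ N := by
    intro n h0
    obtain ⟨h1, h2⟩ := hwin' n h0
    refine ⟨?_, Nat.le_floor h2⟩
    have h3 : 0 < x / Cw := by positivity
    have h4 : (0 : ℝ) < n := by linarith
    exact_mod_cast h4
  set A : ℝ := CI * (E / Real.log y) + CI * D * T1 * (2 * (1 + Cw)) / T ^ (1 / 2 : ℝ) with hA
  have hA0 : 0 ≤ A := by positivity
  have hnn : ∀ o, NN (msA y T κ3 lp o) := fun o => (slot (by linarith) hκ3 hS o).1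
  -- every term
  have hterm : ∀ (u : Fin 3 → Option ℕ) (v : Fin (SS η) → Option ℕ) (i : Fin 3), Lg T κ3 (u i) →
      T1 / x * SW w (⇑(BFA y z T κ3 (Function.update (fun _ => lp) i (fun d => lp d - lm d)) u v)) x T1 ≤
        A * ∑ P ∈ Finset.Icc 1 N, Gi y z T κ3 lp i u v P / P * ind (2 * Cw) (2 * (1 + Cw)) x P (u i) := by
    intro u v i hL
    obtain ⟨k, hk, hlong⟩ := hL
    have hG : NN (Gi y z T κ3 lp i u v) :=
      (nn_prod _ _ fun j _ => hnn (u j)).mul (nn_prod _ _ fun r _ => nn_ps y z (v r))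
    rw [BFA_split lp _ i u v hk hlong, hk]
    exact term_le hG hx0 hT1 hT10 hCw (by linarith) (by linarith) hκ3 hly0 hN' hwin' hlong
      (fun P hP => hIn' y k P D C0 E x T1 lp lm hy2 hS hD1 hE hP hxone hT1one)
  have hstep : ∑ u ∈ Bx 3 T, ∑ v ∈ Bx (SS η) T, cw v * ∑ i ∈ Finset.univ.filter (fun i => Lg T κ3 (u i)),
      T1 / x * SW w (⇑(BFA y z T κ3 (Function.update (fun _ => lp) i (fun d => lp d - lm d)) u v)) x T1 ≤
      ∑ u ∈ Bx 3 T, ∑ v ∈ Bx (SS η) T, cw v * ∑ i : Fin 3, A * ∑ P ∈ Finset.Icc 1 N,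
        Gi y z T κ3 lp i u v P / P * ind (2 * Cw) (2 * (1 + Cw)) x P (u i) := by
    refine Finset.sum_le_sum fun u _ => Finset.sum_le_sum fun v _ => ?_
    apply mul_le_mul_of_nonneg_left _ (cw_nonneg v)
    have h1 : ∑ i ∈ Finset.univ.filter (fun i => Lg T κ3 (u i)),
      T1 / x * SW w (⇑(BFA y z T κ3 (Function.update (fun _ => lp) i (fun d => lp d - lm d)) u v)) x T1 ≤
      ∑ i ∈ Finset.univ.filter (fun i => Lg T κ3 (u i)), A * ∑ P ∈ Finset.Icc 1 N,
        Gi y z T κ3 lp i u v P / P * ind (2 * Cw) (2 * (1 + Cw)) x P (u i) :=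
      Finset.sum_le_sum fun i hi => hterm u v i (Finset.mem_filter.1 hi).2
    refine h1.trans ?_
    apply Finset.sum_le_sum_of_subset_of_nonneg (Finset.filter_subset _ _)
    intro i _ _
    apply mul_nonneg hA0
    refine Finset.sum_nonneg fun P _ => ?_
    have hG : NN (Gi y z T κ3 lp i u v) :=
      (nn_prod _ _ fun j _ => hnn (u j)).mul (nn_prod _ _ fun r _ => nn_ps y z (v r))
    exact mul_nonneg (div_nonneg (hG P) (Nat.cast_nonneg P)) (ind_nonneg _ _ _ _ _)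
  refine hstep.trans ((total_le y z N (SS η) T κ3 A (2 * Cw) (2 * (1 + Cw)) x lp hA0 (by positivity) (by positivity)
    hx0 hnn).trans ?_)
  rw [← hK]
  -- the masses
  have hR : mu N (∑ o ∈ Finset.insertNone (Finset.range (LL T)), msA y T κ3 lp o) ≤ 9 * CM * C0 / η := by
    refine (mu_R (by linarith) hκ3 hCM hC0 hy2 hS hDly (fun l => hM2 y l hy2)
      (fun l hl => hM3 y l D C0 E lp lm hy2 hS hD1 hl hC0)).trans ?_
    have hLL : (LL T : ℝ) ≤ 4 * Real.log T := by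
      unfold LL
      push_cast
      have h1 := Nat.ceil_lt_add_one (show 0 ≤ 3 * Real.log T by linarith)
      linarith
    have h1 : (LL T : ℝ) * (CM * C0 / Real.log y) ≤ 4 * Real.log T * (CM * C0 / (η / 2 * Real.log T)) := by
      gcongr
    have h2 : 4 * Real.log T * (CM * C0 / (η / 2 * Real.log T)) = 8 * CM * C0 / η := by
      field_simp
      ring
    have h3 : 1 ≤ CM * C0 / η := by
      rw [le_div_iff₀ hη]
      have : 1 ≤ CM * C0 := one_le_mul_of_one_le_of_one_le hCM hC0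
      linarith
    calc 1 + (LL T : ℝ) * (CM * C0 / Real.log y) ≤ CM * C0 / η + 8 * CM * C0 / η := by linarith
      _ = 9 * CM * C0 / η := by ring
  have hV : mu N (∑ v ∈ Bx (SS η) T, cw v • ∏ r, ps y z (v r)) ≤ 5 * (Real.exp (3 * CM) * 8 / η ^ 3) := by
    refine (mu_V N y z (SS η) T (Real.log (2 / η) + CM) ((hM1 y z hy2 hyz).trans ?_)).trans (le_of_eq ?_)
    · have hz0 : (0 : ℝ) < z := by exact_mod_cast (by omega : 0 < z)
      have hyz' : (y : ℝ) ≤ z := by exact_mod_cast hyz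
      have h1 : Real.log z ≤ Real.log T := by
        apply Real.log_le_log hz0
        calc (z : ℝ) ≤ T ^ (1 / 2 - κ1) := Nat.floor_le (by positivity)
          _ ≤ T ^ (1 : ℝ) := Real.rpow_le_rpow_of_exponent_le hT1 (by linarith)
          _ = T := Real.rpow_one T
      have h2 : Real.log z / Real.log y ≤ 2 / η := by
        rw [div_le_div_iff₀ hly0 hη]
        have : η * Real.log T ≤ 2 * Real.log y := by linarith
        calc Real.log z * η ≤ Real.log T * η := by gcongr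
          _ ≤ 2 * Real.log y := by linarith
      have h3 : 0 < Real.log z := lt_of_lt_of_le hly0 (Real.log_le_log hy0 hyz')
      have h4 := Real.log_le_log (by positivity) h2
      linarith
    · congr 1
      rw [mul_add, Real.exp_add, show 3 * Real.log (2 / η) = Real.log ((2 / η) ^ 3) by rw [Real.log_pow]; push_cast; ring,
        Real.exp_log (by positivity)]
      field_simp
      norm_num
  have hRn : 0 ≤ mu N (∑ o ∈ Finset.insertNone (Finset.range (LL T)), msA y T κ3 lp o) :=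
    mu_nonneg (nn_sum _ _ fun o _ => hnn o)
  have hVn : 0 ≤ mu N (∑ v ∈ Bx (SS η) T, cw v • ∏ r, ps y z (v r)) :=
    mu_nonneg (nn_sum _ _ fun v _ => nn_smul (nn_prod _ _ fun r _ => nn_ps y z (v r)) (cw_nonneg v))
  have hmass : mu N (∑ o ∈ Finset.insertNone (Finset.range (LL T)), msA y T κ3 lp o) ^ 2 *
      mu N (∑ v ∈ Bx (SS η) T, cw v • ∏ r, ps y z (v r)) ≤ Mη := by
    rw [hMη]
    gcongr
  have hK0 : 0 < K := by linarith
  refine (mul_le_mul_of_nonneg_left hmass (by positivity)).trans ?_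
  -- the two parts
  have hA1 : CI * (E / Real.log y) ≤ 2 * CI / η * (E / Real.log T) := by
    have h1 : E / Real.log y ≤ E / (η / 2 * Real.log T) := by gcongr
    calc CI * (E / Real.log y) ≤ CI * (E / (η / 2 * Real.log T)) := by gcongr
      _ = 2 * CI / η * (E / Real.log T) := by field_simp
  have hA2 : CI * D * T1 * (2 * (1 + Cw)) / T ^ (1 / 2 : ℝ) ≤ CI * (2 * (1 + Cw)) * CB / Real.log T ^ 2 := by
    have h1 := log_rpow_le (show 0 < B + 2 by linarith) hT1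
    rw [Real.rpow_add hl0, ← hCB] at h1
    have h2 : Real.log T ^ (2 : ℝ) = Real.log T ^ 2 := by exact_mod_cast Real.rpow_natCast (Real.log T) 2
    rw [h2, ← hT1def] at h1
    rw [div_le_div_iff₀ (by positivity) (by positivity)]
    calc CI * D * T1 * (2 * (1 + Cw)) * Real.log T ^ 2 = CI * (2 * (1 + Cw)) * D * (T1 * Real.log T ^ 2) := by ring
      _ ≤ CI * (2 * (1 + Cw)) * T ^ (1 / 20 : ℝ) * (CB * T ^ (9 / 20 : ℝ)) := by gcongr
      _ = CI * (2 * (1 + Cw)) * CB * (T ^ (1 / 20 : ℝ) * T ^ (9 / 20 : ℝ)) := by ring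
      _ = CI * (2 * (1 + Cw)) * CB * T ^ (1 / 2 : ℝ) := by
        rw [← Real.rpow_add hT0]
        norm_num
  calc 3 * A * K * Mη ≤ 3 * (2 * CI / η * (E / Real.log T) + CI * (2 * (1 + Cw)) * CB / Real.log T ^ 2) * K * Mη := by
        rw [hA]
        gcongr
    _ = C3 / η ^ 6 * E / Real.log T + Cf / Real.log T ^ 2 := by
        rw [hC3, hCf, hMη]
        field_simp
        ring
    _ ≤ (C3 / η) ^ 10 * E / Real.log T + max (max 9 (4 ^ (1 / η))) Cf / Real.log T ^ 2 := by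
        have h1 : C3 / η ^ 6 ≤ (C3 / η) ^ 10 := by
          rw [div_pow]
          apply div_le_div₀ (by positivity) (le_self_pow₀ hC31 (by norm_num)) (by positivity)
          exact pow_le_pow_of_le_one hη.le (by linarith) (by norm_num)
        have h2 : Cf ≤ max (max 9 (4 ^ (1 / η))) Cf := le_max_right _ _
        gcongr

end Pool.Agent.Work.MP_a8fbd7_nt.OX.ASM
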