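import Mathlib
import Pool.Agent.Work.MP_a8fbd7_nt.OX.ASM.Stmts
import Pool.Agent.Work.MP_a8fbd7_nt.ZF.I_RoW
import Pool.Agent.Work.MP_56b8f5_nt.UC.I_Ow

/-! Item Sa of part ASM (MP_a8fbd7_nt, block OX): every rough block and every prime block saves a power of the logarithm. -/

set_option autoImplicit false

open MeasureTheory Set Filter Topology

noncomputable section

namespace Pool.Agent.Work.MP_a8fbd7_nt.OX.ASM

open Pool.Agent.Work.MP_56b8f5_nt.UC (IsWt Bl Dp Om psi eta Sep psi_smooth psi_supp)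
open Pool.Agent.Work.MP_a8fbd7_nt.OX.ID (Rough roughOne pb rg roughOne_apply pb_apply)

namespace Sa_aux

open Pool.Agent.Work.MP_a8fbd7_nt.ZF.RoW_aux

lemma isWt_psi : IsWt psi := ⟨psi_smooth, 1 / 2, 2, by norm_num, by norm_num, fun _ hx => psi_supp hx⟩

lemma psi_zero {x : ℝ} (h : 2 < x) : psi x = 0 := by
  by_contra h1
  exact absurd (psi_supp h1).2 (not_le.2 h)

lemma icc_range (f : ℕ → ℂ) (h0 : f 0 = 0) (M : ℕ) : ∑ n ∈ Finset.Icc 1 M, f n = ∑ i ∈ Finset.range (M + 1), f i := by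
  refine Finset.sum_subset ?_ ?_
  · intro n hn
    rw [Finset.mem_Icc] at hn
    rw [Finset.mem_range]
    omega
  · intro n hn hn2
    rw [Finset.mem_range] at hn
    rw [Finset.mem_Icc] at hn2
    have : n = 0 := by omega
    rw [this, h0]

lemma PB_rb (y l : ℕ) (t : ℝ) : PB (fun n => ((rb y l n : ℝ) : ℂ)) (2 ^ l) t = ZF.Rw psi y (2 ^ l) t := by
  have hN : (0 : ℝ) < 2 ^ l := by positivity
  rw [Rw_eq (b := 2) (fun x hx => psi_zero hx) y hN t]
  unfold PB Dp
  have h0 : cf y t 0 = 0 := by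
    unfold cf
    rw [roughOne_apply]
    simp
  rw [← icc_range _ (by rw [h0, mul_zero])]
  refine Finset.sum_congr rfl ?_
  intro n _
  unfold cf
  simp only [rb, ArithmeticFunction.coe_mk]
  push_cast
  ring

/-- the coefficients of the prime block -/
def cp (y z : ℕ) (t : ℝ) (n : ℕ) : ℂ := ((pb y z n : ℝ) : ℂ) * (n : ℂ) ^ (-(t * Complex.I))

lemma PB_pbl (y z l : ℕ) (t : ℝ) : PB (fun n => ((pbl y z l n : ℝ) : ℂ)) (2 ^ l) t =
    ∑ i ∈ Finset.range (⌊(2 : ℝ) * 2 ^ l⌋₊ + 1), ((psi ((i : ℝ) / 2 ^ l) : ℝ) : ℂ) * cp y z t i := by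
  unfold PB Dp
  have h0 : cp y z t 0 = 0 := by
    unfold cp
    rw [pb_apply]
    simp [Nat.not_prime_zero]
  rw [← icc_range _ (by rw [h0, mul_zero])]
  refine Finset.sum_congr rfl ?_
  intro n _
  unfold cp
  simp only [pbl, ArithmeticFunction.coe_mk]
  push_cast
  ring

lemma sum_cp (y z : ℕ) (t : ℝ) (k : ℕ) : ∑ i ∈ Finset.range (k + 1), cp y z t i =
    ZF.Ps ((min k z : ℕ) : ℝ) t - ZF.Ps ((min (min k z) y : ℕ) : ℝ) t := by
  classical
  unfold ZF.Ps
  rw [Nat.floor_natCast, Nat.floor_natCast]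
  have e : ∀ i : ℕ, cp y z t i = if i.Prime ∧ y < i ∧ i ≤ z then (i : ℂ) ^ (-(t * Complex.I)) else 0 := by
    intro i
    unfold cp
    rw [pb_apply]
    split_ifs <;> simp
  rw [Finset.sum_congr rfl (fun i _ => e i), ← Finset.sum_filter, eq_sub_iff_add_eq, ← Finset.sum_union]
  · refine Finset.sum_congr ?_ (fun _ _ => rfl)
    ext n
    simp only [Finset.mem_union, Finset.mem_filter, Finset.mem_range, Finset.mem_Icc]
    constructor
    · rintro (⟨h1, h2, h3, h4⟩ | ⟨⟨h1, h2⟩, h3⟩)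
      · exact ⟨⟨h2.one_lt.le, by omega⟩, h2⟩
      · exact ⟨⟨h1, by omega⟩, h3⟩
    · rintro ⟨⟨h1, h2⟩, h3⟩
      by_cases h : y < n
      · exact Or.inl ⟨by omega, h3, h, by omega⟩
      · exact Or.inr ⟨⟨h1, by omega⟩, h3⟩
  · rw [Finset.disjoint_left]
    intro n h1 h2
    simp only [Finset.mem_filter, Finset.mem_range, Finset.mem_Icc] at h1 h2
    omega

end Sa_aux

open Sa_aux ZF.RoW_aux in
theorem iSa (hRoW : ZF.StRoW) (hPrI : ZF.StPrI) : StSa := by
  intro A1 η hA1 hη hη2
  obtain ⟨b, L, B, hb, hL, hB, hw0, hwL, hwB⟩ := wt_facts isWt_psi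
  obtain ⟨C1, hC1, hR⟩ := hRoW psi isWt_psi (A1 + 1) (η / 2) (by linarith) (by linarith)
  obtain ⟨C2, hC2, hP⟩ := hPrI (A1 + 1) (6 / η) (by linarith) (by positivity)
  set K2 : ℝ := 3 * L * (2 * C2) * (2 / η) ^ (A1 + 1) with hK2
  have hK20 : 0 ≤ K2 := by positivity
  set C : ℝ := max (max 4 (2 ^ (2 / η))) (Real.exp (max (max C1 K2) (3 ^ (A1 + 1)))) with hC
  have hC4 : 4 ≤ C := (le_max_left _ _).trans (le_max_left _ _)
  have hCη : (2 : ℝ) ^ (2 / η) ≤ C := (le_max_right _ _).trans (le_max_left _ _)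
  have hCe : Real.exp (max (max C1 K2) (3 ^ (A1 + 1))) ≤ C := le_max_right _ _
  refine ⟨A1 + 3, C, by linarith, by linarith, ?_⟩
  intro T t l z hT hl1 hl2 ht1 ht2
  have hT4 : 4 ≤ T := hC4.trans hT
  have hT0 : 0 < T := by linarith
  have hlog : max (max C1 K2) (3 ^ (A1 + 1)) ≤ Real.log T := by
    rw [Real.le_log_iff_exp_le hT0]
    exact hCe.trans hT
  have hlogC1 : C1 ≤ Real.log T := ((le_max_left _ _).trans (le_max_left _ _)).trans hlog
  have hlogK2 : K2 ≤ Real.log T := ((le_max_right _ _).trans (le_max_left _ _)).trans hlog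
  have hlog3 : (3 : ℝ) ^ (A1 + 1) ≤ Real.log T := (le_max_right _ _).trans hlog
  have hlog1 : 1 ≤ Real.log T := hC1.trans hlogC1
  have hlog0 : 0 < Real.log T := by linarith
  set N : ℝ := 2 ^ l with hN
  have hN1 : 1 ≤ N := one_le_pow₀ (by norm_num)
  have hN0 : 0 < N := by linarith
  have hu : 2 ≤ T ^ (η / 2) := by
    calc (2 : ℝ) = ((2 : ℝ) ^ (2 / η)) ^ (η / 2) := by
          rw [← Real.rpow_mul (by norm_num)]
          have : 2 / η * (η / 2) = 1 := by field_simp
          rw [this, Real.rpow_one]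
      _ ≤ T ^ (η / 2) := by
          exact Real.rpow_le_rpow (by positivity) (hCη.trans hT) (by positivity)
  have hyT : T ^ (η / 2) ≤ (zz η T : ℝ) := by
    have h1 : T ^ η = T ^ (η / 2) * T ^ (η / 2) := by
      rw [← Real.rpow_add hT0]
      ring_nf
    have h2 : T ^ η - 1 < (zz η T : ℝ) := by
      unfold zz
      have := Nat.lt_floor_add_one (T ^ η)
      linarith
    nlinarith
  have hsav : ∀ K : ℝ, 0 ≤ K → K ≤ Real.log T → K * N / Real.log T ^ (A1 + 1) ≤ N / Real.log T ^ A1 := by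
    intro K hK hK2
    have h1 : Real.log T ^ (A1 + 1) = Real.log T ^ A1 * Real.log T := by
      rw [Real.rpow_add hlog0, Real.rpow_one]
    have h2 : 0 < Real.log T ^ A1 := Real.rpow_pos_of_pos hlog0 _
    rw [h1, div_le_div_iff₀ (by positivity) h2]
    have h3 : K * N ≤ Real.log T * N := mul_le_mul_of_nonneg_right hK2 hN0.le
    nlinarith [mul_le_mul_of_nonneg_right h3 h2.le]
  have ht0 : 0 < t := lt_of_lt_of_le (Real.rpow_pos_of_pos hlog0 _) ht1
  refine ⟨?_, ?_⟩
  · -- rough block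
    rw [PB_rb]
    refine (hR T N t (zz η T) (by linarith) hyT hN1 hl2 ?_ ?_).trans (hsav C1 (by linarith) hlogC1)
    · rw [abs_of_pos ht0]
      refine le_trans (le_of_eq ?_) ht1
      congr 1
      ring
    · rw [abs_of_pos ht0]
      exact ht2
  · -- prime block
    rw [PB_pbl, abel]
    set M : ℕ := ⌊(2 : ℝ) * N⌋₊ + 1 with hM
    have hMle : (M : ℝ) ≤ 3 * N := by
      have : ((⌊(2 : ℝ) * N⌋₊ : ℕ) : ℝ) ≤ 2 * N := Nat.floor_le (by positivity)
      rw [hM]
      push_cast
      linarith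
    have hgM : psi ((M : ℝ) / N) = 0 := by
      apply psi_zero
      rw [lt_div_iff₀ hN0, hM]
      push_cast
      exact Nat.lt_floor_add_one _
    rw [hgM]
    simp only [Complex.ofReal_zero, zero_mul, zero_sub, norm_neg]
    have hη0 : 0 < η / 2 * Real.log T := by positivity
    set K : ℝ := C2 * (2 * N) / (η / 2 * Real.log T) ^ (A1 + 1) with hK
    have hK0 : 0 ≤ K := by positivity
    have hpart : ∀ i ∈ Finset.range M, ‖∑ j ∈ Finset.range (i + 1), cp (zz η T) z t j‖ ≤ K := by
      intro i hi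
      rw [Finset.mem_range] at hi
      rw [sum_cp]
      set m : ℕ := min i z with hm
      by_cases hmy : m ≤ zz η T
      · rw [min_eq_left hmy, sub_self, norm_zero]
        exact hK0
      · rw [not_le] at hmy
        rw [min_eq_right hmy.le]
        have hm1 : T ^ (η / 2) ≤ (m : ℝ) := hyT.trans (by exact_mod_cast hmy.le)
        have hm2 : (2 : ℝ) ≤ m := hu.trans hm1
        have hm0 : (0 : ℝ) < m := by linarith
        have hmN : (m : ℝ) ≤ 2 * N := by
          have h1 : m ≤ ⌊(2 : ℝ) * N⌋₊ := by omega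
          have h2 : ((⌊(2 : ℝ) * N⌋₊ : ℕ) : ℝ) ≤ 2 * N := Nat.floor_le (by positivity)
          exact le_trans (by exact_mod_cast h1) h2
        have hlm1 : η / 2 * Real.log T ≤ Real.log m := by
          rw [← Real.log_rpow hT0]
          exact Real.log_le_log (by positivity) hm1
        have hmT : (m : ℝ) ≤ T ^ 3 := by
          have h1 : (2 : ℝ) ≤ T ^ (1 / 2 : ℝ) := by
            rw [← Real.sqrt_eq_rpow]
            apply Real.le_sqrt_of_sq_le
            linarith
          calc (m : ℝ) ≤ 2 * N := hmN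
            _ ≤ T ^ (1 / 2 : ℝ) * T ^ (5 / 2 : ℝ) := mul_le_mul h1 hl2 hN0.le (by positivity)
            _ = T ^ 3 := by
                rw [← Real.rpow_add hT0]
                norm_num
        have hlm2 : Real.log m ≤ 3 * Real.log T := by
          have h1 := Real.log_le_log hm0 hmT
          rw [Real.log_pow] at h1
          exact_mod_cast h1
        have hlm0 : 0 < Real.log m := hη0.trans_le hlm1
        refine (hP m (zz η T) t hm2 (by positivity) (by exact_mod_cast hmy.le) ?_ ?_).trans ?_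
        · rw [abs_of_pos ht0]
          calc Real.log m ^ (A1 + 1) ≤ (3 * Real.log T) ^ (A1 + 1) :=
                Real.rpow_le_rpow hlm0.le hlm2 (by linarith)
            _ = 3 ^ (A1 + 1) * Real.log T ^ (A1 + 1) := Real.mul_rpow (by norm_num) hlog0.le
            _ ≤ Real.log T * Real.log T ^ (A1 + 1) :=
                mul_le_mul_of_nonneg_right hlog3 (by positivity)
            _ = Real.log T ^ (A1 + 2) := by
                rw [mul_comm, ← Real.rpow_add_one hlog0.ne']
                congr 1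
                ring
            _ ≤ Real.log T ^ (A1 + 3) := Real.rpow_le_rpow_of_exponent_le hlog1 (by linarith)
            _ ≤ t := ht1
        · rw [abs_of_pos ht0]
          calc t ≤ T ^ 3 := ht2
            _ = (T ^ (η / 2)) ^ (6 / η) := by
                rw [← Real.rpow_mul hT0.le]
                have : η / 2 * (6 / η) = 3 := by field_simp; norm_num
                rw [this]
                norm_cast
            _ ≤ (m : ℝ) ^ (6 / η) := Real.rpow_le_rpow (by positivity) hm1 (by positivity)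
        · rw [hK]
          have h1 : (η / 2 * Real.log T) ^ (A1 + 1) ≤ Real.log m ^ (A1 + 1) :=
            Real.rpow_le_rpow hη0.le hlm1 (by linarith)
          have h2 : C2 * (m : ℝ) ≤ C2 * (2 * N) := mul_le_mul_of_nonneg_left hmN (by linarith)
          exact div_le_div₀ (by positivity) h2 (Real.rpow_pos_of_pos hη0 _) h1
    have hterm : ∀ i ∈ Finset.range M, ‖(((psi (((i + 1 : ℕ) : ℝ) / N) : ℝ) : ℂ) - ((psi ((i : ℝ) / N) : ℝ) : ℂ)) *
        ∑ j ∈ Finset.range (i + 1), cp (zz η T) z t j‖ ≤ L / N * K := by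
      intro i hi
      rw [norm_mul]
      refine mul_le_mul ?_ (hpart i hi) (norm_nonneg _) (by positivity)
      rw [← Complex.ofReal_sub, Complex.norm_real, Real.norm_eq_abs]
      refine (hwL _ _).trans (le_of_eq ?_)
      push_cast
      rw [← sub_div, add_sub_cancel_left, abs_of_pos (by positivity)]
      ring
    refine (norm_sum_le_of_le _ hterm).trans ?_
    rw [Finset.sum_const, Finset.card_range, nsmul_eq_mul]
    refine le_trans ?_ (hsav K2 hK20 hlogK2)
    have h1 : (M : ℝ) * (L / N * K) ≤ (3 * N) * (L / N * K) := mul_le_mul_of_nonneg_right hMle (by positivity)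
    refine h1.trans (le_of_eq ?_)
    have h2 : (η / 2 * Real.log T) ^ (A1 + 1) = (η / 2) ^ (A1 + 1) * Real.log T ^ (A1 + 1) :=
      Real.mul_rpow (by positivity) hlog0.le
    have h3 : (2 / η) ^ (A1 + 1) = ((η / 2) ^ (A1 + 1))⁻¹ := by
      rw [← Real.inv_rpow (by positivity)]
      congr 1
      rw [inv_div]
    have h4 : 0 < (η / 2) ^ (A1 + 1) := Real.rpow_pos_of_pos (by positivity) _
    have h5 : 0 < Real.log T ^ (A1 + 1) := Real.rpow_pos_of_pos hlog0 _
    rw [hK, hK2, h2, h3]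
    field_simp

end Pool.Agent.Work.MP_a8fbd7_nt.OX.ASM
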