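import Pool.Agent.Work.MP_a8fbd7_nt.OX.ASM.Stmts

/-!
MP_a8fbd7_nt, block OX, part ASM, item Sh: short slots.
-/

set_option autoImplicit false

open MeasureTheory Set Filter Topology

noncomputable section

namespace Pool.Agent.Work.MP_a8fbd7_nt.OX.ASM

namespace Sh_aux

lemma sc_one_le (o : Option ℕ) : 1 ≤ sc o := by
  cases o with
  | none => simp [sc]
  | some l => simpa [sc] using one_le_pow₀ (by norm_num : (1 : ℝ) ≤ 2)

lemma prod_one_le {ι : Type*} (s : Finset ι) (f : ι → ℝ) (hf : ∀ i ∈ s, 1 ≤ f i) :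
    1 ≤ ∏ i ∈ s, f i := by
  classical
  induction s using Finset.induction_on with
  | empty => simp
  | insert a s ha ih =>
    rw [Finset.prod_insert ha]
    exact one_le_mul_of_one_le_of_one_le (hf a (Finset.mem_insert_self a s))
      (ih fun i hi => hf i (Finset.mem_insert_of_mem hi))

lemma prod_le_pow {ι : Type*} (s : Finset ι) (f : ι → ℝ) (b : ℝ) (h0 : ∀ i ∈ s, 0 ≤ f i)
    (hf : ∀ i ∈ s, f i ≤ b) : ∏ i ∈ s, f i ≤ b ^ s.card := by
  rw [← Finset.prod_const]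
  exact Finset.prod_le_prod h0 hf

lemma pow_le_prod {ι : Type*} (s : Finset ι) (f : ι → ℝ) (b : ℝ) (h0 : 0 ≤ b)
    (hf : ∀ i ∈ s, b ≤ f i) : b ^ s.card ≤ ∏ i ∈ s, f i := by
  rw [← Finset.prod_const]
  exact Finset.prod_le_prod (fun _ _ => h0) hf

lemma comb {a b : ℝ} (ha : 1 ≤ a) (hb : 1 ≤ b) (hba : b ≤ 2 * a) {A B : ℕ} (hA : A ≤ 3)
    (hAB : A + B ≤ 4) : a ^ A * b ^ B ≤ (2 * a) ^ 3 * b := by
  have h2a : 1 ≤ 2 * a := by linarith
  have h1 : a ^ A ≤ (2 * a) ^ A := pow_le_pow_left₀ (by linarith) (by linarith) A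
  rcases Nat.eq_zero_or_pos B with hB | hB
  · subst hB
    rw [pow_zero, mul_one]
    have h2 : (2 * a) ^ A ≤ (2 * a) ^ 3 := pow_le_pow_right₀ h2a hA
    have h3 : (2 * a) ^ 3 ≤ (2 * a) ^ 3 * b := le_mul_of_one_le_right (by positivity) hb
    linarith
  · obtain ⟨j, rfl⟩ : ∃ j, B = j + 1 := ⟨B - 1, by omega⟩
    have h2 : b ^ j ≤ (2 * a) ^ j := pow_le_pow_left₀ (by linarith) hba j
    have h3 : (2 * a) ^ A * (2 * a) ^ j ≤ (2 * a) ^ 3 := by
      rw [← pow_add]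
      exact pow_le_pow_right₀ h2a (by omega)
    calc a ^ A * b ^ (j + 1) = (a ^ A * b ^ j) * b := by ring
      _ ≤ ((2 * a) ^ A * (2 * a) ^ j) * b :=
          mul_le_mul_of_nonneg_right (mul_le_mul h1 h2 (by positivity) (by positivity))
            (by linarith)
      _ ≤ (2 * a) ^ 3 * b := mul_le_mul_of_nonneg_right h3 (by linarith)

end Sh_aux

open Sh_aux in
theorem iSh : StSh := by
  classical
  intro κ1 κ2 h1 h1' h2 h2'
  refine ⟨(16 : ℝ) ^ (1 / (46 / 100 * κ1)) + 1, ?_, ?_⟩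
  · have : 0 ≤ (16 : ℝ) ^ (1 / (46 / 100 * κ1)) := by positivity
    linarith
  intro T S u v hT hu hv hPS1 hPS2
  have hC0 : 0 < (16 : ℝ) ^ (1 / (46 / 100 * κ1)) := by positivity
  have hT1 : 1 < T := by linarith
  have hT0 : 0 < T := by linarith
  have hT16 : 16 ≤ T ^ (46 / 100 * κ1) := by
    have e1 : (16 : ℝ) = ((16 : ℝ) ^ (1 / (46 / 100 * κ1))) ^ (46 / 100 * κ1) := by
      rw [← Real.rpow_mul (by norm_num), one_div_mul_cancel (by positivity), Real.rpow_one]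
    calc (16 : ℝ) = ((16 : ℝ) ^ (1 / (46 / 100 * κ1))) ^ (46 / 100 * κ1) := e1
      _ ≤ T ^ (46 / 100 * κ1) := Real.rpow_le_rpow hC0.le (by linarith) (by positivity)
  set θ := T ^ (41 / 100 : ℝ) with hθ
  have hθ1 : 1 < θ := Real.one_lt_rpow hT1 (by norm_num)
  set a := T ^ (1 / 2 + κ2) with ha
  set b := 2 * T ^ (1 / 2 - κ1) with hb
  have ha1 : 1 ≤ a := Real.one_le_rpow hT1.le (by linarith)
  have hb1 : 1 ≤ T ^ (1 / 2 - κ1) := Real.one_le_rpow hT1.le (by linarith)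
  have hb1' : 1 ≤ b := by rw [hb]; linarith
  have hba : b ≤ 2 * a := by
    rw [hb, ha]
    have : T ^ (1 / 2 - κ1) ≤ T ^ (1 / 2 + κ2) := Real.rpow_le_rpow_of_exponent_le hT1.le
      (by linarith)
    linarith
  -- sizes of the slots
  have hua : ∀ i, sc (u i) ≤ a := by
    intro i
    cases h : u i with
    | none => simpa [sc] using ha1
    | some l =>
      have h3 := hu i
      unfold Lg at h3
      push Not at h3
      exact h3 l h
  have hvb : ∀ r, sc (v r) ≤ b := by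
    intro r
    cases h : v r with
    | none => simpa [sc] using hb1'
    | some l => simpa [sc] using hv r l h
  set Lu := Finset.univ.filter (fun i => ¬ sc (u i) ≤ θ) with hLu
  set Lv := Finset.univ.filter (fun r => ¬ sc (v r) ≤ θ) with hLv
  set Su := ∏ i ∈ Finset.univ.filter (fun i => sc (u i) ≤ θ), sc (u i) with hSu
  set Sv := ∏ r ∈ Finset.univ.filter (fun r => sc (v r) ≤ θ), sc (v r) with hSv
  set Pu := ∏ i ∈ Lu, sc (u i) with hPu
  set Pv := ∏ r ∈ Lv, sc (v r) with hPv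
  have hsplit : PS u v = (Su * Sv) * (Pu * Pv) := by
    have e1 : ∏ i, sc (u i) = Su * Pu :=
      (Finset.prod_filter_mul_prod_filter_not Finset.univ (fun i => sc (u i) ≤ θ) _).symm
    have e2 : ∏ r, sc (v r) = Sv * Pv :=
      (Finset.prod_filter_mul_prod_filter_not Finset.univ (fun r => sc (v r) ≤ θ) _).symm
    unfold PS
    rw [e1, e2]
    ring
  have hSu1 : 1 ≤ Su := prod_one_le _ _ fun i _ => sc_one_le _
  have hSv1 : 1 ≤ Sv := prod_one_le _ _ fun i _ => sc_one_le _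
  have hS1 : 1 ≤ Su * Sv := one_le_mul_of_one_le_of_one_le hSu1 hSv1
  have hPu1 : 1 ≤ Pu := prod_one_le _ _ fun i _ => sc_one_le _
  have hPv1 : 1 ≤ Pv := prod_one_le _ _ fun i _ => sc_one_le _
  have hA3 : Lu.card ≤ 3 := by
    refine (Finset.card_le_univ _).trans ?_
    simp
  have hlow : θ ^ (Lu.card + Lv.card) ≤ Pu * Pv := by
    rw [pow_add]
    refine mul_le_mul (pow_le_prod _ _ _ (by linarith) ?_) (pow_le_prod _ _ _ (by linarith) ?_)
      (by positivity) (by linarith)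
    · intro i hi
      rw [hLu, Finset.mem_filter] at hi
      exact (not_le.1 hi.2).le
    · intro i hi
      rw [hLv, Finset.mem_filter] at hi
      exact (not_le.1 hi.2).le
  have hAB : Lu.card + Lv.card ≤ 4 := by
    by_contra hcon
    push Not at hcon
    have e1 : θ ^ 5 ≤ θ ^ (Lu.card + Lv.card) := pow_le_pow_right₀ hθ1.le hcon
    have e2 : Pu * Pv ≤ PS u v := by
      rw [hsplit]
      exact le_mul_of_one_le_left (by positivity) hS1
    have e3 : θ ^ 5 = T ^ (205 / 100 : ℝ) := by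
      rw [hθ, ← Real.rpow_natCast, ← Real.rpow_mul hT0.le]
      norm_num
    have e4 : T ^ (205 / 100 : ℝ) ≤ T ^ (2 + 1 / 100 : ℝ) := by linarith
    have e5 := (Real.rpow_le_rpow_left_iff hT1).1 e4
    norm_num at e5
  have hup : Pu * Pv ≤ (2 * a) ^ 3 * b := by
    refine le_trans ?_ (comb ha1 hb1' hba hA3 hAB)
    refine mul_le_mul (prod_le_pow _ _ _ (fun i _ => ?_) fun i _ => hua i)
      (prod_le_pow _ _ _ (fun i _ => ?_) fun i _ => hvb i) (by linarith) (by positivity)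
    · linarith [sc_one_le (u i)]
    · linarith [sc_one_le (v i)]
  have hval : (2 * a) ^ 3 * b = 16 * T ^ (2 + 3 * κ2 - κ1) := by
    have e1 : a ^ 3 = T ^ (3 / 2 + 3 * κ2) := by
      rw [ha, ← Real.rpow_natCast, ← Real.rpow_mul hT0.le]
      congr 1
      push_cast
      ring
    have e2 : T ^ (2 + 3 * κ2 - κ1) = T ^ (3 / 2 + 3 * κ2) * T ^ (1 / 2 - κ1) := by
      rw [← Real.rpow_add hT0]
      congr 1
      ring
    rw [mul_pow, e1, hb, e2]
    ring
  show T ^ (κ1 / 2) ≤ Su * Sv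
  have hmain : T ^ (κ1 / 2) * (16 * T ^ (2 + 3 * κ2 - κ1)) ≤ T ^ (2 - κ1 / 100) := by
    have e1 : T ^ (κ1 / 2) * (16 * T ^ (2 + 3 * κ2 - κ1)) =
        16 * T ^ (κ1 / 2 + (2 + 3 * κ2 - κ1)) := by
      rw [Real.rpow_add hT0]
      ring
    have e2 : T ^ (46 / 100 * κ1) * T ^ (κ1 / 2 + (2 + 3 * κ2 - κ1)) ≤ T ^ (2 - κ1 / 100) := by
      rw [← Real.rpow_add hT0]
      exact Real.rpow_le_rpow_of_exponent_le hT1.le (by linarith)
    have e3 : 16 * T ^ (κ1 / 2 + (2 + 3 * κ2 - κ1)) ≤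
        T ^ (46 / 100 * κ1) * T ^ (κ1 / 2 + (2 + 3 * κ2 - κ1)) :=
      mul_le_mul_of_nonneg_right hT16 (by positivity)
    rw [e1]
    exact e3.trans e2
  have hpos : 0 < 16 * T ^ (2 + 3 * κ2 - κ1) := by positivity
  have hfin : T ^ (κ1 / 2) * (16 * T ^ (2 + 3 * κ2 - κ1)) ≤
      (Su * Sv) * (16 * T ^ (2 + 3 * κ2 - κ1)) := by
    refine hmain.trans (hPS1.trans ?_)
    rw [hsplit]
    refine mul_le_mul_of_nonneg_left ?_ (by linarith)
    rw [← hval]
    exact hup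
  exact le_of_mul_le_mul_right hfin hpos

end Pool.Agent.Work.MP_a8fbd7_nt.OX.ASM
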