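import Pool.Agent.Work.MP_a8fbd7_nt.OX.ASM.Stmts
import Pool.Agent.Work.MP_a8fbd7_nt.OX.ID.Fund

/-!
MP_a8fbd7_nt, block OX, item Sv: existence of the sieve weights.
-/

set_option autoImplicit false

open MeasureTheory Set Filter Topology

noncomputable section

namespace Pool.Agent.Work.MP_a8fbd7_nt.OX.ASM

open Pool.Agent.Work.MP_a8fbd7_nt.OX.ID (Rough fundamental Wz Wz_bounds Wz_pos)

theorem iSv : StSv := by
  obtain ⟨C, L, hC, hL, hF⟩ := fundamental
  obtain ⟨K, hK, hW⟩ := Wz_bounds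
  set M : ℝ := L * Real.exp 2 with hM
  set δ : ℝ := Real.exp (-8) / (2 * K * C) with hδ
  have hK0 : 0 < K := by linarith
  have hC0 : 0 < C := by linarith
  have hδ0 : 0 < δ := by positivity
  obtain ⟨n0, hn0⟩ := Filter.eventually_atTop.1
    ((FloorSemiring.tendsto_pow_div_factorial_atTop M).eventually_lt_const hδ0)
  refine ⟨2 * n0 + 8 + 2 * K, by have : (0 : ℝ) ≤ n0 := Nat.cast_nonneg _; linarith, ?_⟩
  intro s y hs hy
  have hn00 : (0 : ℝ) ≤ n0 := Nat.cast_nonneg _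
  set b : ℕ := ⌊(s - 6) / 4⌋₊ with hb
  have hb1 : (b : ℝ) ≤ (s - 6) / 4 := Nat.floor_le (by linarith)
  have hb2 : (s - 6) / 4 < (b : ℝ) + 1 := Nat.lt_floor_add_one _
  have hn : n0 ≤ 2 * b + 1 := by
    have : (n0 : ℝ) ≤ (2 * b + 1 : ℕ) := by
      push_cast
      linarith
    exact_mod_cast this
  have he := hn0 (2 * b + 1) hn
  set e : ℝ := C * (L ^ (2 * b + 1) / ((2 * b + 1).factorial : ℝ)) with hedef
  have he0 : 0 ≤ e := by positivity
  -- the error is small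
  have hexp : 2 * K * e ≤ Real.exp (-s) := by
    have h1 : M ^ (2 * b + 1) / ((2 * b + 1).factorial : ℝ) =
        Real.exp (2 * (2 * b + 1)) * (L ^ (2 * b + 1) / ((2 * b + 1).factorial : ℝ)) := by
      rw [hM, mul_pow, ← Real.exp_nat_mul]
      push_cast
      rw [show (2 * (b : ℝ) + 1) * 2 = 2 * (2 * b + 1) by ring]
      ring
    rw [h1] at he
    have h2 : Real.exp (2 * (2 * b + 1)) * (2 * K * e) ≤ Real.exp (-8) := by
      have h3 : Real.exp (2 * (2 * b + 1)) * (2 * K * e) =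
          (2 * K * C) * (Real.exp (2 * (2 * b + 1)) * (L ^ (2 * b + 1) / ((2 * b + 1).factorial : ℝ))) := by
        rw [hedef]; ring
      rw [h3]
      have h4 := mul_le_mul_of_nonneg_left he.le (show (0 : ℝ) ≤ 2 * K * C by positivity)
      refine h4.trans (le_of_eq ?_)
      rw [hδ]
      field_simp
    have h5 : 2 * K * e ≤ Real.exp (-8) * Real.exp (-(2 * (2 * b + 1))) := by
      rw [Real.exp_neg (2 * (2 * (b : ℝ) + 1)), ← div_eq_mul_inv, le_div_iff₀ (Real.exp_pos _)]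
      linarith
    refine h5.trans ?_
    rw [← Real.exp_add]
    apply Real.exp_le_exp.2
    linarith
  have hexp1 : Real.exp (-s) ≤ 1 := by
    rw [Real.exp_le_one_iff]
    linarith
  have he1 : e ≤ 1 := by nlinarith
  have hylog : 0 < Real.log y := Real.log_pos (by exact_mod_cast (by omega : 1 < y))
  obtain ⟨hW1, hW2⟩ := hW y hy
  have hWp := Wz_pos y
  obtain ⟨lp, lm, h1, h2, h3, h4, h5⟩ := hF b y (by omega)
  -- level
  have hyr : (2 : ℝ) ≤ y := by exact_mod_cast hy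
  have hlev : ((y ^ (4 * b + 6) : ℕ) : ℝ) ≤ (y : ℝ) ^ s := by
    push_cast
    rw [← Real.rpow_natCast]
    apply Real.rpow_le_rpow_of_exponent_le (by linarith)
    push_cast
    linarith
  have hD : y ^ (4 * b + 6) ≤ ⌊(y : ℝ) ^ s⌋₊ := Nat.le_floor hlev
  obtain ⟨k1, k2, k3, k4⟩ := h5 _ hD
  refine ⟨lp, lm, ⟨fun d => (h1 d).1, fun d => (h1 d).2, fun d hd => ?_, fun d hd => ?_, ?_, ?_, ?_, ?_⟩⟩
  · obtain ⟨-, -, g1, g2⟩ := h2 d (Or.inl hd)
    exact ⟨g1, le_trans (by exact_mod_cast g2) hlev⟩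
  · obtain ⟨-, -, g1, g2⟩ := h2 d (Or.inr hd)
    exact ⟨g1, le_trans (by exact_mod_cast g2) hlev⟩
  · intro n hn1 hr
    exact h3 n (by omega) hr
  · intro n hn1 hr
    exact h4 n (by omega) hr
  · have g1 : ∑ d ∈ Finset.Icc 1 ⌊(y : ℝ) ^ s⌋₊, (lp d - lm d) / (d : ℝ) =
        ∑ d ∈ Finset.Icc 1 ⌊(y : ℝ) ^ s⌋₊, lp d / (d : ℝ) - ∑ d ∈ Finset.Icc 1 ⌊(y : ℝ) ^ s⌋₊, lm d / (d : ℝ) := by
      rw [← Finset.sum_sub_distrib]
      exact Finset.sum_congr rfl fun d _ => sub_div _ _ _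
    rw [g1]
    have g2 : ∑ d ∈ Finset.Icc 1 ⌊(y : ℝ) ^ s⌋₊, lp d / (d : ℝ) - ∑ d ∈ Finset.Icc 1 ⌊(y : ℝ) ^ s⌋₊, lm d / (d : ℝ)
        ≤ Wz y * (2 * e) := by linarith
    refine g2.trans ?_
    have g3 : Wz y * (2 * e) ≤ K / Real.log y * (2 * e) :=
      mul_le_mul_of_nonneg_right hW2 (by positivity)
    refine g3.trans ?_
    rw [div_mul_eq_mul_div]
    apply div_le_div_of_nonneg_right _ hylog.le
    linarith
  · refine k4.trans ?_
    have g3 : Wz y * (1 + e) ≤ K / Real.log y * (1 + e) :=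
      mul_le_mul_of_nonneg_right hW2 (by positivity)
    refine g3.trans ?_
    rw [div_mul_eq_mul_div]
    apply div_le_div_of_nonneg_right _ hylog.le
    nlinarith

end Pool.Agent.Work.MP_a8fbd7_nt.OX.ASM
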