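import Pool.Agent.Work.MP_a8fbd7_nt.OX.ASM.Stmts

/-!
MP_a8fbd7_nt, block OX, part ASM, item Wt: smooth weights on a logarithmic scale.
-/

set_option autoImplicit false

open MeasureTheory Set Filter Topology

noncomputable section

namespace Pool.Agent.Work.MP_a8fbd7_nt.OX.ASM

open Pool.Agent.Work.MP_56b8f5_nt.UC (IsWt Bl Dp Om psi eta Sep)

namespace Wt_aux

/-- the weight -/
def ww (a b τ : ℝ) (u : ℝ) : ℝ :=
  Real.smoothTransition ((u - Real.exp (a - τ)) / (Real.exp a - Real.exp (a - τ))) *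
    Real.smoothTransition ((Real.exp (b + τ) - u) / (Real.exp (b + τ) - Real.exp b))

variable {a b τ : ℝ}

lemma ww_smooth : ContDiff ℝ ((⊤ : ℕ∞) : WithTop ℕ∞) (ww a b τ) := by
  unfold ww
  exact (Real.smoothTransition.contDiff.comp ((contDiff_id.sub contDiff_const).div_const _)).mul
    (Real.smoothTransition.contDiff.comp ((contDiff_const.sub contDiff_id).div_const _))

lemma ww_nonneg (u : ℝ) : 0 ≤ ww a b τ u :=
  mul_nonneg (Real.smoothTransition.nonneg _) (Real.smoothTransition.nonneg _)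

lemma ww_le_one (u : ℝ) : ww a b τ u ≤ 1 :=
  mul_le_one₀ (Real.smoothTransition.le_one _) (Real.smoothTransition.nonneg _)
    (Real.smoothTransition.le_one _)

lemma ww_eq_one (hτ : 0 < τ) {u : ℝ} (h1 : Real.exp a ≤ u) (h2 : u ≤ Real.exp b) :
    ww a b τ u = 1 := by
  have ha : Real.exp (a - τ) < Real.exp a := Real.exp_lt_exp.mpr (by linarith)
  have hb : Real.exp b < Real.exp (b + τ) := Real.exp_lt_exp.mpr (by linarith)
  unfold ww
  rw [Real.smoothTransition.one_of_one_le, Real.smoothTransition.one_of_one_le, mul_one]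
  · rw [le_div_iff₀ (by linarith)]; linarith
  · rw [le_div_iff₀ (by linarith)]; linarith

lemma ww_supp (hτ : 0 < τ) {u : ℝ} (h : ww a b τ u ≠ 0) :
    Real.exp (a - τ) ≤ u ∧ u ≤ Real.exp (b + τ) := by
  have ha : Real.exp (a - τ) < Real.exp a := Real.exp_lt_exp.mpr (by linarith)
  have hb : Real.exp b < Real.exp (b + τ) := Real.exp_lt_exp.mpr (by linarith)
  constructor
  · by_contra h1
    apply h
    unfold ww
    rw [Real.smoothTransition.zero_of_nonpos, zero_mul]
    exact div_nonpos_of_nonpos_of_nonneg (by linarith) (by linarith)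
  · by_contra h1
    apply h
    unfold ww
    rw [Real.smoothTransition.zero_of_nonpos (x := (Real.exp (b + τ) - u) / _), mul_zero]
    exact div_nonpos_of_nonpos_of_nonneg (by linarith) (by linarith)

lemma isWt_ww (hab : a < b) (hτ : 0 < τ) : IsWt (ww a b τ) :=
  ⟨ww_smooth, Real.exp (a - τ), Real.exp (b + τ), Real.exp_pos _,
    Real.exp_lt_exp.mpr (by linarith), fun _ hx => ww_supp hτ hx⟩

lemma int_inv {c d : ℝ} (h : c ≤ d) :
    ∫ u in Ioc (Real.exp c) (Real.exp d), u⁻¹ = d - c := by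
  rw [← intervalIntegral.integral_of_le (Real.exp_le_exp.mpr h),
    integral_inv_of_pos (Real.exp_pos _) (Real.exp_pos _),
    ← Real.exp_sub, Real.log_exp]

lemma intble_inv (c d : ℝ) : IntegrableOn (fun u : ℝ => u⁻¹) (Ioc (Real.exp c) (Real.exp d)) := by
  apply IntegrableOn.mono_set _ Ioc_subset_Icc_self
  apply ContinuousOn.integrableOn_Icc
  intro u hu
  exact (continuousAt_inv₀ (ne_of_gt (lt_of_lt_of_le (Real.exp_pos _) hu.1))).continuousWithinAt

lemma ww_meas : Measurable (fun u => ww a b τ u / u) :=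
  ww_smooth.continuous.measurable.div measurable_id

lemma ae_bound (hτ : 0 < τ) : ∀ᵐ u : ℝ, u ∈ Ioi (0 : ℝ) → u ∉ Ioc (Real.exp (a - τ)) (Real.exp (b + τ)) →
    ww a b τ u / u = 0 := by
  have h : ∀ᵐ u : ℝ, u ≠ Real.exp (a - τ) := by
    simp [ae_iff]
  filter_upwards [h] with u hu _ hn
  by_contra h0
  have h1 : ww a b τ u ≠ 0 := fun h1 => h0 (by rw [h1, zero_div])
  have h2 := ww_supp hτ h1
  exact hn ⟨lt_of_le_of_ne h2.1 (Ne.symm hu), h2.2⟩

lemma Iw_eq (hτ : 0 < τ) : Iw (ww a b τ) =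
    ∫ u in Ioc (Real.exp (a - τ)) (Real.exp (b + τ)), ww a b τ u / u := by
  unfold Iw
  refine (setIntegral_eq_of_subset_of_ae_sdiff_eq_zero measurableSet_Ioi.nullMeasurableSet
    ?_ ?_)
  · intro u hu
    exact lt_trans (Real.exp_pos _) hu.1
  · filter_upwards [ae_bound (a := a) (b := b) hτ] with u hu hm
    exact hu hm.1 hm.2

lemma ww_intble (τ' : ℝ) : IntegrableOn (fun u => ww a b τ u / u)
    (Ioc (Real.exp (a - τ')) (Real.exp (b + τ'))) := by
  refine Integrable.mono' (intble_inv (a - τ') (b + τ')) ww_meas.aestronglyMeasurable ?_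
  refine (ae_restrict_iff' measurableSet_Ioc).mpr (Eventually.of_forall fun u hu => ?_)
  have h0 : 0 < u := lt_trans (Real.exp_pos _) hu.1
  rw [Real.norm_eq_abs, abs_of_nonneg (div_nonneg (ww_nonneg _) h0.le), div_eq_mul_inv]
  exact mul_le_of_le_one_left (inv_nonneg.mpr h0.le) (ww_le_one _)

lemma Iw_le (hab : a < b) (hτ : 0 < τ) : Iw (ww a b τ) ≤ b - a + 2 * τ := by
  rw [Iw_eq hτ]
  have h1 : ∫ u in Ioc (Real.exp (a - τ)) (Real.exp (b + τ)), ww a b τ u / u ≤
      ∫ u in Ioc (Real.exp (a - τ)) (Real.exp (b + τ)), u⁻¹ := by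
    apply setIntegral_mono_on (ww_intble τ) (intble_inv _ _) measurableSet_Ioc
    intro u hu
    have h0 : 0 < u := lt_trans (Real.exp_pos _) hu.1
    rw [div_eq_mul_inv]
    exact mul_le_of_le_one_left (inv_nonneg.mpr h0.le) (ww_le_one _)
  rw [int_inv (by linarith)] at h1
  linarith

lemma le_Iw (hab : a < b) (hτ : 0 < τ) : b - a ≤ Iw (ww a b τ) := by
  rw [Iw_eq hτ]
  have h1 : ∫ u in Ioc (Real.exp a) (Real.exp b), u⁻¹ =
      ∫ u in Ioc (Real.exp a) (Real.exp b), ww a b τ u / u := by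
    apply setIntegral_congr_fun measurableSet_Ioc
    intro u hu
    simp only
    rw [ww_eq_one hτ hu.1.le hu.2, one_div]
  have h2 : ∫ u in Ioc (Real.exp a) (Real.exp b), ww a b τ u / u ≤
      ∫ u in Ioc (Real.exp (a - τ)) (Real.exp (b + τ)), ww a b τ u / u := by
    apply setIntegral_mono_set (ww_intble τ)
    · refine (ae_restrict_iff' measurableSet_Ioc).mpr (Eventually.of_forall fun u hu => ?_)
      exact div_nonneg (ww_nonneg _) (lt_trans (Real.exp_pos _) hu.1).le
    · apply HasSubset.Subset.eventuallyLE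
      apply Ioc_subset_Ioc
      · exact Real.exp_le_exp.mpr (by linarith)
      · exact Real.exp_le_exp.mpr (by linarith)
  rw [← h1, int_inv hab.le] at h2
  exact h2

end Wt_aux

theorem iWt : StWt := by
  intro a b τ hab hτ
  exact ⟨Wt_aux.ww a b τ, Wt_aux.isWt_ww hab hτ, fun u => ⟨Wt_aux.ww_nonneg u, Wt_aux.ww_le_one u⟩,
    fun u h1 h2 => Wt_aux.ww_eq_one hτ h1 h2, fun u hu => Wt_aux.ww_supp hτ hu,
    Wt_aux.le_Iw hab hτ, Wt_aux.Iw_le hab hτ⟩

end Pool.Agent.Work.MP_a8fbd7_nt.OX.ASM
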