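import Pool.Agent.Work.MP_a8fbd7_nt.OX.Uc
import Pool.Agent.Work.MP_a8fbd7_nt.ZF.All
import Pool.Agent.Work.MP_a8fbd7_nt.OX.ASM.I_F1
import Pool.Agent.Work.MP_a8fbd7_nt.OX.ASM.I_F2
import Pool.Agent.Work.MP_a8fbd7_nt.OX.ASM.I_F4
import Pool.Agent.Work.MP_a8fbd7_nt.OX.ASM.I_Pd
import Pool.Agent.Work.MP_a8fbd7_nt.OX.ASM.I_Rg
import Pool.Agent.Work.MP_a8fbd7_nt.OX.ASM.I_Sa
import Pool.Agent.Work.MP_a8fbd7_nt.OX.ASM.I_BB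
import Pool.Agent.Work.MP_a8fbd7_nt.OX.ASM.I_Sh
import Pool.Agent.Work.MP_a8fbd7_nt.OX.ASM.I_Re
import Pool.Agent.Work.MP_a8fbd7_nt.OX.ASM.I_Rp
import Pool.Agent.Work.MP_a8fbd7_nt.OX.ASM.I_Tb
import Pool.Agent.Work.MP_a8fbd7_nt.OX.ASM.I_AA
import Pool.Agent.Work.MP_a8fbd7_nt.OX.ASM.I_Sv
import Pool.Agent.Work.MP_a8fbd7_nt.OX.ASM.I_V1
import Pool.Agent.Work.MP_a8fbd7_nt.OX.ASM.I_Ma
import Pool.Agent.Work.MP_a8fbd7_nt.OX.ASM.I_In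
import Pool.Agent.Work.MP_a8fbd7_nt.OX.ASM.I_SE
import Pool.Agent.Work.MP_a8fbd7_nt.OX.ASM.I_Ex
import Pool.Agent.Work.MP_a8fbd7_nt.OX.ASM.I_Dr
import Pool.Agent.Work.MP_a8fbd7_nt.OX.ASM.I_Sq
import Pool.Agent.Work.MP_a8fbd7_nt.OX.ASM.I_Li
import Pool.Agent.Work.MP_a8fbd7_nt.OX.ASM.I_PN
import Pool.Agent.Work.MP_a8fbd7_nt.OX.ASM.I_Mn
import Pool.Agent.Work.MP_a8fbd7_nt.OX.ASM.I_Wt
import Pool.Agent.Work.MP_a8fbd7_nt.OX.ASM.I_Co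

/-!
# MP_a8fbd7_nt, block OX, part ASM: everything together

`core` : the core statement for the exponent `r1 = 389/2000`, from the two cell theorems.
-/

namespace Pool.Agent.Work.MP_a8fbd7_nt.OX.ASM

theorem all_F4 : StF4 := iF4 (iF1 Uc.u_Mel) iF2 Uc.u_Mel

theorem all_Rg : StRg := iRg iPd

theorem all_Sa : StSa := iSa ZF.all_RoW ZF.all_PrI

theorem all_Rp : StRp := iRp (iRe Uc.u_Rf Uc.u_Bc)

theorem all_SE : StSE := iSE iMa iIn iPd all_Rg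

theorem all_Li : StLi := iLi iEx iDr iSq

theorem all_PN : StPN := iPN ZF.all_Pnt

theorem all_BB (hB : StCellB) : StBB := iBB hB all_F4 iPd all_Rg all_Sa

theorem all_AA (hA : StCellA) : StAA := iAA hA all_F4 iPd all_Rg all_Rp iTb Uc.u_Kp

theorem all_Mn (hA : StCellA) (hB : StCellB) : StMn :=
  iMn (all_BB hB) (all_AA hA) iSh all_Rg iV1 iSv all_SE all_Li all_PN

theorem core (hA : StCellA) (hB : StCellB) : FIN.Core r1 := iCo (all_Mn hA hB) iWt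

end Pool.Agent.Work.MP_a8fbd7_nt.OX.ASM
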