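import Pool.Agent.Work.MP_a8fbd7_nt.OX.ASM.Stmts

/-!
MP_a8fbd7_nt, block OX, part ASM, item Co: from smooth windows to the counts `A(n)`, `B(n)`.
-/

set_option autoImplicit false

open MeasureTheory Set Filter Topology

noncomputable section

namespace Pool.Agent.Work.MP_a8fbd7_nt.OX.ASM

open Pool.Agent.Work.MP_56b8f5_nt.UC (IsWt Bl Dp Om psi eta Sep)
open Pool.Agent.Work.MP_a8fbd7_nt.OX.FIN (cA cB Core)

namespace Co_aux

lemma pr_nonneg (n : ℕ) : 0 ≤ pr n := by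
  unfold pr; split_ifs <;> norm_num

/-- the sum over a window is finite -/
lemma summ (w : ℝ → ℝ) (U x T : ℝ) (hU : ∀ u, w u ≠ 0 → u ≤ U) (hx : 0 < x) (hT : 0 < T) :
    Summable fun n : ℕ => pr n * w (((n : ℝ) / x) ^ T) := by
  apply summable_of_ne_finset_zero (s := Finset.range (⌊(|U| + 1) ^ (1 / T) * x⌋₊ + 1))
  intro n hn
  by_contra h
  apply hn
  rw [Finset.mem_range, Nat.lt_add_one_iff]
  apply Nat.le_floor
  have h1 : w (((n : ℝ) / x) ^ T) ≠ 0 := by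
    intro h2; rw [h2, mul_zero] at h; exact h rfl
  have h2 : ((n : ℝ) / x) ^ T ≤ |U| + 1 := (hU _ h1).trans ((le_abs_self U).trans (by linarith))
  have h0 : (0 : ℝ) ≤ (n : ℝ) / x := by positivity
  have h3 : (n : ℝ) / x ≤ (|U| + 1) ^ (1 / T) := by
    have h4 : (((n : ℝ) / x) ^ T) ^ (1 / T) ≤ (|U| + 1) ^ (1 / T) :=
      Real.rpow_le_rpow (by positivity) h2 (by positivity)
    rwa [← Real.rpow_mul h0, mul_one_div_cancel hT.ne', Real.rpow_one] at h4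
  rwa [div_le_iff₀ hx] at h3

lemma up (w : ℝ → ℝ) (U x T : ℝ) (hU : ∀ u, w u ≠ 0 → u ≤ U) (hx : 0 < x) (hT : 0 < T)
    (h0 : ∀ u, 0 ≤ w u) (s : Finset ℕ) (hs : ∀ p ∈ s, p.Prime ∧ w (((p : ℝ) / x) ^ T) = 1) :
    (s.card : ℝ) ≤ SW w pr x T := by
  unfold SW
  have h1 := (summ w U x T hU hx hT).sum_le_tsum s (fun n _ => mul_nonneg (pr_nonneg n) (h0 _))
  refine le_trans (le_of_eq ?_) h1
  rw [Finset.card_eq_sum_ones, Nat.cast_sum]
  apply Finset.sum_congr rfl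
  intro p hp
  obtain ⟨h2, h3⟩ := hs p hp
  rw [h3, pr, if_pos h2]
  norm_num

lemma lo (w : ℝ → ℝ) (x T : ℝ) (h1 : ∀ u, w u ≤ 1) (s : Finset ℕ)
    (hs : ∀ p : ℕ, p.Prime → w (((p : ℝ) / x) ^ T) ≠ 0 → p ∈ s) :
    SW w pr x T ≤ (s.card : ℝ) := by
  unfold SW
  rw [tsum_eq_sum (s := s)]
  · rw [Finset.card_eq_sum_ones, Nat.cast_sum]
    apply Finset.sum_le_sum
    intro p _
    unfold pr
    split_ifs
    · rw [one_mul]; exact_mod_cast h1 _
    · norm_num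
  · intro p hp
    unfold pr
    split_ifs with h2
    · by_contra h3
      rw [one_mul] at h3
      exact hp (hs p h2 h3)
    · simp

/-- `(p/x)^T = exp (T log (p/x))` -/
lemma rp (y T : ℝ) (hy : 0 < y) : y ^ T = Real.exp (T * Real.log y) := by
  rw [Real.rpow_def_of_pos hy, mul_comm]

lemma B_up (w : ℝ → ℝ) (U T : ℝ) (n : ℕ) (hU : ∀ u, w u ≠ 0 → u ≤ U) (hT : 0 < T) (hn : T ≤ n)
    (h0 : ∀ u, 0 ≤ w u) (hw : ∀ u, Real.exp 0 ≤ u → u ≤ Real.exp 1 → w u = 1) :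
    cB n ≤ SW w pr ((n : ℝ) ^ 2) T := by
  have hn0 : (0 : ℝ) < n := hT.trans_le hn
  unfold cB
  apply up w U _ T hU (by positivity) hT h0
  intro p hp
  rw [Finset.mem_filter, Finset.mem_Icc] at hp
  obtain ⟨⟨h1, h2⟩, h3⟩ := hp
  refine ⟨h3, ?_⟩
  have hp1 : (n : ℝ) ^ 2 ≤ p := by exact_mod_cast h1
  have hp2 : (p : ℝ) ≤ (n : ℝ) ^ 2 + n := by exact_mod_cast h2
  have hp0 : (0 : ℝ) < p := lt_of_lt_of_le (by positivity) hp1
  have hq1 : 1 ≤ (p : ℝ) / (n : ℝ) ^ 2 := by rw [le_div_iff₀ (by positivity)]; linarith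
  have hq2 : (p : ℝ) / (n : ℝ) ^ 2 ≤ 1 + 1 / n := by
    rw [div_le_iff₀ (by positivity)]
    have : (1 + 1 / (n : ℝ)) * (n : ℝ) ^ 2 = (n : ℝ) ^ 2 + n := by field_simp
    rw [this]; exact hp2
  rw [rp _ _ (by positivity)]
  apply hw
  · rw [Real.exp_le_exp]
    exact mul_nonneg hT.le (Real.log_nonneg hq1)
  · rw [Real.exp_le_exp]
    have h4 : Real.log ((p : ℝ) / (n : ℝ) ^ 2) ≤ 1 / n := by
      have := Real.log_le_sub_one_of_pos (x := (p : ℝ) / (n : ℝ) ^ 2) (by positivity)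
      linarith
    calc T * Real.log ((p : ℝ) / (n : ℝ) ^ 2) ≤ n * (1 / n) := by
          apply mul_le_mul hn h4 (Real.log_nonneg hq1) hn0.le
      _ = 1 := by field_simp

lemma B_lo (w : ℝ → ℝ) (τ T : ℝ) (n : ℕ) (hT : 0 < T) (hτ : 0 < τ) (hτ1 : τ ≤ 1 / 100) (hn : T ≤ n)
    (hn2 : (n : ℝ) ≤ (1 + τ) * T) (hn3 : 1 ≤ τ * T)
    (h1 : ∀ u, w u ≤ 1) (hw : ∀ u, w u ≠ 0 → Real.exp 0 ≤ u ∧ u ≤ Real.exp (1 - 2 * τ)) :
    SW w pr ((n : ℝ) ^ 2) T ≤ cB n := by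
  have hn0 : (0 : ℝ) < n := hT.trans_le hn
  unfold cB
  apply lo w _ T h1
  intro p hp hne
  have hp0 : (0 : ℝ) < p := by exact_mod_cast hp.pos
  obtain ⟨h2, h3⟩ := hw _ hne
  rw [rp _ _ (by positivity), Real.exp_le_exp] at h2 h3
  rw [Finset.mem_filter, Finset.mem_Icc]
  have hq : (0 : ℝ) < (p : ℝ) / (n : ℝ) ^ 2 := by positivity
  have h4 : 0 ≤ Real.log ((p : ℝ) / (n : ℝ) ^ 2) := by
    by_contra h
    push Not at h
    nlinarith
  have h5 : 1 ≤ (p : ℝ) / (n : ℝ) ^ 2 := by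
    by_contra h
    push Not at h
    have := Real.log_neg hq h
    linarith
  rw [le_div_iff₀ (by positivity), one_mul] at h5
  refine ⟨⟨by exact_mod_cast h5, ?_⟩, hp⟩
  have h6 : Real.log ((p : ℝ) / (n : ℝ) ^ 2) ≤ (1 - τ) / n := by
    rw [le_div_iff₀ hn0]
    nlinarith
  have h7 : (p : ℝ) / (n : ℝ) ^ 2 ≤ 1 + 1 / n := by
    rw [← Real.exp_log hq]
    refine (Real.exp_le_exp.2 h6).trans ?_
    have hy0 : 0 ≤ (1 - τ) / (n : ℝ) := div_nonneg (by linarith) hn0.le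
    have hn1 : (1 : ℝ) ≤ n := by nlinarith
    have hy1 : (1 - τ) / (n : ℝ) ≤ 1 := by
      rw [div_le_one hn0]; linarith
    have h8 : Real.exp ((1 - τ) / (n : ℝ)) ≤ 1 + (1 - τ) / n + ((1 - τ) / n) ^ 2 := by
      have := Real.abs_exp_sub_one_sub_id_le (x := (1 - τ) / (n : ℝ)) (by rw [abs_of_nonneg hy0]; exact hy1)
      have := (abs_le.1 this).2
      linarith
    refine h8.trans ?_
    have h9 : ((1 - τ) / (n : ℝ)) ^ 2 ≤ τ / n := by
      rw [div_pow, div_le_div_iff₀ (by positivity) hn0]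
      have : (1 - τ) ^ 2 ≤ 1 := by nlinarith
      have h10 : 1 ≤ τ * n := by nlinarith
      nlinarith
    have h11 : (1 - τ) / (n : ℝ) + τ / n = 1 / n := by
      rw [← add_div]; ring_nf
    linarith
  rw [div_le_iff₀ (by positivity)] at h7
  have : (1 + 1 / (n : ℝ)) * (n : ℝ) ^ 2 = (n : ℝ) ^ 2 + n := by field_simp
  rw [this] at h7
  exact_mod_cast h7

lemma cast_sub_sq (n : ℕ) : (((n ^ 2 - n : ℕ) : ℕ) : ℝ) = (n : ℝ) ^ 2 - n := by
  rw [Nat.cast_sub (by nlinarith [Nat.zero_le n, sq_nonneg n, Nat.le_self_pow (two_ne_zero) n])]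
  push_cast; ring

lemma A_up (w : ℝ → ℝ) (U τ T : ℝ) (n : ℕ) (hU : ∀ u, w u ≠ 0 → u ≤ U) (hT : 0 < T) (hτ : 0 < τ)
    (hτ1 : τ ≤ 1 / 100) (hn : T ≤ n) (hn3 : 2 ≤ τ * T)
    (h0 : ∀ u, 0 ≤ w u) (hw : ∀ u, Real.exp (-1 - τ) ≤ u → u ≤ Real.exp 0 → w u = 1) :
    cA n ≤ SW w pr ((n : ℝ) ^ 2) T := by
  have hn0 : (0 : ℝ) < n := hT.trans_le hn
  have hn1 : (200 : ℝ) ≤ n := by nlinarith
  unfold cA
  apply up w U _ T hU (by positivity) hT h0
  intro p hp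
  rw [Finset.mem_filter, Finset.mem_Icc] at hp
  obtain ⟨⟨h1, h2⟩, h3⟩ := hp
  refine ⟨h3, ?_⟩
  have hp1 : (n : ℝ) ^ 2 - n ≤ p := by rw [← cast_sub_sq]; exact_mod_cast h1
  have hp2 : (p : ℝ) ≤ (n : ℝ) ^ 2 := by exact_mod_cast h2
  have hp0 : (0 : ℝ) < p := by exact_mod_cast h3.pos
  have hq0 : 0 < (p : ℝ) / (n : ℝ) ^ 2 := by positivity
  have hq1 : (p : ℝ) / (n : ℝ) ^ 2 ≤ 1 := by rw [div_le_iff₀ (by positivity)]; linarith
  have hq2 : 1 - 1 / n ≤ (p : ℝ) / (n : ℝ) ^ 2 := by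
    rw [le_div_iff₀ (by positivity)]
    have : (1 - 1 / (n : ℝ)) * (n : ℝ) ^ 2 = (n : ℝ) ^ 2 - n := by field_simp
    rw [this]; exact hp1
  rw [rp _ _ hq0]
  have hl0 : Real.log ((p : ℝ) / (n : ℝ) ^ 2) ≤ 0 := Real.log_nonpos hq0.le hq1
  apply hw
  · rw [Real.exp_le_exp]
    have h4 : -(1 / ((n : ℝ) - 1)) ≤ Real.log ((p : ℝ) / (n : ℝ) ^ 2) := by
      have h5 := Real.one_sub_inv_le_log_of_pos hq0
      refine le_trans ?_ h5
      have hpos : 0 < 1 - 1 / (n : ℝ) := by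
        rw [sub_pos, div_lt_one hn0]; linarith
      have h6 : ((p : ℝ) / (n : ℝ) ^ 2)⁻¹ ≤ (1 - 1 / (n : ℝ))⁻¹ := inv_anti₀ hpos hq2
      have h7 : (1 - 1 / (n : ℝ))⁻¹ = 1 + 1 / ((n : ℝ) - 1) := by
        have : (n : ℝ) - 1 ≠ 0 := by linarith
        field_simp
        ring
      linarith
    have h8 : T * (1 / ((n : ℝ) - 1)) ≤ 1 + τ := by
      rw [mul_one_div, div_le_iff₀ (by linarith)]
      nlinarith
    have h9 : T * -(1 / ((n : ℝ) - 1)) ≤ T * Real.log ((p : ℝ) / (n : ℝ) ^ 2) :=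
      mul_le_mul_of_nonneg_left h4 hT.le
    linarith
  · rw [Real.exp_le_exp]
    exact mul_nonpos_of_nonneg_of_nonpos hT.le hl0

lemma A_lo (w : ℝ → ℝ) (τ T : ℝ) (n : ℕ) (hT : 0 < T) (hτ : 0 < τ) (hn : T ≤ n)
    (hn2 : (n : ℝ) ≤ (1 + τ) * T)
    (h1 : ∀ u, w u ≤ 1) (hw : ∀ u, w u ≠ 0 → Real.exp (-1 + 2 * τ) ≤ u ∧ u ≤ Real.exp 0) :
    SW w pr ((n : ℝ) ^ 2) T ≤ cA n := by
  have hn0 : (0 : ℝ) < n := hT.trans_le hn
  unfold cA
  apply lo w _ T h1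
  intro p hp hne
  have hp0 : (0 : ℝ) < p := by exact_mod_cast hp.pos
  obtain ⟨h2, h3⟩ := hw _ hne
  rw [rp _ _ (by positivity), Real.exp_le_exp] at h2 h3
  rw [Finset.mem_filter, Finset.mem_Icc]
  have hq : (0 : ℝ) < (p : ℝ) / (n : ℝ) ^ 2 := by positivity
  have h4 : Real.log ((p : ℝ) / (n : ℝ) ^ 2) ≤ 0 := by
    by_contra h
    push Not at h
    nlinarith
  have h5 : (p : ℝ) / (n : ℝ) ^ 2 ≤ 1 := by
    by_contra h
    push Not at h
    have := Real.log_pos h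
    linarith
  rw [div_le_iff₀ (by positivity), one_mul] at h5
  refine ⟨⟨?_, by exact_mod_cast h5⟩, hp⟩
  have h6 : -(1 / (n : ℝ)) ≤ Real.log ((p : ℝ) / (n : ℝ) ^ 2) := by
    rw [← neg_div, div_le_iff₀ hn0]
    nlinarith
  have h7 : 1 - 1 / (n : ℝ) ≤ (p : ℝ) / (n : ℝ) ^ 2 := by
    have := Real.log_le_sub_one_of_pos hq
    linarith
  rw [le_div_iff₀ (by positivity)] at h7
  have : (1 - 1 / (n : ℝ)) * (n : ℝ) ^ 2 = (n : ℝ) ^ 2 - n := by field_simp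
  rw [this, ← cast_sub_sq] at h7
  exact_mod_cast h7

/-- the points `n²` of a block are separated -/
lemma blk (T B : ℝ) (P : ℝ → Prop) (hT : 0 < T) (hP : PackLe T P B) (E : Finset ℕ)
    (hE : ∀ n ∈ E, T ≤ n ∧ (n : ℝ) ≤ 2 * T ∧ P ((n : ℝ) ^ 2)) : (E.card : ℝ) ≤ B := by
  classical
  have hinj : Function.Injective (fun n : ℕ => (n : ℝ) ^ 2) := by
    intro a b hab
    have h1 : (a : ℝ) = b := by
      have := (sq_eq_sq₀ (Nat.cast_nonneg a) (Nat.cast_nonneg b)).1 hab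
      exact this
    exact_mod_cast h1
  have hsep : ∀ a b : ℕ, a < b → T ≤ a → (b : ℝ) ≤ 2 * T →
      1 ≤ T * |Real.log ((b : ℝ) ^ 2) - Real.log ((a : ℝ) ^ 2)| := by
    intro a b hab ha hb
    have ha0 : (0 : ℝ) < a := hT.trans_le ha
    have hab' : (a : ℝ) + 1 ≤ b := by exact_mod_cast hab
    have hb0 : (0 : ℝ) < b := by linarith
    have h1 : Real.log ((b : ℝ) ^ 2) - Real.log ((a : ℝ) ^ 2) = 2 * Real.log ((b : ℝ) / a) := by
      rw [Real.log_pow, Real.log_pow, Real.log_div hb0.ne' ha0.ne']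
      push_cast; ring
    have h2 : 1 - ((b : ℝ) / a)⁻¹ ≤ Real.log ((b : ℝ) / a) := Real.one_sub_inv_le_log_of_pos (by positivity)
    have h3 : 1 / (2 * T) ≤ 1 - ((b : ℝ) / a)⁻¹ := by
      rw [inv_div, div_le_iff₀ (by positivity)]
      have h4 : 1 ≤ (1 - (a : ℝ) / b) * b := by
        rw [sub_mul, div_mul_cancel₀ _ hb0.ne']; linarith
      have h5 : 0 ≤ 1 - (a : ℝ) / b := by
        rw [sub_nonneg, div_le_one hb0]; linarith
      nlinarith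
    rw [h1]
    refine le_trans ?_ (mul_le_mul_of_nonneg_left (le_abs_self _) hT.le)
    have h6 : 1 / (2 * T) ≤ Real.log ((b : ℝ) / a) := h3.trans h2
    rw [div_le_iff₀ (by positivity)] at h6
    linarith
  have h := hP (E.image fun n : ℕ => (n : ℝ) ^ 2) ⟨?_, ?_⟩ ?_
  · rwa [Finset.card_image_of_injective _ hinj] at h
  · intro x hx
    obtain ⟨n, hn, rfl⟩ := Finset.mem_image.1 hx
    have : (0 : ℝ) < n := hT.trans_le (hE n hn).1
    positivity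
  · intro x hx y hy hxy
    obtain ⟨n, hn, rfl⟩ := Finset.mem_image.1 hx
    obtain ⟨m, hm, rfl⟩ := Finset.mem_image.1 hy
    rcases lt_trichotomy n m with h1 | h1 | h1
    · rw [abs_sub_comm]
      exact hsep n m h1 (hE n hn).1 (hE m hm).2.1
    · exact absurd (by rw [h1]) hxy
    · exact hsep m n h1 (hE m hm).1 (hE n hn).2.1
  · intro x hx
    obtain ⟨n, hn, rfl⟩ := Finset.mem_image.1 hx
    obtain ⟨h1, h2, h3⟩ := hE n hn
    refine ⟨?_, ?_, h3⟩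
    · exact pow_le_pow_left₀ hT.le h1 2
    · nlinarith

/-- one count -/
lemma one_count (τ T I1 I2 S1 S2 c δ : ℝ) (n : ℕ) (hT : 0 < T) (hτ : 0 < τ) (hτ1 : τ ≤ 1 / 100) (hδ : 6 * τ ≤ δ)
    (hn : T ≤ n) (hn2 : (n : ℝ) ≤ (1 + τ) * T) (hn1 : (1 : ℝ) ≤ n) (hI1 : I1 ≤ 1 + 3 * τ) (hI2 : 1 - 4 * τ ≤ I2)
    (h1 : c ≤ S1) (h2 : S2 ≤ c)
    (hS1 : |Real.log ((n : ℝ) ^ 2) * (T / (n : ℝ) ^ 2 * S1) - I1| ≤ τ)
    (hS2 : |Real.log ((n : ℝ) ^ 2) * (T / (n : ℝ) ^ 2 * S2) - I2| ≤ τ) :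
    |2 * c * Real.log n / n - 1| ≤ δ := by
  have hn0 : (0 : ℝ) < n := hT.trans_le hn
  have hlog : Real.log ((n : ℝ) ^ 2) = 2 * Real.log n := by rw [Real.log_pow]; push_cast; ring
  have hl0 : 0 ≤ Real.log (n : ℝ) := Real.log_nonneg hn1
  set q : ℝ := Real.log ((n : ℝ) ^ 2) * (T / (n : ℝ) ^ 2) with hq
  have hq0 : 0 ≤ q := by rw [hq, hlog]; positivity
  have e1 : Real.log ((n : ℝ) ^ 2) * (T / (n : ℝ) ^ 2 * S1) = q * S1 := by rw [hq]; ring
  have e2 : Real.log ((n : ℝ) ^ 2) * (T / (n : ℝ) ^ 2 * S2) = q * S2 := by rw [hq]; ring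
  rw [e1] at hS1
  rw [e2] at hS2
  have a1 := (abs_le.1 hS1).2
  have a2 := (abs_le.1 hS2).1
  have b1 : q * c ≤ q * S1 := mul_le_mul_of_nonneg_left h1 hq0
  have b2 : q * S2 ≤ q * c := mul_le_mul_of_nonneg_left h2 hq0
  have c1 : q * c ≤ 1 + 4 * τ := by linarith
  have c2 : 1 - 5 * τ ≤ q * c := by linarith
  have key : 2 * c * Real.log n / n = q * c * (n / T) := by
    rw [hq, hlog]; field_simp
  have d1 : 1 ≤ (n : ℝ) / T := by rw [le_div_iff₀ hT]; linarith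
  have d2 : (n : ℝ) / T ≤ 1 + τ := by rw [div_le_iff₀ hT]; exact hn2
  rw [key, abs_le]
  constructor
  · nlinarith
  · have : q * c * (n / T) ≤ (1 + 4 * τ) * (1 + τ) := mul_le_mul c1 d2 (by linarith) (by linarith)
    nlinarith

open Classical in
/-- summation over the blocks -/
lemma count (Q : ℕ → Prop) (r ρ K0 C : ℝ) (hr : 0 < r) (hρ : 1 < ρ) (hK : 1 ≤ K0)
    (h : ∀ T : ℝ, K0 ≤ T → ∀ E : Finset ℕ, (∀ n ∈ E, T ≤ n ∧ (n : ℝ) ≤ ρ * T ∧ Q n) → (E.card : ℝ) ≤ C * T ^ r) :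
    ∃ K : ℝ, ∀ N : ℕ, 1 ≤ N → ((((Finset.Icc 1 N).filter Q).card : ℕ) : ℝ) ≤ K * (N : ℝ) ^ r := by
  have hρr : 1 < ρ ^ r := Real.one_lt_rpow hρ hr
  set K : ℝ := max (ρ * K0) (C / (ρ ^ r - 1)) with hKdef
  have hK1 : ρ * K0 ≤ K := le_max_left _ _
  have hK2 : C ≤ K * (ρ ^ r - 1) := by
    have := le_max_right (ρ * K0) (C / (ρ ^ r - 1))
    rwa [div_le_iff₀ (by linarith)] at this
  have hK0 : 0 ≤ K := le_trans (by nlinarith) hK1
  refine ⟨K, ?_⟩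
  intro N
  induction N using Nat.strong_induction_on with
  | _ N ih =>
    intro hN
    have hN1 : (1 : ℝ) ≤ N := by exact_mod_cast hN
    rcases le_or_gt (N : ℝ) (ρ * K0) with hs | hs
    · calc ((((Finset.Icc 1 N).filter Q).card : ℕ) : ℝ) ≤ ((Finset.Icc 1 N).card : ℝ) := by
            exact_mod_cast Finset.card_filter_le _ _
        _ = N := by simp
        _ ≤ K * 1 := by linarith
        _ ≤ K * (N : ℝ) ^ r := by
            apply mul_le_mul_of_nonneg_left _ hK0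
            exact Real.one_le_rpow hN1 hr.le
    · set T : ℝ := (N : ℝ) / ρ with hTdef
      have hT : K0 ≤ T := by rw [hTdef, le_div_iff₀ (by linarith)]; linarith
      have hT0 : 0 < T := by linarith
      have hNT : (N : ℝ) = ρ * T := by rw [hTdef]; field_simp
      have hM1 : 1 ≤ ⌊T⌋₊ := Nat.le_floor (by push_cast; linarith)
      have hMT : ((⌊T⌋₊ : ℕ) : ℝ) ≤ T := Nat.floor_le hT0.le
      have hMN : ⌊T⌋₊ < N := by
        have : ((⌊T⌋₊ : ℕ) : ℝ) < N := by rw [hNT]; nlinarith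
        exact_mod_cast this
      have h1 := ih _ hMN hM1
      have h2 := h T hT ((Finset.Ioc ⌊T⌋₊ N).filter Q) (by
        intro n hn
        rw [Finset.mem_filter, Finset.mem_Ioc] at hn
        refine ⟨(Nat.lt_of_floor_lt hn.1.1).le, ?_, hn.2⟩
        rw [← hNT]; exact_mod_cast hn.1.2)
      have h3 : (Finset.Icc 1 N).filter Q ⊆ (Finset.Icc 1 ⌊T⌋₊).filter Q ∪ (Finset.Ioc ⌊T⌋₊ N).filter Q := by
        intro n hn
        rw [Finset.mem_filter, Finset.mem_Icc] at hn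
        rw [Finset.mem_union, Finset.mem_filter, Finset.mem_filter, Finset.mem_Icc, Finset.mem_Ioc]
        rcases le_or_gt n ⌊T⌋₊ with h4 | h4
        · exact Or.inl ⟨⟨hn.1.1, h4⟩, hn.2⟩
        · exact Or.inr ⟨⟨h4, hn.1.2⟩, hn.2⟩
      have h4 : ((((Finset.Icc 1 N).filter Q).card : ℕ) : ℝ) ≤
          ((((Finset.Icc 1 ⌊T⌋₊).filter Q).card : ℕ) : ℝ) + ((((Finset.Ioc ⌊T⌋₊ N).filter Q).card : ℕ) : ℝ) := by
        exact_mod_cast (Finset.card_le_card h3).trans (Finset.card_union_le _ _)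
      have h5 : ((⌊T⌋₊ : ℕ) : ℝ) ^ r ≤ T ^ r := Real.rpow_le_rpow (by positivity) hMT hr.le
      have h6 : (N : ℝ) ^ r = ρ ^ r * T ^ r := by rw [hNT, Real.mul_rpow (by linarith) hT0.le]
      have h7 : 0 < T ^ r := by positivity
      rw [h6]
      have h8 : K * ((⌊T⌋₊ : ℕ) : ℝ) ^ r ≤ K * T ^ r := mul_le_mul_of_nonneg_left h5 hK0
      nlinarith

end Co_aux

open Co_aux in
open Classical in
/-- **ITEM Co.** -/
theorem iCo (hMn : StMn) (hWt : StWt) : StCo := by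
  intro δ hδ
  set τ : ℝ := min (1 / 100) (δ / 6) with hτdef
  have hτ : 0 < τ := by rw [hτdef]; positivity
  have hτ1 : τ ≤ 1 / 100 := min_le_left _ _
  have hτ2 : 6 * τ ≤ δ := by
    have : τ ≤ δ / 6 := min_le_right _ _
    linarith
  obtain ⟨w1, w1a, w1b, w1c, w1d, w1e, w1f⟩ := hWt 0 1 τ (by norm_num) hτ
  obtain ⟨w2, w2a, w2b, w2c, w2d, w2e, w2f⟩ := hWt τ (1 - 3 * τ) τ (by linarith) hτ
  obtain ⟨w3, w3a, w3b, w3c, w3d, w3e, w3f⟩ := hWt (-1 - τ) 0 τ (by linarith) hτ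
  obtain ⟨w4, w4a, w4b, w4c, w4d, w4e, w4f⟩ := hWt (-1 + 3 * τ) (-τ) τ (by linarith) hτ
  obtain ⟨C1, C1a, C1b⟩ := hMn w1 w1a (fun u => (w1b u).1) τ hτ
  obtain ⟨C2, C2a, C2b⟩ := hMn w2 w2a (fun u => (w2b u).1) τ hτ
  obtain ⟨C3, C3a, C3b⟩ := hMn w3 w3a (fun u => (w3b u).1) τ hτ
  obtain ⟨C4, C4a, C4b⟩ := hMn w4 w4a (fun u => (w4b u).1) τ hτ
  have hr1 : (0 : ℝ) < r1 := by unfold r1; norm_num
  set K0 : ℝ := C1 + C2 + C3 + C4 + 2 / τ with hK0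
  have h2τ : 0 < 2 / τ := by positivity
  obtain ⟨K, hK⟩ := count (fun n => δ < |2 * cA n * Real.log n / n - 1| ∨ δ < |2 * cB n * Real.log n / n - 1|)
    r1 (1 + τ) K0 (C1 + C2 + C3 + C4) hr1 (by linarith) (by linarith) (by
      intro T hT E hE
      have hT1 : 1 ≤ T := by linarith
      have hT0 : 0 < T := by linarith
      have hTτ : 2 ≤ τ * T := by
        have h1 : 2 / τ ≤ T := by linarith
        rw [div_le_iff₀ hτ] at h1
        linarith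
      have hb1 := C1b T (by linarith)
      have hb2 := C2b T (by linarith)
      have hb3 := C3b T (by linarith)
      have hb4 := C4b T (by linarith)
      set P : (ℝ → ℝ) → ℝ → Prop := fun w x => τ < |Real.log x * (T / x * SW w pr x T) - Iw w| with hPdef
      have hcov : E ⊆ ((E.filter fun n : ℕ => P w1 ((n : ℝ) ^ 2)) ∪ (E.filter fun n : ℕ => P w2 ((n : ℝ) ^ 2))) ∪
          ((E.filter fun n : ℕ => P w3 ((n : ℝ) ^ 2)) ∪ (E.filter fun n : ℕ => P w4 ((n : ℝ) ^ 2))) := by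
        intro n hn
        obtain ⟨h1, h2, h3⟩ := hE n hn
        have hn1 : (1 : ℝ) ≤ n := hT1.trans h1
        by_contra hcon
        simp only [Finset.mem_union, Finset.mem_filter, hn, true_and, not_or] at hcon
        obtain ⟨⟨g1, g2⟩, g3, g4⟩ := hcon
        simp only [hPdef, not_lt] at g1 g2 g3 g4
        rcases h3 with h3 | h3
        · refine absurd h3 (not_lt.2 ?_)
          refine one_count τ T (Iw w3) (Iw w4) (SW w3 pr ((n : ℝ) ^ 2) T) (SW w4 pr ((n : ℝ) ^ 2) T) (cA n) δ n hT0 hτ hτ1 hτ2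
            h1 h2 hn1 (by linarith) (by linarith) ?_ ?_ g3 g4
          · exact A_up w3 (Real.exp (0 + τ)) τ T n (fun u hu => (w3d u hu).2) hT0 hτ hτ1 h1 hTτ (fun u => (w3b u).1) w3c
          · refine A_lo w4 τ T n hT0 hτ h1 h2 (fun u => (w4b u).2) (fun u hu => ?_)
            have := w4d u hu
            rw [show -1 + 3 * τ - τ = -1 + 2 * τ by ring, show -τ + τ = 0 by ring] at this
            exact this
        · refine absurd h3 (not_lt.2 ?_)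
          refine one_count τ T (Iw w1) (Iw w2) (SW w1 pr ((n : ℝ) ^ 2) T) (SW w2 pr ((n : ℝ) ^ 2) T) (cB n) δ n hT0 hτ hτ1 hτ2
            h1 h2 hn1 (by linarith) (by linarith) ?_ ?_ g1 g2
          · exact B_up w1 (Real.exp (1 + τ)) T n (fun u hu => (w1d u hu).2) hT0 h1 (fun u => (w1b u).1) w1c
          · refine B_lo w2 τ T n hT0 hτ hτ1 h1 h2 (by linarith) (fun u => (w2b u).2) (fun u hu => ?_)
            have := w2d u hu
            rw [show τ - τ = 0 by ring, show 1 - 3 * τ + τ = 1 - 2 * τ by ring] at this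
            exact this
      have hcard := (Finset.card_le_card hcov).trans ((Finset.card_union_le _ _).trans
        (add_le_add (Finset.card_union_le _ _) (Finset.card_union_le _ _)))
      have hcard' : (E.card : ℝ) ≤ ((E.filter fun n : ℕ => P w1 ((n : ℝ) ^ 2)).card : ℝ) + ((E.filter fun n : ℕ => P w2 ((n : ℝ) ^ 2)).card : ℝ) +
          (((E.filter fun n : ℕ => P w3 ((n : ℝ) ^ 2)).card : ℝ) + ((E.filter fun n : ℕ => P w4 ((n : ℝ) ^ 2)).card : ℝ)) := by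
        exact_mod_cast hcard
      have hsub : ∀ (w : ℝ → ℝ) (B : ℝ), PackLe T (P w) B → ((E.filter fun n : ℕ => P w ((n : ℝ) ^ 2)).card : ℝ) ≤ B := by
        intro w B hw
        refine blk T B (P w) hT0 hw _ ?_
        intro n hn
        rw [Finset.mem_filter] at hn
        obtain ⟨h1, h2, h3⟩ := hE n hn.1
        exact ⟨h1, h2.trans (by nlinarith), hn.2⟩
      have k1 := hsub w1 _ hb1
      have k2 := hsub w2 _ hb2
      have k3 := hsub w3 _ hb3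
      have k4 := hsub w4 _ hb4
      linarith)
  refine ⟨K, fun N hN => ?_⟩
  have h1 := hK N hN
  have h2 : {n : ℕ | 1 ≤ n ∧ n ≤ N ∧ (δ < |2 * cA n * Real.log n / n - 1| ∨ δ < |2 * cB n * Real.log n / n - 1|)} =
      (((Finset.Icc 1 N).filter fun n => δ < |2 * cA n * Real.log n / n - 1| ∨ δ < |2 * cB n * Real.log n / n - 1| : Finset ℕ) : Set ℕ) := by
    ext n
    simp only [Set.mem_ofPred_eq, Finset.coe_filter, Finset.mem_Icc]
    tauto
  rw [h2, Set.ncard_coe_finset]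
  refine le_trans (le_of_eq ?_) h1
  congr!

end Pool.Agent.Work.MP_a8fbd7_nt.OX.ASM
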