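import Mathlib
import Pool.Agent.Work.MP_a8fbd7_nt.OX.CW.Slots
import Pool.Agent.Work.MP_a8fbd7_nt.OX.ASM.I_Rp

/-!
MP_a8fbd7_nt, block OX, part ASM, item AA, part (ii): boxes with a long slot, `T' ≥ T^(1/10)` (reflection).
Author: helper86.
-/

set_option autoImplicit false

open MeasureTheory Set Filter Topology

noncomputable section

namespace Pool.Agent.Work.MP_a8fbd7_nt.OX.ASM

open Pool.Agent.Work.MP_56b8f5_nt.UC (IsWt Bl Dp Om psi eta Sep)
open Pool.Agent.Work.MP_a8fbd7_nt.OX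
open Pool.Agent.Work.MP_a8fbd7_nt.OX.CW (so sfA BFA_prod PS_prod sfA_supp sc_one_le dp_one sfA_abs isBlk_slot Yn_floor dp_slot slot_scales)
open Pool.Agent.Work.MP_a8fbd7_nt.OX.ASM.Rg_aux
open Pool.Agent.Work.MP_a8fbd7_nt.OX.ID (Rough roughOne pb rg)

namespace AA_aux

open Classical in
/-- the long slots -/
def Lo (T κ : ℝ) (u : Fin 3 → Option ℕ) : Finset (Fin 3) := Finset.univ.filter fun i => Lg T κ (u i)

open Classical in
/-- the used slots that are not long -/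
def Jo {S : ℕ} (T κ : ℝ) (u : Fin 3 → Option ℕ) (v : Fin S → Option ℕ) : Finset (Fin 3 ⊕ Fin S) :=
  Finset.univ.filter fun i => so u v i ≠ none ∧ ∀ j, i = Sum.inl j → ¬ Lg T κ (u j)

theorem mem_Lo {T κ : ℝ} {u : Fin 3 → Option ℕ} {j : Fin 3} : j ∈ Lo T κ u ↔ Lg T κ (u j) := by
  classical
  unfold Lo
  rw [Finset.mem_filter]
  exact ⟨fun h => h.2, fun h => ⟨Finset.mem_univ _, h⟩⟩

theorem one_le_prod' {ι : Type*} (s : Finset ι) (f : ι → ℝ) (h : ∀ i ∈ s, 1 ≤ f i) : 1 ≤ ∏ i ∈ s, f i :=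
  Finset.prod_induction f (fun x => 1 ≤ x) (fun _ _ ha hb => one_le_mul_of_one_le_of_one_le ha hb) le_rfl h

/-- decomposition of a product over the slots -/
theorem prod_slots {S : ℕ} (T κ : ℝ) (u : Fin 3 → Option ℕ) (v : Fin S → Option ℕ) (φ : Fin 3 ⊕ Fin S → ℝ)
    (h : ∀ i, so u v i = none → φ i = 1) :
    ∏ i, φ i = (∏ i ∈ Jo T κ u v, φ i) * ∏ j ∈ Lo T κ u, φ (Sum.inl j) := by
  classical
  have h1 : ∏ i ∈ Jo T κ u v, φ i = ∏ i, if i ∈ Jo T κ u v then φ i else 1 := by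
    rw [Finset.prod_ite_mem, Finset.univ_inter]
  have h2 : ∏ j ∈ Lo T κ u, φ (Sum.inl j) = ∏ i : Fin 3 ⊕ Fin S, Sum.elim (fun j => if j ∈ Lo T κ u then φ (Sum.inl j) else 1) (fun _ => 1) i := by
    rw [Fintype.prod_sum_type]
    simp only [Sum.elim_inl, Sum.elim_inr, Finset.prod_const_one, mul_one]
    rw [Finset.prod_ite_mem, Finset.univ_inter]
  rw [h1, h2, ← Finset.prod_mul_distrib]
  apply Finset.prod_congr rfl
  intro i _
  rcases i with i | i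
  · simp only [Sum.elim_inl]
    by_cases hL : Lg T κ (u i)
    · have e1 : (Sum.inl i : Fin 3 ⊕ Fin S) ∉ Jo T κ u v := by
        unfold Jo
        rw [Finset.mem_filter]
        rintro ⟨_, _, h3⟩
        exact h3 i rfl hL
      have e2 : i ∈ Lo T κ u := by
        unfold Lo
        rw [Finset.mem_filter]
        exact ⟨Finset.mem_univ _, hL⟩
      rw [if_neg e1, if_pos e2, one_mul]
    · have e2 : i ∉ Lo T κ u := by
        unfold Lo
        rw [Finset.mem_filter]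
        exact fun h3 => hL h3.2
      rw [if_neg e2, mul_one]
      by_cases hn : so u v (Sum.inl i) = none
      · rw [h _ hn, ite_self]
      · have e1 : (Sum.inl i : Fin 3 ⊕ Fin S) ∈ Jo T κ u v := by
          unfold Jo
          rw [Finset.mem_filter]
          refine ⟨Finset.mem_univ _, hn, ?_⟩
          intro j hj
          cases hj
          exact hL
        rw [if_pos e1]
  · simp only [Sum.elim_inr, mul_one]
    by_cases hn : so u v (Sum.inr i) = none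
    · rw [h _ hn, ite_self]
    · have e1 : (Sum.inr i : Fin 3 ⊕ Fin S) ∈ Jo T κ u v := by
        unfold Jo
        rw [Finset.mem_filter]
        refine ⟨Finset.mem_univ _, hn, ?_⟩
        intro j hj
        cases hj
      rw [if_pos e1]

theorem Lo_card (T κ : ℝ) (u : Fin 3 → Option ℕ) : (Lo T κ u).card ≤ 3 := by
  have := Finset.card_le_univ (Lo T κ u)
  simpa using this

/-- the Dirichlet polynomial of a box -/
theorem dp_box (hPd : StPd) {S : ℕ} (y z : ℕ) (T κ : ℝ) (lw : Fin 3 → ℕ → ℝ) (u : Fin 3 → Option ℕ) (v : Fin S → Option ℕ)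
    (Y : ℕ) (hY : ∏ i, Yn (so u v i) ≤ Y) (t : ℝ) :
    ‖Dp Y (fun n => ((BFA y z T κ lw u v n : ℝ) : ℂ)) t‖ =
      (∏ i ∈ Jo T κ u v, ‖PB (fun n => ((sfA y z T κ lw u v i n : ℝ) : ℂ)) (sc (so u v i)) t‖) *
        ∏ j ∈ Lo T κ u, ‖Dp (Yn (u j)) (fun n => ((sfA y z T κ lw u v (Sum.inl j) n : ℝ) : ℂ)) t‖ := by
  have h := (hPd (Fin 3 ⊕ Fin S) Finset.univ (sfA y z T κ lw u v) (fun _ => 0) (fun i => Yn (so u v i))
    (fun i _ => le_rfl) (fun i _ n hn => ⟨by positivity, (sfA_supp y z T κ lw u v i n hn).2⟩)).2.2 Y t hY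
  rw [BFA_prod, h, norm_prod]
  rw [prod_slots T κ u v (fun i => ‖Dp (Yn (so u v i)) (fun n => ((sfA y z T κ lw u v i n : ℝ) : ℂ)) t‖)]
  · congr 1
    apply Finset.prod_congr rfl
    intro i _
    rw [dp_slot]
  · intro i hi
    have hf : sfA y z T κ lw u v i = 1 := by
      rcases i with i | i
      · change u i = none at hi
        show msA y T κ (lw i) (u i) = 1
        rw [hi]; rfl
      · change v i = none at hi
        show ps y z (v i) = 1
        rw [hi]; rfl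
    rw [hf, hi]
    show ‖Dp 2 (fun n => (((1 : ArithmeticFunction ℝ) n : ℝ) : ℂ)) t‖ = 1
    rw [dp_one, norm_one]

theorem PS_split {S : ℕ} (T κ : ℝ) (u : Fin 3 → Option ℕ) (v : Fin S → Option ℕ) :
    PS u v = (∏ i ∈ Jo T κ u v, sc (so u v i)) * ∏ j ∈ Lo T κ u, sc (u j) := by
  rw [PS_prod, prod_slots T κ u v (fun i => sc (so u v i))]
  · rfl
  · intro i hi
    rw [hi]; rfl

/-- a long slot -/
theorem long_bound (hTb : StTb) (y z : ℕ) {S : ℕ} (T κ D : ℝ) (lw : Fin 3 → ℕ → ℝ) (u : Fin 3 → Option ℕ) (v : Fin S → Option ℕ)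
    (h2 : ∀ i d, |lw i d| ≤ 2) (hD : ∀ i d, lw i d ≠ 0 → 1 ≤ d ∧ (d : ℝ) ≤ D) (j : Fin 3) (hj : Lg T κ (u j)) (t : ℝ) :
    ‖Dp (Yn (u j)) (fun n => ((sfA y z T κ lw u v (Sum.inl j) n : ℝ) : ℂ)) t‖ ≤
      ∑ d ∈ Finset.Icc 1 ⌊D⌋₊, 2 * ‖Bl psi (sc (u j) / d) t‖ := by
  obtain ⟨l, hl, hlT⟩ := hj
  have hf : sfA y z T κ lw u v (Sum.inl j) = tb (lw j) l := by
    show msA y T κ (lw j) (u j) = tb (lw j) l
    rw [hl]
    simp only [msA]
    rw [if_pos hlT]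
  rw [hf, hl]
  have h := hTb.1 (lw j) l D t (Yn (some l)) (hD j) le_rfl
  rw [h]
  refine (norm_sum_le _ _).trans (Finset.sum_le_sum fun d hd => ?_)
  rw [Finset.mem_Icc] at hd
  have hd0 : (0 : ℝ) < d := by exact_mod_cast hd.1
  have h1 : ‖(d : ℂ) ^ (-((t : ℂ) * Complex.I))‖ = 1 := by
    have := Complex.norm_cpow_eq_rpow_re_of_pos hd0 (-((t : ℂ) * Complex.I))
    simpa using this
  rw [norm_mul, norm_mul, h1, mul_one, Complex.norm_real, Real.norm_eq_abs]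
  exact mul_le_mul_of_nonneg_right (h2 j d) (norm_nonneg _)

/-- expansion of the product of the long slots and choice of the divisors -/
theorem expand_long (hTb : StTb) (y z : ℕ) {S : ℕ} (T κ D : ℝ) (hD1 : 1 ≤ D) (lw : Fin 3 → ℕ → ℝ) (u : Fin 3 → Option ℕ)
    (v : Fin S → Option ℕ) (h2 : ∀ i d, |lw i d| ≤ 2) (hD : ∀ i d, lw i d ≠ 0 → 1 ≤ d ∧ (d : ℝ) ≤ D)
    (hBl : ∀ N : ℝ, 0 < N → Continuous (Bl psi N))
    (r : ℕ) (e : Fin r ≃ Lo T κ u) (T1 T2 : ℝ) (hT12 : T1 ≤ T2) (H : ℝ → ℝ) (hH : Continuous H) (hH0 : ∀ t, 0 ≤ H t) :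
    ∃ p : Fin r → ℕ, (∀ k, 1 ≤ p k ∧ (p k : ℝ) ≤ D) ∧
      ∫ t in T1..T2, H t * ∏ j ∈ Lo T κ u, ‖Dp (Yn (u j)) (fun n => ((sfA y z T κ lw u v (Sum.inl j) n : ℝ) : ℂ)) t‖ ≤
        (2 * D) ^ r * ∫ t in T1..T2, H t * ∏ k, ‖Bl psi (sc (u (e k)) / p k) t‖ := by
  classical
  set M : ℕ := ⌊D⌋₊ with hM
  have hM1 : 1 ≤ M := by
    rw [hM]; exact Nat.le_floor (by exact_mod_cast hD1)
  have hMD : (M : ℝ) ≤ D := Nat.floor_le (by linarith)
  set P : Finset (Fin r → ℕ) := Fintype.piFinset fun _ => Finset.Icc 1 M with hP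
  have hPmem : ∀ p ∈ P, ∀ k, 1 ≤ p k ∧ (p k : ℝ) ≤ D := by
    intro p hp k
    rw [hP, Fintype.mem_piFinset] at hp
    have := hp k
    rw [Finset.mem_Icc] at this
    exact ⟨this.1, le_trans (by exact_mod_cast this.2) hMD⟩
  have hPne : P.Nonempty := by
    refine ⟨fun _ => 1, ?_⟩
    rw [hP, Fintype.mem_piFinset]
    intro k
    rw [Finset.mem_Icc]
    exact ⟨le_rfl, hM1⟩
  have hPcard : (P.card : ℝ) ≤ D ^ r := by
    rw [hP, Fintype.card_piFinset]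
    simp only [Nat.card_Icc, Nat.add_sub_cancel, Finset.prod_const, Finset.card_univ, Fintype.card_fin]
    push_cast
    exact pow_le_pow_left₀ (by positivity) hMD r
  have hsc : ∀ k : Fin r, 0 < sc (u (e k)) := fun k => sc_pos _
  have hcont : ∀ p ∈ P, Continuous fun t => H t * ∏ k, ‖Bl psi (sc (u (e k)) / p k) t‖ := by
    intro p hp
    refine hH.mul (continuous_finsetProd _ fun k _ => (hBl _ ?_).norm)
    have := (hPmem p hp k).1
    have h3 : (0 : ℝ) < p k := by exact_mod_cast this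
    have := hsc k
    positivity
  obtain ⟨p, hp, hmax⟩ := Finset.exists_max_image P (fun p => ∫ t in T1..T2, H t * ∏ k, ‖Bl psi (sc (u (e k)) / p k) t‖) hPne
  refine ⟨p, hPmem p hp, ?_⟩
  have hpt : ∀ t, H t * ∏ j ∈ Lo T κ u, ‖Dp (Yn (u j)) (fun n => ((sfA y z T κ lw u v (Sum.inl j) n : ℝ) : ℂ)) t‖ ≤
      ∑ p ∈ P, 2 ^ r * (H t * ∏ k, ‖Bl psi (sc (u (e k)) / p k) t‖) := by
    intro t
    have h3 : ∏ j ∈ Lo T κ u, ‖Dp (Yn (u j)) (fun n => ((sfA y z T κ lw u v (Sum.inl j) n : ℝ) : ℂ)) t‖ =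
        ∏ k : Fin r, ‖Dp (Yn (u (e k))) (fun n => ((sfA y z T κ lw u v (Sum.inl (e k : Fin 3)) n : ℝ) : ℂ)) t‖ := by
      rw [← Finset.prod_coe_sort]
      exact (Equiv.prod_comp e (fun j : Lo T κ u => ‖Dp (Yn (u j)) (fun n => ((sfA y z T κ lw u v (Sum.inl (j : Fin 3)) n : ℝ) : ℂ)) t‖)).symm
    rw [h3]
    have h4 : ∏ k : Fin r, ‖Dp (Yn (u (e k))) (fun n => ((sfA y z T κ lw u v (Sum.inl (e k : Fin 3)) n : ℝ) : ℂ)) t‖ ≤
        ∏ k : Fin r, ∑ d ∈ Finset.Icc 1 M, 2 * ‖Bl psi (sc (u (e k)) / d) t‖ := by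
      apply Finset.prod_le_prod (fun _ _ => norm_nonneg _)
      intro k _
      have hk : Lg T κ (u (e k)) := mem_Lo.mp (e k).2
      exact long_bound hTb y z T κ D lw u v h2 hD (e k) hk t
    have h5 : ∏ k : Fin r, ∑ d ∈ Finset.Icc 1 M, 2 * ‖Bl psi (sc (u (e k)) / d) t‖ =
        ∑ p ∈ P, ∏ k, 2 * ‖Bl psi (sc (u (e k)) / p k) t‖ := by
      rw [Finset.prod_univ_sum]
    rw [h5] at h4
    calc _ ≤ H t * ∑ p ∈ P, ∏ k, 2 * ‖Bl psi (sc (u (e k)) / p k) t‖ := mul_le_mul_of_nonneg_left h4 (hH0 t)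
      _ = ∑ p ∈ P, 2 ^ r * (H t * ∏ k, ‖Bl psi (sc (u (e k)) / p k) t‖) := by
          rw [Finset.mul_sum]
          apply Finset.sum_congr rfl
          intro p _
          rw [Finset.prod_mul_distrib]
          simp only [Finset.prod_const, Finset.card_univ, Fintype.card_fin]
          ring
  have hcontL : Continuous fun t => H t * ∏ j ∈ Lo T κ u, ‖Dp (Yn (u j)) (fun n => ((sfA y z T κ lw u v (Sum.inl j) n : ℝ) : ℂ)) t‖ := by
    refine hH.mul (continuous_finsetProd _ fun j _ => ?_)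
    have := Rp_aux.continuous_PB (fun n => ((sfA y z T κ lw u v (Sum.inl j) n : ℝ) : ℂ)) (sc (u j))
    have h6 : ∀ t, Dp (Yn (u j)) (fun n => ((sfA y z T κ lw u v (Sum.inl j) n : ℝ) : ℂ)) t =
        PB (fun n => ((sfA y z T κ lw u v (Sum.inl j) n : ℝ) : ℂ)) (sc (u j)) t := fun t => dp_slot _ _ t
    simp only [h6]
    exact this.norm
  have hcontR : Continuous fun t => ∑ p ∈ P, 2 ^ r * (H t * ∏ k, ‖Bl psi (sc (u (e k)) / p k) t‖) :=
    continuous_finsetSum _ fun p hp => (hcont p hp).const_mul _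
  calc ∫ t in T1..T2, H t * ∏ j ∈ Lo T κ u, ‖Dp (Yn (u j)) (fun n => ((sfA y z T κ lw u v (Sum.inl j) n : ℝ) : ℂ)) t‖
      ≤ ∫ t in T1..T2, ∑ p ∈ P, 2 ^ r * (H t * ∏ k, ‖Bl psi (sc (u (e k)) / p k) t‖) :=
        intervalIntegral.integral_mono_on hT12 (hcontL.intervalIntegrable _ _) (hcontR.intervalIntegrable _ _) fun t _ => hpt t
    _ = ∑ p ∈ P, 2 ^ r * ∫ t in T1..T2, H t * ∏ k, ‖Bl psi (sc (u (e k)) / p k) t‖ := by
        rw [intervalIntegral.integral_finsetSum]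
        · apply Finset.sum_congr rfl
          intro p _
          rw [intervalIntegral.integral_const_mul]
        · intro p hp
          exact ((hcont p hp).const_mul _).intervalIntegrable _ _
    _ ≤ ∑ _p ∈ P, 2 ^ r * ∫ t in T1..T2, H t * ∏ k, ‖Bl psi (sc (u (e k)) / p k) t‖ := by
        apply Finset.sum_le_sum
        intro q hq
        exact mul_le_mul_of_nonneg_left (hmax q hq) (by positivity)
    _ = P.card * (2 ^ r * ∫ t in T1..T2, H t * ∏ k, ‖Bl psi (sc (u (e k)) / p k) t‖) := by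
        rw [Finset.sum_const, nsmul_eq_mul]
    _ ≤ D ^ r * (2 ^ r * ∫ t in T1..T2, H t * ∏ k, ‖Bl psi (sc (u (e k)) / p k) t‖) := by
        apply mul_le_mul_of_nonneg_right hPcard
        apply mul_nonneg (by positivity)
        apply intervalIntegral.integral_nonneg hT12
        intro t _
        exact mul_nonneg (hH0 t) (Finset.prod_nonneg fun k _ => norm_nonneg _)
    _ = (2 * D) ^ r * ∫ t in T1..T2, H t * ∏ k, ‖Bl psi (sc (u (e k)) / p k) t‖ := by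
        rw [mul_pow]; ring

/-- products over `Jo ⊕ I`, indexed by `Fin m` -/
theorem collect {α β : Type} [DecidableEq α] [DecidableEq β] (J : Finset α) (I : Finset β) (a1 : α → ℕ → ℂ) (N1 : α → ℝ)
    (a2 : β → ℕ → ℂ) (N2 : β → ℝ) : ∃ (m : ℕ) (a : Fin m → ℕ → ℂ) (N : Fin m → ℝ),
    (∀ P : (ℕ → ℂ) → ℝ → Prop, (∀ i ∈ J, P (a1 i) (N1 i)) → (∀ k ∈ I, P (a2 k) (N2 k)) → ∀ i, P (a i) (N i)) ∧
    (∀ F : (ℕ → ℂ) → ℝ → ℝ, ∏ i, F (a i) (N i) = (∏ i ∈ J, F (a1 i) (N1 i)) * ∏ k ∈ I, F (a2 k) (N2 k)) := by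
  set e : Fin (Fintype.card ({i // i ∈ J} ⊕ {k // k ∈ I})) ≃ {i // i ∈ J} ⊕ {k // k ∈ I} := (Fintype.equivFin _).symm with he
  refine ⟨Fintype.card ({i // i ∈ J} ⊕ {k // k ∈ I}),
    fun j => (Sum.elim (fun i : {i // i ∈ J} => a1 i) (fun k : {k // k ∈ I} => a2 k) (e j)),
    fun j => (Sum.elim (fun i : {i // i ∈ J} => N1 i) (fun k : {k // k ∈ I} => N2 k) (e j)), ?_, ?_⟩
  · intro P h1 h2 j
    show P (Sum.elim (fun i : {i // i ∈ J} => a1 i) (fun k : {k // k ∈ I} => a2 k) (e j))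
      (Sum.elim (fun i : {i // i ∈ J} => N1 i) (fun k : {k // k ∈ I} => N2 k) (e j))
    generalize e j = x
    rcases x with i | k
    · exact h1 i i.2
    · exact h2 k k.2
  · intro F
    have h1 : ∏ j, F (Sum.elim (fun i : {i // i ∈ J} => a1 i) (fun k : {k // k ∈ I} => a2 k) (e j))
        (Sum.elim (fun i : {i // i ∈ J} => N1 i) (fun k : {k // k ∈ I} => N2 k) (e j)) =
        ∏ x : {i // i ∈ J} ⊕ {k // k ∈ I}, F (Sum.elim (fun i : {i // i ∈ J} => a1 i) (fun k : {k // k ∈ I} => a2 k) x)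
        (Sum.elim (fun i : {i // i ∈ J} => N1 i) (fun k : {k // k ∈ I} => N2 k) x) :=
      Equiv.prod_comp e (fun x => F (Sum.elim (fun i : {i // i ∈ J} => a1 i) (fun k : {k // k ∈ I} => a2 k) x)
        (Sum.elim (fun i : {i // i ∈ J} => N1 i) (fun k : {k // k ∈ I} => N2 k) x))
    rw [h1, Fintype.prod_sum_type]
    simp only [Sum.elim_inl, Sum.elim_inr]
    rw [Finset.prod_coe_sort J (fun i => F (a1 i) (N1 i)), Finset.prod_coe_sort I (fun k => F (a2 k) (N2 k))]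

/-- a product of numbers at most `1`, one of them at most `y` -/
theorem prod_le_of_one {r : ℕ} (x : Fin r → ℝ) (h0 : ∀ k, 0 ≤ x k) (h1 : ∀ k, x k ≤ 1) (k0 : Fin r) (y : ℝ) (hy : x k0 ≤ y) :
    ∏ k, x k ≤ y := by
  classical
  rw [← Finset.mul_prod_erase Finset.univ x (Finset.mem_univ k0)]
  calc x k0 * ∏ k ∈ Finset.univ.erase k0, x k ≤ x k0 * 1 :=
        mul_le_mul_of_nonneg_left (Finset.prod_le_one (fun k _ => h0 k) fun k _ => h1 k) (h0 k0)
    _ ≤ y := by rw [mul_one]; exact hy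

/-- **part (ii)** -/
theorem part2 (hPd : StPd) (hRp : StRp) (hTb : StTb) (κ2 κ3 ε η κ1 CR : ℝ) (S : ℕ) (hκ2 : 0 < κ2) (hκ2' : κ2 ≤ 1 / 20)
    (hκ3 : 0 < κ3) (hκ3' : κ3 ≤ κ2 / 10) (hε : 0 < ε) (hε' : ε ≤ κ3 / 10) (hη : 0 < η) (hη' : η ≤ ε / 1000) (hκ1 : 0 < κ1)
    (hκ1' : κ1 ≤ 1 / 20) (hCR : 1 ≤ CR) : ∃ C : ℝ, 1 ≤ C ∧
    ∀ (T T' X : ℝ) (Y : ℕ) (u : Fin 3 → Option ℕ) (v : Fin S → Option ℕ) (lw : Fin 3 → ℕ → ℝ) (G : ℝ → ℝ), C ≤ T →
    (∃ i, Lg T κ2 (u i)) → (∀ i d, |lw i d| ≤ 2) → (∀ i d, lw i d ≠ 0 → 1 ≤ d ∧ (d : ℝ) ≤ T ^ (ε / 1000)) →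
    BFA (zz η T) (zz (1 / 2 - κ1) T) T κ3 lw u v ≠ 0 → PS u v ≤ CR * T ^ 2 → (∏ i, Yn (so u v i)) ≤ Y →
    T ^ (1 / 10 : ℝ) ≤ T' → T' ≤ T ^ (1 + ε / 1000) → Continuous G → (∀ t, 0 ≤ G t) → 0 ≤ X →
    X * T ^ (2 - ε / 1000) ≤ ∫ t in T'..(2 * T'), G t * ‖Dp Y (fun n => ((BFA (zz η T) (zz (1 / 2 - κ1) T) T κ3 lw u v n : ℝ) : ℂ)) t‖ →
    ∃ (ν : ℝ) (m : ℕ) (a : Fin m → ℕ → ℂ) (N : Fin m → ℝ), (∀ i, IsBlk (a i) (N i)) ∧
      (∀ i, T ^ η / 2 ≤ N i ∧ N i ≤ T ^ (1 / 2 + κ3)) ∧ ∏ i, N i = T ^ ν ∧ ν ≤ 2 - κ2 ∧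
      X * T ^ (1 + ν / 2 - ε) ≤ ∫ t in T'..(2 * T'), G t * ∏ i, ‖PB (a i) (N i) t‖ := by
  classical
  set κ' : ℝ := ε / 1000 with hκ'
  have hκ'0 : 0 < κ' := by positivity
  have hκ'1 : κ' ≤ κ3 / 10000 := by rw [hκ']; linarith
  obtain ⟨C5, hC5, hrp⟩ := hRp κ' hκ'0 (by linarith)
  -- thresholds
  have ev1 : ∀ᶠ T : ℝ in atTop, 8 * C5 * Real.sqrt CR ≤ T ^ κ' := (tendsto_rpow_atTop hκ'0).eventually_ge_atTop _
  have ev2 : ∀ᶠ T : ℝ in atTop, C5 ≤ T ^ (2 * κ3 - 2 * κ') := (tendsto_rpow_atTop (by linarith)).eventually_ge_atTop _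
  have ev3 : ∀ᶠ T : ℝ in atTop, CR * C5 ≤ T ^ (κ2 / 2) := (tendsto_rpow_atTop (by positivity)).eventually_ge_atTop _
  have ev4 : ∀ᶠ T : ℝ in atTop, CR ≤ T ^ (1 : ℝ) := (tendsto_rpow_atTop one_pos).eventually_ge_atTop _
  have ev5 : ∀ᶠ T : ℝ in atTop, 4 ≤ T ^ κ1 := (tendsto_rpow_atTop hκ1).eventually_ge_atTop _
  obtain ⟨C6, hC6⟩ := (ev1.and (ev2.and (ev3.and (ev4.and ev5)))).exists_forall_of_atTop
  refine ⟨max (max C5 C6) 4, le_max_of_le_left (le_max_of_le_left hC5), ?_⟩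
  intro T T' X Y u v lw G hCT hLg hlw2 hlwD hne hPS hY hT'1 hT'2 hG hG0 hX hint
  have t1 : C5 ≤ T := (le_max_left _ _).trans ((le_max_left _ _).trans hCT)
  have t2 : C6 ≤ T := (le_max_right _ _).trans ((le_max_left _ _).trans hCT)
  have hT4 : 4 ≤ T := (le_max_right _ _).trans hCT
  obtain ⟨f1, f2, f3, f4, f5⟩ := hC6 T t2
  have hT0 : 0 < T := by linarith
  have hT1 : 1 ≤ T := by linarith
  have hT1' : 1 < T := by linarith
  have hT'0 : 0 < T' := lt_of_lt_of_le (by positivity) hT'1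
  have hT'12 : T' ≤ 2 * T' := by linarith
  set y : ℕ := zz η T with hy
  set z : ℕ := zz (1 / 2 - κ1) T with hz
  set D : ℝ := T ^ κ' with hD
  have hD1 : 1 ≤ D := Real.one_le_rpow hT1 hκ'0.le
  have hBl : ∀ N : ℝ, 0 < N → Continuous (Bl psi N) :=
    (Pool.Agent.Work.MP_56b8f5_nt.UC.iBc psi Rp_aux.isWt_psi).2.1
  -- slots
  have hslot : ∀ i, sfA y z T κ3 lw u v i ≠ 0 := by
    intro i hi
    apply hne
    rw [BFA_prod]
    exact Finset.prod_eq_zero (Finset.mem_univ i) hi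
  set H : ℝ → ℝ := fun t => G t * ∏ i ∈ Jo T κ3 u v, ‖PB (fun n => ((sfA y z T κ3 lw u v i n : ℝ) : ℂ)) (sc (so u v i)) t‖ with hH
  have hHc : Continuous H := hG.mul (continuous_finsetProd _ fun i _ => (Rp_aux.continuous_PB _ _).norm)
  have hH0 : ∀ t, 0 ≤ H t := fun t => mul_nonneg (hG0 t) (Finset.prod_nonneg fun i _ => norm_nonneg _)
  set r : ℕ := (Lo T κ3 u).card with hr
  have hr3 : r ≤ 3 := Lo_card T κ3 u
  set e : Fin r ≃ Lo T κ3 u := (Finset.equivFin (Lo T κ3 u)).symm with he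
  have hlong : ∀ k : Fin r, T ^ (1 / 2 + κ3) ≤ sc (u (e k)) := by
    intro k
    obtain ⟨l, hl, hlT⟩ := mem_Lo.mp (e k).2
    rw [hl]
    exact hlT.le
  -- the integral
  have hW1 : X * T ^ (2 - κ') ≤ ∫ t in T'..(2 * T'), H t * ∏ j ∈ Lo T κ3 u, ‖Dp (Yn (u j)) (fun n => ((sfA y z T κ3 lw u v (Sum.inl j) n : ℝ) : ℂ)) t‖ := by
    refine hint.trans (le_of_eq ?_)
    apply intervalIntegral.integral_congr
    intro t _
    show G t * ‖Dp Y (fun n => ((BFA y z T κ3 lw u v n : ℝ) : ℂ)) t‖ = _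
    rw [dp_box hPd y z T κ3 lw u v Y hY t]
    simp only [hH]
    ring
  obtain ⟨p, hp, hexp⟩ := expand_long hTb y z T κ3 D hD1 lw u v hlw2 hlwD hBl r e T' (2 * T') hT'12 H hHc hH0
  set N' : Fin r → ℝ := fun k => sc (u (e k)) / p k with hN'
  have hscpos : ∀ k : Fin r, 0 < sc (u (e k)) := fun k => sc_pos _
  have hp0 : ∀ k, (0 : ℝ) < p k := fun k => by exact_mod_cast (hp k).1
  have hPSsplit := PS_split T κ3 u v
  have hPLprod : ∏ j ∈ Lo T κ3 u, sc (u j) = ∏ k : Fin r, sc (u (e k)) := by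
    rw [← Finset.prod_coe_sort]
    exact (Equiv.prod_comp e (fun j : Lo T κ3 u => sc (u j))).symm
  set PJ : ℝ := ∏ i ∈ Jo T κ3 u v, sc (so u v i) with hPJ
  set PL : ℝ := ∏ k : Fin r, sc (u (e k)) with hPL
  have hPJ1 : 1 ≤ PJ := by
    rw [hPJ]
    exact one_le_prod' _ _ fun i _ => sc_one_le _
  have hPL1 : 1 ≤ PL := by
    rw [hPL]
    exact one_le_prod' _ _ fun i _ => sc_one_le _
  have hPSJL : PJ * PL ≤ CR * T ^ 2 := by
    rw [← hPLprod] 
    rw [← hPSsplit]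
    exact hPS
  have hNle : ∀ k, sc (u (e k)) ≤ T ^ 3 := by
    intro k
    have h1 : sc (u (e k)) ≤ PL := by
      rw [hPL, ← Finset.mul_prod_erase Finset.univ (fun k => sc (u (e k))) (Finset.mem_univ k)]
      exact le_mul_of_one_le_right (hscpos k).le (one_le_prod' _ _ fun i _ => sc_one_le _)
    have h2 : PL ≤ PJ * PL := le_mul_of_one_le_left (by linarith) hPJ1
    calc sc (u (e k)) ≤ CR * T ^ 2 := h1.trans (h2.trans hPSJL)
      _ ≤ T ^ (1 : ℝ) * T ^ 2 := by gcongr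
      _ = T ^ 3 := by rw [Real.rpow_one]; ring
  obtain ⟨I, b, L, hI, hI2⟩ := hrp r T T' N' H hr3 t1 hT'1 hT'2 (by
    intro k
    constructor
    · rw [hN']
      simp only
      rw [le_div_iff₀ (hp0 k)]
      calc T ^ (1 / 2 + 2 * κ') * (p k : ℝ) ≤ T ^ (1 / 2 + 2 * κ') * T ^ κ' := by
            have := (hp k).2
            gcongr
        _ = T ^ (1 / 2 + 3 * κ') := by rw [← Real.rpow_add hT0]; congr 1; ring
        _ ≤ T ^ (1 / 2 + κ3) := Real.rpow_le_rpow_of_exponent_le hT1 (by linarith)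
        _ ≤ _ := hlong k
    · rw [hN']
      simp only
      refine le_trans ?_ (hNle k)
      apply div_le_self (hscpos k).le
      exact_mod_cast (hp k).1) hHc hH0
  have hL0 : ∀ k ∈ I, 0 < L k := fun k hk => lt_of_lt_of_le (by positivity) (hI k hk).2.1
  set Q : ℝ := ∏ k ∈ I, L k with hQ
  have hQ0 : 0 < Q := Finset.prod_pos hL0
  set W2 : ℝ := ∫ t in T'..(2 * T'), H t * ∏ k ∈ I, ‖PB (b k) (L k) t‖ with hW2
  have hW20 : 0 ≤ W2 := intervalIntegral.integral_nonneg hT'12 fun t _ =>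
    mul_nonneg (hH0 t) (Finset.prod_nonneg fun k _ => norm_nonneg _)
  have hsq : ∏ k ∈ I, Real.sqrt (L k) = Real.sqrt Q := by
    rw [hQ, Real.sqrt_eq_rpow, ← Real.finsetProd_rpow I L (fun k hk => (hL0 k hk).le)]
    exact Finset.prod_congr rfl fun k _ => Real.sqrt_eq_rpow _
  have hsqN : ∏ k, Real.sqrt (N' k) ≤ Real.sqrt PL := by
    rw [hPL, Real.sqrt_eq_rpow, ← Real.finsetProd_rpow Finset.univ _ (fun k _ => (hscpos k).le)]
    apply Finset.prod_le_prod (fun k _ => Real.sqrt_nonneg _)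
    intro k _
    rw [← Real.sqrt_eq_rpow]
    apply Real.sqrt_le_sqrt
    rw [hN']
    exact div_le_self (hscpos k).le (by exact_mod_cast (hp k).1)
  have hI3 : ∫ t in T'..(2 * T'), H t * ∏ k ∈ I, (‖PB (b k) (L k) t‖ / Real.sqrt (L k)) = W2 / Real.sqrt Q := by
    rw [hW2, ← intervalIntegral.integral_div]
    apply intervalIntegral.integral_congr
    intro t _
    show H t * ∏ k ∈ I, (‖PB (b k) (L k) t‖ / Real.sqrt (L k)) = H t * (∏ k ∈ I, ‖PB (b k) (L k) t‖) / Real.sqrt Q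
    rw [Finset.prod_div_distrib, hsq, mul_div_assoc]
  rw [hI3] at hI2
  have hsQ0 : 0 < Real.sqrt Q := Real.sqrt_pos.mpr hQ0
  have hD3 : (2 * D) ^ r ≤ 8 * T ^ (3 * κ') := by
    calc (2 * D) ^ r ≤ (2 * D) ^ 3 := pow_le_pow_right₀ (by linarith) hr3
      _ = 8 * D ^ 3 := by ring
      _ = 8 * T ^ (3 * κ') := by
          rw [hD, ← Real.rpow_natCast (T ^ κ') 3, ← Real.rpow_mul hT0.le]
          congr 2
          push_cast
          ring
  have hmain : X * T ^ (2 - κ') * Real.sqrt Q ≤ 8 * C5 * T ^ (5 * κ') * Real.sqrt PL * W2 := by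
    have h1 : X * T ^ (2 - κ') ≤ 8 * T ^ (3 * κ') * (C5 * Real.sqrt PL * T ^ (2 * κ') * (W2 / Real.sqrt Q)) := by
      calc X * T ^ (2 - κ') ≤ (2 * D) ^ r * ∫ t in T'..(2 * T'), H t * ∏ k, ‖Bl psi (sc (u (e k)) / p k) t‖ := hW1.trans hexp
        _ ≤ (2 * D) ^ r * (C5 * (∏ k, Real.sqrt (N' k)) * T ^ (2 * κ') * (W2 / Real.sqrt Q)) := by
            apply mul_le_mul_of_nonneg_left hI2 (by positivity)
        _ ≤ 8 * T ^ (3 * κ') * (C5 * Real.sqrt PL * T ^ (2 * κ') * (W2 / Real.sqrt Q)) := by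
            have h2 : 0 ≤ ∏ k, Real.sqrt (N' k) := Finset.prod_nonneg fun k _ => Real.sqrt_nonneg _
            gcongr
    have h2 : 8 * T ^ (3 * κ') * (C5 * Real.sqrt PL * T ^ (2 * κ') * (W2 / Real.sqrt Q)) * Real.sqrt Q =
        8 * C5 * (T ^ (3 * κ') * T ^ (2 * κ')) * Real.sqrt PL * W2 := by
      field_simp
    calc X * T ^ (2 - κ') * Real.sqrt Q ≤ 8 * T ^ (3 * κ') * (C5 * Real.sqrt PL * T ^ (2 * κ') * (W2 / Real.sqrt Q)) * Real.sqrt Q := by
          gcongr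
      _ = 8 * C5 * (T ^ (3 * κ') * T ^ (2 * κ')) * Real.sqrt PL * W2 := h2
      _ = _ := by
          rw [← Real.rpow_add hT0]
          congr 4
          ring
  set ν : ℝ := Real.logb T (PJ * Q) with hν
  have hPJQ0 : 0 < PJ * Q := by positivity
  have hTν : T ^ ν = PJ * Q := Real.rpow_logb hT0 (by linarith) hPJQ0
  -- the total length
  have hνle : ν ≤ 2 - κ2 := by
    have h1 : PJ * Q ≤ T ^ (2 - κ2) := by
      set x : Fin r → ℝ := fun k => (if k ∈ I then L k else 1) / sc (u (e k)) with hx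
      have hx0 : ∀ k, 0 ≤ x k := by
        intro k
        rw [hx]
        apply div_nonneg _ (hscpos k).le
        split_ifs with h
        · exact (hL0 k h).le
        · norm_num
      have hxprod : ∏ k, x k = Q / PL := by
        rw [hx, Finset.prod_div_distrib, Finset.prod_ite_mem, Finset.univ_inter]
      have hxgen : ∀ (k : Fin r) (κ : ℝ), κ3 ≤ κ → κ ≤ 1 / 20 → T ^ (1 / 2 + κ) ≤ sc (u (e k)) → x k ≤ C5 * T ^ (2 * κ' - 2 * κ) := by
        intro k κ hκa hκb hk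
        have hC50 : 0 < C5 := by linarith
        have hsk := hscpos k
        rw [hx]
        simp only
        rw [div_le_iff₀ (hscpos k)]
        split_ifs with h
        · have h2 := (hI k h).2.2.2
          rw [hN'] at h2
          simp only at h2
          have h3 : L k * sc (u (e k)) ≤ C5 * T' * p k := by
            rw [mul_div_assoc', div_le_iff₀ (hp0 k)] at h2
            exact h2
          have h4 : L k * sc (u (e k)) ≤ C5 * T ^ (1 + κ') * T ^ κ' := by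
            refine h3.trans ?_
            have := (hp k).2
            gcongr
          have h5 : C5 * T ^ (1 + κ') * T ^ κ' ≤ C5 * T ^ (2 * κ' - 2 * κ) * sc (u (e k)) * sc (u (e k)) := by
            calc C5 * T ^ (1 + κ') * T ^ κ' = C5 * T ^ (2 * κ' - 2 * κ) * T ^ (1 / 2 + κ) * T ^ (1 / 2 + κ) := by
                  rw [mul_assoc, ← Real.rpow_add hT0, mul_assoc C5, ← Real.rpow_add hT0, mul_assoc C5, ← Real.rpow_add hT0]
                  congr 2
                  ring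
              _ ≤ _ := by gcongr
          exact le_of_mul_le_mul_right (h4.trans h5) (hscpos k)
        · calc (1 : ℝ) ≤ 1 * T ^ (2 * κ' - 2 * κ + (1 / 2 + κ)) := by
                rw [one_mul]
                exact Real.one_le_rpow hT1 (by linarith)
            _ ≤ C5 * T ^ (2 * κ' - 2 * κ + (1 / 2 + κ)) := by gcongr
            _ = C5 * T ^ (2 * κ' - 2 * κ) * T ^ (1 / 2 + κ) := by
                rw [Real.rpow_add hT0]; ring
            _ ≤ _ := by gcongr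
      have hx1 : ∀ k, x k ≤ 1 := by
        intro k
        refine (hxgen k κ3 le_rfl (by linarith) (hlong k)).trans ?_
        calc C5 * T ^ (2 * κ' - 2 * κ3) ≤ T ^ (2 * κ3 - 2 * κ') * T ^ (2 * κ' - 2 * κ3) := by gcongr
          _ = 1 := by rw [← Real.rpow_add hT0]; ring_nf; exact Real.rpow_zero T
      obtain ⟨i0, l0, hl0, hl0T⟩ := hLg
      have hi0 : i0 ∈ Lo T κ3 u := by
        unfold Lo
        rw [Finset.mem_filter]
        refine ⟨Finset.mem_univ _, l0, hl0, lt_of_le_of_lt ?_ hl0T⟩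
        exact Real.rpow_le_rpow_of_exponent_le hT1 (by linarith)
      have hk0 : T ^ (1 / 2 + κ2) ≤ sc (u (e (e.symm ⟨i0, hi0⟩))) := by
        rw [Equiv.apply_symm_apply, hl0]
        exact hl0T.le
      have hxle := prod_le_of_one x hx0 hx1 (e.symm ⟨i0, hi0⟩) _ (hxgen _ κ2 (by linarith) hκ2' hk0)
      rw [hxprod, div_le_iff₀ (by linarith)] at hxle
      calc PJ * Q ≤ PJ * (C5 * T ^ (2 * κ' - 2 * κ2) * PL) := by gcongr
        _ = C5 * T ^ (2 * κ' - 2 * κ2) * (PJ * PL) := by ring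
        _ ≤ C5 * T ^ (2 * κ' - 2 * κ2) * (CR * T ^ 2) := by gcongr
        _ = (CR * C5) * (T ^ (2 * κ' - 2 * κ2) * T ^ 2) := by ring
        _ ≤ T ^ (κ2 / 2) * (T ^ (2 * κ' - 2 * κ2) * T ^ 2) := by gcongr
        _ = T ^ (2 + 2 * κ' - 3 / 2 * κ2) := by
            rw [← Real.rpow_natCast T 2, ← Real.rpow_add hT0, ← Real.rpow_add hT0]
            congr 1
            push_cast
            ring
        _ ≤ T ^ (2 - κ2) := Real.rpow_le_rpow_of_exponent_le hT1 (by linarith)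
    rw [hν, Real.logb_le_iff_le_rpow hT1' hPJQ0]
    exact h1
  obtain ⟨m, a, N, hall, hprod⟩ := collect (Jo T κ3 u v) I (fun i => fun n => ((sfA y z T κ3 lw u v i n : ℝ) : ℂ))
    (fun i => sc (so u v i)) b L
  have hJmem : ∀ i ∈ Jo T κ3 u v, so u v i ≠ none ∧ ∀ j, i = Sum.inl j → ¬ Lg T κ3 (u j) := by
    intro i hi
    unfold Jo at hi
    exact (Finset.mem_filter.mp hi).2
  have hηle : T ^ η / 2 ≤ T ^ κ' / 2 := by
    have := Real.rpow_le_rpow_of_exponent_le hT1 hη'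
    linarith
  refine ⟨ν, m, a, N, hall (fun a N => IsBlk a N) ?_ ?_, hall (fun _ N => T ^ η / 2 ≤ N ∧ N ≤ T ^ (1 / 2 + κ3)) ?_ ?_, ?_, hνle, ?_⟩
  · intro i hi
    exact isBlk_slot y z T κ3 lw u v i (hJmem i hi).2
  · intro k hk
    exact (hI k hk).1
  · intro i hi
    obtain ⟨h1, h2⟩ := hJmem i hi
    obtain ⟨h3, h4⟩ := slot_scales η z T κ3 lw u v i h2 (hslot i) h1
    refine ⟨h3, ?_⟩
    rcases i with i | i
    · have h5 := h2 i rfl
      show sc (u i) ≤ _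
      change u i ≠ none at h1
      obtain ⟨l, hl⟩ := Option.ne_none_iff_exists'.mp h1
      rw [hl]
      by_contra h6
      push Not at h6
      exact h5 ⟨l, hl, h6⟩
    · refine (h4 i rfl).trans ?_
      have h5 : (z : ℝ) ≤ T ^ (1 / 2 - κ1) := by
        rw [hz]; unfold zz
        exact Nat.floor_le (by positivity)
      calc (2 : ℝ) * z ≤ T ^ κ1 * T ^ (1 / 2 - κ1) := by
            have : (0 : ℝ) ≤ z := Nat.cast_nonneg z
            have : (2 : ℝ) ≤ T ^ κ1 := by linarith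
            gcongr
        _ = T ^ (1 / 2 : ℝ) := by rw [← Real.rpow_add hT0]; congr 1; ring
        _ ≤ _ := Real.rpow_le_rpow_of_exponent_le hT1 (by linarith)
  · intro k hk
    obtain ⟨_, h1, h2, _⟩ := hI k hk
    exact ⟨hηle.trans h1, h2.trans (Real.rpow_le_rpow_of_exponent_le hT1 (by linarith))⟩
  · rw [hprod (fun _ N => N), hTν]
  · have h1 : ∫ t in T'..(2 * T'), G t * ∏ i, ‖PB (a i) (N i) t‖ = W2 := by
      rw [hW2]
      apply intervalIntegral.integral_congr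
      intro t _
      show G t * ∏ i, ‖PB (a i) (N i) t‖ = H t * ∏ k ∈ I, ‖PB (b k) (L k) t‖
      rw [hprod (fun a N => ‖PB a N t‖)]
      simp only [hH]
      ring
    rw [h1]
    have hsPJ : 0 < Real.sqrt PJ := Real.sqrt_pos.mpr (by linarith)
    have h2 : X * T ^ (2 - κ') * (Real.sqrt Q * Real.sqrt PJ) ≤ 8 * C5 * T ^ (5 * κ') * (Real.sqrt PL * Real.sqrt PJ) * W2 := by
      have := mul_le_mul_of_nonneg_right hmain hsPJ.le
      linarith
    have h3 : Real.sqrt Q * Real.sqrt PJ = T ^ (ν / 2) := by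
      rw [← Real.sqrt_mul hQ0.le, mul_comm Q PJ, ← hTν, Real.sqrt_eq_rpow, ← Real.rpow_mul hT0.le]
      congr 1
      ring
    have h4 : Real.sqrt PL * Real.sqrt PJ ≤ Real.sqrt CR * T := by
      rw [← Real.sqrt_mul (by linarith), mul_comm PL PJ]
      calc Real.sqrt (PJ * PL) ≤ Real.sqrt (CR * T ^ 2) := Real.sqrt_le_sqrt hPSJL
        _ = Real.sqrt CR * T := by rw [Real.sqrt_mul (by linarith), Real.sqrt_sq hT0.le]
    rw [h3] at h2
    have h5 : X * T ^ (2 - κ') * T ^ (ν / 2) ≤ T ^ (6 * κ' + 1) * W2 := by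
      calc X * T ^ (2 - κ') * T ^ (ν / 2) ≤ 8 * C5 * T ^ (5 * κ') * (Real.sqrt PL * Real.sqrt PJ) * W2 := h2
        _ ≤ 8 * C5 * T ^ (5 * κ') * (Real.sqrt CR * T) * W2 := by gcongr
        _ = (8 * C5 * Real.sqrt CR) * T ^ (5 * κ') * T * W2 := by ring
        _ ≤ T ^ κ' * T ^ (5 * κ') * T * W2 := by gcongr
        _ = T ^ (6 * κ' + 1) * W2 := by
            rw [← Real.rpow_add hT0, ← Real.rpow_add_one hT0.ne']
            congr 2
            ring
    have h6 : T ^ (6 * κ' + 1) * (X * T ^ (1 + ν / 2 - 7 * κ')) ≤ T ^ (6 * κ' + 1) * W2 := by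
      refine le_trans (le_of_eq ?_) h5
      have e1 : T ^ (6 * κ' + 1) * T ^ (1 + ν / 2 - 7 * κ') = T ^ (2 - κ') * T ^ (ν / 2) := by
        rw [← Real.rpow_add hT0, ← Real.rpow_add hT0]
        congr 1
        ring
      calc T ^ (6 * κ' + 1) * (X * T ^ (1 + ν / 2 - 7 * κ')) = X * (T ^ (6 * κ' + 1) * T ^ (1 + ν / 2 - 7 * κ')) := by ring
        _ = X * (T ^ (2 - κ') * T ^ (ν / 2)) := by rw [e1]
        _ = _ := by ring
    have h7 := le_of_mul_le_mul_left h6 (by positivity)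
    refine le_trans ?_ h7
    apply mul_le_mul_of_nonneg_left _ hX
    apply Real.rpow_le_rpow_of_exponent_le hT1
    rw [hκ']
    linarith

end AA_aux

end Pool.Agent.Work.MP_a8fbd7_nt.OX.ASM
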