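import Mathlib
import Pool.Agent.Work.MP_a8fbd7_nt.OX.ASM.AA2
import Pool.Agent.Work.MP_a8fbd7_nt.OX.CELL.MS

/-!
MP_a8fbd7_nt, block OX, part ASM, item AA, part (i): masses and small `t`.
Author: helper86.
-/

set_option autoImplicit false

open MeasureTheory Set Filter Topology

noncomputable section

namespace Pool.Agent.Work.MP_a8fbd7_nt.OX.ASM

open Pool.Agent.Work.MP_56b8f5_nt.UC (IsWt Bl Dp Om psi eta Sep)
open Pool.Agent.Work.MP_a8fbd7_nt.OX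
open Pool.Agent.Work.MP_a8fbd7_nt.OX.CW (so sfA BFA_prod PS_prod sfA_supp sc_one_le dp_one sfA_abs isBlk_slot Yn_floor dp_slot slot_scales)
open Pool.Agent.Work.MP_a8fbd7_nt.OX.ASM.Rg_aux
open Pool.Agent.Work.MP_a8fbd7_nt.OX.ID (Rough roughOne pb rg)

namespace AA_aux

/-- trivial bound for `Dp` -/
theorem Dp_le (Y : ℕ) (f : ℕ → ℝ) (t : ℝ) : ‖Dp Y (fun n => ((f n : ℝ) : ℂ)) t‖ ≤ ∑ n ∈ Finset.Icc 1 Y, |f n| := by
  unfold Dp
  refine (norm_sum_le _ _).trans (Finset.sum_le_sum fun n hn => ?_)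
  rw [Finset.mem_Icc] at hn
  have hn0 : (0 : ℝ) < n := by exact_mod_cast hn.1
  have h1 : ‖(n : ℂ) ^ (-((t : ℂ) * Complex.I))‖ = 1 := by
    have := Complex.norm_cpow_eq_rpow_re_of_pos hn0 (-((t : ℂ) * Complex.I))
    simpa using this
  rw [norm_mul, h1, mul_one, Complex.norm_real, Real.norm_eq_abs]

/-- mass of a slot that is not long -/
theorem mass_short {S : ℕ} (y z : ℕ) (T κ : ℝ) (lw : Fin 3 → ℕ → ℝ) (u : Fin 3 → Option ℕ) (v : Fin S → Option ℕ)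
    (i : Fin 3 ⊕ Fin S) (h : ∀ j, i = Sum.inl j → ¬ Lg T κ (u j)) :
    ∑ n ∈ Finset.Icc 1 (Yn (so u v i)), |sfA y z T κ lw u v i n| ≤ 2 * sc (so u v i) := by
  calc ∑ n ∈ Finset.Icc 1 (Yn (so u v i)), |sfA y z T κ lw u v i n| ≤ ∑ _n ∈ Finset.Icc 1 (Yn (so u v i)), (1 : ℝ) :=
        Finset.sum_le_sum fun n _ => sfA_abs y z T κ lw u v i h n
    _ = 2 * sc (so u v i) := by
        rw [Finset.sum_const, Nat.card_Icc, nsmul_eq_mul, mul_one, Nat.add_sub_cancel, Yn_cast]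

/-- mass of a long slot -/
theorem mass_long {S : ℕ} (CT D : ℝ) (hCT : ∀ (l : ℕ → ℝ) (j : ℕ) (D : ℝ) (Y : ℕ), 2 ≤ D → D ≤ 2 ^ j → (∀ d, |l d| ≤ 2) →
      (∀ d, l d ≠ 0 → 1 ≤ d ∧ (d : ℝ) ≤ D) → ∑ n ∈ Finset.Icc 1 Y, |tb l j n| ≤ CT * 2 ^ j * Real.log D)
    (y z : ℕ) (T κ : ℝ) (lw : Fin 3 → ℕ → ℝ) (u : Fin 3 → Option ℕ) (v : Fin S → Option ℕ) (hD2 : 2 ≤ D) (hDT : D ≤ T ^ (1 / 2 + κ))
    (h2 : ∀ i d, |lw i d| ≤ 2) (hD : ∀ i d, lw i d ≠ 0 → 1 ≤ d ∧ (d : ℝ) ≤ D) (j : Fin 3) (hj : Lg T κ (u j)) :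
    ∑ n ∈ Finset.Icc 1 (Yn (so u v (Sum.inl j))), |sfA y z T κ lw u v (Sum.inl j) n| ≤ CT * sc (u j) * Real.log D := by
  obtain ⟨l, hl, hlT⟩ := hj
  have hf : sfA y z T κ lw u v (Sum.inl j) = tb (lw j) l := by
    show msA y T κ (lw j) (u j) = tb (lw j) l
    rw [hl]
    simp only [msA]
    rw [if_pos hlT]
  rw [hf]
  have h := hCT (lw j) l D (Yn (so u v (Sum.inl j))) hD2 (hDT.trans hlT.le) (h2 j) (hD j)
  refine h.trans (le_of_eq ?_)
  rw [hl]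
  rfl

/-- product over the slots: `u`-slots and `v`-slots -/
theorem mass_prod {S : ℕ} (u : Fin 3 → Option ℕ) (v : Fin S → Option ℕ) (g : Fin 3 ⊕ Fin S → ℝ) (K : ℝ) (hg0 : ∀ i, 0 ≤ g i)
    (hg1 : ∀ j : Fin 3, g (Sum.inl j) ≤ K * sc (u j)) (hg2 : ∀ r : Fin S, g (Sum.inr r) ≤ 2 * sc (v r)) :
    ∏ i, g i ≤ K ^ 3 * 2 ^ S * PS u v := by
  rw [Fintype.prod_sum_type]
  calc (∏ j : Fin 3, g (Sum.inl j)) * ∏ r : Fin S, g (Sum.inr r) ≤ (∏ j : Fin 3, K * sc (u j)) * ∏ r : Fin S, 2 * sc (v r) := by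
        apply mul_le_mul (Finset.prod_le_prod (fun j _ => hg0 _) fun j _ => hg1 j)
          (Finset.prod_le_prod (fun j _ => hg0 _) fun r _ => hg2 r) (Finset.prod_nonneg fun r _ => hg0 _)
        exact Finset.prod_nonneg fun j _ => (hg0 _).trans (hg1 j)
    _ = K ^ 3 * 2 ^ S * PS u v := by
        rw [Finset.prod_mul_distrib, Finset.prod_mul_distrib]
        simp only [Finset.prod_const, Finset.card_univ, Fintype.card_fin]
        unfold PS
        ring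

/-- **part (i)**: masses and small `t` -/
theorem part1 (hPd : StPd) (hTb : StTb) (hKp : Pool.Agent.Work.MP_56b8f5_nt.UC.StKp) (κ2 κ3 ε CR : ℝ) (S : ℕ) (hκ2 : 0 < κ2) (hκ2' : κ2 ≤ 1 / 20)
    (hκ3 : 0 < κ3) (hκ3' : κ3 ≤ κ2 / 10) (hε : 0 < ε) (hε' : ε ≤ κ3 / 10) (hCR : 1 ≤ CR) : ∃ C : ℝ, 1 ≤ C ∧
    ∀ (T : ℝ) (Y y z : ℕ) (u : Fin 3 → Option ℕ) (v : Fin S → Option ℕ) (lw : Fin 3 → ℕ → ℝ), C ≤ T →
    (∃ i, Lg T κ2 (u i)) → (∀ i d, |lw i d| ≤ 2) → (∀ i d, lw i d ≠ 0 → 1 ≤ d ∧ (d : ℝ) ≤ T ^ (ε / 1000)) →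
    PS u v ≤ CR * T ^ 2 → (∏ i, Yn (so u v i)) ≤ Y →
    (∑ n ∈ Finset.Icc 1 Y, |BFA y z T κ3 lw u v n| ≤ C * Real.log T ^ 3 * T ^ 2) ∧
    ∀ t : ℝ, 1 ≤ t → t ≤ 2 * T ^ (1 / 10 : ℝ) →
      ‖Dp Y (fun n => ((BFA y z T κ3 lw u v n : ℝ) : ℂ)) t‖ ≤ C * Real.log T ^ 3 * T ^ 2 / t ^ 2 := by
  classical
  set κ' : ℝ := ε / 1000 with hκ'
  have hκ'0 : 0 < κ' := by positivity
  have hκ'1 : κ' ≤ 1 / 1000 := by rw [hκ']; linarith
  obtain ⟨CT, hCT1, hCT⟩ := hTb.2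
  obtain ⟨CK, hCK1, hCK⟩ := hKp psi Rp_aux.isWt_psi
  have ev1 : ∀ᶠ T : ℝ in atTop, 2 ≤ T ^ κ' := (tendsto_rpow_atTop hκ'0).eventually_ge_atTop _
  have ev2 : ∀ᶠ T : ℝ in atTop, 8 ≤ T ^ (1 / 5 : ℝ) := (tendsto_rpow_atTop (by norm_num)).eventually_ge_atTop _
  obtain ⟨C6, hC6⟩ := (ev1.and ev2).exists_forall_of_atTop
  set CC : ℝ := (2 * CT) ^ 3 * 2 ^ (3 + S) * (6 * CK) * CR with hCC
  refine ⟨max (max C6 (Real.exp 1)) (max CC 3), le_max_of_le_right (le_max_of_le_right (by norm_num)), ?_⟩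
  intro T Y y z u v lw hT hLg hlw2 hlwD hPS hY
  have t1 : C6 ≤ T := (le_max_left _ _).trans ((le_max_left _ _).trans hT)
  have t2 : Real.exp 1 ≤ T := (le_max_right _ _).trans ((le_max_left _ _).trans hT)
  have hT3 : 3 ≤ T := (le_max_right _ _).trans ((le_max_right _ _).trans hT)
  obtain ⟨f1, f2⟩ := hC6 T t1
  have hT0 : 0 < T := by linarith
  have hT1 : 1 ≤ T := by linarith
  have hlog : 1 ≤ Real.log T := by rw [Real.le_log_iff_exp_le hT0]; exact t2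
  set D : ℝ := T ^ κ' with hD
  have hDT : D ≤ T ^ (1 / 2 + κ3) := Real.rpow_le_rpow_of_exponent_le hT1 (by linarith)
  have hlogD : Real.log D ≤ Real.log T := by
    rw [hD, Real.log_rpow hT0]
    nlinarith
  have hlogD0 : 0 ≤ Real.log D := Real.log_nonneg (by linarith)
  set K : ℝ := 2 * CT * Real.log T with hK
  have hK2 : 2 ≤ K := by rw [hK]; nlinarith
  -- masses
  have hmass : ∀ i, ∑ n ∈ Finset.Icc 1 (Yn (so u v i)), |sfA y z T κ3 lw u v i n| ≤ K * sc (so u v i) := by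
    intro i
    have hsc := sc_pos (so u v i)
    by_cases h : ∀ j, i = Sum.inl j → ¬ Lg T κ3 (u j)
    · refine (mass_short y z T κ3 lw u v i h).trans ?_
      gcongr
    · push Not at h
      obtain ⟨j, rfl, hj⟩ := h
      refine (mass_long CT D hCT y z T κ3 lw u v f1 hDT hlw2 hlwD j hj).trans ?_
      have hsc' : 0 < sc (u j) := sc_pos (u j)
      show CT * sc (u j) * Real.log D ≤ K * sc (u j)
      rw [hK]
      have : CT * sc (u j) * Real.log D ≤ CT * sc (u j) * Real.log T := by gcongr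
      nlinarith [mul_pos (mul_pos (show 0 < CT by linarith) hsc') (show 0 < Real.log T by linarith)]
  have hmass2 : ∀ r : Fin S, ∑ n ∈ Finset.Icc 1 (Yn (so u v (Sum.inr r))), |sfA y z T κ3 lw u v (Sum.inr r) n| ≤ 2 * sc (v r) :=
    fun r => mass_short y z T κ3 lw u v (Sum.inr r) (fun j hj => by cases hj)
  have hCCle : ∀ x : ℝ, 0 ≤ x → CC * x ≤ max (max C6 (Real.exp 1)) (max CC 3) * x := fun x hx =>
    mul_le_mul_of_nonneg_right ((le_max_left _ _).trans (le_max_right _ _)) hx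
  have hS0 : (0 : ℝ) < 2 ^ S := by positivity
  have hPS0 : 0 < PS u v := by
    rw [PS_prod]
    exact Finset.prod_pos fun i _ => sc_pos _
  constructor
  · have h1 := ((hPd (Fin 3 ⊕ Fin S) Finset.univ (sfA y z T κ3 lw u v) (fun _ => 0) (fun i => Yn (so u v i))
      (fun i _ => le_rfl) (fun i _ n hn => ⟨by positivity, (sfA_supp y z T κ3 lw u v i n hn).2⟩)).2.1 Y)
    rw [BFA_prod]
    have h2 := mass_prod u v (fun i => ∑ n ∈ Finset.Icc 1 (Yn (so u v i)), |sfA y z T κ3 lw u v i n|) K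
      (fun i => Finset.sum_nonneg fun n _ => abs_nonneg _) (fun j => hmass (Sum.inl j)) hmass2
    calc ∑ n ∈ Finset.Icc 1 Y, |(∏ i, sfA y z T κ3 lw u v i) n| ≤ K ^ 3 * 2 ^ S * PS u v := h1.trans h2
      _ ≤ K ^ 3 * 2 ^ S * (CR * T ^ 2) := by gcongr
      _ = ((2 * CT) ^ 3 * 2 ^ S * 1 * 1 * CR) * (Real.log T ^ 3 * T ^ 2) := by rw [hK]; ring
      _ ≤ ((2 * CT) ^ 3 * 2 ^ S * 2 ^ 3 * (6 * CK) * CR) * (Real.log T ^ 3 * T ^ 2) := by
          gcongr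
          · norm_num
          · linarith
      _ = CC * (Real.log T ^ 3 * T ^ 2) := by rw [hCC, pow_add]; ring
      _ ≤ _ := by
          have h := hCCle (Real.log T ^ 3 * T ^ 2) (by positivity)
          refine h.trans (le_of_eq ?_)
          ring
  · intro t ht1 ht2
    obtain ⟨i0, l0, hl0, hl0T⟩ := hLg
    have hi0L : Lg T κ3 (u i0) := ⟨l0, hl0, lt_of_le_of_lt (Real.rpow_le_rpow_of_exponent_le hT1 (by linarith)) hl0T⟩
    have hi0 : i0 ∈ Lo T κ3 u := mem_Lo.mpr hi0L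
    set N : ℝ := sc (u i0) with hN
    have hNT : T ^ (1 / 2 : ℝ) ≤ N := by
      rw [hN, hl0]
      refine le_trans ?_ hl0T.le
      exact Real.rpow_le_rpow_of_exponent_le hT1 (by linarith)
    have hN0 : 0 < N := sc_pos _
    have ht0 : 0 < t := by linarith
    -- the slot `i0`
    have hslot0 : ‖Dp (Yn (u i0)) (fun n => ((sfA y z T κ3 lw u v (Sum.inl i0) n : ℝ) : ℂ)) t‖ ≤ 6 * CK * Real.log T * (N / t ^ 2) := by
      refine (long_bound hTb y z T κ3 D lw u v hlw2 hlwD i0 hi0L t).trans ?_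
      have hD0 : 0 < D := by linarith
      have h1 : ∀ d ∈ Finset.Icc 1 ⌊D⌋₊, 2 * ‖Bl psi (N / d) t‖ ≤ 2 * CK * (N / t ^ 2) * (1 / (d : ℝ)) + 2 * CK * Real.sqrt (1 + t) := by
        intro d hd
        rw [Finset.mem_Icc] at hd
        have hd0 : (0 : ℝ) < d := by exact_mod_cast hd.1
        have h2 := hCK (N / d) t (by positivity)
        rw [abs_of_pos ht0] at h2
        have h3 : N / d / (1 + t ^ 2) ≤ N / t ^ 2 * (1 / d) := by
          have : N / t ^ 2 * (1 / d) = N / d / t ^ 2 := by field_simp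
          rw [this]
          gcongr
          linarith
        nlinarith [mul_le_mul_of_nonneg_left h3 (show 0 ≤ CK by linarith)]
      refine (Finset.sum_le_sum h1).trans ?_
      rw [Finset.sum_add_distrib, ← Finset.mul_sum, Finset.sum_const, Nat.card_Icc, nsmul_eq_mul, Nat.add_sub_cancel]
      have h4 : ∑ d ∈ Finset.Icc 1 ⌊D⌋₊, 1 / (d : ℝ) ≤ 2 * Real.log T := by
        refine (CELL.harm ⌊D⌋₊).trans ?_
        have h5 : Real.log (⌊D⌋₊ : ℝ) ≤ Real.log D := by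
          apply Real.log_le_log
          · exact_mod_cast Nat.floor_pos.mpr (by linarith)
          · exact Nat.floor_le hD0.le
        linarith
      have h6 : (⌊D⌋₊ : ℝ) * (2 * CK * Real.sqrt (1 + t)) ≤ 2 * CK * (N / t ^ 2) := by
        have h7 : (⌊D⌋₊ : ℝ) ≤ D := Nat.floor_le hD0.le
        have h8 : D * Real.sqrt (1 + t) ≤ N / t ^ 2 := by
          rw [le_div_iff₀ (by positivity)]
          have h9 : Real.sqrt (1 + t) ≤ 2 * T ^ (1 / 20 : ℝ) := by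
            have e1 : 1 ≤ T ^ (1 / 10 : ℝ) := Real.one_le_rpow hT1 (by norm_num)
            have e2 : 1 + t ≤ (2 * T ^ (1 / 20 : ℝ)) ^ 2 := by
              have e3 : (T ^ (1 / 20 : ℝ)) ^ 2 = T ^ (1 / 10 : ℝ) := by
                rw [← Real.rpow_natCast, ← Real.rpow_mul hT0.le]; norm_num
              rw [mul_pow, e3]
              linarith
            calc Real.sqrt (1 + t) ≤ Real.sqrt ((2 * T ^ (1 / 20 : ℝ)) ^ 2) := Real.sqrt_le_sqrt e2
              _ = 2 * T ^ (1 / 20 : ℝ) := Real.sqrt_sq (by positivity)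
          have h10 : t ^ 2 ≤ 4 * T ^ (1 / 5 : ℝ) := by
            calc t ^ 2 ≤ (2 * T ^ (1 / 10 : ℝ)) ^ 2 := by gcongr
              _ = 4 * T ^ (1 / 5 : ℝ) := by
                  rw [mul_pow, ← Real.rpow_natCast (T ^ (1 / 10 : ℝ)), ← Real.rpow_mul hT0.le]
                  norm_num
          calc D * Real.sqrt (1 + t) * t ^ 2 ≤ D * (2 * T ^ (1 / 20 : ℝ)) * (4 * T ^ (1 / 5 : ℝ)) := by gcongr
            _ = 8 * (D * T ^ (1 / 20 : ℝ) * T ^ (1 / 5 : ℝ)) := by ring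
            _ ≤ T ^ (1 / 5 : ℝ) * (D * T ^ (1 / 20 : ℝ) * T ^ (1 / 5 : ℝ)) := by gcongr
            _ = T ^ (1 / 5 + (κ' + 1 / 20 + 1 / 5) : ℝ) := by
                rw [hD, ← Real.rpow_add hT0, ← Real.rpow_add hT0, ← Real.rpow_add hT0]
            _ ≤ T ^ (1 / 2 : ℝ) := Real.rpow_le_rpow_of_exponent_le hT1 (by linarith)
            _ ≤ N := hNT
        calc (⌊D⌋₊ : ℝ) * (2 * CK * Real.sqrt (1 + t)) ≤ D * (2 * CK * Real.sqrt (1 + t)) := by gcongr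
          _ = 2 * CK * (D * Real.sqrt (1 + t)) := by ring
          _ ≤ _ := by gcongr
      have hNt : 0 < N / t ^ 2 := by positivity
      calc 2 * CK * (N / t ^ 2) * ∑ d ∈ Finset.Icc 1 ⌊D⌋₊, 1 / (d : ℝ) + (⌊D⌋₊ : ℝ) * (2 * CK * Real.sqrt (1 + t))
          ≤ 2 * CK * (N / t ^ 2) * (2 * Real.log T) + 2 * CK * (N / t ^ 2) := by gcongr
        _ = (4 * CK * Real.log T + 2 * CK) * (N / t ^ 2) := by ring
        _ ≤ (6 * CK * Real.log T) * (N / t ^ 2) := by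
            gcongr
            nlinarith
        _ = _ := by ring
    -- all slots
    rw [dp_box hPd y z T κ3 lw u v Y hY t]
    have hJ : ∏ i ∈ Jo T κ3 u v, ‖PB (fun n => ((sfA y z T κ3 lw u v i n : ℝ) : ℂ)) (sc (so u v i)) t‖ ≤
        2 ^ (3 + S) * ∏ i ∈ Jo T κ3 u v, sc (so u v i) := by
      calc ∏ i ∈ Jo T κ3 u v, ‖PB (fun n => ((sfA y z T κ3 lw u v i n : ℝ) : ℂ)) (sc (so u v i)) t‖
          ≤ ∏ i ∈ Jo T κ3 u v, 2 * sc (so u v i) := by
            apply Finset.prod_le_prod (fun i _ => norm_nonneg _)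
            intro i hi
            rw [← dp_slot]
            refine (Dp_le _ _ t).trans (mass_short y z T κ3 lw u v i ?_)
            unfold Jo at hi
            exact (Finset.mem_filter.mp hi).2.2
        _ = 2 ^ (Jo T κ3 u v).card * ∏ i ∈ Jo T κ3 u v, sc (so u v i) := by
            rw [Finset.prod_mul_distrib, Finset.prod_const]
        _ ≤ _ := by
            have h1 : (Jo T κ3 u v).card ≤ 3 + S := by
              have := Finset.card_le_univ (Jo T κ3 u v)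
              simpa using this
            have h2 : (2 : ℝ) ^ (Jo T κ3 u v).card ≤ 2 ^ (3 + S) := pow_le_pow_right₀ (by norm_num) h1
            have h3 : 0 ≤ ∏ i ∈ Jo T κ3 u v, sc (so u v i) := Finset.prod_nonneg fun i _ => (sc_pos _).le
            gcongr
    have hL : ∏ j ∈ Lo T κ3 u, ‖Dp (Yn (u j)) (fun n => ((sfA y z T κ3 lw u v (Sum.inl j) n : ℝ) : ℂ)) t‖ ≤
        K ^ 2 * (6 * CK * Real.log T) / t ^ 2 * ∏ j ∈ Lo T κ3 u, sc (u j) := by
      rw [← Finset.mul_prod_erase (Lo T κ3 u) (fun j => ‖Dp (Yn (u j)) (fun n => ((sfA y z T κ3 lw u v (Sum.inl j) n : ℝ) : ℂ)) t‖) hi0,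
        ← Finset.mul_prod_erase (Lo T κ3 u) (fun j => sc (u j)) hi0]
      have h1 : ∏ j ∈ (Lo T κ3 u).erase i0, ‖Dp (Yn (u j)) (fun n => ((sfA y z T κ3 lw u v (Sum.inl j) n : ℝ) : ℂ)) t‖ ≤
          K ^ 2 * ∏ j ∈ (Lo T κ3 u).erase i0, sc (u j) := by
        calc ∏ j ∈ (Lo T κ3 u).erase i0, ‖Dp (Yn (u j)) (fun n => ((sfA y z T κ3 lw u v (Sum.inl j) n : ℝ) : ℂ)) t‖
            ≤ ∏ j ∈ (Lo T κ3 u).erase i0, K * sc (u j) := by
              apply Finset.prod_le_prod (fun i _ => norm_nonneg _)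
              intro j _
              exact (Dp_le _ _ t).trans (hmass (Sum.inl j))
          _ = K ^ ((Lo T κ3 u).erase i0).card * ∏ j ∈ (Lo T κ3 u).erase i0, sc (u j) := by
              rw [Finset.prod_mul_distrib, Finset.prod_const]
          _ ≤ _ := by
              have h2 : ((Lo T κ3 u).erase i0).card ≤ 2 := by
                rw [Finset.card_erase_of_mem hi0]
                have := Lo_card T κ3 u
                omega
              have h3 : K ^ ((Lo T κ3 u).erase i0).card ≤ K ^ 2 := pow_le_pow_right₀ (by linarith) h2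
              have h4 : 0 ≤ ∏ j ∈ (Lo T κ3 u).erase i0, sc (u j) := Finset.prod_nonneg fun i _ => (sc_pos _).le
              gcongr
      have h5 : 0 ≤ ∏ j ∈ (Lo T κ3 u).erase i0, sc (u j) := Finset.prod_nonneg fun i _ => (sc_pos _).le
      calc ‖Dp (Yn (u i0)) (fun n => ((sfA y z T κ3 lw u v (Sum.inl i0) n : ℝ) : ℂ)) t‖ *
            ∏ j ∈ (Lo T κ3 u).erase i0, ‖Dp (Yn (u j)) (fun n => ((sfA y z T κ3 lw u v (Sum.inl j) n : ℝ) : ℂ)) t‖
          ≤ (6 * CK * Real.log T * (N / t ^ 2)) * (K ^ 2 * ∏ j ∈ (Lo T κ3 u).erase i0, sc (u j)) := by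
            apply mul_le_mul hslot0 h1 (Finset.prod_nonneg fun i _ => norm_nonneg _) (by positivity)
        _ = K ^ 2 * (6 * CK * Real.log T) / t ^ 2 * (sc (u i0) * ∏ j ∈ (Lo T κ3 u).erase i0, sc (u j)) := by
            rw [hN]; ring
    have hPSsplit := PS_split T κ3 u v
    calc (∏ i ∈ Jo T κ3 u v, ‖PB (fun n => ((sfA y z T κ3 lw u v i n : ℝ) : ℂ)) (sc (so u v i)) t‖) *
          ∏ j ∈ Lo T κ3 u, ‖Dp (Yn (u j)) (fun n => ((sfA y z T κ3 lw u v (Sum.inl j) n : ℝ) : ℂ)) t‖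
        ≤ (2 ^ (3 + S) * ∏ i ∈ Jo T κ3 u v, sc (so u v i)) * (K ^ 2 * (6 * CK * Real.log T) / t ^ 2 * ∏ j ∈ Lo T κ3 u, sc (u j)) := by
          apply mul_le_mul hJ hL (Finset.prod_nonneg fun i _ => norm_nonneg _)
          exact mul_nonneg (by positivity) (Finset.prod_nonneg fun i _ => (sc_pos _).le)
      _ = 2 ^ (3 + S) * K ^ 2 * (6 * CK * Real.log T) / t ^ 2 * PS u v := by rw [hPSsplit]; ring
      _ ≤ 2 ^ (3 + S) * K ^ 2 * (6 * CK * Real.log T) / t ^ 2 * (CR * T ^ 2) := by gcongr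
      _ = ((2 * CT) ^ 2 * 1 * 2 ^ (3 + S) * (6 * CK) * CR) * (Real.log T ^ 3 * T ^ 2 / t ^ 2) := by rw [hK]; ring
      _ ≤ ((2 * CT) ^ 2 * (2 * CT) * 2 ^ (3 + S) * (6 * CK) * CR) * (Real.log T ^ 3 * T ^ 2 / t ^ 2) := by
          gcongr
          linarith
      _ = CC * (Real.log T ^ 3 * T ^ 2 / t ^ 2) := by rw [hCC]; ring
      _ ≤ _ := by
          have h := hCCle (Real.log T ^ 3 * T ^ 2 / t ^ 2) (by positivity)
          refine h.trans (le_of_eq ?_)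
          ring

end AA_aux

end Pool.Agent.Work.MP_a8fbd7_nt.OX.ASM
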