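/-
MP_a8fbd7_nt, block OX, part ASM, item AA: from the reduction theorem to the packing statement (helper60).
-/
import Mathlib
import Pool.Agent.Work.MP_a8fbd7_nt.OX.ASM.Stmts

set_option autoImplicit false

open MeasureTheory Set Filter Topology

noncomputable section

namespace Pool.Agent.Work.MP_a8fbd7_nt.OX.ASM

open Pool.Agent.Work.MP_56b8f5_nt.UC (IsWt Bl Dp Om psi eta Sep)
open Pool.Agent.Work.MP_a8fbd7_nt.OX.ID (Rough roughOne pb rg)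

/-- the reduction for boxes of type A (arbitrary `S`, `g0`, no separation, no cardinality) -/
def StRedA : Prop := ∀ κ2 κ3 ε : ℝ, 0 < κ2 → κ2 ≤ 1 / 20 → 0 < κ3 → κ3 ≤ κ2 / 10 → 0 < ε → ε ≤ κ3 / 10 →
  ∀ w : ℝ → ℝ, IsWt w → ∀ η κ1 A : ℝ, 0 < η → η ≤ ε / 1000 → 0 < κ1 → κ1 ≤ 1 / 20 → 0 < A →
  ∃ B0 : ℝ, 1 ≤ B0 ∧ ∀ B : ℝ, B0 ≤ B → ∃ C : ℝ, 1 ≤ C ∧
  ∀ (T : ℝ) (u : Fin 3 → Option ℕ) (v : Fin (SS η) → Option ℕ) (lw : Fin 3 → ℕ → ℝ) (S : Finset ℝ) (g0 : ℝ → ℂ), C ≤ T →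
  (∃ i, Lg T κ2 (u i)) → (∀ i d, |lw i d| ≤ 2) → (∀ i d, lw i d ≠ 0 → 1 ≤ d ∧ (d : ℝ) ≤ T ^ (ε / 1000)) →
  (∀ x ∈ S, T ^ 2 ≤ x ∧ x ≤ 4 * T ^ 2) → (∀ x, ‖g0 x‖ ≤ 1) → S.Nonempty →
  S.card * (1 / Real.log T ^ A) ≤
    ‖∑ x ∈ S, g0 x * ((DD w (BFA (zz η T) (zz (1 / 2 - κ1) T) T κ3 lw u v) x T (Real.log T ^ B) : ℝ) : ℂ)‖ →
  ∃ (T' : ℝ) (g : ℝ → ℂ) (ν : ℝ) (m : ℕ) (a : Fin m → ℕ → ℂ) (N : Fin m → ℝ), 1 ≤ T' ∧ T' ≤ T ^ (1 + ε) ∧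
    ((∀ x, g x = if T ^ 2 ≤ x then g0 x * ((T ^ 2 / x : ℝ) : ℂ) else 0) ∨
      (∀ x, g x = if T ^ 2 ≤ x then (starRingEnd ℂ) (g0 x) * ((T ^ 2 / x : ℝ) : ℂ) else 0)) ∧
    (∀ i, IsBlk (a i) (N i)) ∧ (∀ i, T ^ η / 2 ≤ N i ∧ N i ≤ T ^ (1 / 2 + κ3)) ∧
    ∏ i, N i = T ^ ν ∧ ν ≤ 2 - κ2 ∧
    S.card * T ^ (1 + ν / 2 - ε) ≤ ∫ t in T'..(2 * T'), ‖GS S g t‖ * ∏ i, ‖PB (a i) (N i) t‖

namespace AAo

/-- `C T^r0 + 1 ≤ T^(1/3)` for large `T` -/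
theorem third (C : ℝ) : ∃ C3 : ℝ, ∀ T : ℝ, C3 ≤ T → C * T ^ r0 + 1 ≤ T ^ (1 / 3 : ℝ) := by
  have e1 : ∀ᶠ T : ℝ in atTop, C + 1 ≤ T ^ (1 / 3 - r0) :=
    (tendsto_rpow_atTop (by unfold r0; norm_num)).eventually_ge_atTop _
  obtain ⟨C3, h3⟩ := eventually_atTop.1 (e1.and (eventually_ge_atTop 1))
  refine ⟨C3, fun T hT => ?_⟩
  obtain ⟨h1, h2⟩ := h3 T hT
  have h4 : 1 ≤ T ^ r0 := Real.one_le_rpow h2 (by unfold r0; norm_num)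
  calc C * T ^ r0 + 1 ≤ (C + 1) * T ^ r0 := by linarith
    _ ≤ T ^ (1 / 3 - r0) * T ^ r0 := by gcongr
    _ = T ^ (1 / 3 : ℝ) := by
      rw [← Real.rpow_add (by linarith)]
      congr 1
      ring

/-- the coefficients of `StF4` are bounded by `1` -/
theorem g_le {T : ℝ} (hT : 0 < T) {g0 g : ℝ → ℂ} (hg0 : ∀ x, ‖g0 x‖ ≤ 1)
    (hg : (∀ x, g x = if T ^ 2 ≤ x then g0 x * ((T ^ 2 / x : ℝ) : ℂ) else 0) ∨
      (∀ x, g x = if T ^ 2 ≤ x then (starRingEnd ℂ) (g0 x) * ((T ^ 2 / x : ℝ) : ℂ) else 0)) (x : ℝ) : ‖g x‖ ≤ 1 := by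
  have key : ∀ c : ℂ, ‖c‖ ≤ 1 → T ^ 2 ≤ x → ‖c * ((T ^ 2 / x : ℝ) : ℂ)‖ ≤ 1 := by
    intro c hc hx
    have h0 : 0 < T ^ 2 := by positivity
    have hx0 : 0 < x := h0.trans_le hx
    rw [norm_mul, Complex.norm_real, Real.norm_eq_abs, abs_of_nonneg (by positivity)]
    have h1 : T ^ 2 / x ≤ 1 := by
      rw [div_le_one hx0]
      exact hx
    calc ‖c‖ * (T ^ 2 / x) ≤ 1 * 1 := mul_le_mul hc h1 (by positivity) zero_le_one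
      _ = 1 := one_mul 1
  rcases hg with h | h
  · rw [h x]
    split_ifs with hx
    · exact key _ (hg0 x) hx
    · simp
  · rw [h x]
    split_ifs with hx
    · refine key _ ?_ hx
      rw [RCLike.norm_conj]
      exact hg0 x
    · simp

/-- the sign function turns the sum into a sum of absolute values -/
theorem sign_sum (S : Finset ℝ) (D : ℝ → ℝ) (δ : ℝ) (h : ∀ x ∈ S, δ ≤ |D x|) :
    ∃ g0 : ℝ → ℂ, (∀ x, ‖g0 x‖ ≤ 1) ∧ S.card * δ ≤ ‖∑ x ∈ S, g0 x * ((D x : ℝ) : ℂ)‖ := by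
  classical
  refine ⟨fun x => if 0 ≤ D x then 1 else -1, fun x => ?_, ?_⟩
  · dsimp only
    split_ifs <;> simp
  · have h1 : ∑ x ∈ S, (if 0 ≤ D x then (1 : ℂ) else -1) * ((D x : ℝ) : ℂ) = ((∑ x ∈ S, |D x| : ℝ) : ℂ) := by
      push_cast
      refine Finset.sum_congr rfl fun x _ => ?_
      split_ifs with h2
      · rw [one_mul, abs_of_nonneg h2]
      · rw [abs_of_neg (not_le.1 h2)]
        push_cast
        ring
    rw [h1, Complex.norm_real, Real.norm_eq_abs, abs_of_nonneg (Finset.sum_nonneg fun x _ => abs_nonneg _)]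
    calc (S.card : ℝ) * δ = ∑ _x ∈ S, δ := by rw [Finset.sum_const, nsmul_eq_mul]
      _ ≤ ∑ x ∈ S, |D x| := Finset.sum_le_sum h

end AAo

open AAo in
theorem iAA_of_red (hC : StCellA) (hred0 : StRedA) : StAA := by
  classical
  intro κ2 hκ2 hκ22
  obtain ⟨κ3, ε, hκ3, hκ32, hε, hε2, hCk⟩ := hC κ2 hκ2 hκ22
  refine ⟨κ3, ε / 1000, hκ3, hκ32, by positivity, by linarith, ?_⟩
  intro w hw η κ1 A hη hη2 hκ1 hκ12 hA
  obtain ⟨C1, hC1, hcell⟩ := hCk η hη (by linarith)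
  obtain ⟨B0, hB0, hred⟩ := hred0 κ2 κ3 ε hκ2 hκ22 hκ3 hκ32 hε hε2 w hw η κ1 A hη hη2 hκ1 hκ12 hA
  refine ⟨B0, hB0, fun B hB => ?_⟩
  obtain ⟨C2, hC2, hred2⟩ := hred B hB
  obtain ⟨C3, hC3⟩ := third C1
  refine ⟨max (max C1 C2) (max C3 3), le_max_of_le_left (le_max_of_le_left hC1), ?_⟩
  intro T u v lw hT hLg hlw hlw2 S hSep hS
  have hT1 : C1 ≤ T := (le_max_left _ _).trans ((le_max_left _ _).trans hT)
  have hT2 : C2 ≤ T := (le_max_right _ _).trans ((le_max_left _ _).trans hT)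
  have hT3 : C3 ≤ T := (le_max_left _ _).trans ((le_max_right _ _).trans hT)
  have hT4 : 3 ≤ T := (le_max_right _ _).trans ((le_max_right _ _).trans hT)
  have hT0 : 0 < T := by linarith
  have hlog : 0 < Real.log T := Real.log_pos (by linarith)
  by_contra hcon
  push Not at hcon
  have hr : 0 ≤ T ^ r0 := by positivity
  have hcon1 : C1 * T ^ r0 < S.card := by
    refine lt_of_le_of_lt ?_ hcon
    exact mul_le_mul_of_nonneg_right ((le_max_left _ _).trans (le_max_left _ _)) hr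
  have hK : ⌊C1 * T ^ r0⌋₊ + 1 ≤ S.card := (Nat.floor_lt (by positivity)).2 hcon1
  obtain ⟨S', hS'S, hS'c⟩ := Finset.exists_subset_card_eq hK
  have hS'1 : C1 * T ^ r0 < S'.card := by
    rw [hS'c]
    push_cast
    exact Nat.lt_floor_add_one _
  have hS'2 : (S'.card : ℝ) ≤ T ^ (1 / 3 : ℝ) := by
    refine le_trans ?_ (hC3 T hT3)
    rw [hS'c]
    push_cast
    have := Nat.floor_le (show 0 ≤ C1 * T ^ r0 by positivity)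
    linarith
  have hS'ne : S'.Nonempty := by
    rw [← Finset.card_pos, hS'c]
    omega
  have hSep' : LSep S' T := ⟨fun x hx => hSep.1 x (hS'S hx), fun x hx y hy => hSep.2 x (hS'S hx) y (hS'S hy)⟩
  have hS' : ∀ x ∈ S', T ^ 2 ≤ x ∧ x ≤ 4 * T ^ 2 ∧ 1 / Real.log T ^ A ≤
      |DD w (BFA (zz η T) (zz (1 / 2 - κ1) T) T κ3 lw u v) x T (Real.log T ^ B)| := fun x hx => hS x (hS'S hx)
  obtain ⟨g0, hg0, hsum⟩ := sign_sum S'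
    (fun x => DD w (BFA (zz η T) (zz (1 / 2 - κ1) T) T κ3 lw u v) x T (Real.log T ^ B))
    (1 / Real.log T ^ A) (fun x hx => (hS' x hx).2.2)
  obtain ⟨T', g, ν, m, a, N, h1, h2, h3, h4, h5, h6, h7, h8⟩ := hred2 T u v lw S' g0 hT2
    hLg hlw hlw2 (fun x hx => ⟨(hS' x hx).1, (hS' x hx).2.1⟩) hg0 hS'ne hsum
  have hfin := hcell T T' ν m a N S' g hT1 h1 h2 h4 h5 h6 h7 hSep' hS'2 (g_le hT0 hg0 h3) h8
  linarith

end Pool.Agent.Work.MP_a8fbd7_nt.OX.ASM
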