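/-
MP_a8fbd7_nt, block OX, part ASM, item BB: the reduction theorem for boxes without long slots (helper60).
-/
import Pool.Agent.Work.MP_a8fbd7_nt.OX.ASM.I_Rg

set_option autoImplicit false

open MeasureTheory Set Filter Topology

noncomputable section

namespace Pool.Agent.Work.MP_a8fbd7_nt.OX.ASM

open Pool.Agent.Work.MP_56b8f5_nt.UC (IsWt Bl Dp Om psi eta Sep)
open Pool.Agent.Work.MP_a8fbd7_nt.OX.ID (Rough roughOne pb rg roughOne_apply pb_apply)

namespace BB_aux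

/-- all slots -/
def op {S : ℕ} (u : Fin 3 → Option ℕ) (v : Fin S → Option ℕ) : Fin 3 ⊕ Fin S → Option ℕ := Sum.elim u v

/-- slot functions -/
def sf (y z : ℕ) {S : ℕ} (u : Fin 3 → Option ℕ) (v : Fin S → Option ℕ) : Fin 3 ⊕ Fin S → ArithmeticFunction ℝ :=
  Sum.elim (fun i => ms y (u i)) (fun r => ps y z (v r))

theorem BF_eq (y z : ℕ) {S : ℕ} (u : Fin 3 → Option ℕ) (v : Fin S → Option ℕ) :
    BF y z u v = ∏ j, sf y z u v j := by
  rw [Fintype.prod_sum_type]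
  rfl

theorem PS_eq {S : ℕ} (u : Fin 3 → Option ℕ) (v : Fin S → Option ℕ) : PS u v = ∏ j, sc (op u v j) := by
  rw [Fintype.prod_sum_type]
  rfl

theorem sf_none (y z : ℕ) {S : ℕ} (u : Fin 3 → Option ℕ) (v : Fin S → Option ℕ) (j : Fin 3 ⊕ Fin S)
    (h : op u v j = none) : sf y z u v j = 1 := by
  rcases j with i | r
  · have h1 : u i = none := h
    simp [sf, h1, ms]
  · have h1 : v r = none := h
    simp [sf, h1, ps]

/-- the used slots -/
def Us {S : ℕ} (u : Fin 3 → Option ℕ) (v : Fin S → Option ℕ) : Finset (Fin 3 ⊕ Fin S) :=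
  Finset.univ.filter fun j => (op u v j).isSome

/-- enumeration of the used slots -/
def en {S : ℕ} (u : Fin 3 → Option ℕ) (v : Fin S → Option ℕ) : Fin (Us u v).card → Fin 3 ⊕ Fin S :=
  fun k => ((Us u v).equivFin.symm k : Us u v)

theorem en_mem {S : ℕ} (u : Fin 3 → Option ℕ) (v : Fin S → Option ℕ) (k : Fin (Us u v).card) :
    en u v k ∈ Us u v := ((Us u v).equivFin.symm k).2

theorem en_some {S : ℕ} (u : Fin 3 → Option ℕ) (v : Fin S → Option ℕ) (k : Fin (Us u v).card) :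
    ∃ l, op u v (en u v k) = some l := by
  have h := en_mem u v k
  rw [Us, Finset.mem_filter] at h
  exact Option.isSome_iff_exists.1 h.2

theorem reidx {M : Type} [CommMonoid M] {S : ℕ} (u : Fin 3 → Option ℕ) (v : Fin S → Option ℕ)
    (F : Fin 3 ⊕ Fin S → M) (hF : ∀ j, op u v j = none → F j = 1) :
    ∏ j, F j = ∏ k, F (en u v k) := by
  have h1 : ∏ j ∈ Us u v, F j = ∏ j, F j := by
    apply Finset.prod_filter_of_ne
    intro j _ hj
    by_contra h2
    exact hj (hF j (by simpa using h2))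
  rw [← h1, ← Finset.prod_coe_sort]
  exact ((Us u v).equivFin.symm.prod_comp fun j : Us u v => F j).symm

theorem psi01 (x : ℝ) : 0 ≤ psi x ∧ psi x ≤ 1 := by
  unfold psi
  rcases le_or_gt x 1 with h | h
  · have h1 : eta x = 1 := Real.smoothTransition.one_of_one_le (by linarith)
    have h2 : eta (2 * x) ≤ 1 := Real.smoothTransition.le_one _
    have h3 : 0 ≤ eta (2 * x) := Real.smoothTransition.nonneg _
    constructor <;> linarith
  · have h1 : eta (2 * x) = 0 := Real.smoothTransition.zero_of_nonpos (by linarith)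
    have h2 : 0 ≤ eta x := Real.smoothTransition.nonneg _
    have h3 : eta x ≤ 1 := Real.smoothTransition.le_one _
    constructor <;> linarith

theorem abs_le_one_of {a b : ℝ} (ha : a = 0 ∨ a = 1) (hb : 0 ≤ b ∧ b ≤ 1) : |a * b| ≤ 1 := by
  rcases ha with h | h
  · rw [h, zero_mul, abs_zero]
    exact zero_le_one
  · rw [h, one_mul, abs_of_nonneg hb.1]
    exact hb.2

theorem sf_bd (y z : ℕ) {S : ℕ} (u : Fin 3 → Option ℕ) (v : Fin S → Option ℕ) (j : Fin 3 ⊕ Fin S) (n : ℕ) :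
    |sf y z u v j n| ≤ 1 := by
  have h1 : |(1 : ArithmeticFunction ℝ) n| ≤ 1 := by
    rw [ArithmeticFunction.one_apply]
    split_ifs <;> simp
  rcases j with i | r
  · simp only [sf, Sum.elim_inl]
    cases u i with
    | none => exact h1
    | some l =>
      simp only [ms, rb, ArithmeticFunction.coe_mk]
      refine abs_le_one_of ?_ (psi01 _)
      rw [roughOne_apply]
      split_ifs
      · exact Or.inr rfl
      · exact Or.inl rfl
  · simp only [sf, Sum.elim_inr]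
    cases v r with
    | none => exact h1
    | some l =>
      simp only [ps, pbl, ArithmeticFunction.coe_mk]
      refine abs_le_one_of ?_ (psi01 _)
      rw [pb_apply]
      split_ifs
      · exact Or.inr rfl
      · exact Or.inl rfl

theorem sf_supp (y z : ℕ) {S : ℕ} (u : Fin 3 → Option ℕ) (v : Fin S → Option ℕ) (j : Fin 3 ⊕ Fin S) (n : ℕ)
    (h : sf y z u v j n ≠ 0) : sc (op u v j) / 2 ≤ n ∧ n ≤ Rg_aux.Yn (op u v j) := by
  rcases j with i | r
  · exact Rg_aux.ms_supp y (u i) n h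
  · exact Rg_aux.ps_supp y z (v r) n h

theorem sf_lo (y z : ℕ) {S : ℕ} (u : Fin 3 → Option ℕ) (v : Fin S → Option ℕ) (j : Fin 3 ⊕ Fin S) (l n : ℕ)
    (hj : op u v j = some l) (h : sf y z u v j n ≠ 0) : y + 1 ≤ n := by
  rcases j with i | r
  · have h1 : u i = some l := hj
    simp only [sf, Sum.elim_inl, h1, ms, rb, ArithmeticFunction.coe_mk] at h
    have h2 := left_ne_zero_of_mul h
    rw [roughOne_apply] at h2
    have h3 : 2 ≤ n ∧ Rough y n := by
      by_contra h4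
      exact h2 (if_neg h4)
    have h5 : y < n.minFac := h3.2 _ (Nat.minFac_prime (by omega)) (Nat.minFac_dvd n)
    have h6 := Nat.minFac_le (n := n) (by omega)
    omega
  · have h1 : v r = some l := hj
    simp only [sf, Sum.elim_inr, h1, ps, pbl, ArithmeticFunction.coe_mk] at h
    have h2 := left_ne_zero_of_mul h
    rw [pb_apply] at h2
    have h3 : n.Prime ∧ y < n ∧ n ≤ z := by
      by_contra h4
      exact h2 (if_neg h4)
    omega

theorem sf_hi (y z : ℕ) {S : ℕ} (u : Fin 3 → Option ℕ) (v : Fin S → Option ℕ) (r : Fin S) (l n : ℕ)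
    (hj : v r = some l) (h : sf y z u v (Sum.inr r) n ≠ 0) : n ≤ z := by
  simp only [sf, Sum.elim_inr, hj, ps, pbl, ArithmeticFunction.coe_mk] at h
  have h2 := left_ne_zero_of_mul h
  rw [pb_apply] at h2
  have h3 : n.Prime ∧ y < n ∧ n ≤ z := by
    by_contra h4
    exact h2 (if_neg h4)
  omega

/-- all the large parameter inequalities -/
theorem grow (A B' B ε κ1 η K1 K2 K3 : ℝ) (hA : 0 < A) (hε : 0 < ε) (hκ1 : 0 < κ1) (hη : 0 < η)
    (hB : 2 * B' + A + 1 ≤ B) : ∃ C : ℝ, 3 ≤ C ∧ ∀ T : ℝ, C ≤ T → K1 ≤ T ∧ 1 ≤ Real.log T ∧ Real.log T ^ B' ≤ T ∧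
      Real.log T ^ B ≤ T ∧ K2 ≤ Real.log T ∧ K3 ≤ T ^ ε ∧ 2 ≤ T ^ κ1 ∧ 2 * Real.log T ^ (A + 1) ≤ T := by
  have e1 : ∀ᶠ T : ℝ in atTop, K1 ≤ T := eventually_ge_atTop K1
  have e2 : ∀ᶠ T : ℝ in atTop, 1 ≤ Real.log T := Real.tendsto_log_atTop.eventually_ge_atTop 1
  have e3 : ∀ᶠ T : ℝ in atTop, K2 ≤ Real.log T := Real.tendsto_log_atTop.eventually_ge_atTop K2
  have e4 : ∀ᶠ T : ℝ in atTop, K3 ≤ T ^ ε := (tendsto_rpow_atTop hε).eventually_ge_atTop K3
  have e5 : ∀ᶠ T : ℝ in atTop, 2 ≤ T ^ κ1 := (tendsto_rpow_atTop hκ1).eventually_ge_atTop 2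
  have hl : ∀ s : ℝ, ∀ᶠ T : ℝ in atTop, 2 * Real.log T ^ s ≤ T := by
    intro s
    have h1 := (isLittleO_log_rpow_rpow_atTop s (one_pos)).bound (c := 1 / 2) (by norm_num)
    filter_upwards [h1, e2, eventually_ge_atTop 1] with T h2 h3 h4
    rw [Real.rpow_one, Real.norm_eq_abs, Real.norm_eq_abs,
      abs_of_nonneg (Real.rpow_nonneg (by linarith : (0 : ℝ) ≤ Real.log T) s),
      abs_of_nonneg (by linarith : (0 : ℝ) ≤ T)] at h2
    linarith
  obtain ⟨C, hC⟩ := eventually_atTop.1 (e1.and (e2.and (e3.and (e4.and (e5.and ((hl B').and ((hl B).and (hl (A + 1)))))))))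
  refine ⟨max C 3, le_max_right _ _, fun T hT => ?_⟩
  obtain ⟨h1, h2, h3, h4, h5, h6, h7, h8⟩ := hC T ((le_max_left _ _).trans hT)
  have h9 : 0 ≤ Real.log T ^ B' := Real.rpow_nonneg (by linarith) _
  have h10 : 0 ≤ Real.log T ^ B := Real.rpow_nonneg (by linarith) _
  exact ⟨h1, h2, by linarith, by linarith, h3, h4, h5, h8⟩

theorem sf_sav {S : ℕ} (y z : ℕ) (u : Fin 3 → Option ℕ) (v : Fin S → Option ℕ) (t V : ℝ) (j : Fin 3 ⊕ Fin S) (l : ℕ)
    (hj : op u v j = some l)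
    (h : ‖PB (fun n => ((rb y l n : ℝ) : ℂ)) (2 ^ l) t‖ ≤ 2 ^ l / V ∧
      ‖PB (fun n => ((pbl y z l n : ℝ) : ℂ)) (2 ^ l) t‖ ≤ 2 ^ l / V) :
    ‖PB (fun n => ((sf y z u v j n : ℝ) : ℂ)) (sc (op u v j)) t‖ ≤ sc (op u v j) / V := by
  rcases j with i | r
  · have h1 : u i = some l := hj
    simp only [sf, op, Sum.elim_inl, h1, ms, sc]
    exact h.1
  · have h1 : v r = some l := hj
    simp only [sf, op, Sum.elim_inr, h1, ps, sc]
    exact h.2

/-- the scale of a used slot -/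
theorem sf_scale {S : ℕ} (T η κ κ1 : ℝ) (u : Fin 3 → Option ℕ) (v : Fin S → Option ℕ) (hT : 3 ≤ T) (hκ : 0 ≤ κ) (h2 : 2 ≤ T ^ κ1)
    (hLg : ∀ i, ¬ Lg T κ (u i)) (j : Fin 3 ⊕ Fin S) (l : ℕ) (hj : op u v j = some l)
    (hne : ∃ n, sf (zz η T) (zz (1 / 2 - κ1) T) u v j n ≠ 0) :
    T ^ η / 2 ≤ (2 : ℝ) ^ l ∧ (2 : ℝ) ^ l ≤ T ^ (1 / 2 + κ) := by
  obtain ⟨n, hn⟩ := hne
  have hT0 : 0 < T := by linarith
  have h1 := sf_lo _ _ u v j l n hj hn
  obtain ⟨h3, h4⟩ := sf_supp _ _ u v j n hn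
  rw [hj] at h3 h4
  constructor
  · have h5 : T ^ η < (zz η T : ℝ) + 1 := Nat.lt_floor_add_one _
    have h6 : ((zz η T : ℝ) + 1) ≤ n := by exact_mod_cast h1
    have h7 : (n : ℝ) ≤ 2 * sc (some l) := by
      rw [← Rg_aux.Yn_cast]
      exact_mod_cast h4
    simp only [sc] at h7
    linarith
  · rcases j with i | r
    · have h5 : u i = some l := hj
      by_contra h6
      exact hLg i ⟨l, h5, not_le.1 h6⟩
    · have h5 : v r = some l := hj
      have h6 := sf_hi _ _ u v r l n h5 hn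
      have h7 : ((zz (1 / 2 - κ1) T : ℕ) : ℝ) ≤ T ^ (1 / 2 - κ1) := Nat.floor_le (by positivity)
      have h8 : (n : ℝ) ≤ (zz (1 / 2 - κ1) T : ℕ) := by exact_mod_cast h6
      simp only [sc] at h3
      calc (2 : ℝ) ^ l ≤ 2 * T ^ (1 / 2 - κ1) := by linarith
        _ ≤ T ^ κ1 * T ^ (1 / 2 - κ1) := mul_le_mul_of_nonneg_right h2 (by positivity)
        _ = T ^ (1 / 2 : ℝ) := by
          rw [← Real.rpow_add hT0]
          congr 1
          ring
        _ ≤ T ^ (1 / 2 + κ) := Real.rpow_le_rpow_of_exponent_le (by linarith) (by linarith)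

end BB_aux

open BB_aux in
open Classical in
/-- **Reduction**: a resonance of the box function with the points of `S` gives the hypotheses of the cell theorem B (except those on `S`). -/
theorem BB_red (hF4 : StF4) (hPd : StPd) (hRg : StRg) (hSa : StSa) (w : ℝ → ℝ) (hw : IsWt w) (η κ1 A A1 ε : ℝ)
    (hη : 0 < η) (hη2 : η ≤ 1 / 20) (hκ1 : 0 < κ1) (hκ2 : κ1 ≤ 1 / 20) (hA : 0 < A) (hA1 : 0 < A1) (hε : 0 < ε) (hε2 : ε ≤ 1 / 2) :
    ∃ B0 : ℝ, 1 ≤ B0 ∧ ∀ B : ℝ, B0 ≤ B → ∃ C : ℝ, 1 ≤ C ∧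
    ∀ (T κ β : ℝ) (u : Fin 3 → Option ℕ) (v : Fin (SS η) → Option ℕ) (S : Finset ℝ) (g0 : ℝ → ℂ), C ≤ T → 0 ≤ κ → κ ≤ 1 →
    (∀ i, ¬ Lg T κ (u i)) → Sh T β u v → (∀ x ∈ S, T ^ 2 ≤ x ∧ x ≤ 4 * T ^ 2) → (∀ x, ‖g0 x‖ ≤ 1) → S.Nonempty →
    S.card * (1 / Real.log T ^ A) ≤
      ‖∑ x ∈ S, g0 x * ((DD w (BF (zz η T) (zz (1 / 2 - κ1) T) u v) x T (Real.log T ^ B) : ℝ) : ℂ)‖ →
    ∃ (T' : ℝ) (g : ℝ → ℂ) (m : ℕ) (a : Fin m → ℕ → ℂ) (N : Fin m → ℝ), 1 ≤ T' ∧ T' ≤ T ^ (1 + ε) ∧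
      ((∀ x, g x = if T ^ 2 ≤ x then g0 x * ((T ^ 2 / x : ℝ) : ℂ) else 0) ∨
        (∀ x, g x = if T ^ 2 ≤ x then (starRingEnd ℂ) (g0 x) * ((T ^ 2 / x : ℝ) : ℂ) else 0)) ∧
      (∀ i, IsBlk (a i) (N i)) ∧ (∀ i, T ^ η / 2 ≤ N i ∧ N i ≤ T ^ (1 / 2 + κ)) ∧
      T ^ (2 - ε) ≤ ∏ i, N i ∧ ∏ i, N i ≤ T ^ (2 + ε) ∧
      T ^ β ≤ ∏ i ∈ Finset.univ.filter (fun i => N i ≤ T ^ (41 / 100 : ℝ)), N i ∧
      (∀ i, ∀ t ∈ Icc T' (2 * T'), ‖PB (a i) (N i) t‖ ≤ N i / Real.log T ^ A1) ∧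
      S.card * (∏ i, N i) / Real.log T ^ (A + 2) ≤ ∫ t in T'..(2 * T'), ‖GS S g t‖ * ∏ i, ‖PB (a i) (N i) t‖ := by
  obtain ⟨Cr, hCr, hRg'⟩ := hRg w hw (SS η)
  obtain ⟨B', Cs, hB', hCs, hSa'⟩ := hSa A1 η hA1 hη hη2
  obtain ⟨Cf, hCf, hF4'⟩ := hF4 w hw ε hε (by linarith)
  set M : ℝ := 2 ^ (3 + SS η) * Cr with hM
  have hP1 : (1 : ℝ) ≤ 2 ^ (3 + SS η) := one_le_pow₀ (by norm_num)
  have hM1 : 1 ≤ M := one_le_mul_of_one_le_of_one_le hP1 hCr
  refine ⟨2 * B' + A + 1, by linarith, fun B hB => ?_⟩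
  obtain ⟨C, hC3, hgrow⟩ := grow A B' B ε κ1 η Cs (max (2 * Cf * M) (Cr * Cf)) Cr hA hε hκ1 hη hB
  refine ⟨C, by linarith, ?_⟩
  intro T κ β u v S g0 hT hκ0 hκle hLg hSh hS hg0 hSne hsum
  obtain ⟨hTs, hlog1, hlB', hlB, hK2, hK3, h2κ, hlA⟩ := hgrow T hT
  have hT3 : 3 ≤ T := hC3.trans hT
  have hT0 : 0 < T := by linarith
  have hL0 : 0 < Real.log T := by linarith
  have hcard : 0 < (S.card : ℝ) := by exact_mod_cast hSne.card_pos
  set L : ℝ := Real.log T with hL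
  set y : ℕ := zz η T with hy
  set z : ℕ := zz (1 / 2 - κ1) T with hz
  have hT1 : 1 ≤ L ^ B := Real.one_le_rpow hlog1 (by linarith)
  have hLA : 0 < L ^ A := by positivity
  -- some window sum does not vanish
  obtain ⟨x0, hx0, hDD0⟩ : ∃ x ∈ S, DD w (BF y z u v) x T (L ^ B) ≠ 0 := by
    by_contra h
    push Not at h
    have h1 : ∑ x ∈ S, g0 x * ((DD w (BF y z u v) x T (L ^ B) : ℝ) : ℂ) = 0 :=
      Finset.sum_eq_zero fun x hx => by rw [h x hx, Complex.ofReal_zero, mul_zero]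
    rw [h1, norm_zero] at hsum
    have h2 : 0 < S.card * (1 / L ^ A) := by positivity
    linarith
  obtain ⟨T2, hT2, hSW2⟩ : ∃ T' : ℝ, 1 ≤ T' ∧ SW w (BF y z u v) x0 T' ≠ 0 := by
    by_contra h
    push Not at h
    exact hDD0 (by unfold DD; rw [h T (by linarith), h (L ^ B) hT1]; ring)
  obtain ⟨hPlo, hPhi⟩ := hRg' T 0 x0 T2 y z (fun _ _ => 0) u v (by linarith) hT2 (hS x0 hx0).1 (hS x0 hx0).2
    (Or.inl hSW2)
  have hne : ∀ j, ∃ n, sf y z u v j n ≠ 0 := by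
    intro j
    by_contra h
    push Not at h
    have h1 : sf y z u v j = 0 := by
      ext n
      exact h n
    apply hSW2
    have h2 : BF y z u v = 0 := by
      rw [BF_eq]
      exact Finset.prod_eq_zero (Finset.mem_univ j) h1
    rw [h2]
    simp [SW]
  have hscale : ∀ j l, op u v j = some l → T ^ η / 2 ≤ (2 : ℝ) ^ l ∧ (2 : ℝ) ^ l ≤ T ^ (1 / 2 + κ) := fun j l hj =>
    sf_scale T η κ κ1 u v hT3 hκ0 h2κ hLg j l hj (hne j)
  -- enumeration of the used slots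
  set m : ℕ := (Us u v).card with hm
  set f : Fin m → ArithmeticFunction ℝ := fun k => sf y z u v (en u v k) with hf
  set N : Fin m → ℝ := fun k => sc (op u v (en u v k)) with hN
  set Y : Fin m → ℕ := fun k => Rg_aux.Yn (op u v (en u v k)) with hY
  have hN0 : ∀ k, 0 < N k := fun k => Rg_aux.sc_pos _
  have hPSN : PS u v = ∏ k, N k := by
    rw [PS_eq]
    exact reidx u v _ fun j hj => by simp [hj, sc]
  have hBFf : BF y z u v = ∏ k, f k := by
    rw [BF_eq]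
    exact reidx u v _ fun j hj => sf_none y z u v j hj
  have hYN : ∀ k, (Y k : ℝ) = 2 * N k := fun k => Rg_aux.Yn_cast _
  obtain ⟨hPd1, hPd2, hPd3⟩ := hPd (Fin m) Finset.univ f (fun k => N k / 2) Y
    (fun k _ => by have := hN0 k; positivity) (fun k _ n hn => sf_supp y z u v (en u v k) n hn)
  have hmS : m ≤ 3 + SS η := by
    have h1 := Finset.card_le_univ (Us u v)
    rw [Fintype.card_sum, Fintype.card_fin, Fintype.card_fin] at h1
    exact h1
  -- mass of the box function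
  have hmass : ∑ n ∈ Finset.Icc 1 (∏ k, Y k), |BF y z u v n| ≤ M * T ^ 2 := by
    rw [hBFf]
    refine (hPd2 _).trans ?_
    have h1 : ∀ k, ∑ n ∈ Finset.Icc 1 (Y k), |f k n| ≤ 2 * N k := by
      intro k
      rw [← hYN k]
      calc ∑ n ∈ Finset.Icc 1 (Y k), |f k n| ≤ ∑ n ∈ Finset.Icc 1 (Y k), (1 : ℝ) :=
            Finset.sum_le_sum fun n _ => sf_bd y z u v _ n
        _ = Y k := by simp
    calc ∏ k, ∑ n ∈ Finset.Icc 1 (Y k), |f k n| ≤ ∏ k, 2 * N k :=
          Finset.prod_le_prod (fun k _ => Finset.sum_nonneg fun n _ => abs_nonneg _) fun k _ => h1 k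
      _ = 2 ^ m * ∏ k, N k := by
          rw [Finset.prod_mul_distrib, Finset.prod_const, Finset.card_univ, Fintype.card_fin]
      _ ≤ 2 ^ (3 + SS η) * (Cr * T ^ 2) := by
          rw [← hPSN]
          have hPS0 : 0 ≤ PS u v := le_trans (by positivity) hPlo
          exact mul_le_mul (pow_le_pow_right₀ (by norm_num) hmS) hPhi hPS0 (by positivity)
      _ = M * T ^ 2 := by rw [hM]; ring
  have hδ : Cf * M * ((L ^ B') ^ 2 / L ^ B + 1 / T) ≤ 1 / L ^ A := by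
    have h1 : (L ^ B') ^ 2 / L ^ B ≤ 1 / L ^ (A + 1) := by
      rw [div_le_div_iff₀ (by positivity) (by positivity), one_mul, ← Real.rpow_natCast, ← Real.rpow_mul hL0.le,
        ← Real.rpow_add hL0]
      apply Real.rpow_le_rpow_of_exponent_le hlog1
      push_cast
      linarith
    have h2 : 1 / T ≤ 1 / L ^ (A + 1) := by
      apply one_div_le_one_div_of_le (by positivity)
      have : 0 ≤ L ^ (A + 1) := by positivity
      linarith
    have h3 : L ^ (A + 1) = L ^ A * L := by rw [Real.rpow_add hL0, Real.rpow_one]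
    have h4 : 2 * Cf * M ≤ L := (le_max_left _ _).trans hK2
    calc Cf * M * ((L ^ B') ^ 2 / L ^ B + 1 / T) ≤ Cf * M * (1 / L ^ (A + 1) + 1 / L ^ (A + 1)) := by gcongr
      _ = 2 * Cf * M * (1 / L ^ (A + 1)) := by ring
      _ ≤ L * (1 / L ^ (A + 1)) := by gcongr
      _ = 1 / L ^ A := by
          rw [h3]
          field_simp
  obtain ⟨T', g, hT'0, hT'1, hg, hint⟩ := hF4' T (L ^ B') (L ^ B) M (1 / L ^ A) (∏ k, Y k) (fun n => BF y z u v n) S g0 hT3
    (Real.one_le_rpow hlog1 (by linarith)) hlB' hT1 hlB (by linarith) (by positivity)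
    (fun n hn => by
      rw [hBFf] at hn
      obtain ⟨h1, -, h2⟩ := hPd1 n hn
      exact ⟨h1, h2⟩) hmass hδ (fun x hx => (hS x hx).1) hg0 hsum
  have hT'1' : 1 ≤ T' := (Real.one_le_rpow hlog1 (by linarith)).trans hT'0
  have hPBY : ∀ (a : ℕ → ℂ) (k : Fin m) (t : ℝ), PB a (N k) t = Dp (Y k) a t := by
    intro a k t
    unfold PB
    rw [← hYN k, Nat.floor_natCast]
  have hDp : ∀ t : ℝ, ‖Dp (∏ k, Y k) (fun n => ((BF y z u v n : ℝ) : ℂ)) t‖ =
      ∏ k, ‖PB (fun n => ((f k n : ℝ) : ℂ)) (N k) t‖ := by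
    intro t
    rw [hBFf, hPd3 _ t le_rfl, norm_prod]
    exact Finset.prod_congr rfl fun k _ => by rw [hPBY]
  simp only [hDp] at hint
  refine ⟨T', g, m, fun k n => ((f k n : ℝ) : ℂ), N, hT'1', hT'1, hg, ?_, ?_, ?_, ?_, ?_, ?_, ?_⟩
  · intro k
    constructor
    · intro n
      rw [Complex.norm_real, Real.norm_eq_abs]
      exact sf_bd y z u v _ n
    · intro n hn
      have h1 : f k n ≠ 0 := by
        intro h0
        exact hn (by simp [h0])
      obtain ⟨h2, h3⟩ := sf_supp y z u v (en u v k) n h1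
      refine ⟨h2, ?_⟩
      rw [← hYN k]
      exact_mod_cast h3
  · intro k
    obtain ⟨l, hl⟩ := en_some u v k
    have h1 := hscale _ l hl
    simp only [hN, hl, sc]
    exact h1
  · rw [← hPSN]
    refine le_trans ?_ hPlo
    rw [le_div_iff₀ (by linarith)]
    calc T ^ (2 - ε) * Cr ≤ T ^ (2 - ε) * T ^ ε := by gcongr
      _ = T ^ 2 := by
        rw [← Real.rpow_add hT0, ← Real.rpow_natCast T 2]
        congr 1
        push_cast
        ring
  · rw [← hPSN]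
    refine hPhi.trans ?_
    calc Cr * T ^ 2 ≤ T ^ ε * T ^ 2 := by gcongr
      _ = T ^ (2 + ε) := by
        rw [← Real.rpow_natCast T 2, ← Real.rpow_add hT0]
        congr 1
        push_cast
        ring
  · unfold Sh at hSh
    refine hSh.trans (le_of_eq ?_)
    rw [Finset.prod_filter, Finset.prod_filter, Finset.prod_filter]
    have h1 := reidx u v (fun j => if sc (op u v j) ≤ T ^ (41 / 100 : ℝ) then sc (op u v j) else 1)
      (fun j hj => by simp [hj, sc])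
    rw [Fintype.prod_sum_type] at h1
    exact h1
  · intro k t ht
    obtain ⟨l, hl⟩ := en_some u v k
    have h1 := hscale _ l hl
    refine sf_sav y z u v t _ (en u v k) l hl (hSa' T t l z hTs h1.1 (h1.2.trans ?_) (hT'0.trans ht.1) (ht.2.trans ?_))
    · exact Real.rpow_le_rpow_of_exponent_le (by linarith) (by linarith)
    · calc 2 * T' ≤ 2 * T ^ (1 + ε) := by linarith
        _ ≤ T * T ^ (1 + ε) := by
          have : 0 ≤ T ^ (1 + ε) := by positivity
          nlinarith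
        _ = T ^ (1 + (1 + ε)) := by rw [Real.rpow_add hT0 1 (1 + ε), Real.rpow_one]
        _ ≤ T ^ (3 : ℝ) := Real.rpow_le_rpow_of_exponent_le (by linarith) (by linarith)
        _ = T ^ 3 := by
          rw [← Real.rpow_natCast]
          norm_num
  · set J : ℝ := ∫ t in T'..(2 * T'), ‖GS S g t‖ * ∏ k, ‖PB (fun n => ((f k n : ℝ) : ℂ)) (N k) t‖ with hJ
    have hJ0 : 0 ≤ J := by
      apply intervalIntegral.integral_nonneg (by linarith)
      intro t _
      positivity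
    have hLe : L ^ (A + 2) = L ^ A * L ^ 2 := by
      rw [Real.rpow_add hL0]
      congr 1
      exact Real.rpow_natCast L 2
    rw [hLe, div_le_iff₀ (by positivity), ← hPSN]
    calc (S.card : ℝ) * PS u v ≤ S.card * (Cr * T ^ 2) := by gcongr
      _ = Cr * L ^ A * (S.card * (1 / L ^ A * T ^ 2)) := by field_simp
      _ ≤ Cr * L ^ A * (Cf * L * J) := by gcongr
      _ = (Cr * Cf) * (L ^ A * L * J) := by ring
      _ ≤ L * (L ^ A * L * J) := by
          gcongr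
          exact (le_max_right _ _).trans hK2
      _ = J * (L ^ A * L ^ 2) := by ring

end Pool.Agent.Work.MP_a8fbd7_nt.OX.ASM
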