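import Mathlib
import Pool.Agent.Work.MP_a8fbd7_nt.OX.ASM.Stmts
import Pool.Agent.Work.MP_a8fbd7_nt.OX.ASM.BV

/-!
MP_a8fbd7_nt, block OX, part ASM, item In: the inner sum.  Author: helper20.
-/

set_option autoImplicit false

open MeasureTheory Set Filter Topology

noncomputable section

namespace Pool.Agent.Work.MP_a8fbd7_nt.OX.ASM

open Pool.Agent.Work.MP_56b8f5_nt.UC (IsWt Bl Dp Om psi eta Sep psi_supp eta_nonneg eta_le_one)
open Pool.Agent.Work.MP_a8fbd7_nt.OX.ID (Rough roughOne pb rg)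

namespace In_aux

open Ma_aux

/-- the interval `a ≤ (r c)^T1 ≤ b` is short -/
lemma short {a b s : ℝ} (ha : 0 < a) (hab : a ≤ b) (hs0 : 0 ≤ s) (hs1 : s ≤ 1) :
    b ^ s - a ^ s ≤ max 1 a * ((b - a) / a) * s := by
  have h1 : b ^ s = a ^ s * (1 + (b - a) / a) ^ s := by
    rw [← Real.mul_rpow ha.le (by positivity)]
    congr 1
    field_simp
    ring
  have h2 : (1 + (b - a) / a) ^ s ≤ 1 + s * ((b - a) / a) :=
    rpow_one_add_le_one_add_mul_self (by linarith [div_nonneg (sub_nonneg.2 hab) ha.le]) hs0 hs1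
  have h3 : a ^ s ≤ max 1 a := by
    rcases le_total a 1 with h | h
    · exact (Real.rpow_le_one ha.le h hs0).trans (le_max_left _ _)
    · exact (by
        calc a ^ s ≤ a ^ (1 : ℝ) := Real.rpow_le_rpow_of_exponent_le h hs1
          _ = a := Real.rpow_one a
          _ ≤ max 1 a := le_max_right _ _)
  have h4 : 0 ≤ (b - a) / a * s := mul_nonneg (div_nonneg (sub_nonneg.2 hab) ha.le) hs0
  have h5 : 0 < a ^ s := Real.rpow_pos_of_pos ha s
  rw [h1]
  calc a ^ s * (1 + (b - a) / a) ^ s - a ^ s ≤ a ^ s * (1 + s * ((b - a) / a)) - a ^ s := by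
        have := mul_le_mul_of_nonneg_left h2 h5.le
        linarith
    _ = a ^ s * ((b - a) / a * s) := by ring
    _ ≤ max 1 a * ((b - a) / a * s) := mul_le_mul_of_nonneg_right h3 h4
    _ = max 1 a * ((b - a) / a) * s := by ring

end In_aux

open Ma_aux In_aux in
theorem iIn : StIn := by
  intro w hw hw0
  obtain ⟨V, hV, hVb⟩ := bv_wt hw
  obtain ⟨a, b, ha, hab, hs⟩ := hw.supp
  have hV0 : 0 ≤ V := hV.nonneg
  have hba : 0 ≤ (b - a) / a := div_nonneg (by linarith) ha.le
  set K : ℝ := max 1 a * ((b - a) / a) with hK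
  have hK0 : 0 ≤ K := mul_nonneg (by positivity) hba
  refine ⟨1 + V * K + 4 * V, by nlinarith [mul_nonneg hV0 hK0], ?_⟩
  intro y l P D C0 E x T1 lp lm hy hS hD hE hP hx hT1
  have hly : 0 < Real.log (y : ℝ) := Real.log_pos (by exact_mod_cast (by omega : 1 < y))
  have hN : (0 : ℝ) < 2 ^ l := by positivity
  have hP1 : (1 : ℝ) ≤ P := by exact_mod_cast hP
  have hP0 : (0 : ℝ) < P := by linarith
  have hx0 : (0 : ℝ) < x := by linarith
  have hT0 : (0 : ℝ) < T1 := by linarith
  set F : ℝ → ℝ := fun r => psi (r / 2 ^ l) * w ((r * P / x) ^ T1) with hF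
  have hbv : BV (2 * (1 * V)) F := by
    have h1 := bv_psi.comp (h := fun r => r / 2 ^ l) (fun x _ y _ hxy => div_le_div_of_nonneg_right hxy hN.le)
      (fun x hx => div_nonneg hx hN.le)
    have h2 := hV.comp (h := fun r => (r * P / x) ^ T1)
      (fun u hu v hv huv => Real.rpow_le_rpow (div_nonneg (mul_nonneg hu hP0.le) hx0.le)
        (div_le_div_of_nonneg_right (mul_le_mul_of_nonneg_right huv hP0.le) hx0.le) hT0.le)
      (fun u hu => Real.rpow_nonneg (div_nonneg (mul_nonneg hu hP0.le) hx0.le) _)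
    exact h1.mul h2
  have h0 : ∀ r : ℝ, ((2 * 2 ^ l : ℕ) : ℝ) ≤ r → F r = 0 := by
    intro r hr
    push_cast at hr
    have : psi (r / 2 ^ l) = 0 := by
      apply psi_big
      rw [le_div_iff₀ hN]
      exact hr
    simp only [hF]
    rw [this, zero_mul]
  have hl : ∀ d, (fun d => lp d - lm d) d ≠ 0 → 1 ≤ d ∧ (d : ℝ) ≤ D := by
    intro d hd
    by_cases h : lp d = 0
    · apply hS.supm
      intro h'
      apply hd
      simp only
      rw [h, h', sub_zero]
    · exact hS.supp d h
  have hb2 : ∀ d, |(fun d => lp d - lm d) d| ≤ 2 := by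
    intro d
    have h1 := hS.bdp d
    have h2 := hS.bdm d
    calc |lp d - lm d| ≤ |lp d| + |lm d| := abs_sub _ _
      _ ≤ 2 := by linarith
  have h1 := theta_sum hbv (2 * 2 ^ l) h0 (fun d => lp d - lm d) D (by linarith) hl hb2
  have hJ0 : 0 ≤ ∫ r in (0 : ℝ)..((2 * 2 ^ l : ℕ) : ℝ), F r :=
    intervalIntegral.integral_nonneg (Nat.cast_nonneg _) (fun r _ => mul_nonneg (psi_nn _) (hw0 _))
  have hJ1 : ∫ r in (0 : ℝ)..((2 * 2 ^ l : ℕ) : ℝ), F r ≤ V * K * (x / (P * T1)) := by
    set al : ℝ := x / P * a ^ (1 / T1) with hal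
    set be : ℝ := x / P * b ^ (1 / T1) with hbe
    have hab' : a ^ (1 / T1) ≤ b ^ (1 / T1) := Real.rpow_le_rpow ha.le hab.le (by positivity)
    have hxP : 0 < x / P := by positivity
    have halbe : al ≤ be := mul_le_mul_of_nonneg_left hab' hxP.le
    have hle : ∀ r ∈ Ioc (0 : ℝ) ((2 * 2 ^ l : ℕ) : ℝ), F r ≤ (Icc al be).indicator (fun _ => V) r := by
      intro r hr
      have hr0 : 0 < r := hr.1
      have hb0 : 0 < r * P / x := by positivity
      by_cases hwr : w ((r * P / x) ^ T1) = 0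
      · simp only [hF]
        rw [hwr, mul_zero]
        exact indicator_nonneg (fun _ _ => hV0) r
      · obtain ⟨c1, c2⟩ := hs _ hwr
        have hmem : r ∈ Icc al be := by
          have e1 : ((r * P / x) ^ T1) ^ (1 / T1) = r * P / x := by
            rw [← Real.rpow_mul hb0.le, mul_one_div_cancel hT0.ne', Real.rpow_one]
          constructor
          · have := Real.rpow_le_rpow ha.le c1 (by positivity : 0 ≤ 1 / T1)
            rw [e1, le_div_iff₀ hx0] at this
            rw [hal, div_mul_eq_mul_div, div_le_iff₀ hP0]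
            linarith
          · have := Real.rpow_le_rpow (by positivity) c2 (by positivity : 0 ≤ 1 / T1)
            rw [e1, div_le_iff₀ hx0] at this
            rw [hbe, div_mul_eq_mul_div, le_div_iff₀ hP0]
            linarith
        rw [indicator_of_mem hmem]
        simp only [hF]
        have h3 : w ((r * P / x) ^ T1) ≤ V := (le_abs_self _).trans (hVb _ (by positivity))
        calc psi (r / 2 ^ l) * w ((r * P / x) ^ T1) ≤ 1 * V :=
              mul_le_mul (psi_le_one _) h3 (hw0 _) (by norm_num)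
          _ = V := one_mul V
    have hind : Integrable ((Icc al be).indicator (fun _ : ℝ => V)) :=
      (integrable_indicator_iff measurableSet_Icc).2 (integrableOn_const (by
        rw [Real.volume_Icc]
        exact ENNReal.ofReal_ne_top))
    rw [intervalIntegral.integral_of_le (Nat.cast_nonneg _)]
    have hFi : IntegrableOn F (Ioc 0 ((2 * 2 ^ l : ℕ) : ℝ)) :=
      (hbv.integrable le_rfl (Nat.cast_nonneg _)).1
    calc ∫ r in Ioc 0 ((2 * 2 ^ l : ℕ) : ℝ), F r
        ≤ ∫ r in Ioc 0 ((2 * 2 ^ l : ℕ) : ℝ), (Icc al be).indicator (fun _ => V) r :=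
          setIntegral_mono_on hFi hind.integrableOn measurableSet_Ioc hle
      _ ≤ ∫ r, (Icc al be).indicator (fun _ => V) r :=
          setIntegral_le_integral hind (Eventually.of_forall (fun r => indicator_nonneg (fun _ _ => hV0) r))
      _ = (be - al) * V := by
          rw [integral_indicator measurableSet_Icc, setIntegral_const, smul_eq_mul]
          congr 1
          rw [Measure.real, Real.volume_Icc, ENNReal.toReal_ofReal (by linarith)]
      _ ≤ (x / P * (K * (1 / T1))) * V := by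
          apply mul_le_mul_of_nonneg_right _ hV0
          have h5 := short ha hab.le (by positivity : 0 ≤ 1 / T1) (by
            rw [div_le_one hT0]
            exact hT1)
          calc be - al = x / P * (b ^ (1 / T1) - a ^ (1 / T1)) := by rw [hal, hbe]; ring
            _ ≤ x / P * (K * (1 / T1)) := mul_le_mul_of_nonneg_left h5 hxP.le
      _ = V * K * (x / (P * T1)) := by
          field_simp
  set J := ∫ r in (0 : ℝ)..((2 * 2 ^ l : ℕ) : ℝ), F r
  have hEl : 0 ≤ E / Real.log y := by positivity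
  have hsum : J * ∑ d ∈ Finset.Icc 1 ⌊D⌋₊, (fun d => lp d - lm d) d / (d : ℝ) ≤
      V * K * (x / (P * T1)) * (E / Real.log y) := by
    calc J * ∑ d ∈ Finset.Icc 1 ⌊D⌋₊, (fun d => lp d - lm d) d / (d : ℝ) ≤ J * (E / Real.log y) :=
          mul_le_mul_of_nonneg_left hS.dif hJ0
      _ ≤ V * K * (x / (P * T1)) * (E / Real.log y) := mul_le_mul_of_nonneg_right hJ1 hEl
  have e1 : ∑ m ∈ Finset.Icc 1 (2 * 2 ^ l), tb (fun d => lp d - lm d) l m * w (((m : ℝ) * P / x) ^ T1) =
      ∑ n ∈ Finset.Icc (1 : ℕ) (2 * 2 ^ l), F (n : ℝ) * th (fun d => lp d - lm d) n := by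
    apply Finset.sum_congr rfl
    intro m _
    have e : tb (fun d => lp d - lm d) l m = psi ((m : ℝ) / 2 ^ l) * th (fun d => lp d - lm d) m := rfl
    rw [e]
    simp only [hF]
    ring
  rw [e1]
  have h6 := (abs_le.1 h1).2
  have hxPT : 0 ≤ x / (P * T1) := by positivity
  have h7 : 0 ≤ (1 + 4 * V) * ((E / Real.log y) * (x / (P * T1))) := by positivity
  have h8 : 0 ≤ (1 + V * K) * D := by positivity
  have h9 : (1 + V * K + 4 * V) * (E / Real.log y) * (x / (P * T1)) =
      V * K * (x / (P * T1)) * (E / Real.log y) + (1 + 4 * V) * ((E / Real.log y) * (x / (P * T1))) := by ring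
  have h10 : (1 + V * K + 4 * V) * D = (1 + V * K) * D + 2 * (2 * (1 * V)) * D := by ring
  rw [h9, h10]
  linarith

end Pool.Agent.Work.MP_a8fbd7_nt.OX.ASM
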